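import Pool.Agent.LibSR53.Defs

/-
PLAN (C2). annulus_volume: volume of closedBall z (rho+w) minus ball z (rho-w) (if rho >= w): c_d((rho+w)^d - (rho-w)^d) <= c_d d (rho+w)^(d-1) 2w
(a^d - b^d <= d a^(d-1) (a-b) for 0 <= b <= a); if rho < w: closedBall has volume c_d (rho+w)^d <= c_d (rho+w)^(d-1) 2w. EuclideanSpace volume:
Measure.addHaar_closedBall / addHaar_ball.
count_shell: maximal 2^k-separated subset T' of T: #T <= #T' u 2^k (Dens with i = k). For a /= b in T': |a.2-b.2| < 2^k (both radii in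
[2^k,2^(k+1))), hence dist a.1 b.1 >= 2^k; the balls B(a.1, 2^k/2) are disjoint and lie in the annulus |.-q.1| - q.2 of half width
2^(k+j) + 2^k/2 <= 2^(k+j+1): #T' c (2^k/2)^d <= C (2^(l+1)+2^(k+j+1))^(d-1) 2^(k+j+1), and 2^(l+1)+2^(k+j+1) <= 2^(l+j+2) since k <= l.
-/

set_option autoImplicit false

noncomputable section

open MeasureTheory Metric Set Filter

namespace Pool.LibSR53

theorem pow_sub_pow_le_C2 (n : ℕ) {a b : ℝ} (hb : 0 ≤ b) (hab : b ≤ a) :
    a ^ (n + 1) - b ^ (n + 1) ≤ (n + 1) * a ^ n * (a - b) := by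
  induction n with
  | zero => simp
  | succ n ih =>
    have ha : 0 ≤ a := hb.trans hab
    have h1 : b ^ (n + 1) ≤ a ^ (n + 1) := pow_le_pow_left₀ hb hab _
    have h2 : a ^ (n + 1 + 1) - b ^ (n + 1 + 1) =
        a * (a ^ (n + 1) - b ^ (n + 1)) + b ^ (n + 1) * (a - b) := by ring
    have h3 : a * (a ^ (n + 1) - b ^ (n + 1)) ≤ a * ((n + 1) * a ^ n * (a - b)) :=
      mul_le_mul_of_nonneg_left ih ha
    have h4 : b ^ (n + 1) * (a - b) ≤ a ^ (n + 1) * (a - b) :=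
      mul_le_mul_of_nonneg_right h1 (sub_nonneg.2 hab)
    rw [h2]
    calc _ ≤ a * ((n + 1) * a ^ n * (a - b)) + a ^ (n + 1) * (a - b) := add_le_add h3 h4
      _ = _ := by push_cast; ring

/-- the volume of the unit ball -/
def c0_C2 (d : ℕ) : ℝ := (volume (ball (0 : E d) 1)).toReal

theorem c0_pos_C2 (d : ℕ) : 0 < c0_C2 d :=
  ENNReal.toReal_pos (measure_ball_pos _ _ one_pos).ne' measure_ball_lt_top.ne

theorem vol_ball_C2 (d : ℕ) (x : E d) {r : ℝ} (hr : 0 ≤ r) (hd : 1 ≤ d) :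
    volume (ball x r) = ENNReal.ofReal (r ^ d * c0_C2 d) := by
  have : Nonempty (Fin d) := ⟨⟨0, hd⟩⟩
  rw [Measure.addHaar_ball volume x hr, finrank_euclideanSpace_fin,
    ENNReal.ofReal_mul (pow_nonneg hr _), c0_C2, ENNReal.ofReal_toReal measure_ball_lt_top.ne]

theorem vol_cball_C2 (d : ℕ) (x : E d) {r : ℝ} (hr : 0 ≤ r) :
    volume (closedBall x r) = ENNReal.ofReal (r ^ d * c0_C2 d) := by
  rw [Measure.addHaar_closedBall volume x hr, finrank_euclideanSpace_fin,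
    ENNReal.ofReal_mul (pow_nonneg hr _), c0_C2, ENNReal.ofReal_toReal measure_ball_lt_top.ne]

/-- volume of an annulus -/
theorem annulus_volume (d : ℕ) (hd : 1 ≤ d) : ∃ C : ℝ, 0 < C ∧
    ∀ (z : E d) (ρ w : ℝ), 0 ≤ ρ → 0 < w →
      volume {x : E d | |‖x - z‖ - ρ| ≤ w} ≤ ENNReal.ofReal (C * (ρ + w) ^ (d - 1) * w) := by
  obtain ⟨n, rfl⟩ : ∃ n, d = n + 1 := ⟨d - 1, by omega⟩
  have hc := c0_pos_C2 (n + 1)
  refine ⟨2 * (n + 1) * c0_C2 (n + 1), by positivity, ?_⟩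
  intro z ρ w hρ hw
  rw [Nat.add_sub_cancel]
  rcases le_or_gt w ρ with h | h
  · have h1 : {x : E (n + 1) | |‖x - z‖ - ρ| ≤ w} ⊆ closedBall z (ρ + w) \ ball z (ρ - w) := by
      intro x hx
      have hx' : |‖x - z‖ - ρ| ≤ w := hx
      rw [abs_le] at hx'
      refine ⟨?_, ?_⟩
      · rw [mem_closedBall, dist_eq_norm]
        linarith [hx'.2]
      · rw [mem_ball, dist_eq_norm, not_lt]
        linarith [hx'.1]
    have h2 : ball z (ρ - w) ⊆ closedBall z (ρ + w) :=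
      ball_subset_closedBall.trans (closedBall_subset_closedBall (by linarith))
    calc volume {x : E (n + 1) | |‖x - z‖ - ρ| ≤ w}
        ≤ volume (closedBall z (ρ + w) \ ball z (ρ - w)) := measure_mono h1
      _ = volume (closedBall z (ρ + w)) - volume (ball z (ρ - w)) :=
          measure_sdiff h2 measurableSet_ball.nullMeasurableSet measure_ball_lt_top.ne
      _ = ENNReal.ofReal ((ρ + w) ^ (n + 1) * c0_C2 (n + 1) -
            (ρ - w) ^ (n + 1) * c0_C2 (n + 1)) := by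
          rw [vol_cball_C2 _ z (by linarith), vol_ball_C2 _ z (by linarith) hd,
            ENNReal.ofReal_sub _ (mul_nonneg (pow_nonneg (by linarith) _) hc.le)]
      _ ≤ ENNReal.ofReal (2 * (n + 1) * c0_C2 (n + 1) * (ρ + w) ^ n * w) := by
          apply ENNReal.ofReal_le_ofReal
          have h3 := pow_sub_pow_le_C2 n (a := ρ + w) (b := ρ - w) (by linarith) (by linarith)
          have h4 : (ρ + w) - (ρ - w) = 2 * w := by ring
          rw [h4] at h3
          calc (ρ + w) ^ (n + 1) * c0_C2 (n + 1) - (ρ - w) ^ (n + 1) * c0_C2 (n + 1)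
              = ((ρ + w) ^ (n + 1) - (ρ - w) ^ (n + 1)) * c0_C2 (n + 1) := by ring
            _ ≤ ((n + 1) * (ρ + w) ^ n * (2 * w)) * c0_C2 (n + 1) :=
                mul_le_mul_of_nonneg_right h3 hc.le
            _ = _ := by ring
  · have h1 : {x : E (n + 1) | |‖x - z‖ - ρ| ≤ w} ⊆ closedBall z (ρ + w) := by
      intro x hx
      have hx' : |‖x - z‖ - ρ| ≤ w := hx
      rw [abs_le] at hx'
      rw [mem_closedBall, dist_eq_norm]
      linarith [hx'.2]
    calc volume {x : E (n + 1) | |‖x - z‖ - ρ| ≤ w}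
        ≤ volume (closedBall z (ρ + w)) := measure_mono h1
      _ = ENNReal.ofReal ((ρ + w) ^ (n + 1) * c0_C2 (n + 1)) :=
          vol_cball_C2 _ z (by linarith)
      _ ≤ ENNReal.ofReal (2 * (n + 1) * c0_C2 (n + 1) * (ρ + w) ^ n * w) := by
          apply ENNReal.ofReal_le_ofReal
          have h3 : (ρ + w) ^ (n + 1) ≤ (ρ + w) ^ n * (2 * w) := by
            rw [pow_succ]
            exact mul_le_mul_of_nonneg_left (by linarith) (pow_nonneg (by linarith) _)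
          have h5 : 0 ≤ (ρ + w) ^ n * (2 * w) :=
            mul_nonneg (pow_nonneg (by linarith) _) (by linarith)
          have h4 : (ρ + w) ^ n * (2 * w) ≤ (n + 1) * ((ρ + w) ^ n * (2 * w)) := by
            have : (1 : ℝ) ≤ n + 1 := by
              have := Nat.cast_nonneg (α := ℝ) n
              linarith
            nlinarith
          calc (ρ + w) ^ (n + 1) * c0_C2 (n + 1)
              ≤ ((n + 1) * ((ρ + w) ^ n * (2 * w))) * c0_C2 (n + 1) :=
                mul_le_mul_of_nonneg_right (h3.trans h4) hc.le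
            _ = _ := by ring

theorem exists_sep_C2 {X : Type} [MetricSpace X] (T : Finset X) {h : ℝ} (hh : 0 < h) :
    ∃ T' : Finset X, T' ⊆ T ∧ (∀ a ∈ T', ∀ b ∈ T', a ≠ b → h ≤ dist a b) ∧
      ∀ t ∈ T, ∃ a ∈ T', dist t a < h := by
  classical
  obtain ⟨T', hT', hmax⟩ := (T.powerset.filter fun U =>
    ∀ a ∈ U, ∀ b ∈ U, a ≠ b → h ≤ dist a b).exists_max_image Finset.card
    ⟨∅, by simp⟩
  rw [Finset.mem_filter, Finset.mem_powerset] at hT'
  refine ⟨T', hT'.1, hT'.2, ?_⟩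
  intro t ht
  by_contra hcon
  push Not at hcon
  have htT' : t ∉ T' := fun h1 => absurd (hcon t h1) (by rw [dist_self]; exact not_le.2 hh)
  have h1 : insert t T' ∈ T.powerset.filter fun U =>
      ∀ a ∈ U, ∀ b ∈ U, a ≠ b → h ≤ dist a b := by
    rw [Finset.mem_filter, Finset.mem_powerset]
    refine ⟨Finset.insert_subset ht hT'.1, ?_⟩
    intro a ha b hb hab
    rw [Finset.mem_insert] at ha hb
    rcases ha with rfl | ha <;> rcases hb with rfl | hb
    · exact absurd rfl hab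
    · exact hcon b hb
    · rw [dist_comm]; exact hcon a ha
    · exact hT'.2 a ha b hb hab
  have h2 := hmax _ h1
  rw [Finset.card_insert_of_notMem htT'] at h2
  omega

/-- number of points of one scale whose centre lies in an annulus -/
theorem count_shell (d : ℕ) (hd : 1 ≤ d) : ∃ C : ℝ, 0 < C ∧
    ∀ (k l j : ℕ) (u : ℝ) (S : Finset (P d)), k ≤ l → 0 ≤ u → Dens u S →
    ∀ q : P d, 0 ≤ q.2 → q.2 ≤ 2 ^ (l + 1) → ∀ T : Finset (P d), T ⊆ sc k S →
    (∀ p ∈ T, |‖p.1 - q.1‖ - q.2| ≤ 2 ^ (k + j)) →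
    (T.card : ℝ) ≤ C * u * 2 ^ k * 2 ^ (j * d) * 2 ^ (l * (d - 1)) / 2 ^ (k * (d - 1)) := by
  obtain ⟨C, hC, hann⟩ := annulus_volume d hd
  have hc := c0_pos_C2 d
  refine ⟨C / c0_C2 d * 2 ^ (3 * (d - 1) + 2), by positivity, ?_⟩
  intro k l j u S hkl hu hdens q hq0 hq T hT hTq
  classical
  obtain ⟨T', hT'T, hsep, hcov⟩ := exists_sep_C2 T (h := (2 : ℝ) ^ k) (by positivity)
  have hsc : ∀ p ∈ T, (2 : ℝ) ^ k ≤ p.2 ∧ p.2 < 2 ^ (k + 1) := by
    intro p hp
    have h1 := hT hp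
    unfold sc at h1
    rw [Finset.mem_filter] at h1
    exact h1.2
  -- covering
  have h1 : (T.card : ℝ) ≤ T'.card * (u * 2 ^ k) := by
    have h2 : T ⊆ T'.biUnion fun a => nb (sc k S) a ((2 : ℝ) ^ k) := by
      intro t ht
      obtain ⟨a, ha, hta⟩ := hcov t ht
      rw [Finset.mem_biUnion]
      refine ⟨a, ha, ?_⟩
      unfold nb
      rw [Finset.mem_filter]
      exact ⟨hT ht, hta.le⟩
    have h3 : (T.card : ℝ) ≤ ∑ a ∈ T', ((nb (sc k S) a ((2 : ℝ) ^ k)).card : ℝ) := by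
      have h4 := (Finset.card_le_card h2).trans Finset.card_biUnion_le
      exact_mod_cast h4
    refine h3.trans ?_
    rw [← nsmul_eq_mul]
    apply Finset.sum_le_card_nsmul
    intro a ha
    exact hdens k a (hT (hT'T ha)) k le_rfl
  -- packing
  have hdist : ∀ a ∈ T', ∀ b ∈ T', a ≠ b → (2 : ℝ) ^ k ≤ dist a.1 b.1 := by
    intro a ha b hb hab
    have h2 := hsep a ha b hb hab
    rw [Prod.dist_eq, le_max_iff] at h2
    rcases h2 with h2 | h2
    · exact h2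
    · exfalso
      have h3 := hsc a (hT'T ha)
      have h4 := hsc b (hT'T hb)
      rw [Real.dist_eq] at h2
      have h5 : |a.2 - b.2| < 2 ^ k := by
        rw [abs_lt]
        rw [pow_succ] at h3 h4
        constructor <;> linarith [h3.1, h3.2, h4.1, h4.2]
      linarith
  have hr : (0 : ℝ) ≤ 2 ^ k / 2 := by positivity
  have h2 : (T'.card : ℝ) * ((2 ^ k / 2) ^ d * c0_C2 d) ≤
      C * (q.2 + 2 ^ (k + j + 1)) ^ (d - 1) * 2 ^ (k + j + 1) := by
    have h3 : volume (⋃ a ∈ T', ball a.1 ((2 : ℝ) ^ k / 2)) =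
        ∑ a ∈ T', volume (ball a.1 ((2 : ℝ) ^ k / 2)) := by
      apply measure_biUnion_finset
      · intro a ha b hb hab
        apply ball_disjoint_ball
        rw [add_halves]
        exact hdist a ha b hb hab
      · intro a _
        exact measurableSet_ball
    have h4 : (⋃ a ∈ T', ball a.1 ((2 : ℝ) ^ k / 2)) ⊆
        {x : E d | |‖x - q.1‖ - q.2| ≤ 2 ^ (k + j + 1)} := by
      intro x hx
      rw [mem_iUnion₂] at hx
      obtain ⟨a, ha, hxa⟩ := hx
      rw [mem_ball, dist_eq_norm] at hxa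
      have h5 := hTq a (hT'T ha)
      have h6 : |‖x - q.1‖ - ‖a.1 - q.1‖| ≤ ‖x - a.1‖ := by
        have := abs_norm_sub_norm_le (x - q.1) (a.1 - q.1)
        rwa [sub_sub_sub_cancel_right] at this
      have h7 : (2 : ℝ) ^ k / 2 ≤ 2 ^ (k + j) := by
        have : (2 : ℝ) ^ k ≤ 2 ^ (k + j) := pow_le_pow_right₀ (by norm_num) (by omega)
        have h8 : (0 : ℝ) < 2 ^ k := by positivity
        linarith
      show |‖x - q.1‖ - q.2| ≤ 2 ^ (k + j + 1)
      calc |‖x - q.1‖ - q.2| = |(‖x - q.1‖ - ‖a.1 - q.1‖) + (‖a.1 - q.1‖ - q.2)| := by ring_nf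
        _ ≤ |‖x - q.1‖ - ‖a.1 - q.1‖| + |‖a.1 - q.1‖ - q.2| := abs_add_le _ _
        _ ≤ 2 ^ (k + j) + 2 ^ (k + j) := by linarith
        _ = 2 ^ (k + j + 1) := by ring
    have h5 := (measure_mono h4).trans (hann q.1 q.2 (2 ^ (k + j + 1)) hq0 (by positivity))
    rw [h3] at h5
    have h6 : ∀ a ∈ T', volume (ball a.1 ((2 : ℝ) ^ k / 2)) =
        ENNReal.ofReal ((2 ^ k / 2) ^ d * c0_C2 d) := fun a _ => vol_ball_C2 d a.1 hr hd
    rw [Finset.sum_congr rfl h6, Finset.sum_const, ← ENNReal.ofReal_nsmul,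
      ENNReal.ofReal_le_ofReal_iff (by positivity), nsmul_eq_mul] at h5
    exact h5
  have h3 : q.2 + 2 ^ (k + j + 1) ≤ 2 ^ (l + j + 2) := by
    have h4 : (2 : ℝ) ^ (l + 1) ≤ 2 ^ (l + j + 1) := pow_le_pow_right₀ (by norm_num) (by omega)
    have h5 : (2 : ℝ) ^ (k + j + 1) ≤ 2 ^ (l + j + 1) :=
      pow_le_pow_right₀ (by norm_num) (by omega)
    have h6 : (2 : ℝ) ^ (l + j + 2) = 2 ^ (l + j + 1) + 2 ^ (l + j + 1) := by ring
    linarith
  have h4 : (T'.card : ℝ) * ((2 ^ k / 2) ^ d * c0_C2 d) ≤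
      C * (2 ^ (l + j + 2)) ^ (d - 1) * 2 ^ (k + j + 1) := by
    refine h2.trans ?_
    apply mul_le_mul_of_nonneg_right _ (by positivity)
    apply mul_le_mul_of_nonneg_left _ hC.le
    exact pow_le_pow_left₀ (by positivity) h3 _
  obtain ⟨n, rfl⟩ : ∃ n, d = n + 1 := ⟨d - 1, by omega⟩
  rw [Nat.add_sub_cancel] at h4 ⊢
  have h5 : (T'.card : ℝ) ≤ C / c0_C2 (n + 1) * 2 ^ (3 * n + 2) * 2 ^ (j * (n + 1)) *
      2 ^ (l * n) / 2 ^ (k * n) := by
    have h6 : (0 : ℝ) < (2 ^ k / 2) ^ (n + 1) * c0_C2 (n + 1) := by positivity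
    rw [← le_div_iff₀ h6] at h4
    refine h4.trans (le_of_eq ?_)
    have e1 : ((2 : ℝ) ^ k / 2) ^ (n + 1) = 2 ^ (k * n) * 2 ^ k / (2 ^ n * 2) := by
      rw [div_pow, ← pow_mul, mul_add, mul_one, pow_add, pow_succ]
    have e2 : ((2 : ℝ) ^ (l + j + 2)) ^ n = 2 ^ (l * n) * 2 ^ (j * n) * 2 ^ (2 * n) := by
      rw [← pow_mul, ← pow_add, ← pow_add]
      congr 1
      ring
    have e3 : (2 : ℝ) ^ (k + j + 1) = 2 ^ k * 2 ^ j * 2 := by
      rw [pow_succ, pow_add]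
    have e4 : (2 : ℝ) ^ (j * (n + 1)) = 2 ^ (j * n) * 2 ^ j := by
      rw [mul_add, mul_one, pow_add]
    have e5 : (2 : ℝ) ^ (3 * n + 2) = 2 ^ (2 * n) * 2 ^ n * 4 := by
      rw [← pow_add, pow_add, show 2 * n + n = 3 * n by ring]
      norm_num
    rw [e1, e2, e3, e4, e5]
    field_simp
    ring
  calc (T.card : ℝ) ≤ T'.card * (u * 2 ^ k) := h1
    _ ≤ (C / c0_C2 (n + 1) * 2 ^ (3 * n + 2) * 2 ^ (j * (n + 1)) *
        2 ^ (l * n) / 2 ^ (k * n)) * (u * 2 ^ k) :=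
        mul_le_mul_of_nonneg_right h5 (by positivity)
    _ = _ := by ring

end Pool.LibSR53
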