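import Pool.Agent.LibSR53.Defs

/-
PLAN (C1). packing: the sets B(a, h/2) (closed or open balls of the sup metric of E d x R, i.e. ball x interval), a in T, are disjoint and
contained in ball p (3R/2) resp. (2R). Volume of such a ball of radius s is c_d s^(d+1) (volume.prod; EuclideanSpace volume ball =
addHaar_ball, or use Measure.addHaar_ball on the product space directly: P d is a finite-dimensional normed space of dimension d+1 and
volume on it is Haar). So #T (h/2)^(d+1) <= (2R)^(d+1), C = 4^(d+1).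
count_ball: let T be a maximal 2^k-separated subset of nb (sc k S) p (2^(k+j)) (exists by finiteness: Finset.exists_maximal or strong induction);
packing with h = 2^k, R = 2^(k+j): #T <= C 2^(j(d+1)); every point of nb is within 2^k of a point of T and Dens (i = k) bounds each nb by u 2^k.
-/

set_option autoImplicit false

noncomputable section

open MeasureTheory Metric Set Filter

namespace Pool.LibSR53

private lemma c1_finrank (d : ℕ) : Module.finrank ℝ (P d) = d + 1 := by
  rw [Module.finrank_prod, finrank_euclideanSpace_fin, Module.finrank_self]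

private lemma c1_haar (d : ℕ) : (volume : Measure (P d)).IsAddHaarMeasure := by
  rw [Measure.volume_eq_prod]
  infer_instance

private lemma c1_mem_nb {d : ℕ} {S : Finset (P d)} {p q : P d} {h : ℝ} :
    q ∈ nb S p h ↔ q ∈ S ∧ dist q p ≤ h := by
  unfold nb
  rw [Finset.mem_filter]

/-- packing bound in the product of Euclidean space with the line -/
theorem packing (d : ℕ) : ∃ C : ℝ, 0 < C ∧ ∀ h R : ℝ, 0 < h → h ≤ R →
    ∀ (p : P d) (T : Finset (P d)), (∀ a ∈ T, ∀ b ∈ T, a ≠ b → h ≤ dist a b) →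
    (∀ a ∈ T, dist a p ≤ R) → (T.card : ℝ) ≤ C * (R / h) ^ (d + 1) := by
  refine ⟨4 ^ (d + 1), by positivity, fun h R hh hR p T hT hp => ?_⟩
  have hR0 : 0 < R := lt_of_lt_of_le hh hR
  have := c1_haar d
  set v : ENNReal := volume (ball (0 : P d) 1) with hv
  have hv0 : v ≠ 0 := (measure_ball_pos volume _ one_pos).ne'
  have hvt : v ≠ ⊤ := measure_ball_lt_top.ne
  have hdisj : (T : Set (P d)).PairwiseDisjoint fun a => ball a (h / 2) := by
    intro a ha b hb hab
    refine ball_disjoint_ball ?_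
    have := hT a ha b hb hab
    linarith
  have hsub : (⋃ a ∈ T, ball a (h / 2)) ⊆ ball p (2 * R) := by
    intro x hx
    simp only [mem_iUnion] at hx
    obtain ⟨a, ha, hxa⟩ := hx
    rw [mem_ball] at hxa ⊢
    have h1 := hp a ha
    have h2 := dist_triangle x a p
    linarith
  have h1 : (T.card : ENNReal) * (ENNReal.ofReal ((h / 2) ^ (d + 1)) * v) ≤
      ENNReal.ofReal ((2 * R) ^ (d + 1)) * v := by
    have h2 := measure_mono (μ := volume) hsub
    rw [measure_biUnion_finset hdisj fun a _ => measurableSet_ball,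
      Measure.addHaar_ball volume p (by linarith : (0 : ℝ) ≤ 2 * R), c1_finrank] at h2
    have h3 : ∑ a ∈ T, volume (ball a (h / 2)) =
        (T.card : ENNReal) * (ENNReal.ofReal ((h / 2) ^ (d + 1)) * v) := by
      rw [Finset.sum_congr rfl fun a _ => by
        rw [Measure.addHaar_ball volume a (by linarith : (0 : ℝ) ≤ h / 2), c1_finrank]]
      rw [Finset.sum_const, nsmul_eq_mul]
    rw [h3] at h2
    exact h2
  rw [← mul_assoc, ENNReal.mul_le_mul_iff_left hv0 hvt] at h1
  have h4 : (T.card : ℝ) * (h / 2) ^ (d + 1) ≤ (2 * R) ^ (d + 1) := by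
    have h5 : (T.card : ENNReal) = ENNReal.ofReal (T.card : ℝ) := by
      rw [ENNReal.ofReal_natCast]
    rw [h5, ← ENNReal.ofReal_mul (Nat.cast_nonneg _)] at h1
    exact (ENNReal.ofReal_le_ofReal_iff (by positivity)).1 h1
  have h6 : 0 < (h / 2) ^ (d + 1) := by positivity
  have h7 : (4 : ℝ) ^ (d + 1) * (R / h) ^ (d + 1) = (2 * R) ^ (d + 1) / (h / 2) ^ (d + 1) := by
    rw [← mul_pow, ← div_pow]
    congr 1
    field_simp
    ring
  rw [h7, le_div_iff₀ h6]
  exact h4

/-- number of points of one scale in a large ball -/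
theorem count_ball (d : ℕ) : ∃ C : ℝ, 0 < C ∧ ∀ (k : ℕ) (u : ℝ) (S : Finset (P d)), 0 ≤ u →
    Dens u S → ∀ (p : P d) (j : ℕ),
    ((nb (sc k S) p ((2 : ℝ) ^ (k + j))).card : ℝ) ≤ C * u * 2 ^ k * 2 ^ (j * (d + 1)) := by
  classical
  obtain ⟨C, hC, hpack⟩ := packing d
  refine ⟨C, hC, fun k u S hu hD p j => ?_⟩
  set N := nb (sc k S) p ((2 : ℝ) ^ (k + j)) with hN
  -- a maximal separated subset
  let F : Finset (Finset (P d)) := N.powerset.filter
    fun T => ∀ a ∈ T, ∀ b ∈ T, a ≠ b → (2 : ℝ) ^ k ≤ dist a b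
  have hF : F.Nonempty := ⟨∅, by simp [F]⟩
  obtain ⟨T, hTF, hTmax⟩ := Finset.exists_max_image F Finset.card hF
  have hTF' := Finset.mem_filter.1 hTF
  have hTN : T ⊆ N := Finset.mem_powerset.1 hTF'.1
  have hTsep := hTF'.2
  have hcov : ∀ q ∈ N, ∃ a ∈ T, dist q a ≤ (2 : ℝ) ^ k := by
    intro q hq
    by_cases hqT : q ∈ T
    · exact ⟨q, hqT, by rw [dist_self]; positivity⟩
    by_contra hcon
    push Not at hcon
    have h1 : insert q T ∈ F := by
      refine Finset.mem_filter.2 ⟨Finset.mem_powerset.2 ?_, ?_⟩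
      · intro x hx
        rcases Finset.mem_insert.1 hx with rfl | hx
        · exact hq
        · exact hTN hx
      · intro a ha b hb hab
        rcases Finset.mem_insert.1 ha with ha1 | ha1
        · rcases Finset.mem_insert.1 hb with hb1 | hb1
          · exact absurd (ha1.trans hb1.symm) hab
          · rw [ha1]
            exact (hcon b hb1).le
        · rcases Finset.mem_insert.1 hb with hb1 | hb1
          · rw [dist_comm, hb1]
            exact (hcon a ha1).le
          · exact hTsep a ha1 b hb1 hab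
    have h2 := hTmax _ h1
    rw [Finset.card_insert_of_notMem hqT] at h2
    omega
  have hTcard : (T.card : ℝ) ≤ C * 2 ^ (j * (d + 1)) := by
    have h1 := hpack ((2 : ℝ) ^ k) ((2 : ℝ) ^ (k + j)) (by positivity)
      (pow_le_pow_right₀ (by norm_num) (by omega)) p T hTsep
      (fun a ha => (c1_mem_nb.1 (hTN ha)).2)
    have h2 : (2 : ℝ) ^ (k + j) / 2 ^ k = 2 ^ j := by
      rw [pow_add]
      field_simp
    rw [h2, ← pow_mul] at h1
    exact h1
  have hsub : N ⊆ T.biUnion fun a => nb (sc k S) a ((2 : ℝ) ^ k) := by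
    intro q hq
    obtain ⟨a, ha, hqa⟩ := hcov q hq
    exact Finset.mem_biUnion.2 ⟨a, ha, c1_mem_nb.2 ⟨(c1_mem_nb.1 hq).1, hqa⟩⟩
  have h1 : (N.card : ℝ) ≤ ∑ a ∈ T, ((nb (sc k S) a ((2 : ℝ) ^ k)).card : ℝ) := by
    have h2 := (Finset.card_le_card hsub).trans Finset.card_biUnion_le
    exact_mod_cast h2
  have h2 : ∑ a ∈ T, ((nb (sc k S) a ((2 : ℝ) ^ k)).card : ℝ) ≤ ∑ _a ∈ T, u * 2 ^ k := by
    refine Finset.sum_le_sum fun a ha => ?_
    exact hD k a (c1_mem_nb.1 (hTN ha)).1 k le_rfl
  rw [Finset.sum_const, nsmul_eq_mul] at h2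
  have h3 : (T.card : ℝ) * (u * 2 ^ k) ≤ C * 2 ^ (j * (d + 1)) * (u * 2 ^ k) :=
    mul_le_mul_of_nonneg_right hTcard (by positivity)
  calc (N.card : ℝ) ≤ C * 2 ^ (j * (d + 1)) * (u * 2 ^ k) := h1.trans (h2.trans h3)
    _ = C * u * 2 ^ k * 2 ^ (j * (d + 1)) := by ring

end Pool.LibSR53
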