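import Pool.Agent.LibSR53.C2

/-
PLAN (L3). For q in sc l S and p in sc k S: p.2 < 2^(k+1), q.2 >= 2^l >= 4 p.2, Ker.cross: |<v p, v q>| <= C0 2^((k+1) nu)/(1+t_p/2^(k+1))^(d+1),
t_p = ||p.1-q.1| - q.2|. Sum over p: shells t_p <= 2^k (j=0) and 2^(k+j-1) < t_p <= 2^(k+j): count_shell gives
C u 2^k 2^(jd) 2^(l(d-1))/2^(k(d-1)) points, each kernel <= C 2^(k nu) 2^(-j(d+1)): geometric series sum 2^(-j). Total for fixed q:
C u 2^(k + k nu - k(d-1)) 2^(l(d-1)) = C u 2^(-k(nu-1)) 2^(l(d-1)) because d-1 = 2 nu. Sum over q: factor #sc l S. |gamma| <= 1;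
expand the inner product (sum_inner, inner_sum, inner_smul_left/right, norm_sum_le).
-/

set_option autoImplicit false

noncomputable section

open MeasureTheory Metric Set Filter

namespace Pool.LibSR53

/-- the shell index -/
theorem shell_bound_L3 {k j : ℕ} {t : ℝ} (ht : 0 ≤ t) (hj : ∀ i < j, ¬ t ≤ (2 : ℝ) ^ (k + i))
    (d : ℕ) : 1 / (1 + t / 2 ^ (k + 1)) ^ (d + 1) ≤ 4 ^ (d + 1) / ((2 : ℝ) ^ j) ^ (d + 1) := by
  have h0 : (0 : ℝ) < 2 ^ (k + 1) := by positivity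
  have hx : 0 ≤ t / 2 ^ (k + 1) := div_nonneg ht h0.le
  have h1 : (2 : ℝ) ^ j ≤ 4 * (1 + t / 2 ^ (k + 1)) := by
    rcases Nat.eq_zero_or_pos j with rfl | hj0
    · rw [pow_zero]; linarith
    · obtain ⟨i, rfl⟩ : ∃ i, j = i + 1 := ⟨j - 1, by omega⟩
      have h2 := hj i (by omega)
      rw [not_le] at h2
      have h3 : (2 : ℝ) ^ i / 2 ≤ t / 2 ^ (k + 1) := by
        rw [le_div_iff₀ h0]
        have h4 : (2 : ℝ) ^ i / 2 * 2 ^ (k + 1) = 2 ^ (k + i) := by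
          rw [pow_succ, pow_add]; ring
        rw [h4]
        exact h2.le
      rw [pow_succ]
      linarith
  rw [div_le_div_iff₀ (by positivity) (by positivity), one_mul, ← mul_pow]
  exact pow_le_pow_left₀ (by positivity) h1 _

theorem row_L3 {d : ℕ} (hd : 1 ≤ d) {C1 : ℝ} (hC1 : 0 < C1)
    (hcount : ∀ (k l j : ℕ) (u : ℝ) (S : Finset (P d)), k ≤ l → 0 ≤ u → Dens u S →
      ∀ q : P d, 0 ≤ q.2 → q.2 ≤ 2 ^ (l + 1) → ∀ T : Finset (P d), T ⊆ sc k S →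
      (∀ p ∈ T, |‖p.1 - q.1‖ - q.2| ≤ 2 ^ (k + j)) →
      (T.card : ℝ) ≤ C1 * u * 2 ^ k * 2 ^ (j * d) * 2 ^ (l * (d - 1)) / 2 ^ (k * (d - 1)))
    {k l : ℕ} {u : ℝ} {S : Finset (P d)} (hkl : k ≤ l) (hu : 0 ≤ u) (hD : Dens u S)
    (q : P d) (hq0 : 0 ≤ q.2) (hq : q.2 ≤ 2 ^ (l + 1)) :
    ∑ p ∈ sc k S, 1 / (1 + |‖p.1 - q.1‖ - q.2| / 2 ^ (k + 1)) ^ (d + 1) ≤
      2 * (C1 * u * 2 ^ k * 2 ^ (l * (d - 1)) / 2 ^ (k * (d - 1)) * 4 ^ (d + 1)) := by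
  classical
  set t : P d → ℝ := fun p => |‖p.1 - q.1‖ - q.2| with ht
  have hex : ∀ p : P d, ∃ j : ℕ, t p ≤ (2 : ℝ) ^ (k + j) := by
    intro p
    obtain ⟨n, hn⟩ := pow_unbounded_of_one_lt (t p) (one_lt_two (α := ℝ))
    exact ⟨n, hn.le.trans (pow_le_pow_right₀ (by norm_num) (by omega))⟩
  set J : P d → ℕ := fun p => Nat.find (hex p) with hJ
  set N : ℕ := (sc k S).sup J + 1 with hN
  have hmaps : ∀ p ∈ sc k S, J p ∈ Finset.range N := by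
    intro p hp
    rw [Finset.mem_range, hN]
    exact Nat.lt_succ_of_le (Finset.le_sup (f := J) hp)
  have h1 : ∀ j ∈ Finset.range N, ∑ p ∈ (sc k S).filter (fun p => J p = j),
      1 / (1 + t p / 2 ^ (k + 1)) ^ (d + 1) ≤
      C1 * u * 2 ^ k * 2 ^ (l * (d - 1)) / 2 ^ (k * (d - 1)) * 4 ^ (d + 1) * (1 / 2) ^ j := by
    intro j _
    have h2 : ∀ p ∈ (sc k S).filter (fun p => J p = j),
        1 / (1 + t p / 2 ^ (k + 1)) ^ (d + 1) ≤ 4 ^ (d + 1) / ((2 : ℝ) ^ j) ^ (d + 1) := by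
      intro p hp
      rw [Finset.mem_filter] at hp
      apply shell_bound_L3 (abs_nonneg _)
      intro i hi
      rw [← hp.2] at hi
      exact Nat.find_min (hex p) hi
    have h3 := Finset.sum_le_card_nsmul _ _ _ h2
    rw [nsmul_eq_mul] at h3
    have h4 := hcount k l j u S hkl hu hD q hq0 hq ((sc k S).filter (fun p => J p = j))
      (Finset.filter_subset _ _) (by
        intro p hp
        rw [Finset.mem_filter] at hp
        have h5 := Nat.find_spec (hex p)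
        rw [← hp.2]
        exact h5)
    calc _ ≤ _ := h3
      _ ≤ (C1 * u * 2 ^ k * 2 ^ (j * d) * 2 ^ (l * (d - 1)) / 2 ^ (k * (d - 1))) *
          (4 ^ (d + 1) / ((2 : ℝ) ^ j) ^ (d + 1)) :=
          mul_le_mul_of_nonneg_right h4 (by positivity)
      _ = _ := by
          have e1 : ((2 : ℝ) ^ j) ^ (d + 1) = 2 ^ (j * d) * 2 ^ j := by
            rw [← pow_mul, mul_add, mul_one, pow_add]
          rw [e1, one_div, inv_pow]
          field_simp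
  rw [← Finset.sum_fiberwise_of_maps_to hmaps]
  calc _ ≤ ∑ j ∈ Finset.range N,
        C1 * u * 2 ^ k * 2 ^ (l * (d - 1)) / 2 ^ (k * (d - 1)) * 4 ^ (d + 1) * (1 / 2) ^ j :=
        Finset.sum_le_sum h1
    _ = C1 * u * 2 ^ k * 2 ^ (l * (d - 1)) / 2 ^ (k * (d - 1)) * 4 ^ (d + 1) *
        ∑ j ∈ Finset.range N, (1 / 2 : ℝ) ^ j := by rw [Finset.mul_sum]
    _ ≤ C1 * u * 2 ^ k * 2 ^ (l * (d - 1)) / 2 ^ (k * (d - 1)) * 4 ^ (d + 1) * 2 :=
        mul_le_mul_of_nonneg_left (sum_geometric_two_le N) (by positivity)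
    _ = _ := by ring

/-- almost orthogonality between distant scales -/
theorem cross_scale {H : Type} [NormedAddCommGroup H] [InnerProductSpace ℂ H] (d : ℕ)
    (hd : 4 ≤ d) (C0 : ℝ) (v : P d → H) (hv : Ker d C0 v) : ∃ C : ℝ, 0 < C ∧
    ∀ (S : Finset (P d)) (u : ℝ), (∀ p ∈ S, 1 ≤ p.2) → 0 ≤ u → Dens u S →
    ∀ (k l : ℕ), k + 3 ≤ l → ∀ γ : P d → ℂ, (∀ p, ‖γ p‖ ≤ 1) →
    ‖(inner ℂ (∑ p ∈ sc k S, γ p • v p) (∑ p ∈ sc l S, γ p • v p) : ℂ)‖ ≤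
      C * u * (2 : ℝ) ^ (-((k : ℝ) * (nu d - 1))) * 2 ^ (l * (d - 1)) * ((sc l S).card : ℝ) := by
  obtain ⟨C1, hC1, hcount⟩ := count_shell d (by omega)
  have hC0 := hv.pos
  have hnu : 0 ≤ nu d := by
    unfold nu
    have : (4 : ℝ) ≤ d := by exact_mod_cast hd
    linarith
  refine ⟨C0 * C1 * 4 ^ (d + 1) * 2 * (2 : ℝ) ^ (nu d), by positivity, ?_⟩
  intro S u hS hu hD k l hkl γ hγ
  have hsc : ∀ (k : ℕ) (p : P d), p ∈ sc k S → p ∈ S ∧ (2 : ℝ) ^ k ≤ p.2 ∧ p.2 < 2 ^ (k + 1) := by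
    intro k p hp
    unfold sc at hp
    rw [Finset.mem_filter] at hp
    exact hp
  have h1 : ‖(inner ℂ (∑ p ∈ sc k S, γ p • v p) (∑ p ∈ sc l S, γ p • v p) : ℂ)‖ ≤
      ∑ q ∈ sc l S, ∑ p ∈ sc k S, ‖(inner ℂ (v p) (v q) : ℂ)‖ := by
    rw [inner_sum]
    refine (norm_sum_le _ _).trans (Finset.sum_le_sum fun q _ => ?_)
    rw [sum_inner]
    refine (norm_sum_le _ _).trans (Finset.sum_le_sum fun p _ => ?_)
    rw [inner_smul_left, inner_smul_right, norm_mul, norm_mul, RCLike.norm_conj]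
    have h2 : ‖γ q‖ * ‖(inner ℂ (v p) (v q) : ℂ)‖ ≤ 1 * ‖(inner ℂ (v p) (v q) : ℂ)‖ :=
      mul_le_mul_of_nonneg_right (hγ q) (norm_nonneg _)
    calc ‖γ p‖ * (‖γ q‖ * ‖(inner ℂ (v p) (v q) : ℂ)‖)
        ≤ 1 * (‖γ q‖ * ‖(inner ℂ (v p) (v q) : ℂ)‖) :=
          mul_le_mul_of_nonneg_right (hγ p) (by positivity)
      _ ≤ ‖(inner ℂ (v p) (v q) : ℂ)‖ := by linarith
  have h2 : ∀ q ∈ sc l S, ∑ p ∈ sc k S, ‖(inner ℂ (v p) (v q) : ℂ)‖ ≤
      C0 * ((2 : ℝ) ^ (k + 1)) ^ (nu d) *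
        (2 * (C1 * u * 2 ^ k * 2 ^ (l * (d - 1)) / 2 ^ (k * (d - 1)) * 4 ^ (d + 1))) := by
    intro q hq
    obtain ⟨hqS, hq1, hq2⟩ := hsc l q hq
    have hq0 : 0 ≤ q.2 := le_trans (by positivity) hq1
    have hrow := row_L3 (d := d) (by omega) hC1 hcount (k := k) (l := l) (S := S) (by omega) hu hD
      q hq0 hq2.le
    calc ∑ p ∈ sc k S, ‖(inner ℂ (v p) (v q) : ℂ)‖
        ≤ ∑ p ∈ sc k S, C0 * ((2 : ℝ) ^ (k + 1)) ^ (nu d) *
            (1 / (1 + |‖p.1 - q.1‖ - q.2| / 2 ^ (k + 1)) ^ (d + 1)) := by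
          refine Finset.sum_le_sum fun p hp => ?_
          obtain ⟨hpS, hp1, hp2⟩ := hsc k p hp
          have hp3 : 1 ≤ p.2 := hS p hpS
          have hp0 : 0 < p.2 := by linarith
          have h4 : 4 * p.2 ≤ q.2 := by
            have h5 : (2 : ℝ) ^ (k + 3) ≤ 2 ^ l := pow_le_pow_right₀ (by norm_num) hkl
            have h6 : (2 : ℝ) ^ (k + 3) = 4 * 2 ^ (k + 1) := by ring
            linarith
          refine (hv.cross p q hp3 h4).trans ?_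
          rw [mul_one_div]
          apply div_le_div₀ (by positivity)
          · apply mul_le_mul_of_nonneg_left _ hC0.le
            exact Real.rpow_le_rpow hp0.le hp2.le hnu
          · positivity
          · apply pow_le_pow_left₀ (by positivity)
            have h7 : |‖p.1 - q.1‖ - q.2| / 2 ^ (k + 1) ≤ |‖p.1 - q.1‖ - q.2| / p.2 :=
              div_le_div_of_nonneg_left (abs_nonneg _) hp0 hp2.le
            linarith
      _ = C0 * ((2 : ℝ) ^ (k + 1)) ^ (nu d) *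
            ∑ p ∈ sc k S, (1 / (1 + |‖p.1 - q.1‖ - q.2| / 2 ^ (k + 1)) ^ (d + 1)) := by
          rw [Finset.mul_sum]
      _ ≤ _ := mul_le_mul_of_nonneg_left hrow (by positivity)
  have h3 := Finset.sum_le_card_nsmul _ _ _ h2
  rw [nsmul_eq_mul] at h3
  refine (h1.trans h3).trans (le_of_eq ?_)
  have e1 : ((2 : ℝ) ^ (k + 1)) ^ (nu d) = (2 : ℝ) ^ ((k : ℝ) * nu d) * (2 : ℝ) ^ (nu d) := by
    rw [← Real.rpow_natCast, ← Real.rpow_mul (by norm_num), ← Real.rpow_add (by norm_num)]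
    congr 1
    push_cast
    ring
  have e2 : (2 : ℝ) ^ (k * (d - 1)) = (2 : ℝ) ^ ((k : ℝ) * (2 * nu d)) := by
    rw [← Real.rpow_natCast]
    congr 1
    rw [Nat.cast_mul, Nat.cast_sub (by omega)]
    unfold nu
    push_cast
    ring
  have e3 : (2 : ℝ) ^ (-((k : ℝ) * (nu d - 1))) =
      (2 : ℝ) ^ k * (2 : ℝ) ^ ((k : ℝ) * nu d) / (2 : ℝ) ^ ((k : ℝ) * (2 * nu d)) := by
    rw [← Real.rpow_natCast, ← Real.rpow_add (by norm_num), ← Real.rpow_sub (by norm_num)]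
    congr 1
    ring
  rw [e1, e2, e3]
  ring

end Pool.LibSR53
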