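import Pool.Agent.LibSR53.S5

/-
PLAN (V1). By sg_scale (S2, imported by S5), for r > 0: Fk eta y r x = r^(d-1) int eta(x - r w - y) d(sg d 1)(w) (integral_smul_measure,
integral_map). sg d 1 is finite and eta is bounded and continuous: continuous_of_dominated gives joint continuity of the integral in
(y,r,x) (all r), then multiply by r^(d-1). Bound: sup|eta| * mass (or sg_mass).
-/

set_option autoImplicit false

noncomputable section

open MeasureTheory Metric Set Filter

namespace Pool.LibSR53

private theorem v1_Fk_eq {d : ℕ} (hd : 2 ≤ d) (η : SchwartzMap (E d) ℂ) (y : E d) {r : ℝ}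
    (hr : 0 < r) (x : E d) :
    Fk η y r x = (r ^ (d - 1) : ℝ) • ∫ w, η (x - r • w - y) ∂(sg d 1) := by
  unfold Fk
  rw [sg_scale d hd r hr, integral_smul_measure, ENNReal.toReal_ofReal (by positivity)]
  congr 1
  rw [integral_map]
  · exact (continuous_const_smul r).measurable.aemeasurable
  · apply Continuous.aestronglyMeasurable
    exact η.continuous.comp (by fun_prop)

private theorem v1_cont {d : ℕ} (hd : 2 ≤ d) (η : SchwartzMap (E d) ℂ) :
    Continuous (fun q : P d × E d => ∫ w, η (q.2 - q.1.2 • w - q.1.1) ∂(sg d 1)) := by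
  have := sg_fin d hd 1 one_pos
  apply continuous_of_dominated (bound := fun _ => SchwartzMap.seminorm ℝ 0 0 η)
  · intro q
    apply Continuous.aestronglyMeasurable
    exact η.continuous.comp (by fun_prop)
  · intro q
    exact Filter.Eventually.of_forall fun w => SchwartzMap.norm_le_seminorm ℝ η _
  · exact integrable_const _
  · exact Filter.Eventually.of_forall fun w => η.continuous.comp (by fun_prop)

/-- joint continuity of Fk on positive radii -/
theorem Fk_joint {d : ℕ} (hd : 2 ≤ d) (η : SchwartzMap (E d) ℂ) :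
    ContinuousOn (fun q : P d × E d => Fk η q.1.1 q.1.2 q.2) {q | 0 < q.1.2} := by
  have h : Continuous (fun q : P d × E d =>
      (q.1.2 ^ (d - 1) : ℝ) • ∫ w, η (q.2 - q.1.2 • w - q.1.1) ∂(sg d 1)) :=
    ((continuous_snd.comp continuous_fst).pow _).smul (v1_cont hd η)
  refine h.continuousOn.congr ?_
  intro q hq
  exact v1_Fk_eq hd η q.1.1 hq q.2

/-- uniform bound -/
theorem Fk_le {d : ℕ} (hd : 2 ≤ d) (η : SchwartzMap (E d) ℂ) : ∃ C : ℝ, 0 < C ∧
    ∀ (y : E d) (r : ℝ) (x : E d), 0 < r → ‖Fk η y r x‖ ≤ C * r ^ (d - 1) := by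
  have := sg_fin d hd 1 one_pos
  refine ⟨SchwartzMap.seminorm ℝ 0 0 η * (sg d 1).real univ + 1, by positivity, ?_⟩
  intro y r x hr
  rw [v1_Fk_eq hd η y hr x, norm_smul, Real.norm_eq_abs, abs_of_pos (pow_pos hr _), mul_comm]
  apply mul_le_mul_of_nonneg_right _ (pow_pos hr _).le
  have h := norm_integral_le_of_norm_le_const (μ := sg d 1) (f := fun w => η (x - r • w - y))
    (C := SchwartzMap.seminorm ℝ 0 0 η)
    (Filter.Eventually.of_forall fun w => SchwartzMap.norm_le_seminorm ℝ η _)
  linarith

theorem Fk_continuous {d : ℕ} (hd : 2 ≤ d) (η : SchwartzMap (E d) ℂ) (y : E d) (r : ℝ)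
    (hr : 0 < r) : Continuous (Fk η y r) := by
  have h : Continuous (fun x : E d =>
      (r ^ (d - 1) : ℝ) • ∫ w, η (x - r • w - y) ∂(sg d 1)) := by
    have h1 : Continuous (fun x : E d => (((y, r), x) : P d × E d)) := by fun_prop
    have h2 := (v1_cont hd η).comp h1
    have h3 : Continuous (fun _ : E d => (r ^ (d - 1) : ℝ)) := continuous_const
    exact h3.smul h2
  have e : Fk η y r = fun x : E d => (r ^ (d - 1) : ℝ) • ∫ w, η (x - r • w - y) ∂(sg d 1) := by
    funext x
    exact v1_Fk_eq hd η y hr x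
  rw [e]
  exact h

end Pool.LibSR53
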