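import Pool.Agent.LibSR53.F2
import Pool.Agent.LibSR53.V1

/-
PLAN (F3). Constant: C1 = C^(1/p) (V)^((p-1)/p) or simply C1 with C1^p = C * max(V,1)^(p-1), V = volume of Q (lattice_split). Let B, R with g = 0 outside norm <= R. For every x put
h_x(z,r) = if 1 < r then Fk eta z r x * g(z,r) else 0: measurable (Fk_joint: continuous on the open set r > 0), bounded (Fk_le on 1 < r <= R), compact support, so integrable, and
int_{r>1} int_z = int h_x over P d (integral_prod_symm / setIntegral_prod). lattice_split: T(x) = int_{q in Q} sum_{a in Lambda} h_x(q+a) = int_Q Phi(q,x),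
Phi(q,x) = sum_{b in S_q} g(b) Fk eta b.1 b.2 x, S_q = the points b = q+a, a in Lambda, with 1 < b.2 and g b /= 0 (Finset.image, q+a injective in a), G S_q by hypothesis
(differences are integer points). Jensen/Hoelder on Q: |T(x)|^p <= V^(p-1) int_Q |Phi(q,x)|^p dq (ENNReal.lintegral_mul_le_Lp_mul_Lq or
lintegral_rpow_... with the constant function). Integrate in x, Tonelli (joint measurability), hypothesis h for each q, then lattice_split (lintegral part) for
(z,r) |-> 1_{r>1} ofReal(|g|^p r^(d-1)) and lintegral_prod_symm. eLpNorm f p = (int |f|^p)^(1/p) (eLpNorm_eq_lintegral_rpow_enorm).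
-/

set_option autoImplicit false

noncomputable section

open MeasureTheory Metric Set Filter

namespace Pool.LibSR53

private theorem f3_isInt_sub {d : ℕ} {a b : P d} (ha : IsInt a) (hb : IsInt b) :
    IsInt (a - b) := by
  obtain ⟨h1, n, hn⟩ := ha
  obtain ⟨h2, m, hm⟩ := hb
  refine ⟨fun i => ?_, n - m, ?_⟩
  · obtain ⟨k, hk⟩ := h1 i
    obtain ⟨l, hl⟩ := h2 i
    refine ⟨k - l, ?_⟩
    rw [Prod.fst_sub, PiLp.sub_apply, hk, hl]
    push_cast
    ring
  · rw [Prod.snd_sub, hn, hm]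
    push_cast
    ring

/-- the kernel, cut off at radius one -/
private def f3F {d : ℕ} (η : SchwartzMap (E d) ℂ) (a : P d) (x : E d) : ℂ :=
  if 1 < a.2 then Fk η a.1 a.2 x else 0

private theorem f3_meas {d : ℕ} (hd : 2 ≤ d) (η : SchwartzMap (E d) ℂ) :
    Measurable (fun q : P d × E d => f3F η q.1 q.2) := by
  classical
  have hs : MeasurableSet {q : P d × E d | 1 < q.1.2} :=
    measurableSet_lt measurable_const (measurable_snd.comp measurable_fst)
  have h := ContinuousOn.measurable_piecewise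
    (f := fun q : P d × E d => Fk η q.1.1 q.1.2 q.2) (g := fun _ => (0 : ℂ))
    (s := {q : P d × E d | 1 < q.1.2})
    ((Fk_joint hd η).mono (fun q (hq : 1 < q.1.2) => (show 0 < q.1.2 by linarith)))
    continuousOn_const hs
  convert h using 1
  funext q
  by_cases hq : 1 < q.1.2
  · rw [Set.piecewise_eq_of_mem _ _ _ (show q ∈ {q : P d × E d | 1 < q.1.2} from hq), f3F,
      if_pos hq]
  · rw [Set.piecewise_eq_of_notMem _ _ _ (show q ∉ {q : P d × E d | 1 < q.1.2} from hq), f3F,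
      if_neg hq]

/-- Jensen -/
private theorem f3_jensen {α : Type} [MeasurableSpace α] (μ : Measure α) (f : α → ℂ) (p : ℝ)
    (hp : 1 < p) (hf : AEStronglyMeasurable f μ) :
    ‖∫ a, f a ∂μ‖ₑ ^ p ≤ (μ univ) ^ (p - 1) * ∫⁻ a, ‖f a‖ₑ ^ p ∂μ := by
  have hp0 : 0 < p := by linarith
  have h1 := eLpNorm'_le_eLpNorm'_mul_rpow_measure_univ (p := 1) (q := p) one_pos hp.le hf
  simp only [eLpNorm', ENNReal.rpow_one, div_one, one_div] at h1
  have h2 : ‖∫ a, f a ∂μ‖ₑ ≤ ∫⁻ a, ‖f a‖ₑ ∂μ := enorm_integral_le_lintegral_enorm f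
  calc ‖∫ a, f a ∂μ‖ₑ ^ p ≤ (∫⁻ a, ‖f a‖ₑ ∂μ) ^ p := ENNReal.rpow_le_rpow h2 hp0.le
    _ ≤ ((∫⁻ a, ‖f a‖ₑ ^ p ∂μ) ^ p⁻¹ * (μ univ) ^ (1 - p⁻¹)) ^ p := by
        refine ENNReal.rpow_le_rpow ?_ hp0.le
        simpa using h1
    _ = (μ univ) ^ (p - 1) * ∫⁻ a, ‖f a‖ₑ ^ p ∂μ := by
        rw [ENNReal.mul_rpow_of_nonneg _ _ hp0.le, ← ENNReal.rpow_mul, ← ENNReal.rpow_mul,
          inv_mul_cancel₀ hp0.ne', ENNReal.rpow_one, mul_comm]
        congr 2
        field_simp

/-- from the discrete inequality on all translates of the lattice to the continuous one -/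
theorem averaging (d : ℕ) (hd : 2 ≤ d) (η : SchwartzMap (E d) ℂ) (p : ℝ) (hp1 : 1 < p)
    (C : ℝ) (hC : 0 < C) (G : Finset (P d) → Prop)
    (h : ∀ S : Finset (P d), G S → ∀ γ : P d → ℂ,
      ∫⁻ x, ‖∑ a ∈ S, γ a * Fk η a.1 a.2 x‖ₑ ^ p ≤
        ENNReal.ofReal (C * ∑ a ∈ S, ‖γ a‖ ^ p * a.2 ^ (d - 1))) :
    ∃ C1 : ℝ, 0 < C1 ∧ ∀ g : P d → ℂ, Measurable g → (∃ B : ℝ, ∀ z, ‖g z‖ ≤ B) →
      HasCompactSupport g →
      (∀ S : Finset (P d), (∀ a ∈ S, ∀ b ∈ S, IsInt (a - b)) → (∀ a ∈ S, 1 < a.2 ∧ g a ≠ 0) →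
        G S) →
      eLpNorm (fun x : E d => ∫ r in Set.Ioi (1 : ℝ), ∫ z : E d, Fk η z r x * g (z, r))
        (ENNReal.ofReal p) volume ≤
      ENNReal.ofReal C1 * (∫⁻ r in Set.Ioi (1 : ℝ), ∫⁻ x : E d,
        ‖g (x, r)‖ₑ ^ p * ENNReal.ofReal (r ^ (d - 1))) ^ (1 / p) := by
  classical
  have hp0 : 0 < p := by linarith
  obtain ⟨Q, hQm, hQf, hQ⟩ := lattice_split d
  set V : ℝ := (volume Q).toReal with hV
  obtain ⟨CF, hCF, hFk⟩ := Fk_le hd η
  have hVm : 0 < max V 1 := lt_of_lt_of_le one_pos (le_max_right _ _)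
  refine ⟨(C * (max V 1) ^ (p - 1)) ^ (1 / p), by positivity, ?_⟩
  rintro g hg ⟨B, hB⟩ hcs hG
  obtain ⟨R, hR⟩ : ∃ R, ∀ a, R < ‖a‖ → g a = 0 := by
    obtain ⟨R, hR⟩ := hcs.isCompact.isBounded.subset_closedBall (0 : P d)
    refine ⟨R, fun a ha => image_eq_zero_of_notMem_tsupport fun h' => ?_⟩
    have := hR h'
    rw [mem_closedBall_zero_iff] at this
    linarith
  obtain ⟨Λ, hΛ, hΛ1, hΛ2⟩ := hQ R
  -- the integrand
  set H : P d → E d → ℂ := fun a x => f3F η a x * g a with hH
  have hHm : Measurable (fun q : P d × E d => H q.1 q.2) :=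
    (f3_meas hd η).mul (hg.comp measurable_fst)
  have hHx : ∀ x, Measurable (fun a => H a x) := fun x =>
    hHm.comp (measurable_id.prodMk measurable_const)
  have hB0 : 0 ≤ B := (norm_nonneg _).trans (hB 0)
  have hH0 : ∀ a x, R < ‖a‖ → H a x = 0 := fun a x ha => by
    simp only [hH, hR a ha, mul_zero]
  have hint : ∀ x, Integrable (fun a => H a x) := by
    intro x
    have h1 : Integrable ((closedBall (0 : P d) R).indicator
        (fun _ => CF * (max R 1) ^ (d - 1) * B)) := by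
      rw [integrable_indicator_iff measurableSet_closedBall]
      exact integrableOn_const (measure_closedBall_lt_top.ne)
    refine h1.mono' (hHx x).aestronglyMeasurable (ae_of_all _ fun a => ?_)
    by_cases ha : a ∈ closedBall (0 : P d) R
    · rw [Set.indicator_of_mem ha]
      rw [mem_closedBall_zero_iff] at ha
      by_cases h2 : 1 < a.2
      · have h3 : a.2 ≤ max R 1 := by
          have : |a.2| ≤ ‖a‖ := by
            rw [← Real.norm_eq_abs]
            exact norm_snd_le a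
          exact ((le_abs_self _).trans (this.trans ha)).trans (le_max_left _ _)
        simp only [hH, f3F, if_pos h2, norm_mul]
        refine mul_le_mul ((hFk a.1 a.2 x (by linarith)).trans ?_) (hB a) (norm_nonneg _)
          (by positivity)
        have h4 : 0 ≤ a.2 := by linarith
        gcongr
      · simp only [hH, f3F, if_neg h2, zero_mul, norm_zero]
        positivity
    · rw [Set.indicator_of_notMem ha]
      rw [mem_closedBall_zero_iff, not_le] at ha
      rw [hH0 a x ha, norm_zero]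
  -- the operator is an integral over the product
  have hT : ∀ x, (∫ r in Set.Ioi (1 : ℝ), ∫ z : E d, Fk η z r x * g (z, r)) =
      ∫ q in Q, ∑ a ∈ Λ, H (q + a) x := by
    intro x
    rw [← hΛ1 (fun a => H a x) (hint x) (fun a ha => hH0 a x ha), Measure.volume_eq_prod,
      integral_prod_symm (fun a => H a x) (by rw [← Measure.volume_eq_prod]; exact hint x),
      ← integral_indicator measurableSet_Ioi]
    congr 1
    funext r
    by_cases hr : 1 < r
    · rw [Set.indicator_of_mem (show r ∈ Set.Ioi (1 : ℝ) from hr)]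
      simp only [hH, f3F, if_pos hr]
    · rw [Set.indicator_of_notMem (show r ∉ Set.Ioi (1 : ℝ) from hr)]
      simp only [hH, f3F, if_neg hr, zero_mul, integral_zero]
  -- the weight
  set W : P d → ENNReal := fun a => if 1 < a.2 then ‖g a‖ₑ ^ p * ENNReal.ofReal (a.2 ^ (d - 1))
    else 0 with hW
  have hWm : Measurable W := by
    refine Measurable.ite (measurableSet_lt measurable_const measurable_snd) ?_ measurable_const
    exact (hg.enorm.pow_const p).mul ((measurable_snd.pow_const _).ennreal_ofReal)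
  have hWint : (∫⁻ r in Set.Ioi (1 : ℝ), ∫⁻ x : E d,
      ‖g (x, r)‖ₑ ^ p * ENNReal.ofReal (r ^ (d - 1))) = ∫⁻ q in Q, ∑ a ∈ Λ, W (q + a) := by
    rw [← hΛ2 W hWm (fun a ha => by
      simp only [hW, hR a ha, enorm_zero, ENNReal.zero_rpow_of_pos hp0, zero_mul, ite_self]),
      Measure.volume_eq_prod, lintegral_prod_symm W (by
        rw [← Measure.volume_eq_prod]; exact hWm.aemeasurable),
      ← lintegral_indicator measurableSet_Ioi]
    congr 1
    funext r
    by_cases hr : 1 < r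
    · rw [Set.indicator_of_mem (show r ∈ Set.Ioi (1 : ℝ) from hr)]
      simp only [hW, if_pos hr]
    · rw [Set.indicator_of_notMem (show r ∉ Set.Ioi (1 : ℝ) from hr)]
      simp only [hW, if_neg hr, lintegral_zero]
  -- the discrete inequality for every q
  have hq : ∀ q : P d, ∫⁻ x, ‖∑ a ∈ Λ, H (q + a) x‖ₑ ^ p ≤
      ENNReal.ofReal C * ∑ a ∈ Λ, W (q + a) := by
    intro q
    set S : Finset (P d) := (Λ.image fun a => q + a).filter fun b => 1 < b.2 ∧ g b ≠ 0 with hS
    have hinj : Set.InjOn (fun a => q + a) (Λ : Set (P d)) := fun a _ b _ hab =>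
      add_left_cancel hab
    have hGS : G S := by
      refine hG S ?_ ?_
      · intro a ha b hb
        rw [hS, Finset.mem_filter, Finset.mem_image] at ha hb
        obtain ⟨⟨a', ha', rfl⟩, -⟩ := ha
        obtain ⟨⟨b', hb', rfl⟩, -⟩ := hb
        rw [add_sub_add_left_eq_sub]
        exact f3_isInt_sub (hΛ a' ha') (hΛ b' hb')
      · intro a ha
        rw [hS, Finset.mem_filter] at ha
        exact ha.2
    have h1 : ∀ x, ∑ a ∈ Λ, H (q + a) x = ∑ b ∈ S, g b * Fk η b.1 b.2 x := by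
      intro x
      rw [hS, Finset.sum_filter, Finset.sum_image hinj]
      refine Finset.sum_congr rfl fun a _ => ?_
      by_cases h2 : 1 < (q + a).2
      · by_cases h3 : g (q + a) = 0
        · simp [hH, h3]
        · rw [if_pos ⟨h2, h3⟩]
          simp only [hH, f3F, if_pos h2]
          ring
      · rw [if_neg (fun h' => h2 h'.1)]
        simp only [hH, f3F, if_neg h2, zero_mul]
    have h2 : ∑ a ∈ Λ, W (q + a) = ∑ b ∈ S, ENNReal.ofReal (‖g b‖ ^ p * b.2 ^ (d - 1)) := by
      rw [hS, Finset.sum_filter, Finset.sum_image hinj]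
      refine Finset.sum_congr rfl fun a _ => ?_
      by_cases h2 : 1 < (q + a).2
      · by_cases h3 : g (q + a) = 0
        · simp only [hW, h3, enorm_zero, ENNReal.zero_rpow_of_pos hp0, zero_mul, ite_self, ne_eq,
            not_true_eq_false, and_false, if_false]
        · rw [if_pos ⟨h2, h3⟩]
          simp only [hW, if_pos h2]
          rw [ENNReal.ofReal_mul (by positivity), ← ofReal_norm_eq_enorm,
            ENNReal.ofReal_rpow_of_nonneg (norm_nonneg _) hp0.le]
      · rw [if_neg (fun h' => h2 h'.1)]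
        simp only [hW, if_neg h2]
    simp only [h1]
    refine (h S hGS g).trans ?_
    rw [h2, ENNReal.ofReal_mul hC.le, ENNReal.ofReal_sum_of_nonneg]
    intro b hb
    rw [hS, Finset.mem_filter] at hb
    have : 0 ≤ b.2 := by linarith [hb.2.1]
    positivity
  -- joint measurability
  have hΦm : Measurable (fun z : E d × P d => ∑ a ∈ Λ, H (z.2 + a) z.1) := by
    refine Finset.measurable_fun_sum _ fun a _ => ?_
    exact hHm.comp ((measurable_snd.add_const a).prodMk measurable_fst)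
  have hmain : ∫⁻ x : E d, ‖∫ q in Q, ∑ a ∈ Λ, H (q + a) x‖ₑ ^ p ≤
      ENNReal.ofReal (C * (max V 1) ^ (p - 1)) * ∫⁻ q in Q, ∑ a ∈ Λ, W (q + a) := by
    have hVt : (volume.restrict Q univ) ^ (p - 1) ≤ ENNReal.ofReal ((max V 1) ^ (p - 1)) := by
      rw [Measure.restrict_apply_univ, ← ENNReal.ofReal_rpow_of_pos hVm]
      refine ENNReal.rpow_le_rpow ?_ (by linarith)
      rw [← ENNReal.ofReal_toReal hQf]
      exact ENNReal.ofReal_le_ofReal (le_max_left _ _)
    calc ∫⁻ x : E d, ‖∫ q in Q, ∑ a ∈ Λ, H (q + a) x‖ₑ ^ p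
        ≤ ∫⁻ x : E d, ENNReal.ofReal ((max V 1) ^ (p - 1)) *
            ∫⁻ q in Q, ‖∑ a ∈ Λ, H (q + a) x‖ₑ ^ p := by
          refine lintegral_mono fun x => ?_
          refine (f3_jensen _ _ p hp1 ?_).trans ?_
          · exact (hΦm.comp (measurable_const.prodMk measurable_id)).aestronglyMeasurable
          · gcongr
      _ = ENNReal.ofReal ((max V 1) ^ (p - 1)) *
            ∫⁻ x : E d, ∫⁻ q in Q, ‖∑ a ∈ Λ, H (q + a) x‖ₑ ^ p := by
          rw [lintegral_const_mul' _ _ ENNReal.ofReal_ne_top]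
      _ = ENNReal.ofReal ((max V 1) ^ (p - 1)) *
            ∫⁻ q in Q, ∫⁻ x : E d, ‖∑ a ∈ Λ, H (q + a) x‖ₑ ^ p := by
          congr 1
          refine lintegral_lintegral_swap ?_
          exact (hΦm.enorm.pow_const p).aemeasurable
      _ ≤ ENNReal.ofReal ((max V 1) ^ (p - 1)) *
            ∫⁻ q in Q, ENNReal.ofReal C * ∑ a ∈ Λ, W (q + a) := by
          gcongr
          exact hq _
      _ = ENNReal.ofReal (C * (max V 1) ^ (p - 1)) * ∫⁻ q in Q, ∑ a ∈ Λ, W (q + a) := by
          rw [lintegral_const_mul' _ _ ENNReal.ofReal_ne_top, ← mul_assoc,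
            ENNReal.ofReal_mul hC.le, mul_comm (ENNReal.ofReal C)]
  rw [eLpNorm_eq_lintegral_rpow_enorm_toReal (by simpa using hp0) ENNReal.ofReal_ne_top,
    ENNReal.toReal_ofReal hp0.le, hWint]
  simp only [hT]
  calc (∫⁻ x : E d, ‖∫ q in Q, ∑ a ∈ Λ, H (q + a) x‖ₑ ^ p) ^ (1 / p)
      ≤ (ENNReal.ofReal (C * (max V 1) ^ (p - 1)) * ∫⁻ q in Q, ∑ a ∈ Λ, W (q + a)) ^ (1 / p) :=
        ENNReal.rpow_le_rpow hmain (by positivity)
    _ = ENNReal.ofReal ((C * (max V 1) ^ (p - 1)) ^ (1 / p)) *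
        (∫⁻ q in Q, ∑ a ∈ Λ, W (q + a)) ^ (1 / p) := by
        rw [ENNReal.mul_rpow_of_nonneg _ _ (by positivity),
          ENNReal.ofReal_rpow_of_nonneg (by positivity) (by positivity)]

end Pool.LibSR53
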