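import Pool.Agent.LibSR53.F1
import Pool.Agent.LibSR53.F3

/-
PLAN (F4, chair). good_of_sparse: sep: a nonzero integer point has norm >= 1. rad: r |-> floor r is injective on the radii, values n with n <= a + D, n >= a except possibly n = floor a;
(R cap [n,n+1)) nonempty. main: (p(1+alpha/(nu-1+alpha)) < 2) iff the stated bound.
-/

set_option autoImplicit false

noncomputable section

open MeasureTheory Metric Set Filter

namespace Pool.LibSR53

/-- radii lying in a sparse set give good families -/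
theorem good_of_sparse (d : ℕ) (K α : ℝ) (hK : 0 ≤ K) (hα0 : 0 ≤ α) (R : Set ℝ)
    (hR : ∀ a D : ℝ, 1 ≤ D → D ≤ a →
      (({n : ℕ | a ≤ n ∧ (n : ℝ) ≤ a + D ∧ (R ∩ Ico (n : ℝ) (n + 1)).Nonempty}).ncard : ℝ) ≤
        K * D ^ α)
    (S : Finset (P d)) (h1 : ∀ a ∈ S, ∀ b ∈ S, IsInt (a - b))
    (h2 : ∀ a ∈ S, 1 < a.2 ∧ a.2 ∈ R) : Good (K + 1) α S := by
  have hrs : ∀ p ∈ S, ∀ q ∈ S, |p.2 - q.2| < 1 → p.2 = q.2 := by
    intro p hp q hq h
    obtain ⟨n, hn⟩ := (h1 p hp q hq).2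
    have hn' : p.2 - q.2 = n := hn
    rw [hn'] at h
    have h0 : n = 0 := by
      have : |n| < 1 := by exact_mod_cast h
      exact Int.abs_lt_one_iff.mp this
    rw [h0] at hn'
    simp at hn'
    linarith
  refine ⟨fun p hp => (h2 p hp).1.le, ?_, hrs, ?_⟩
  · intro p hp q hq hpq
    obtain ⟨hc, n, hn⟩ := h1 p hp q hq
    rw [dist_eq_norm]
    by_cases h2' : p.2 = q.2
    · have h1' : p.1 ≠ q.1 := fun h => hpq (Prod.ext h h2')
      have : ∃ i, p.1 i ≠ q.1 i := by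
        by_contra hcon
        push Not at hcon
        exact h1' (by ext i; exact hcon i)
      obtain ⟨i, hi⟩ := this
      obtain ⟨m, hm⟩ := hc i
      have hm' : p.1 i - q.1 i = m := hm
      have hm0 : m ≠ 0 := by
        rintro rfl
        apply hi
        simp at hm'
        linarith
      have h3 : (1 : ℝ) ≤ |p.1 i - q.1 i| := by
        rw [hm', ← Int.cast_abs]
        exact_mod_cast Int.one_le_abs hm0
      have h4 : |p.1 i - q.1 i| ≤ ‖p.1 - q.1‖ := by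
        have := EuclideanSpace.norm_eq (p.1 - q.1)
        have h5 : ‖(p.1 - q.1) i‖ ≤ ‖p.1 - q.1‖ := PiLp.norm_apply_le _ i
        simpa using h5
      have h6 : ‖(p - q).1‖ ≤ ‖p - q‖ := norm_fst_le _
      have h7 : (p - q).1 = p.1 - q.1 := rfl
      rw [h7] at h6
      linarith
    · have hn' : p.2 - q.2 = n := hn
      have hn0 : n ≠ 0 := by
        rintro rfl
        apply h2'
        simp at hn'
        linarith
      have h3 : (1 : ℝ) ≤ |p.2 - q.2| := by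
        rw [hn', ← Int.cast_abs]
        exact_mod_cast Int.one_le_abs hn0
      have h6 : ‖(p - q).2‖ ≤ ‖p - q‖ := norm_snd_le _
      have h7 : ‖(p - q).2‖ = |p.2 - q.2| := by
        rw [Real.norm_eq_abs]; rfl
      linarith
  · intro a D hD1 hDa
    set A := {r : ℝ | (∃ p ∈ S, p.2 = r) ∧ a ≤ r ∧ r ≤ a + D} with hA
    set B := {n : ℕ | a ≤ n ∧ (n : ℝ) ≤ a + D ∧ (R ∩ Ico (n : ℝ) (n + 1)).Nonempty} with hB
    have hBf : B.Finite := by
      apply Set.Finite.subset (Set.finite_Iic ⌊a + D⌋₊)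
      intro n hn
      exact Nat.le_floor hn.2.1
    have hpos : ∀ r ∈ A, 0 ≤ r := by
      intro r hr
      linarith [hr.2.1]
    have hmap : ∀ r ∈ A, ⌊r⌋₊ ∈ insert ⌊a⌋₊ B := by
      intro r hr
      obtain ⟨⟨p, hp, rfl⟩, har, hra⟩ := hr
      by_cases hc : a ≤ (⌊p.2⌋₊ : ℝ)
      · right
        refine ⟨hc, ?_, p.2, (h2 p hp).2, ?_, ?_⟩
        · exact (Nat.floor_le (by linarith)).trans hra
        · exact Nat.floor_le (by linarith)
        · exact Nat.lt_floor_add_one _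
      · left
        push Not at hc
        symm
        rw [Nat.floor_eq_iff (by linarith)]
        refine ⟨hc.le, ?_⟩
        exact har.trans_lt (Nat.lt_floor_add_one _)
    have hinj : ∀ r ∈ A, ∀ r' ∈ A, ⌊r⌋₊ = ⌊r'⌋₊ → r = r' := by
      intro r hr r' hr' h
      obtain ⟨⟨p, hp, rfl⟩, har, hra⟩ := hr
      obtain ⟨⟨q, hq, rfl⟩, har', hra'⟩ := hr'
      apply hrs p hp q hq
      have e1 := Nat.floor_le (show 0 ≤ p.2 by linarith)
      have e2 := Nat.lt_floor_add_one p.2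
      have e3 := Nat.floor_le (show 0 ≤ q.2 by linarith)
      have e4 := Nat.lt_floor_add_one q.2
      rw [h] at e1 e2
      rw [abs_lt]
      constructor <;> linarith
    have hcard : A.ncard ≤ (insert ⌊a⌋₊ B).ncard := by
      exact Set.ncard_le_ncard_of_injOn (fun r : ℝ => ⌊r⌋₊) (fun r hr => hmap r hr)
        (fun r hr r' hr' h => hinj r hr r' hr' h) (hBf.insert _)
    have hcard2 : (A.ncard : ℝ) ≤ B.ncard + 1 := by
      have := Set.ncard_insert_le ⌊a⌋₊ B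
      exact_mod_cast hcard.trans this
    have h1D : (1 : ℝ) ≤ D ^ α := Real.one_le_rpow hD1 hα0
    have := hR a D hD1 hDa
    nlinarith

theorem main (d : ℕ) (hd : 4 ≤ d) (α : ℝ) (hα0 : 0 ≤ α) (hα1 : α ≤ 1) (p : ℝ) (hp1 : 1 < p)
    (hp2 : p < 2 * ((d : ℝ) - 3 + 2 * α) / ((d : ℝ) - 3 + 4 * α)) (K : ℝ)
    (η : SchwartzMap (EuclideanSpace ℝ (Fin d)) ℂ)
    (hη : ∃ ε : ℝ, 0 < ε ∧ ∀ ξ : EuclideanSpace ℝ (Fin d), ‖ξ‖ < ε →
      ∫ x : EuclideanSpace ℝ (Fin d),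
        Complex.exp (-(2 * (Real.pi : ℂ) * Complex.I * ((inner ℝ x ξ : ℝ) : ℂ))) * η x = 0) :
    ∃ C : ℝ, ∀ R : Set ℝ,
      (∀ a D : ℝ, 1 ≤ D → D ≤ a →
        (({n : ℕ | a ≤ n ∧ (n : ℝ) ≤ a + D ∧ (R ∩ Ico (n : ℝ) (n + 1)).Nonempty}).ncard : ℝ) ≤
          K * D ^ α) →
      ∀ g : EuclideanSpace ℝ (Fin d) × ℝ → ℂ, Measurable g → (∃ B : ℝ, ∀ z, ‖g z‖ ≤ B) →
      HasCompactSupport g → (∀ z r, r ∉ R → g (z, r) = 0) →
      MeasureTheory.eLpNorm
        (fun x : EuclideanSpace ℝ (Fin d) =>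
          ∫ r in Set.Ioi (1 : ℝ), ∫ z : EuclideanSpace ℝ (Fin d),
            (∫ y in Metric.sphere (0 : EuclideanSpace ℝ (Fin d)) r, η (x - y - z)
              ∂(MeasureTheory.Measure.hausdorffMeasure ((d : ℝ) - 1))) * g (z, r))
        (ENNReal.ofReal p) MeasureTheory.volume
      ≤ ENNReal.ofReal C *
        (∫⁻ r in Set.Ioi (1 : ℝ), ∫⁻ x : EuclideanSpace ℝ (Fin d),
            ‖g (x, r)‖ₑ ^ p * ENNReal.ofReal (r ^ (d - 1))) ^ (1 / p) := by
  obtain ⟨ε, hε, hη'⟩ := hη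
  by_cases hK : 0 ≤ K
  swap
  · refine ⟨0, fun R hR => ?_⟩
    exfalso
    have := hR 1 1 le_rfl le_rfl
    simp only [Real.one_rpow, mul_one] at this
    have h0 : (0 : ℝ) ≤ (({n : ℕ | (1 : ℝ) ≤ n ∧ (n : ℝ) ≤ 1 + 1 ∧
      (R ∩ Ico (n : ℝ) (n + 1)).Nonempty}).ncard : ℝ) := Nat.cast_nonneg _
    linarith
  have hd' : (4 : ℝ) ≤ d := by exact_mod_cast hd
  have hp3 : p * (1 + α / (nu d - 1 + α)) < 2 := by
    have e1 : nu d - 1 = ((d : ℝ) - 3) / 2 := by unfold nu; ring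
    have e2 : 0 < nu d - 1 + α := by rw [e1]; linarith
    have e3 : (1 + α / (nu d - 1 + α)) = ((d : ℝ) - 3 + 4 * α) / ((d : ℝ) - 3 + 2 * α) := by
      rw [e1]
      have h1' : (d : ℝ) - 3 + 2 * α ≠ 0 := by linarith
      have h2' : ((d : ℝ) - 3) / 2 + α = ((d : ℝ) - 3 + 2 * α) / 2 := by ring
      rw [h2', div_div_eq_mul_div, eq_div_iff h1', add_mul, div_mul_cancel₀ _ h1']
      ring
    have e4 : 0 < (d : ℝ) - 3 + 4 * α := by linarith
    have e5 : 0 < (d : ℝ) - 3 + 2 * α := by linarith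
    rw [e3, ← mul_div_assoc, div_lt_iff₀ e5]
    rwa [lt_div_iff₀ e4] at hp2
  obtain ⟨C, hC, hdis⟩ := discrete d hd η ε hε hη' (K + 1) α hα0 hα1 p hp1 hp3
  obtain ⟨C1, hC1, hav⟩ := averaging d (by omega) η p hp1 C hC (Good (K + 1) α) hdis
  refine ⟨C1, fun R hR g hg hgb hgc hgR => ?_⟩
  exact hav g hg hgb hgc (fun S hS1 hS2 => good_of_sparse d K α hK hα0 R hR S hS1
    (fun a ha => ⟨(hS2 a ha).1, by
      by_contra hcon
      exact (hS2 a ha).2 (hgR a.1 a.2 hcon)⟩))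


end Pool.LibSR53
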