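import Pool.Agent.LibSR53.C1
import Pool.Agent.LibSR53.C2

/-
PLAN (D2). Vitali on the whole finite family of closed balls closedBall p (2^(i(p))), p in S with m p = n.
-/

set_option autoImplicit false

noncomputable section

open MeasureTheory Metric Set Filter

namespace Pool.LibSR53

private theorem D2_scale {d : ℕ} (S : Finset (P d)) (m : P d → ℕ) (h1 : ∀ p ∈ S, 1 ≤ p.2)
    (hL : Lev S m) (p : P d) (hp : p ∈ S) :
    ∃ k i : ℕ, i ≤ k ∧ (2 : ℝ) ^ k ≤ p.2 ∧ p.2 < (2 : ℝ) ^ (k + 1) ∧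
      (2 : ℝ) ^ (m p + i) ≤ ((nb (sc k S) p ((2 : ℝ) ^ i)).card : ℝ) := by
  classical
  obtain ⟨k, hk1, hk2⟩ := exists_nat_pow_near (h1 p hp) (by norm_num : (1 : ℝ) < 2)
  have hpk : p ∈ sc k S := by
    unfold sc
    rw [Finset.mem_filter]
    exact ⟨hp, hk1, hk2⟩
  obtain ⟨i, hik, hi⟩ := hL.big k p hpk
  exact ⟨k, i, hik, hk1, hk2, hi⟩

/-- the exceptional set of the points of level n -/
theorem exceptional (d : ℕ) (hd : 2 ≤ d) : ∃ C : ℝ, 0 < C ∧ ∀ (S : Finset (P d)) (m : P d → ℕ),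
    (∀ p ∈ S, 1 ≤ p.2) → (∀ p ∈ S, ∀ q ∈ S, p ≠ q → 1 ≤ dist p q) → Lev S m → ∀ n : ℕ,
    ∃ A : Set (E d), MeasurableSet A ∧ volume A ≤ ENNReal.ofReal (C * wt S / 2 ^ n) ∧
      ∀ p ∈ S, m p = n → ∃ D : ℝ, 1 ≤ D ∧ (2 : ℝ) ^ n ≤ C * D ^ d ∧
        ∀ x : E d, |‖x - p.1‖ - p.2| ≤ D → x ∈ A := by
  classical
  obtain ⟨C1, hC1, hpack⟩ := packing d
  obtain ⟨C2, hC2, hann⟩ := annulus_volume d (by omega)
  refine ⟨C1 + C2 * 32 ^ (d - 1) * 15, by positivity, ?_⟩
  intro S m h1 hsep hL n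
  have hsc := D2_scale S m h1 hL
  choose! k i hik hk1 hk2 hbig using hsc
  -- the finite family
  let t : Set (P d) := {p | p ∈ S ∧ m p = n}
  obtain ⟨u, hut, hdisj, hcov⟩ :=
    Vitali.exists_disjoint_subfamily_covering_enlargement_closedBall t (fun p : P d => p)
      (fun p => (2 : ℝ) ^ (i p)) (∑ p ∈ S, (2 : ℝ) ^ (i p))
      (fun a ha => Finset.single_le_sum (f := fun p => (2 : ℝ) ^ (i p))
        (fun _ _ => by positivity) ha.1) 5 (by norm_num)
  let U : Finset (P d) := S.filter (fun p => p ∈ u)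
  have hU : ∀ b, b ∈ U ↔ b ∈ u := by
    intro b
    simp only [U, Finset.mem_filter]
    exact ⟨fun h => h.2, fun h => ⟨(hut h).1, h⟩⟩
  let ann : P d → Set (E d) := fun b => {x : E d | |‖x - b.1‖ - b.2| ≤ 15 * (2 : ℝ) ^ (i b)}
  refine ⟨⋃ b ∈ U, ann b, ?_, ?_, ?_⟩
  · refine Finset.measurableSet_biUnion U (fun b _ => ?_)
    refine (isClosed_le ?_ continuous_const).measurableSet
    fun_prop
  · -- volume
    have hstep : ∀ b ∈ U, volume (ann b) ≤ ENNReal.ofReal
        (C2 * 32 ^ (d - 1) * 15 / 2 ^ n * ∑ q ∈ nb (sc (k b) S) b ((2 : ℝ) ^ (i b)), q.2 ^ (d - 1)) := by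
      intro b hb
      have hbS : b ∈ S := (hut ((hU b).1 hb)).1
      have hbn : m b = n := (hut ((hU b).1 hb)).2
      have hb1 : 1 ≤ b.2 := h1 b hbS
      have h2i : (0 : ℝ) < 2 ^ (i b) := by positivity
      refine (hann b.1 b.2 (15 * (2 : ℝ) ^ (i b)) (by linarith) (by positivity)).trans ?_
      apply ENNReal.ofReal_le_ofReal
      have hib : (2 : ℝ) ^ (i b) ≤ b.2 :=
        (pow_le_pow_right₀ (by norm_num) (hik b hbS)).trans (hk1 b hbS)
      have e1 : (b.2 + 15 * (2 : ℝ) ^ (i b)) ^ (d - 1) ≤ (16 * b.2) ^ (d - 1) := by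
        apply pow_le_pow_left₀ (by positivity)
        linarith
      have e2 : b.2 ^ (d - 1) * ((nb (sc (k b) S) b ((2 : ℝ) ^ (i b))).card : ℝ) ≤
          2 ^ (d - 1) * ∑ q ∈ nb (sc (k b) S) b ((2 : ℝ) ^ (i b)), q.2 ^ (d - 1) := by
        rw [Finset.mul_sum, mul_comm, ← nsmul_eq_mul, ← Finset.sum_const]
        apply Finset.sum_le_sum
        intro q hq
        have hq' : (2 : ℝ) ^ (k b) ≤ q.2 := by
          unfold nb at hq
          rw [Finset.mem_filter] at hq
          have := hq.1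
          unfold sc at this
          rw [Finset.mem_filter] at this
          exact this.2.1
        rw [← mul_pow]
        apply pow_le_pow_left₀ (by linarith)
        have := hk2 b hbS
        rw [pow_succ] at this
        linarith
      have e3 : (2 : ℝ) ^ (i b) * 2 ^ n ≤ ((nb (sc (k b) S) b ((2 : ℝ) ^ (i b))).card : ℝ) := by
        have := hbig b hbS
        rw [hbn, pow_add] at this
        linarith
      have hpos : (0 : ℝ) < 2 ^ n := by positivity
      have hb2 : (0 : ℝ) ≤ b.2 ^ (d - 1) := by positivity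
      calc C2 * (b.2 + 15 * (2 : ℝ) ^ (i b)) ^ (d - 1) * (15 * (2 : ℝ) ^ (i b))
          ≤ C2 * (16 * b.2) ^ (d - 1) * (15 * (2 : ℝ) ^ (i b)) := by gcongr
        _ = C2 * 16 ^ (d - 1) * 15 / 2 ^ n * (b.2 ^ (d - 1) * ((2 : ℝ) ^ (i b) * 2 ^ n)) := by
            rw [mul_pow]; field_simp
        _ ≤ C2 * 16 ^ (d - 1) * 15 / 2 ^ n * (b.2 ^ (d - 1) *
              ((nb (sc (k b) S) b ((2 : ℝ) ^ (i b))).card : ℝ)) := by
            gcongr
        _ ≤ C2 * 16 ^ (d - 1) * 15 / 2 ^ n *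
              (2 ^ (d - 1) * ∑ q ∈ nb (sc (k b) S) b ((2 : ℝ) ^ (i b)), q.2 ^ (d - 1)) := by
            gcongr
        _ = C2 * 32 ^ (d - 1) * 15 / 2 ^ n *
              ∑ q ∈ nb (sc (k b) S) b ((2 : ℝ) ^ (i b)), q.2 ^ (d - 1) := by
            rw [show (32 : ℝ) = 16 * 2 by norm_num, mul_pow]; ring
    have hnn : ∀ b ∈ U, (0 : ℝ) ≤ C2 * 32 ^ (d - 1) * 15 / 2 ^ n *
        ∑ q ∈ nb (sc (k b) S) b ((2 : ℝ) ^ (i b)), q.2 ^ (d - 1) := by
      intro b hb
      apply mul_nonneg (by positivity)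
      apply Finset.sum_nonneg
      intro q hq
      unfold nb sc at hq
      rw [Finset.mem_filter, Finset.mem_filter] at hq
      have := h1 q hq.1.1
      positivity
    refine (measure_biUnion_finset_le U ann).trans ((Finset.sum_le_sum hstep).trans ?_)
    rw [← ENNReal.ofReal_sum_of_nonneg hnn]
    apply ENNReal.ofReal_le_ofReal
    rw [← Finset.mul_sum]
    have hwt : ∑ b ∈ U, ∑ q ∈ nb (sc (k b) S) b ((2 : ℝ) ^ (i b)), q.2 ^ (d - 1) ≤ wt S := by
      rw [← Finset.sum_biUnion]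
      · unfold wt
        apply Finset.sum_le_sum_of_subset_of_nonneg
        · intro q hq
          rw [Finset.mem_biUnion] at hq
          obtain ⟨b, _, hq⟩ := hq
          unfold nb sc at hq
          rw [Finset.mem_filter, Finset.mem_filter] at hq
          exact hq.1.1
        · intro q hq _
          have := h1 q hq
          positivity
      · intro b hb c hc hbc
        have hd' := hdisj ((hU b).1 hb) ((hU c).1 hc) hbc
        simp only [Function.onFun] at hd' ⊢
        rw [Finset.disjoint_left]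
        intro q hq1 hq2
        rw [Set.disjoint_left] at hd'
        apply hd' (a := q)
        · unfold nb at hq1
          rw [Finset.mem_filter] at hq1
          exact mem_closedBall.2 hq1.2
        · unfold nb at hq2
          rw [Finset.mem_filter] at hq2
          exact mem_closedBall.2 hq2.2
    have hwt0 : 0 ≤ wt S := by
      unfold wt
      apply Finset.sum_nonneg
      intro q hq
      have := h1 q hq
      positivity
    calc C2 * 32 ^ (d - 1) * 15 / 2 ^ n *
          ∑ b ∈ U, ∑ q ∈ nb (sc (k b) S) b ((2 : ℝ) ^ (i b)), q.2 ^ (d - 1)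
        ≤ C2 * 32 ^ (d - 1) * 15 / 2 ^ n * wt S := by gcongr
      _ = (C2 * 32 ^ (d - 1) * 15) * wt S / 2 ^ n := by ring
      _ ≤ (C1 + C2 * 32 ^ (d - 1) * 15) * wt S / 2 ^ n := by
          gcongr
          linarith
  · intro p hp hmp
    refine ⟨(2 : ℝ) ^ (i p), one_le_pow₀ (by norm_num), ?_, ?_⟩
    · have hnbp := hpack 1 ((2 : ℝ) ^ (i p)) one_pos (one_le_pow₀ (by norm_num)) p
        (nb (sc (k p) S) p ((2 : ℝ) ^ (i p)))
        (by
          intro a ha b hb hab
          unfold nb sc at ha hb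
          rw [Finset.mem_filter, Finset.mem_filter] at ha hb
          exact hsep a ha.1.1 b hb.1.1 hab)
        (by
          intro a ha
          unfold nb at ha
          rw [Finset.mem_filter] at ha
          exact ha.2)
      have h3 := (hbig p hp).trans hnbp
      rw [hmp, div_one, pow_succ, pow_add] at h3
      have h2i : (0 : ℝ) < 2 ^ (i p) := by positivity
      have h4 : (2 : ℝ) ^ n ≤ C1 * (2 ^ (i p)) ^ d := by
        have : (2 : ℝ) ^ n * 2 ^ (i p) ≤ (C1 * (2 ^ (i p)) ^ d) * 2 ^ (i p) := by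
          calc _ ≤ _ := h3
            _ = _ := by ring
        exact le_of_mul_le_mul_right this h2i
      refine h4.trans ?_
      gcongr
      have : 0 < C2 * 32 ^ (d - 1) * 15 := by positivity
      linarith
    · intro x hx
      obtain ⟨b, hbu, hsub⟩ := hcov p ⟨hp, hmp⟩
      replace hsub : closedBall p ((2 : ℝ) ^ (i p)) ⊆ closedBall b (5 * (2 : ℝ) ^ (i b)) := hsub
      have h2i : (0 : ℝ) < 2 ^ (i p) := by positivity
      rw [Set.mem_iUnion₂]
      refine ⟨b, (hU b).2 hbu, ?_⟩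
      change |‖x - b.1‖ - b.2| ≤ 15 * (2 : ℝ) ^ (i b)
      have hp0 : p ∈ closedBall b (5 * (2 : ℝ) ^ (i b)) :=
        hsub (mem_closedBall_self h2i.le)
      have hpp : ((p.1, p.2 + (2 : ℝ) ^ (i p)) : P d) ∈ closedBall b (5 * (2 : ℝ) ^ (i b)) := by
        apply hsub
        rw [mem_closedBall, Prod.dist_eq]
        simp only [dist_self, Real.dist_eq, add_sub_cancel_left, abs_of_pos h2i]
        exact max_le h2i.le le_rfl
      have hpm : ((p.1, p.2 - (2 : ℝ) ^ (i p)) : P d) ∈ closedBall b (5 * (2 : ℝ) ^ (i b)) := by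
        apply hsub
        rw [mem_closedBall, Prod.dist_eq]
        have : |p.2 - (2 : ℝ) ^ (i p) - p.2| = (2 : ℝ) ^ (i p) := by
          rw [show p.2 - (2 : ℝ) ^ (i p) - p.2 = -(2 : ℝ) ^ (i p) by ring, abs_neg, abs_of_pos h2i]
        simp only [dist_self, Real.dist_eq, this]
        exact max_le h2i.le le_rfl
      rw [mem_closedBall, Prod.dist_eq] at hp0 hpp hpm
      have a1 : dist p.1 b.1 ≤ 5 * (2 : ℝ) ^ (i b) := (le_max_left _ _).trans hp0
      have a2 : |p.2 - b.2| ≤ 5 * (2 : ℝ) ^ (i b) := by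
        have := (le_max_right _ _).trans hp0
        rwa [Real.dist_eq] at this
      have a3 : |p.2 + (2 : ℝ) ^ (i p) - b.2| ≤ 5 * (2 : ℝ) ^ (i b) := by
        have := (le_max_right _ _).trans hpp
        rwa [Real.dist_eq] at this
      have a4 : |p.2 - (2 : ℝ) ^ (i p) - b.2| ≤ 5 * (2 : ℝ) ^ (i b) := by
        have := (le_max_right _ _).trans hpm
        rwa [Real.dist_eq] at this
      have a5 : (2 : ℝ) ^ (i p) ≤ 5 * (2 : ℝ) ^ (i b) := by
        have := (abs_le.1 a3).2
        have := (abs_le.1 a4).1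
        linarith
      have a6 : |‖x - b.1‖ - ‖x - p.1‖| ≤ dist p.1 b.1 := by
        have := abs_norm_sub_norm_le (x - b.1) (x - p.1)
        refine this.trans ?_
        rw [dist_eq_norm]
        apply le_of_eq
        congr 1
        abel
      have a7 := abs_le.1 a6
      have a8 := abs_le.1 a2
      have a9 := abs_le.1 hx
      rw [abs_le]
      constructor <;> linarith [a7.1, a7.2, a8.1, a8.2, a9.1, a9.2]

end Pool.LibSR53
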