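import Pool.Agent.LibSR53.Defs

/-
PLAN (Q2). Take m from hlev. sum over S = sum_{n in image} of the sums over lev S m n. Triangle inequality in L^q (eLpNorm_sum_le with exponent ENNReal.ofReal q, or
ENNReal.lintegral_Lp_add_le): |f|_q <= sum_n (C0 2^(-delta n) wt S)^(1/q) <= (C0 wt S)^(1/q) sum_n 2^(-delta n/q) (geometric, finite). Raise to the power q.
wt S >= 0.
-/

set_option autoImplicit false

noncomputable section

open MeasureTheory Metric Set Filter

namespace Pool.LibSR53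

/-- summation over the levels -/
theorem restricted (d : ℕ) (F : P d → E d → ℂ) (K α : ℝ)
    (hF : ∀ p : P d, 1 ≤ p.2 → AEStronglyMeasurable (F p) volume)
    (hlev : ∀ S : Finset (P d), (∀ p ∈ S, 1 ≤ p.2) → ∃ m : P d → ℕ, Lev S m)
    (q : ℝ) (hq1 : 1 < q) (C0 δ : ℝ) (hC0 : 0 < C0) (hδ : 0 < δ)
    (h : ∀ (S : Finset (P d)) (m : P d → ℕ), Good K α S → Lev S m →
      ∀ (n : ℕ) (γ : P d → ℂ), (∀ p, ‖γ p‖ ≤ 1) →
      ∫⁻ x, ‖∑ p ∈ lev S m n, γ p * F p x‖ₑ ^ q ≤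
        ENNReal.ofReal (C0 * (2 : ℝ) ^ (-(δ * n)) * wt S)) :
    ∃ C : ℝ, 0 < C ∧ ∀ S : Finset (P d), Good K α S → ∀ γ : P d → ℂ, (∀ p, ‖γ p‖ ≤ 1) →
      ∫⁻ x, ‖∑ p ∈ S, γ p * F p x‖ₑ ^ q ≤ ENNReal.ofReal (C * wt S) := by
  classical
  have hq0 : 0 < q := one_pos.trans hq1
  set ρ : ℝ := (2 : ℝ) ^ (-(δ / q)) with hρ
  have hρ0 : 0 < ρ := Real.rpow_pos_of_pos two_pos _
  have hρ1 : ρ < 1 := Real.rpow_lt_one_of_one_lt_of_neg one_lt_two (by
    have := div_pos hδ hq0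
    linarith)
  have h1ρ : 0 < 1 - ρ := by linarith
  refine ⟨C0 * ((1 - ρ)⁻¹) ^ q, by positivity, fun S hS γ hγ => ?_⟩
  have hw : 0 ≤ wt S := Finset.sum_nonneg fun p hp =>
    pow_nonneg (zero_le_one.trans (hS.one_le p hp)) _
  obtain ⟨m, hm⟩ := hlev S hS.one_le
  set f : ℕ → E d → ℂ := fun n x => ∑ p ∈ lev S m n, γ p * F p x with hf
  have hmeas : ∀ n, AEStronglyMeasurable (f n) volume := by
    intro n
    have h1 : f n = ∑ p ∈ lev S m n, fun x => γ p * F p x := by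
      funext x
      rw [Finset.sum_apply]
    rw [h1]
    refine Finset.aestronglyMeasurable_sum _ fun p hp => ?_
    have hpS : p ∈ S := by
      unfold lev at hp
      exact (Finset.mem_filter.1 hp).1
    exact (hF p (hS.one_le p hpS)).const_mul (γ p)
  have hsum : ∀ x, ∑ p ∈ S, γ p * F p x = (∑ n ∈ S.image m, f n) x := by
    intro x
    rw [Finset.sum_apply]
    have h1 := (Finset.sum_fiberwise_of_maps_to (s := S) (t := S.image m) (g := m)
      (fun p hp => Finset.mem_image_of_mem m hp) (fun p => γ p * F p x)).symm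
    rw [h1]
    refine Finset.sum_congr rfl fun n _ => ?_
    rw [hf]
    show _ = ∑ p ∈ lev S m n, γ p * F p x
    unfold lev
    congr
  have hp0 : ENNReal.ofReal q ≠ 0 := by
    rw [Ne, ENNReal.ofReal_eq_zero]
    linarith
  have hpt : ENNReal.ofReal q ≠ ⊤ := ENNReal.ofReal_ne_top
  have hp1 : 1 ≤ ENNReal.ofReal q := by
    rw [ENNReal.one_le_ofReal]
    exact hq1.le
  have hnorm : ∀ g : E d → ℂ, eLpNorm g (ENNReal.ofReal q) volume =
      (∫⁻ x, ‖g x‖ₑ ^ q) ^ (1 / q) := by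
    intro g
    rw [eLpNorm_eq_lintegral_rpow_enorm_toReal hp0 hpt, ENNReal.toReal_ofReal hq0.le]
  have hn : ∀ n, eLpNorm (f n) (ENNReal.ofReal q) volume ≤
      ENNReal.ofReal ((C0 * wt S) ^ (1 / q) * ρ ^ n) := by
    intro n
    rw [hnorm]
    have h1 := ENNReal.rpow_le_rpow (h S m hS hm n γ hγ) (one_div_nonneg.2 hq0.le)
    refine h1.trans (le_of_eq ?_)
    rw [ENNReal.ofReal_rpow_of_nonneg (by positivity) (one_div_nonneg.2 hq0.le)]
    congr 1
    rw [show C0 * (2 : ℝ) ^ (-(δ * n)) * wt S = (C0 * wt S) * (2 : ℝ) ^ (-(δ * n)) by ring,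
      Real.mul_rpow (by positivity) (by positivity), ← Real.rpow_mul two_pos.le]
    congr 1
    rw [hρ, ← Real.rpow_natCast, ← Real.rpow_mul two_pos.le]
    congr 1
    field_simp
  have htri : eLpNorm (∑ n ∈ S.image m, f n) (ENNReal.ofReal q) volume ≤
      ENNReal.ofReal ((C0 * wt S) ^ (1 / q) * (1 - ρ)⁻¹) := by
    refine (eLpNorm_sum_le (fun n _ => hmeas n) hp1).trans ?_
    refine (Finset.sum_le_sum fun n _ => hn n).trans ?_
    rw [← ENNReal.ofReal_sum_of_nonneg (fun n _ => by positivity)]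
    refine ENNReal.ofReal_le_ofReal ?_
    rw [← Finset.mul_sum]
    refine mul_le_mul_of_nonneg_left ?_ (by positivity)
    rw [← tsum_geometric_of_lt_one hρ0.le hρ1]
    exact (summable_geometric_of_lt_one hρ0.le hρ1).sum_le_tsum _ (fun n _ => by positivity)
  have hfin : ∫⁻ x, ‖∑ p ∈ S, γ p * F p x‖ₑ ^ q =
      (eLpNorm (∑ n ∈ S.image m, f n) (ENNReal.ofReal q) volume) ^ q := by
    rw [hnorm, ← ENNReal.rpow_mul, one_div, inv_mul_cancel₀ hq0.ne', ENNReal.rpow_one]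
    simp only [hsum]
  rw [hfin]
  refine (ENNReal.rpow_le_rpow htri hq0.le).trans (le_of_eq ?_)
  rw [ENNReal.ofReal_rpow_of_nonneg (by positivity) hq0.le]
  congr 1
  rw [Real.mul_rpow (by positivity) (by positivity), ← Real.rpow_mul (by positivity), one_div,
    inv_mul_cancel₀ hq0.ne', Real.rpow_one]
  ring

end Pool.LibSR53
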