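import Pool.Agent.LibSR53.C1

/-
PLAN (L1). Dyadic shells 2^j <= dist < 2^(j+1), weight w_j = 2^(-j nu)/(1+2^(j-k))^(d+2), number of points N_(j+1):
w_j N_(j+1) <= C u 2^(j(1-nu)) in both cases j+1 <= k (Dens) and j >= k (count_ball); geometric series over j >= j0,
2^j0 <= L < 2^(j0+1).
-/

set_option autoImplicit false

noncomputable section

open MeasureTheory Metric Set Filter

namespace Pool.LibSR53

/-- geometric tail over a finite set of indices -/
theorem geom_tail_aux (r : ℝ) (hr0 : 0 ≤ r) (hr1 : r < 1) (j0 : ℕ) (J : Finset ℕ)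
    (hJ : ∀ j ∈ J, j0 ≤ j) : ∑ j ∈ J, r ^ j ≤ r ^ j0 / (1 - r) := by
  classical
  have hsum : Summable (fun i : ℕ => r ^ i) := summable_geometric_of_lt_one hr0 hr1
  have h1 : ∑ j ∈ J, r ^ j = ∑ i ∈ J.image (fun j => j - j0), r ^ (i + j0) := by
    rw [Finset.sum_image]
    · refine Finset.sum_congr rfl fun j hj => ?_
      rw [Nat.sub_add_cancel (hJ j hj)]
    · intro a ha b hb hab
      have h1 := hJ a ha
      have h2 := hJ b hb
      simp only at hab
      omega
  rw [h1]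
  calc ∑ i ∈ J.image (fun j => j - j0), r ^ (i + j0)
      = r ^ j0 * ∑ i ∈ J.image (fun j => j - j0), r ^ i := by
        rw [Finset.mul_sum]
        refine Finset.sum_congr rfl fun i _ => ?_
        rw [pow_add, mul_comm]
    _ ≤ r ^ j0 * ∑' i : ℕ, r ^ i := by
        refine mul_le_mul_of_nonneg_left ?_ (pow_nonneg hr0 _)
        exact hsum.sum_le_tsum _ (fun i _ => pow_nonneg hr0 _)
    _ = r ^ j0 / (1 - r) := by
        rw [tsum_geometric_of_lt_one hr0 hr1, div_eq_mul_inv]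

/-- sum of the same-scale kernel over the far points -/
theorem far_sum (d : ℕ) (hd : 4 ≤ d) : ∃ C : ℝ, 0 < C ∧ ∀ (k : ℕ) (u : ℝ) (S : Finset (P d)),
    0 ≤ u → Dens u S → ∀ p ∈ sc k S, ∀ L : ℝ, 1 ≤ L →
    ∑ q ∈ far (sc k S) p L, (1 + dist p q) ^ (-nu d) / (1 + dist p q / 2 ^ k) ^ (d + 2) ≤
      C * u * L ^ (1 - nu d) := by
  classical
  obtain ⟨C1, hC1, hcount⟩ := count_ball d
  have hν : (3 : ℝ) / 2 ≤ nu d := by
    unfold nu
    have : (4 : ℝ) ≤ (d : ℝ) := by exact_mod_cast hd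
    linarith
  set r : ℝ := (2 : ℝ) ^ (1 - nu d) with hr
  have hr0 : 0 < r := Real.rpow_pos_of_pos (by norm_num) _
  have hr1 : r < 1 := Real.rpow_lt_one_of_one_lt_of_neg (by norm_num) (by linarith)
  have h1r : 0 < 1 - r := by linarith
  have hrj : ∀ j : ℕ, ((2 : ℝ) ^ j) ^ (1 - nu d) = r ^ j := by
    intro j
    rw [hr, ← Real.rpow_natCast, ← Real.rpow_natCast, ← Real.rpow_mul (by norm_num),
      ← Real.rpow_mul (by norm_num), mul_comm]
  set A : ℝ := 2 + C1 * 2 ^ (d + 1) with hA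
  have hA0 : 0 < A := by positivity
  refine ⟨A * ((2 : ℝ) ^ (nu d - 1)) / (1 - r), by positivity, ?_⟩
  intro k u S hu hD p hp L hL
  -- the level of a far point
  have hlev : ∀ q ∈ far (sc k S) p L, ∃ j : ℕ, (2 : ℝ) ^ j ≤ dist p q ∧ dist p q < 2 ^ (j + 1) := by
    intro q hq
    have h1 : L ≤ dist q p := (Finset.mem_filter.1 hq).2
    rw [dist_comm] at h1
    exact exists_nat_pow_near (hL.trans h1) (by norm_num)
  choose! g hg using hlev
  obtain ⟨j0, hj0, hj0'⟩ := exists_nat_pow_near hL (by norm_num : (1 : ℝ) < 2)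
  set w : ℕ → ℝ := fun j => ((2 : ℝ) ^ j) ^ (-nu d) / (1 + 2 ^ j / 2 ^ k) ^ (d + 2) with hw
  have hw0 : ∀ j, 0 ≤ w j := fun j => by rw [hw]; positivity
  have hterm : ∀ q ∈ far (sc k S) p L,
      (1 + dist p q) ^ (-nu d) / (1 + dist p q / 2 ^ k) ^ (d + 2) ≤ w (g q) := by
    intro q hq
    obtain ⟨h1, h2⟩ := hg q hq
    have hD0 : 0 ≤ dist p q := dist_nonneg
    have h2j : (0 : ℝ) < 2 ^ (g q) := by positivity
    rw [hw]
    refine div_le_div₀ (by positivity) ?_ (by positivity) ?_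
    · exact Real.rpow_le_rpow_of_nonpos h2j (by linarith) (by linarith)
    · refine pow_le_pow_left₀ (by positivity) ?_ _
      have : (2 : ℝ) ^ (g q) / 2 ^ k ≤ dist p q / 2 ^ k := by
        apply div_le_div_of_nonneg_right h1 (by positivity)
      linarith
  have hcard : ∀ j : ℕ,
      (({q ∈ far (sc k S) p L | g q = j} : Finset (P d)).card : ℝ) * w j ≤ A * u * r ^ j := by
    intro j
    have hsub : ({q ∈ far (sc k S) p L | g q = j} : Finset (P d)) ⊆
        nb (sc k S) p ((2 : ℝ) ^ (j + 1)) := by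
      intro q hq
      obtain ⟨hq1, hq2⟩ := Finset.mem_filter.1 hq
      have h2 := (hg q hq1).2
      refine Finset.mem_filter.2 ⟨(Finset.mem_filter.1 hq1).1, ?_⟩
      rw [dist_comm, ← hq2]
      exact h2.le
    have hc : (({q ∈ far (sc k S) p L | g q = j} : Finset (P d)).card : ℝ) ≤
        ((nb (sc k S) p ((2 : ℝ) ^ (j + 1))).card : ℝ) := by
      exact_mod_cast Finset.card_le_card hsub
    have hνj : ((2 : ℝ) ^ j) ^ (-nu d) * 2 ^ j = r ^ j := by
      rw [← hrj j]
      have h2j : (0 : ℝ) < 2 ^ j := by positivity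
      have : (1 : ℝ) - nu d = -nu d + 1 := by ring
      rw [this, Real.rpow_add h2j, Real.rpow_one]
    rcases Nat.lt_or_ge j k with hjk | hjk
    · -- small shells
      have hN : ((nb (sc k S) p ((2 : ℝ) ^ (j + 1))).card : ℝ) ≤ u * 2 ^ (j + 1) :=
        hD k p hp (j + 1) hjk
      have hwj : w j ≤ ((2 : ℝ) ^ j) ^ (-nu d) := by
        rw [hw]
        refine div_le_self (by positivity) ?_
        apply one_le_pow₀
        have : (0 : ℝ) ≤ 2 ^ j / 2 ^ k := by positivity
        linarith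
      calc (({q ∈ far (sc k S) p L | g q = j} : Finset (P d)).card : ℝ) * w j
          ≤ (u * 2 ^ (j + 1)) * ((2 : ℝ) ^ j) ^ (-nu d) :=
            mul_le_mul (hc.trans hN) hwj (hw0 j) (by positivity)
        _ = 2 * u * (((2 : ℝ) ^ j) ^ (-nu d) * 2 ^ j) := by ring
        _ = 2 * u * r ^ j := by rw [hνj]
        _ ≤ A * u * r ^ j := by
            refine mul_le_mul_of_nonneg_right (mul_le_mul_of_nonneg_right ?_ hu) (by positivity)
            rw [hA]
            have : 0 < C1 * 2 ^ (d + 1) := by positivity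
            linarith
    · -- large shells
      obtain ⟨m, rfl⟩ := Nat.exists_eq_add_of_le hjk
      have hN : ((nb (sc k S) p ((2 : ℝ) ^ (k + m + 1))).card : ℝ) ≤
          C1 * u * 2 ^ k * 2 ^ ((m + 1) * (d + 1)) := by
        have := hcount k u S hu hD p (m + 1)
        rwa [← add_assoc] at this
      have hwj : w (k + m) ≤ ((2 : ℝ) ^ (k + m)) ^ (-nu d) / (2 ^ m) ^ (d + 2) := by
        rw [hw]
        refine div_le_div_of_nonneg_left (by positivity) (by positivity) ?_
        refine pow_le_pow_left₀ (by positivity) ?_ _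
        have : (2 : ℝ) ^ (k + m) / 2 ^ k = 2 ^ m := by
          rw [pow_add]; field_simp
        rw [this]; linarith
      have key : (2 : ℝ) ^ k * 2 ^ ((m + 1) * (d + 1)) / (2 ^ m) ^ (d + 2) ≤
          2 ^ (d + 1) * 2 ^ (k + m) := by
        rw [div_le_iff₀ (by positivity), ← pow_mul, ← pow_add, ← pow_add, ← pow_add]
        apply pow_le_pow_right₀ (by norm_num)
        nlinarith
      calc (({q ∈ far (sc k S) p L | g q = k + m} : Finset (P d)).card : ℝ) * w (k + m)
          ≤ (C1 * u * 2 ^ k * 2 ^ ((m + 1) * (d + 1))) *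
              (((2 : ℝ) ^ (k + m)) ^ (-nu d) / (2 ^ m) ^ (d + 2)) :=
            mul_le_mul (hc.trans hN) hwj (hw0 _) (by positivity)
        _ = C1 * u * ((2 : ℝ) ^ (k + m)) ^ (-nu d) *
              ((2 : ℝ) ^ k * 2 ^ ((m + 1) * (d + 1)) / (2 ^ m) ^ (d + 2)) := by ring
        _ ≤ C1 * u * ((2 : ℝ) ^ (k + m)) ^ (-nu d) * (2 ^ (d + 1) * 2 ^ (k + m)) :=
            mul_le_mul_of_nonneg_left key (by positivity)
        _ = C1 * 2 ^ (d + 1) * u * (((2 : ℝ) ^ (k + m)) ^ (-nu d) * 2 ^ (k + m)) := by ring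
        _ = C1 * 2 ^ (d + 1) * u * r ^ (k + m) := by rw [hνj]
        _ ≤ A * u * r ^ (k + m) := by
            refine mul_le_mul_of_nonneg_right (mul_le_mul_of_nonneg_right ?_ hu) (by positivity)
            rw [hA]; linarith
  have hL0 : 0 < L := by linarith
  -- the first term
  have hfirst : r ^ j0 ≤ (2 : ℝ) ^ (nu d - 1) * L ^ (1 - nu d) := by
    have h1 : ((2 : ℝ) ^ (j0 + 1)) ^ (1 - nu d) ≤ L ^ (1 - nu d) :=
      Real.rpow_le_rpow_of_nonpos hL0 hj0'.le (by linarith)
    rw [hrj (j0 + 1)] at h1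
    have h2 : r * (2 : ℝ) ^ (nu d - 1) = 1 := by
      rw [hr, ← Real.rpow_add (by norm_num)]
      simp
    calc r ^ j0 = (2 : ℝ) ^ (nu d - 1) * r ^ (j0 + 1) := by
          rw [pow_succ]
          linear_combination (-(r ^ j0)) * h2
      _ ≤ (2 : ℝ) ^ (nu d - 1) * L ^ (1 - nu d) :=
          mul_le_mul_of_nonneg_left h1 (by positivity)
  calc ∑ q ∈ far (sc k S) p L, (1 + dist p q) ^ (-nu d) / (1 + dist p q / 2 ^ k) ^ (d + 2)
      ≤ ∑ q ∈ far (sc k S) p L, w (g q) := Finset.sum_le_sum hterm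
    _ = ∑ j ∈ (far (sc k S) p L).image g,
          (({q ∈ far (sc k S) p L | g q = j} : Finset (P d)).card : ℝ) * w j := by
        rw [Finset.sum_comp w g]
        simp only [nsmul_eq_mul]
    _ ≤ ∑ j ∈ (far (sc k S) p L).image g, A * u * r ^ j :=
        Finset.sum_le_sum fun j _ => hcard j
    _ = A * u * ∑ j ∈ (far (sc k S) p L).image g, r ^ j := by rw [Finset.mul_sum]
    _ ≤ A * u * (r ^ j0 / (1 - r)) := by
        refine mul_le_mul_of_nonneg_left ?_ (by positivity)
        refine geom_tail_aux r hr0.le hr1 j0 _ ?_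
        intro j hj
        obtain ⟨q, hq, rfl⟩ := Finset.mem_image.1 hj
        have h1 : L ≤ dist q p := (Finset.mem_filter.1 hq).2
        rw [dist_comm] at h1
        have h2 := (hg q hq).2
        have h3 : (2 : ℝ) ^ j0 < 2 ^ (g q + 1) := by linarith
        have h4 := (pow_lt_pow_iff_right₀ (by norm_num : (1 : ℝ) < 2)).1 h3
        omega
    _ ≤ A * u * (((2 : ℝ) ^ (nu d - 1) * L ^ (1 - nu d)) / (1 - r)) := by
        refine mul_le_mul_of_nonneg_left ?_ (by positivity)
        exact div_le_div_of_nonneg_right hfirst h1r.le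
    _ = A * ((2 : ℝ) ^ (nu d - 1)) / (1 - r) * u * L ^ (1 - nu d) := by ring

end Pool.LibSR53
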