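import Pool.Agent.LibSR53.L2
import Pool.Agent.LibSR53.L3

set_option autoImplicit false

noncomputable section

open MeasureTheory Metric Set Filter

namespace Pool.LibSR53

private theorem l4_low {H : Type} [NormedAddCommGroup H] [InnerProductSpace ℂ H] (g : ℕ → H)
    (T : Finset ℕ) : ‖∑ k ∈ T, g k‖ ^ 2 ≤ (T.card : ℝ) * ∑ k ∈ T, ‖g k‖ ^ 2 := by
  calc ‖∑ k ∈ T, g k‖ ^ 2 ≤ (∑ k ∈ T, ‖g k‖) ^ 2 := by
        gcongr
        exact norm_sum_le _ _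
    _ ≤ (T.card : ℝ) * ∑ k ∈ T, ‖g k‖ ^ 2 := sq_sum_le_card_mul_sum_sq

private theorem l4_high {H : Type} [NormedAddCommGroup H] [InnerProductSpace ℂ H] (g : ℕ → H)
    (a : ℕ → ℝ) (ha : ∀ k, 0 ≤ a k) (A B W : ℝ) (hB : 0 ≤ B) (q : ℝ) (hq : 0 < q)
    (h1 : ∀ k, ‖g k‖ ^ 2 ≤ A * a k)
    (h2 : ∀ k l, k + 3 ≤ l → ‖(inner ℂ (g k) (g l) : ℂ)‖ ≤ B * q ^ k * a l)
    (T : Finset ℕ) (hW : ∑ k ∈ T, q ^ k ≤ W) :
    ‖∑ k ∈ T, g k‖ ^ 2 ≤ (5 * A + 2 * (B * W)) * ∑ k ∈ T, a k := by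
  classical
  have e1 : ‖∑ k ∈ T, g k‖ ^ 2 ≤ ∑ k ∈ T, ∑ l ∈ T, ‖(inner ℂ (g k) (g l) : ℂ)‖ := by
    have e2 : ‖∑ k ∈ T, g k‖ ^ 2 = RCLike.re (inner ℂ (∑ k ∈ T, g k) (∑ k ∈ T, g k) : ℂ) :=
      (norm_sq_eq_re_inner (𝕜 := ℂ) _)
    rw [e2]
    calc RCLike.re (inner ℂ (∑ k ∈ T, g k) (∑ k ∈ T, g k) : ℂ)
        ≤ ‖(inner ℂ (∑ k ∈ T, g k) (∑ k ∈ T, g k) : ℂ)‖ := RCLike.re_le_norm _
      _ = ‖∑ k ∈ T, ∑ l ∈ T, (inner ℂ (g k) (g l) : ℂ)‖ := by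
          rw [sum_inner]
          congr 1
          exact Finset.sum_congr rfl fun k _ => inner_sum _ _ _
      _ ≤ ∑ k ∈ T, ∑ l ∈ T, ‖(inner ℂ (g k) (g l) : ℂ)‖ :=
          (norm_sum_le _ _).trans (Finset.sum_le_sum fun k _ => norm_sum_le _ _)
  have e3 : ∀ k l : ℕ, ‖(inner ℂ (g k) (g l) : ℂ)‖ ≤
      (if (l ≤ k + 2 ∧ k ≤ l + 2) then (‖g k‖ ^ 2 + ‖g l‖ ^ 2) / 2 else 0) +
        (B * q ^ k * a l + B * q ^ l * a k) := by
    intro k l
    have p1 : 0 ≤ B * q ^ k * a l := mul_nonneg (mul_nonneg hB (pow_nonneg hq.le _)) (ha l)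
    have p2 : 0 ≤ B * q ^ l * a k := mul_nonneg (mul_nonneg hB (pow_nonneg hq.le _)) (ha k)
    by_cases h : l ≤ k + 2 ∧ k ≤ l + 2
    · rw [if_pos h]
      have e4 := norm_inner_le_norm (𝕜 := ℂ) (g k) (g l)
      nlinarith only [e4, p1, p2, sq_nonneg (‖g k‖ - ‖g l‖)]
    · rw [if_neg h, zero_add]
      by_cases h' : k + 3 ≤ l
      · have := h2 k l h'
        linarith only [this, p2]
      · have h'' : l + 3 ≤ k := by omega
        have := h2 l k h''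
        rw [norm_inner_symm] at this
        linarith only [this, p1]
  have e5 : ∀ k ∈ T, ∑ l ∈ T, (if (l ≤ k + 2 ∧ k ≤ l + 2) then ‖g k‖ ^ 2 else 0) ≤
      5 * (A * a k) := by
    intro k _
    rw [← Finset.sum_filter, Finset.sum_const, nsmul_eq_mul]
    have e6 : ((T.filter (fun l => l ≤ k + 2 ∧ k ≤ l + 2)).card : ℝ) ≤ 5 := by
      have e7 : T.filter (fun l => l ≤ k + 2 ∧ k ≤ l + 2) ⊆ Finset.Icc (k - 2) (k + 2) := by
        intro l hl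
        rw [Finset.mem_filter] at hl
        rw [Finset.mem_Icc]
        omega
      have e8 := Finset.card_le_card e7
      rw [Nat.card_Icc] at e8
      have : (T.filter (fun l => l ≤ k + 2 ∧ k ≤ l + 2)).card ≤ 5 := by omega
      exact_mod_cast this
    have e9 := h1 k
    have e10 : 0 ≤ ‖g k‖ ^ 2 := sq_nonneg _
    calc ((T.filter (fun l => l ≤ k + 2 ∧ k ≤ l + 2)).card : ℝ) * ‖g k‖ ^ 2
        ≤ 5 * ‖g k‖ ^ 2 := mul_le_mul_of_nonneg_right e6 e10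
      _ ≤ 5 * (A * a k) := mul_le_mul_of_nonneg_left e9 (by norm_num)
  have e11 : ∑ k ∈ T, ∑ l ∈ T, (if (l ≤ k + 2 ∧ k ≤ l + 2) then (‖g k‖ ^ 2 + ‖g l‖ ^ 2) / 2 else 0)
      = ∑ k ∈ T, ∑ l ∈ T, (if (l ≤ k + 2 ∧ k ≤ l + 2) then ‖g k‖ ^ 2 else 0) := by
    have e12 : ∀ k l : ℕ, (if (l ≤ k + 2 ∧ k ≤ l + 2) then (‖g k‖ ^ 2 + ‖g l‖ ^ 2) / 2 else 0) =
        (if (l ≤ k + 2 ∧ k ≤ l + 2) then ‖g k‖ ^ 2 else 0) / 2 +
        (if (k ≤ l + 2 ∧ l ≤ k + 2) then ‖g l‖ ^ 2 else 0) / 2 := by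
      intro k l
      by_cases h : l ≤ k + 2 ∧ k ≤ l + 2
      · rw [if_pos h, if_pos h, if_pos ⟨h.2, h.1⟩]; ring
      · rw [if_neg h, if_neg h, if_neg (fun h' => h ⟨h'.2, h'.1⟩)]; ring
    calc ∑ k ∈ T, ∑ l ∈ T, (if (l ≤ k + 2 ∧ k ≤ l + 2) then (‖g k‖ ^ 2 + ‖g l‖ ^ 2) / 2 else 0)
        = ∑ k ∈ T, ∑ l ∈ T, (if (l ≤ k + 2 ∧ k ≤ l + 2) then ‖g k‖ ^ 2 else 0) / 2 +
          ∑ k ∈ T, ∑ l ∈ T, (if (k ≤ l + 2 ∧ l ≤ k + 2) then ‖g l‖ ^ 2 else 0) / 2 := by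
          rw [← Finset.sum_add_distrib]
          refine Finset.sum_congr rfl fun k _ => ?_
          rw [← Finset.sum_add_distrib]
          exact Finset.sum_congr rfl fun l _ => e12 k l
      _ = _ := by
          rw [Finset.sum_comm (s := T) (t := T) (f := fun k l =>
            (if (k ≤ l + 2 ∧ l ≤ k + 2) then ‖g l‖ ^ 2 else 0) / 2), ← Finset.sum_add_distrib]
          refine Finset.sum_congr rfl fun k _ => ?_
          rw [← Finset.sum_add_distrib]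
          exact Finset.sum_congr rfl fun l _ => add_halves _
  have e13 : ∑ k ∈ T, ∑ l ∈ T, (B * q ^ k * a l + B * q ^ l * a k) ≤
      2 * (B * W) * ∑ k ∈ T, a k := by
    have s0 : 0 ≤ ∑ k ∈ T, a k := Finset.sum_nonneg fun k _ => ha k
    have s1 : ∑ k ∈ T, ∑ l ∈ T, (B * q ^ k * a l + B * q ^ l * a k) =
        2 * (B * (∑ k ∈ T, q ^ k)) * ∑ k ∈ T, a k := by
      have s2 : ∑ k ∈ T, ∑ l ∈ T, B * q ^ k * a l = B * (∑ k ∈ T, q ^ k) * ∑ k ∈ T, a k := by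
        have s5 : B * (∑ k ∈ T, q ^ k) * ∑ k ∈ T, a k = ∑ k ∈ T, B * q ^ k * ∑ l ∈ T, a l := by
          rw [← Finset.sum_mul, ← Finset.mul_sum]
        rw [s5]
        exact Finset.sum_congr rfl fun k _ => (Finset.mul_sum _ _ _).symm
      have s3 : ∑ k ∈ T, ∑ l ∈ T, B * q ^ l * a k = B * (∑ k ∈ T, q ^ k) * ∑ k ∈ T, a k := by
        rw [Finset.sum_comm, s2]
      have s4 : ∑ k ∈ T, ∑ l ∈ T, (B * q ^ k * a l + B * q ^ l * a k) =
          ∑ k ∈ T, ∑ l ∈ T, B * q ^ k * a l + ∑ k ∈ T, ∑ l ∈ T, B * q ^ l * a k := by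
        rw [← Finset.sum_add_distrib]
        exact Finset.sum_congr rfl fun k _ => Finset.sum_add_distrib
      rw [s4, s2, s3]; ring
    rw [s1]
    gcongr
  calc ‖∑ k ∈ T, g k‖ ^ 2 ≤ ∑ k ∈ T, ∑ l ∈ T, ‖(inner ℂ (g k) (g l) : ℂ)‖ := e1
    _ ≤ ∑ k ∈ T, ∑ l ∈ T,
        ((if (l ≤ k + 2 ∧ k ≤ l + 2) then (‖g k‖ ^ 2 + ‖g l‖ ^ 2) / 2 else 0) +
        (B * q ^ k * a l + B * q ^ l * a k)) :=
        Finset.sum_le_sum fun k _ => Finset.sum_le_sum fun l _ => e3 k l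
    _ = ∑ k ∈ T, ∑ l ∈ T, (if (l ≤ k + 2 ∧ k ≤ l + 2) then (‖g k‖ ^ 2 + ‖g l‖ ^ 2) / 2 else 0) +
        ∑ k ∈ T, ∑ l ∈ T, (B * q ^ k * a l + B * q ^ l * a k) := by
        rw [← Finset.sum_add_distrib]
        exact Finset.sum_congr rfl fun k _ => Finset.sum_add_distrib
    _ ≤ ∑ k ∈ T, 5 * (A * a k) + 2 * (B * W) * ∑ k ∈ T, a k := by
        rw [e11]
        exact add_le_add (Finset.sum_le_sum e5) e13
    _ = _ := by
        rw [← Finset.mul_sum, ← Finset.mul_sum]; ring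

private theorem l4_abs {H : Type} [NormedAddCommGroup H] [InnerProductSpace ℂ H] (g : ℕ → H)
    (a : ℕ → ℝ) (ha : ∀ k, 0 ≤ a k) (A B : ℝ) (hA : 0 ≤ A) (hB : 0 ≤ B) (q : ℝ) (hq : 0 < q)
    (hq1 : q < 1) (h1 : ∀ k, ‖g k‖ ^ 2 ≤ A * a k)
    (h2 : ∀ k l, k + 3 ≤ l → ‖(inner ℂ (g k) (g l) : ℂ)‖ ≤ B * q ^ k * a l) (k0 N : ℕ) :
    ‖∑ k ∈ Finset.range N, g k‖ ^ 2 ≤
      (2 * (k0 : ℝ) * A + 2 * (5 * A + 2 * (B * (q ^ k0 / (1 - q))))) *
        ∑ k ∈ Finset.range N, a k := by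
  classical
  have f1 := Finset.sum_filter_add_sum_filter_not (Finset.range N) (fun k => k < k0) g
  have f2 := Finset.sum_filter_add_sum_filter_not (Finset.range N) (fun k => k < k0) a
  have f3 : ‖∑ k ∈ (Finset.range N).filter (fun k => k < k0), g k‖ ^ 2 ≤
      (k0 : ℝ) * A * ∑ k ∈ Finset.range N, a k := by
    refine (l4_low g _).trans ?_
    have c1 : (((Finset.range N).filter (fun k => k < k0)).card : ℝ) ≤ (k0 : ℝ) := by
      have : (Finset.range N).filter (fun k => k < k0) ⊆ Finset.range k0 := by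
        intro k hk
        rw [Finset.mem_filter] at hk
        exact Finset.mem_range.mpr hk.2
      have := Finset.card_le_card this
      rw [Finset.card_range] at this
      exact_mod_cast this
    have c2 : ∑ k ∈ (Finset.range N).filter (fun k => k < k0), ‖g k‖ ^ 2 ≤
        A * ∑ k ∈ Finset.range N, a k := by
      calc ∑ k ∈ (Finset.range N).filter (fun k => k < k0), ‖g k‖ ^ 2
          ≤ ∑ k ∈ (Finset.range N).filter (fun k => k < k0), A * a k :=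
            Finset.sum_le_sum fun k _ => h1 k
        _ ≤ ∑ k ∈ Finset.range N, A * a k :=
            Finset.sum_le_sum_of_subset_of_nonneg (Finset.filter_subset _ _)
              fun k _ _ => mul_nonneg hA (ha k)
        _ = _ := (Finset.mul_sum _ _ _).symm
    have c3 : 0 ≤ ∑ k ∈ (Finset.range N).filter (fun k => k < k0), ‖g k‖ ^ 2 :=
      Finset.sum_nonneg fun k _ => sq_nonneg _
    calc (((Finset.range N).filter (fun k => k < k0)).card : ℝ) *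
        ∑ k ∈ (Finset.range N).filter (fun k => k < k0), ‖g k‖ ^ 2
        ≤ (k0 : ℝ) * (A * ∑ k ∈ Finset.range N, a k) :=
          mul_le_mul c1 c2 c3 (Nat.cast_nonneg _)
      _ = _ := by ring
  have f4 : ∑ k ∈ (Finset.range N).filter (fun k => ¬ k < k0), q ^ k ≤ q ^ k0 / (1 - q) := by
    refine le_trans (Finset.sum_le_sum_of_subset_of_nonneg (t := Finset.Ico k0 N) ?_
      fun k _ _ => pow_nonneg hq.le _) (geom_sum_Ico_le_of_lt_one hq.le hq1)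
    intro k hk
    rw [Finset.mem_filter, Finset.mem_range] at hk
    rw [Finset.mem_Ico]
    omega
  have f5 : ‖∑ k ∈ (Finset.range N).filter (fun k => ¬ k < k0), g k‖ ^ 2 ≤
      (5 * A + 2 * (B * (q ^ k0 / (1 - q)))) * ∑ k ∈ Finset.range N, a k := by
    refine (l4_high g a ha A B _ hB q hq h1 h2 _ f4).trans ?_
    have c1 : 0 ≤ q ^ k0 / (1 - q) := div_nonneg (pow_nonneg hq.le _) (by linarith only [hq1])
    have c2 : 0 ≤ 5 * A + 2 * (B * (q ^ k0 / (1 - q))) := by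
      have := mul_nonneg hB c1
      linarith only [this, hA]
    exact mul_le_mul_of_nonneg_left (Finset.sum_le_sum_of_subset_of_nonneg
      (Finset.filter_subset _ _) fun k _ _ => ha k) c2
  rw [← f1]
  have f6 : ∀ x y : H, ‖x + y‖ ^ 2 ≤ 2 * ‖x‖ ^ 2 + 2 * ‖y‖ ^ 2 := by
    intro x y
    have c1 := norm_add_le x y
    have c2 := norm_nonneg (x + y)
    nlinarith only [c1, c2, sq_nonneg (‖x‖ - ‖y‖), norm_nonneg x, norm_nonneg y]
  refine (f6 _ _).trans ?_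
  calc _ ≤ 2 * ((k0 : ℝ) * A * ∑ k ∈ Finset.range N, a k) +
        2 * ((5 * A + 2 * (B * (q ^ k0 / (1 - q)))) * ∑ k ∈ Finset.range N, a k) := by
        linarith only [f3, f5]
    _ = _ := by ring

private theorem l4_split {d : ℕ} (S : Finset (P d)) (hS : ∀ p ∈ S, 1 ≤ p.2) :
    ∃ N : ℕ, (∀ (M : Type) [AddCommMonoid M] (f : P d → M),
      ∑ k ∈ Finset.range N, ∑ p ∈ sc k S, f p = ∑ p ∈ S, f p) := by
  classical
  have h1 : ∀ p : P d, 1 ≤ p.2 → ∃ k : ℕ, (2 : ℝ) ^ k ≤ p.2 ∧ p.2 < (2 : ℝ) ^ (k + 1) :=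
    fun p hp => exists_nat_pow_near hp one_lt_two
  choose! κ hκ using h1
  refine ⟨S.sup κ + 1, fun M _ f => ?_⟩
  rw [← Finset.sum_fiberwise_of_maps_to (s := S) (t := Finset.range (S.sup κ + 1)) (g := κ)
    (fun p hp => Finset.mem_range.mpr (Nat.lt_succ_of_le (Finset.le_sup hp)))]
  refine Finset.sum_congr rfl fun k _ => ?_
  refine Finset.sum_congr ?_ fun _ _ => rfl
  ext p
  unfold sc
  rw [Finset.mem_filter, Finset.mem_filter]
  constructor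
  · rintro ⟨hp, h2, h3⟩
    refine ⟨hp, ?_⟩
    obtain ⟨h4, h5⟩ := hκ p (hS p hp)
    have h6 : κ p < k + 1 := (pow_lt_pow_iff_right₀ (one_lt_two (α := ℝ))).mp (h4.trans_lt h3)
    have h7 : k < κ p + 1 := (pow_lt_pow_iff_right₀ (one_lt_two (α := ℝ))).mp (h2.trans_lt h5)
    omega
  · rintro ⟨hp, h2⟩
    subst h2
    exact ⟨hp, hκ p (hS p hp)⟩

/-- the L2 estimate for families of density at most u -/
theorem total {H : Type} [NormedAddCommGroup H] [InnerProductSpace ℂ H] (d : ℕ)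
    (hd : 4 ≤ d) (C0 : ℝ) (v : P d → H) (hv : Ker d C0 v) (K α : ℝ) (hα0 : 0 ≤ α)
    (hα1 : α ≤ 1) : ∃ C : ℝ, 0 < C ∧ ∀ (S : Finset (P d)) (u : ℝ), Good K α S → 1 ≤ u →
    Dens u S → ∀ γ : P d → ℂ, (∀ p, ‖γ p‖ ≤ 1) →
    ‖∑ p ∈ S, γ p • v p‖ ^ 2 ≤
      C * (1 + Real.log u) * u ^ (α / (nu d - 1 + α)) * wt S := by
  obtain ⟨C1, hC1, H1⟩ := same_scale d hd C0 v hv K α hα0 hα1
  obtain ⟨C2, hC2, H2⟩ := cross_scale d hd C0 v hv
  have hd' : (4 : ℝ) ≤ d := by exact_mod_cast hd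
  have hnu : 0 < nu d - 1 := by unfold nu; linarith only [hd']
  obtain ⟨q, hq⟩ : ∃ q : ℝ, q = (2 : ℝ) ^ (-(nu d - 1)) := ⟨_, rfl⟩
  have hq0 : 0 < q := by rw [hq]; exact Real.rpow_pos_of_pos two_pos _
  have hq1 : q < 1 := by
    rw [hq]; exact Real.rpow_lt_one_of_one_lt_of_neg one_lt_two (by linarith only [hnu])
  have hqk : ∀ k : ℕ, (2 : ℝ) ^ (-((k : ℝ) * (nu d - 1))) = q ^ k := by
    intro k
    rw [hq, ← Real.rpow_natCast, ← Real.rpow_mul two_pos.le]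
    congr 1; ring
  have hlog2 : 0 < Real.log 2 := Real.log_pos one_lt_two
  have hcc : 0 < (nu d - 1) * Real.log 2 := mul_pos hnu hlog2
  have h1q : 0 < 1 - q := by linarith only [hq1]
  obtain ⟨c3, hc3⟩ : ∃ c3 : ℝ, c3 = 1 + 1 / ((nu d - 1) * Real.log 2) := ⟨_, rfl⟩
  have hc3' : 0 < c3 := by rw [hc3]; positivity
  refine ⟨2 * c3 * C1 + 10 * C1 + 4 * (C2 / (1 - q)), by positivity, ?_⟩
  intro S u hS hu hD γ hγ
  obtain ⟨N, hN⟩ := l4_split S hS.one_le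
  have hu0 : 0 < u := by linarith only [hu]
  have hlogu : 0 ≤ Real.log u := Real.log_nonneg hu
  obtain ⟨k0, hk0⟩ : ∃ k0 : ℕ, k0 = ⌈Real.log u / ((nu d - 1) * Real.log 2)⌉₊ := ⟨_, rfl⟩
  have hk1 : (k0 : ℝ) ≤ c3 * (1 + Real.log u) := by
    have c1 : (k0 : ℝ) < Real.log u / ((nu d - 1) * Real.log 2) + 1 := by
      rw [hk0]; exact Nat.ceil_lt_add_one (div_nonneg hlogu hcc.le)
    have c2 : Real.log u / ((nu d - 1) * Real.log 2) + 1 ≤ c3 * (1 + Real.log u) := by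
      rw [hc3]
      have c4 : 0 ≤ 1 / ((nu d - 1) * Real.log 2) := by positivity
      have c5 : Real.log u / ((nu d - 1) * Real.log 2) =
        1 / ((nu d - 1) * Real.log 2) * Real.log u := by ring
      rw [c5]
      nlinarith only [c4, hlogu]
    linarith only [c1, c2]
  have hk2 : u * q ^ k0 ≤ 1 := by
    have c1 : Real.log u / ((nu d - 1) * Real.log 2) ≤ (k0 : ℝ) := by
      rw [hk0]; exact Nat.le_ceil _
    have c2 : Real.log u ≤ (k0 : ℝ) * ((nu d - 1) * Real.log 2) := (div_le_iff₀ hcc).mp c1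
    have c3 : u ≤ (2 : ℝ) ^ ((k0 : ℝ) * (nu d - 1)) := by
      rw [← Real.log_le_log_iff hu0 (Real.rpow_pos_of_pos two_pos _), Real.log_rpow two_pos]
      linarith only [c2]
    rw [← hqk k0, Real.rpow_neg two_pos.le]
    exact (mul_inv_le_iff₀ (Real.rpow_pos_of_pos two_pos _)).mpr (by rw [one_mul]; exact c3)
  obtain ⟨θ, hθ⟩ : ∃ θ : ℝ, θ = α / (nu d - 1 + α) := ⟨_, rfl⟩
  have hθ0 : 0 ≤ θ := by
    rw [hθ]; exact div_nonneg hα0 (by linarith only [hnu, hα0])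
  have huθ : 1 ≤ u ^ θ := Real.one_le_rpow hu hθ0
  rw [← hθ]
  have hmain := l4_abs (fun k => ∑ p ∈ sc k S, γ p • v p)
    (fun k => (2 : ℝ) ^ (k * (d - 1)) * ((sc k S).card : ℝ)) (fun k => by positivity)
    (C1 * u ^ θ) (C2 * u) (by positivity) (by positivity) q hq0 hq1
    (fun k => by
      have := H1 S u hS hu hD k γ hγ
      rw [← hθ] at this
      rw [← mul_assoc]; exact this)
    (fun k l hkl => by
      have := H2 S u hS.one_le hu0.le hD k l hkl γ hγ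
      rw [hqk] at this
      rw [← mul_assoc]; exact this) k0 N
  simp only [hN] at hmain
  have hwt : ∑ k ∈ Finset.range N, (2 : ℝ) ^ (k * (d - 1)) * ((sc k S).card : ℝ) ≤ wt S := by
    unfold wt
    rw [← hN ℝ (fun p : P d => p.2 ^ (d - 1))]
    refine Finset.sum_le_sum fun k _ => ?_
    rw [mul_comm, ← nsmul_eq_mul]
    refine Finset.card_nsmul_le_sum _ _ _ fun p hp => ?_
    unfold sc at hp
    rw [Finset.mem_filter] at hp
    rw [pow_mul]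
    exact pow_le_pow_left₀ (by positivity) hp.2.1 _
  have hwt0 : 0 ≤ ∑ k ∈ Finset.range N, (2 : ℝ) ^ (k * (d - 1)) * ((sc k S).card : ℝ) :=
    Finset.sum_nonneg fun k _ => by positivity
  have hcoef : 2 * (k0 : ℝ) * (C1 * u ^ θ) +
      2 * (5 * (C1 * u ^ θ) + 2 * (C2 * u * (q ^ k0 / (1 - q)))) ≤
      (2 * c3 * C1 + 10 * C1 + 4 * (C2 / (1 - q))) * (1 + Real.log u) * u ^ θ := by
    have x1 : 0 < C1 * u ^ θ := by positivity
    have t1 : 2 * (k0 : ℝ) * (C1 * u ^ θ) ≤ 2 * (c3 * (1 + Real.log u)) * (C1 * u ^ θ) := by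
      have := mul_le_mul_of_nonneg_right hk1 x1.le
      linarith only [this]
    have t2 : 10 * (C1 * u ^ θ) ≤ 10 * (C1 * u ^ θ) * (1 + Real.log u) := by
      nlinarith only [x1, hlogu]
    have t3 : C2 * u * (q ^ k0 / (1 - q)) ≤ C2 / (1 - q) := by
      have : C2 * u * (q ^ k0 / (1 - q)) = C2 / (1 - q) * (u * q ^ k0) := by ring
      rw [this]
      exact mul_le_of_le_one_right (by positivity) hk2
    have t4 : C2 / (1 - q) ≤ C2 / (1 - q) * ((1 + Real.log u) * u ^ θ) := by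
      refine le_mul_of_one_le_right (by positivity) ?_
      nlinarith only [huθ, hlogu]
    nlinarith only [t1, t2, t3, t4]
  calc ‖∑ p ∈ S, γ p • v p‖ ^ 2 ≤ _ := hmain
    _ ≤ (2 * c3 * C1 + 10 * C1 + 4 * (C2 / (1 - q))) * (1 + Real.log u) * u ^ θ *
        ∑ k ∈ Finset.range N, (2 : ℝ) ^ (k * (d - 1)) * ((sc k S).card : ℝ) :=
        mul_le_mul_of_nonneg_right hcoef hwt0
    _ ≤ _ := mul_le_mul_of_nonneg_left hwt (by positivity)

end Pool.LibSR53
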