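import Pool.Agent.LibSR53.V1

set_option autoImplicit false

noncomputable section

open MeasureTheory Metric Set Filter

namespace Pool.LibSR53

private theorem v2_aux {d : ℕ} (hd : 2 ≤ d) (η : SchwartzMap (E d) ℂ) (y : E d) (r : ℝ)
    (hr : 0 < r) (A W : Set (E d)) (hA : MeasurableSet A) (hW : MeasurableSet W)
    (h : ∀ ζ ∈ sphere (0 : E d) r, ∀ x ∈ A, x - ζ - y ∈ W) :
    ∫⁻ x in A, ‖Fk η y r x‖ₑ ≤ (∫⁻ w in W, ‖η w‖ₑ) * sg d r univ := by
  have hfin : IsFiniteMeasure (sg d r) := sg_fin d hd r hr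
  have hηc : Continuous η := η.continuous
  obtain ⟨φ, hφ⟩ : ∃ φ : E d → ENNReal, φ = W.indicator (fun w => ‖η w‖ₑ) := ⟨_, rfl⟩
  have hind : Measurable φ := by rw [hφ]; exact hηc.enorm.measurable.indicator hW
  have h1 : ∫⁻ x in A, ‖Fk η y r x‖ₑ ≤
      ∫⁻ x in A, ∫⁻ ζ, φ (x - ζ - y) ∂(sg d r) := by
    have hA' : ∀ᵐ ζ ∂(sg d r), ζ ∈ sphere (0 : E d) r := by
      unfold sg
      exact ae_restrict_mem isClosed_sphere.measurableSet
    refine setLIntegral_mono' hA fun x hx => ?_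
    unfold Fk
    refine (enorm_integral_le_lintegral_enorm _).trans (le_of_eq ?_)
    refine lintegral_congr_ae ?_
    filter_upwards [hA'] with ζ hζ
    rw [hφ, Set.indicator_of_mem (h ζ hζ x hx)]
  have h2 : ∫⁻ x in A, ∫⁻ ζ, φ (x - ζ - y) ∂(sg d r) ≤
      ∫⁻ x, ∫⁻ ζ, φ (x - ζ - y) ∂(sg d r) :=
    setLIntegral_le_lintegral _ _
  have h3 : ∫⁻ x, ∫⁻ ζ, φ (x - ζ - y) ∂(sg d r) =
      ∫⁻ ζ, ∫⁻ x, φ (x - ζ - y) ∂(volume : Measure (E d)) ∂(sg d r) := by
    refine lintegral_lintegral_swap (f := fun x ζ => φ (x - ζ - y)) ?_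
    refine Measurable.aemeasurable ?_
    refine hind.comp ?_
    fun_prop
  have h4 : ∀ ζ : E d, ∫⁻ x, φ (x - ζ - y) ∂(volume : Measure (E d)) =
      ∫⁻ w in W, ‖η w‖ₑ := by
    intro ζ
    have e1 : ∀ x : E d, x - ζ - y = x - (ζ + y) := fun x => sub_sub _ _ _
    simp only [e1]
    rw [lintegral_sub_right_eq_self φ (ζ + y), hφ, lintegral_indicator hW]
  refine h1.trans (h2.trans (le_of_eq ?_))
  rw [h3]
  simp only [h4]
  rw [lintegral_const]

/-- L1 bound outside the annulus of width D about the sphere, with the case D = 0 -/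
theorem Fk_tail {d : ℕ} (hd : 2 ≤ d) (η : SchwartzMap (E d) ℂ) (M : ℕ) : ∃ C : ℝ, 0 < C ∧
    ∀ (y : E d) (r D : ℝ), 0 < r → 1 ≤ D →
      ∫⁻ x in {x : E d | D < |‖x - y‖ - r|}, ‖Fk η y r x‖ₑ ≤
        ENNReal.ofReal (C * r ^ (d - 1) / D ^ M) := by
  obtain ⟨C1, hC1, H1⟩ := sg_mass d hd
  have hint : Integrable (fun x => ‖x‖ ^ M * ‖η x‖) (volume : Measure (E d)) :=
    η.integrable_pow_mul volume M
  obtain ⟨I, hI⟩ : ∃ I : ℝ, I = ∫ x, ‖x‖ ^ M * ‖η x‖ ∂(volume : Measure (E d)) := ⟨_, rfl⟩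
  have hI0 : 0 ≤ I := by
    rw [hI]; exact integral_nonneg fun x => mul_nonneg (pow_nonneg (norm_nonneg _) _) (norm_nonneg _)
  refine ⟨C1 * (I + 1), by positivity, fun y r D hr hD => ?_⟩
  have hD0 : 0 < D := by linarith only [hD]
  have hDM : 0 < D ^ M := pow_pos hD0 _
  have hfin : IsFiniteMeasure (sg d r) := sg_fin d hd r hr
  have hA : MeasurableSet {x : E d | D < |‖x - y‖ - r|} := by
    refine IsOpen.measurableSet (isOpen_lt continuous_const ?_)
    fun_prop
  have hW : MeasurableSet {w : E d | D < ‖w‖} := by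
    refine IsOpen.measurableSet (isOpen_lt continuous_const ?_)
    fun_prop
  refine (v2_aux hd η y r hr {x : E d | D < |‖x - y‖ - r|} {w : E d | D < ‖w‖} hA hW ?_).trans ?_
  · intro ζ hζ x hx
    rw [Set.mem_ofPred_eq] at hx ⊢
    rw [mem_sphere_zero_iff_norm] at hζ
    refine hx.trans_le ?_
    have e1 : x - ζ - y = (x - y) - ζ := by abel
    rw [e1, ← hζ]
    exact abs_norm_sub_norm_le _ _
  · have h2 : ∫⁻ w in {w : E d | D < ‖w‖}, ‖η w‖ₑ ≤ ENNReal.ofReal (I / D ^ M) := by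
      calc ∫⁻ w in {w : E d | D < ‖w‖}, ‖η w‖ₑ
          ≤ ∫⁻ w in {w : E d | D < ‖w‖}, ENNReal.ofReal (‖w‖ ^ M * ‖η w‖ / D ^ M) := by
            refine setLIntegral_mono' hW fun w hw => ?_
            rw [Set.mem_ofPred_eq] at hw
            rw [← ofReal_norm]
            refine ENNReal.ofReal_le_ofReal ?_
            rw [le_div_iff₀ hDM, mul_comm]
            refine mul_le_mul_of_nonneg_right ?_ (norm_nonneg _)
            exact pow_le_pow_left₀ hD0.le hw.le _
        _ ≤ ∫⁻ w, ENNReal.ofReal (‖w‖ ^ M * ‖η w‖ / D ^ M) ∂(volume : Measure (E d)) :=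
            setLIntegral_le_lintegral _ _
        _ = ENNReal.ofReal (I / D ^ M) := by
            rw [hI, ← integral_div]
            refine (ofReal_integral_eq_lintegral_ofReal (hint.div_const _) ?_).symm
            exact Eventually.of_forall fun x => div_nonneg
              (mul_nonneg (pow_nonneg (norm_nonneg _) _) (norm_nonneg _)) hDM.le
    have h3 : sg d r univ ≤ ENNReal.ofReal (C1 * r ^ (d - 1)) := by
      have h4 : sg d r univ = ENNReal.ofReal ((sg d r).real univ) := by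
        rw [measureReal_def, ENNReal.ofReal_toReal (measure_ne_top _ _)]
      rw [h4]
      exact ENNReal.ofReal_le_ofReal (H1 r hr)
    calc (∫⁻ w in {w : E d | D < ‖w‖}, ‖η w‖ₑ) * sg d r univ
        ≤ ENNReal.ofReal (I / D ^ M) * ENNReal.ofReal (C1 * r ^ (d - 1)) := mul_le_mul' h2 h3
      _ = ENNReal.ofReal (I / D ^ M * (C1 * r ^ (d - 1))) :=
          (ENNReal.ofReal_mul (by positivity)).symm
      _ ≤ _ := by
          refine ENNReal.ofReal_le_ofReal ?_
          have hr1 : 0 < r ^ (d - 1) := pow_pos hr _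
          have e1 : I / D ^ M * (C1 * r ^ (d - 1)) = C1 * I * r ^ (d - 1) / D ^ M := by ring
          rw [e1]
          gcongr
          linarith only

theorem Fk_integrable {d : ℕ} (hd : 2 ≤ d) (η : SchwartzMap (E d) ℂ) (y : E d) (r : ℝ)
    (hr : 0 < r) : Integrable (Fk η y r) := by
  have hfin : IsFiniteMeasure (sg d r) := sg_fin d hd r hr
  refine ⟨(Fk_continuous hd η y r hr).aestronglyMeasurable, ?_⟩
  have h1 := v2_aux hd η y r hr univ univ MeasurableSet.univ MeasurableSet.univ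
    (fun _ _ _ _ => mem_univ _)
  rw [Measure.restrict_univ] at h1
  refine h1.trans_lt ?_
  refine ENNReal.mul_lt_top ?_ (measure_lt_top _ _)
  exact (η.integrable (μ := volume)).2

theorem Fk_memLp_two {d : ℕ} (hd : 2 ≤ d) (η : SchwartzMap (E d) ℂ) (y : E d) (r : ℝ)
    (hr : 0 < r) : MemLp (Fk η y r) 2 volume := by
  obtain ⟨C, hC, H⟩ := Fk_le hd η
  have hm : AEStronglyMeasurable (Fk η y r) (volume : Measure (E d)) :=
    (Fk_continuous hd η y r hr).aestronglyMeasurable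
  rw [memLp_two_iff_integrable_sq_norm hm]
  refine Integrable.mono' ((Fk_integrable hd η y r hr).norm.const_mul (C * r ^ (d - 1)))
    (hm.norm.pow 2) (Eventually.of_forall fun x => ?_)
  rw [Real.norm_of_nonneg (sq_nonneg _), sq]
  exact mul_le_mul_of_nonneg_right (H y r x hr) (norm_nonneg _)

end Pool.LibSR53
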