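import Pool.Agent.LibSR53.S5

/-
PLAN (K2). Fk eta y r x = int_zeta eta(x - zeta - y) d sg(r). Write the left side as
int_x int_zeta int_zeta' conj(eta(x-zeta-y)) eta(x-zeta'-y'), Fubini (sg finite: S5 sg_fin; eta integrable and bounded: the
integrand is bounded by |eta(x-zeta-y)| * sup|eta|, integrable on the product with a finite measure), then for fixed
zeta, zeta' substitute x -> x + zeta + y (integral_add_right_eq_self):
int conj(eta x) eta(x + (y - y' + zeta - zeta')) = Psi(y - y' + zeta - zeta').
-/

set_option autoImplicit false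

noncomputable section

open MeasureTheory Metric Set Filter

namespace Pool.LibSR53

private theorem k2_int {d : ℕ} (η : SchwartzMap (E d) ℂ) (ν : Measure (E d × E d))
    [IsFiniteMeasure ν] (y y' : E d) :
    Integrable (Function.uncurry fun (x : E d) (p : E d × E d) =>
      (starRingEnd ℂ) (η (x - p.1 - y)) * η (x - p.2 - y')) (volume.prod ν) := by
  have hη := η.continuous
  obtain ⟨C, hC⟩ := η.decay 0 0
  have hC' : ∀ x, ‖η x‖ ≤ C := by
    intro x
    have h := hC.2 x
    simpa using h
  have hg : Integrable (Function.uncurry fun (x : E d) (p : E d × E d) => ‖η (x - p.1 - y)‖)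
      (volume.prod ν) := by
    have hm : AEStronglyMeasurable (Function.uncurry fun (x : E d) (p : E d × E d) =>
        ‖η (x - p.1 - y)‖) ((volume : Measure (E d)).prod ν) := by
      refine Continuous.aestronglyMeasurable ?_
      exact (hη.comp ((continuous_fst.sub (continuous_fst.comp continuous_snd)).sub
        continuous_const)).norm
    refine (integrable_prod_iff' hm).2 ⟨Eventually.of_forall (fun p => ?_), ?_⟩
    · show Integrable (fun x : E d => ‖η (x - p.1 - y)‖)
      have h1 : Integrable (fun x : E d => ‖η x‖) := η.integrable.norm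
      have h2 := (h1.comp_sub_right y).comp_sub_right p.1
      exact h2
    · have h3 : (fun p : E d × E d => ∫ x : E d, ‖(Function.uncurry fun (x : E d)
          (p : E d × E d) => ‖η (x - p.1 - y)‖) (x, p)‖) = fun _ => ∫ x : E d, ‖η x‖ := by
        funext p
        show ∫ x : E d, ‖‖η (x - p.1 - y)‖‖ = _
        simp only [norm_norm]
        have h4 := integral_sub_right_eq_self (μ := (volume : Measure (E d)))
          (fun x : E d => ‖η (x - y)‖) p.1
        have h5 := integral_sub_right_eq_self (μ := (volume : Measure (E d)))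
          (fun x : E d => ‖η x‖) y
        rw [h4, h5]
      rw [h3]
      exact integrable_const _
  refine (hg.const_mul C).mono' ?_ (Eventually.of_forall (fun q => ?_))
  · refine Continuous.aestronglyMeasurable ?_
    exact (Complex.continuous_conj.comp (hη.comp ((continuous_fst.sub
      (continuous_fst.comp continuous_snd)).sub continuous_const))).mul
      (hη.comp ((continuous_fst.sub (continuous_snd.comp continuous_snd)).sub continuous_const))
  · show ‖(starRingEnd ℂ) (η (q.1 - q.2.1 - y)) * η (q.1 - q.2.2 - y')‖ ≤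
      C * ‖η (q.1 - q.2.1 - y)‖
    rw [norm_mul, RCLike.norm_conj, mul_comm]
    exact mul_le_mul_of_nonneg_right (hC' _) (norm_nonneg _)

/-- the Gram matrix of the functions Fk -/
theorem gram_Fk {d : ℕ} (hd : 2 ≤ d) (η Ψ : SchwartzMap (E d) ℂ)
    (hΨ : ∀ v, Ψ v = ∫ x, (starRingEnd ℂ) (η x) * η (x + v))
    (r r' : ℝ) (hr : 0 < r) (hr' : 0 < r') (y y' : E d) :
    ∫ x, (starRingEnd ℂ) (Fk η y r x) * Fk η y' r' x = Ip Ψ r r' (y - y') := by
  have := sg_fin d hd r hr
  have := sg_fin d hd r' hr'
  have e1 : ∀ x : E d, (starRingEnd ℂ) (Fk η y r x) * Fk η y' r' x =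
      ∫ p : E d × E d, (starRingEnd ℂ) (η (x - p.1 - y)) * η (x - p.2 - y')
        ∂((sg d r).prod (sg d r')) := by
    intro x
    rw [integral_prod_mul (fun ζ : E d => (starRingEnd ℂ) (η (x - ζ - y)))
      (fun ζ : E d => η (x - ζ - y')), integral_conj]
    rfl
  have e2 : ∀ p : E d × E d, ∫ x : E d, (starRingEnd ℂ) (η (x - p.1 - y)) * η (x - p.2 - y') =
      Ψ (y - y' + p.1 - p.2) := by
    intro p
    rw [hΨ, ← integral_sub_right_eq_self (μ := (volume : Measure (E d)))
      (fun x : E d => (starRingEnd ℂ) (η x) * η (x + (y - y' + p.1 - p.2))) (p.1 + y)]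
    refine integral_congr_ae (Eventually.of_forall (fun x => ?_))
    show (starRingEnd ℂ) (η (x - p.1 - y)) * η (x - p.2 - y') =
      (starRingEnd ℂ) (η (x - (p.1 + y))) * η (x - (p.1 + y) + (y - y' + p.1 - p.2))
    have h1 : x - p.1 - y = x - (p.1 + y) := by abel
    have h2 : x - p.2 - y' = x - (p.1 + y) + (y - y' + p.1 - p.2) := by abel
    rw [h1, h2]
  rw [integral_congr_ae (Eventually.of_forall e1),
    integral_integral_swap (k2_int η ((sg d r).prod (sg d r')) y y'),
    integral_congr_ae (Eventually.of_forall e2), Ip]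
  rw [integral_prod]
  refine (integrable_const (SchwartzMap.seminorm ℝ 0 0 Ψ)).mono' ?_
    (Eventually.of_forall (fun p => ?_))
  · refine Continuous.aestronglyMeasurable ?_
    exact Ψ.continuous.comp ((continuous_const.add continuous_fst).sub continuous_snd)
  · exact SchwartzMap.norm_le_seminorm ℝ Ψ _

end Pool.LibSR53
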