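import Pool.Agent.LibSR53.K6

/-
PLAN (K7). N = M + d. Schwartz: |Psi w| <= B |w|^(-N) for |w| >= 1 (SchwartzMap.decay with k = N, n = 0). For |w| >= delta >= 1 choose j with
2^j delta <= |w| < 2^(j+1) delta: |Psi w| <= B (2^j delta)^(-N) e^(4 pi) exp(-pi |w|^2/(2^j delta)^2), hence for ALL such w
|Psi w| <= B e^(4 pi) sum_j (2^j delta)^(-N) exp(-pi |w|^2/(2^j delta)^2). Integrate over the two spheres (a.e. point of sg d r has norm r):
|Ip| <= B e^(4pi) sum_j (2^j delta)^(-N) GI d (2^j delta) r r' v (integral_tsum or monotone convergence, all terms >= 0; a finite-sum variant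
also works: the w that occur are bounded, so finitely many j suffice). gauss_bound with t = 2^j delta: t^(d-1-N) = t^(-(M+1)), and the
geometric series sum_j (2^j delta)^(-(M+1)) <= 2 delta^(-M).
-/

set_option autoImplicit false

noncomputable section

open MeasureTheory Metric Set Filter

namespace Pool.LibSR53

/-- pointwise domination by finitely many Gaussians -/
lemma K7_pt {d : ℕ} (Ψ : SchwartzMap (E d) ℂ) (N : ℕ) : ∃ B : ℝ, 0 < B ∧ ∀ δ : ℝ, 1 ≤ δ →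
    ∀ (J : ℕ) (w : E d), δ ≤ ‖w‖ → ‖w‖ < 2 ^ J * δ →
      ‖Ψ w‖ ≤ ∑ j ∈ Finset.range J, B * ((2 ^ j * δ) ^ N)⁻¹ *
        Real.exp (-(Real.pi * ‖w‖ ^ 2 / (2 ^ j * δ) ^ 2)) := by
  obtain ⟨B, hB, h⟩ := Ψ.decay N 0
  refine ⟨B * Real.exp (4 * Real.pi), by positivity, fun δ hδ J w h1 h2 => ?_⟩
  have hw := h w
  rw [norm_iteratedFDeriv_zero] at hw
  have hδ0 : 0 < δ := by linarith
  -- choose j
  have hex : ∃ j < J, 2 ^ j * δ ≤ ‖w‖ ∧ ‖w‖ < 2 ^ (j + 1) * δ := by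
    clear h hw
    induction J with
    | zero => simp at h2; linarith
    | succ J ih =>
      by_cases h3 : ‖w‖ < 2 ^ J * δ
      · obtain ⟨j, hj, h4⟩ := ih h3
        exact ⟨j, by omega, h4⟩
      · exact ⟨J, by omega, not_lt.mp h3, h2⟩
  obtain ⟨j, hj, h3, h4⟩ := hex
  have hnn : ∀ i ∈ Finset.range J, 0 ≤ B * Real.exp (4 * Real.pi) * ((2 ^ i * δ) ^ N)⁻¹ *
      Real.exp (-(Real.pi * ‖w‖ ^ 2 / (2 ^ i * δ) ^ 2)) := by
    intro i _; positivity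
  refine le_trans ?_ (Finset.single_le_sum hnn (Finset.mem_range.mpr hj))
  set t : ℝ := 2 ^ j * δ with ht
  have ht0 : 0 < t := by positivity
  have h5 : ‖w‖ < 2 * t := by rw [ht]; rw [pow_succ] at h4; linarith
  have h6 : Real.pi * ‖w‖ ^ 2 / t ^ 2 ≤ 4 * Real.pi := by
    rw [div_le_iff₀ (by positivity)]
    have : ‖w‖ ^ 2 ≤ (2 * t) ^ 2 := by
      apply pow_le_pow_left₀ (norm_nonneg _) h5.le
    nlinarith [Real.pi_pos]
  have h7 : 1 ≤ Real.exp (4 * Real.pi) * Real.exp (-(Real.pi * ‖w‖ ^ 2 / t ^ 2)) := by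
    rw [← Real.exp_add]
    apply Real.one_le_exp
    linarith
  have h8 : ‖Ψ w‖ ≤ B * (t ^ N)⁻¹ := by
    rw [← div_eq_mul_inv, le_div_iff₀ (by positivity)]
    have : t ^ N ≤ ‖w‖ ^ N := pow_le_pow_left₀ ht0.le h3 N
    have h9 := norm_nonneg (Ψ w)
    nlinarith
  calc ‖Ψ w‖ ≤ B * (t ^ N)⁻¹ * 1 := by rw [mul_one]; exact h8
    _ ≤ B * (t ^ N)⁻¹ * (Real.exp (4 * Real.pi) * Real.exp (-(Real.pi * ‖w‖ ^ 2 / t ^ 2))) := by
        apply mul_le_mul_of_nonneg_left h7 (by positivity)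
    _ = _ := by ring

lemma K7_ae {d : ℕ} (r : ℝ) : ∀ᵐ ζ ∂(sg d r), ‖ζ‖ = r := by
  unfold sg
  have h := ae_restrict_mem (μ := (Measure.hausdorffMeasure ((d : ℝ) - 1) : Measure (E d)))
    (isClosed_sphere (x := (0 : E d)) (ε := r)).measurableSet
  filter_upwards [h] with ζ hζ
  exact mem_sphere_zero_iff_norm.mp hζ

lemma K7_int {d : ℕ} (hd : 2 ≤ d) (t r r' : ℝ) (hr : 0 < r) (hr' : 0 < r') (v : E d) :
    Integrable (fun p : E d × E d => Real.exp (-(Real.pi * ‖v + p.1 - p.2‖ ^ 2 / t ^ 2)))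
      ((sg d r).prod (sg d r')) := by
  have := sg_fin d hd r hr
  have := sg_fin d hd r' hr'
  apply (integrable_const (1 : ℝ)).mono'
  · apply Continuous.aestronglyMeasurable
    fun_prop
  · refine ae_of_all _ fun p => ?_
    rw [Real.norm_of_nonneg (Real.exp_pos _).le, Real.exp_le_one_iff]
    have := Real.pi_pos
    have : 0 ≤ Real.pi * ‖v + p.1 - p.2‖ ^ 2 / t ^ 2 := by positivity
    linarith

/-- the abstract form -/
lemma K7_core {d : ℕ} (hd : 2 ≤ d) (Ψ : SchwartzMap (E d) ℂ) (M : ℕ) :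
    ∃ B : ℝ, 0 < B ∧ ∀ δ r r' : ℝ, 1 ≤ δ → 0 < r → 0 < r' → ∀ v : E d,
      (∀ ζ ζ' : E d, ‖ζ‖ = r → ‖ζ'‖ = r' → δ ≤ ‖v + ζ - ζ'‖) →
      ∀ X : ℝ, 0 ≤ X → (∀ t : ℝ, 0 < t → GI d t r r' v ≤ X * t ^ (d - 1)) →
      ‖Ip Ψ r r' v‖ ≤ B * X / δ ^ M := by
  obtain ⟨B, hB, hpt⟩ := K7_pt Ψ (M + d)
  refine ⟨B * 2, by positivity, fun δ r r' hδ hr hr' v hv X hX hG => ?_⟩
  have := sg_fin d hd r hr
  have := sg_fin d hd r' hr'
  have hδ0 : 0 < δ := by linarith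
  -- choose J
  obtain ⟨J, hJ⟩ : ∃ J : ℕ, ‖v‖ + r + r' < 2 ^ J := pow_unbounded_of_one_lt _ one_lt_two
  have hJ' : ∀ ζ ζ' : E d, ‖ζ‖ = r → ‖ζ'‖ = r' → ‖v + ζ - ζ'‖ < 2 ^ J * δ := by
    intro ζ ζ' h1 h2
    have h3 : ‖v + ζ - ζ'‖ ≤ ‖v‖ + r + r' := by
      calc ‖v + ζ - ζ'‖ ≤ ‖v + ζ‖ + ‖ζ'‖ := norm_sub_le _ _
        _ ≤ ‖v‖ + ‖ζ‖ + ‖ζ'‖ := by gcongr; exact norm_add_le _ _
        _ = _ := by rw [h1, h2]
    have h4 : (0 : ℝ) < 2 ^ J := by positivity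
    nlinarith
  set g : ℕ → E d → E d → ℝ := fun j ζ ζ' =>
    Real.exp (-(Real.pi * ‖v + ζ - ζ'‖ ^ 2 / (2 ^ j * δ) ^ 2)) with hg
  set c : ℕ → ℝ := fun j => B * ((2 ^ j * δ) ^ (M + d))⁻¹ with hc
  have hc0 : ∀ j, 0 ≤ c j := fun j => by rw [hc]; positivity
  have hgint : ∀ j, Integrable (Function.uncurry (g j)) ((sg d r).prod (sg d r')) := by
    intro j
    exact K7_int hd _ r r' hr hr' v
  have hgin : ∀ j ζ, Integrable (g j ζ) (sg d r') := by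
    intro j ζ
    apply (integrable_const (1 : ℝ)).mono'
    · apply Continuous.aestronglyMeasurable
      rw [hg]
      fun_prop
    · refine ae_of_all _ fun p => ?_
      rw [hg]
      simp only
      rw [Real.norm_of_nonneg (Real.exp_pos _).le, Real.exp_le_one_iff]
      have := Real.pi_pos
      have : 0 ≤ Real.pi * ‖v + ζ - p‖ ^ 2 / (2 ^ j * δ) ^ 2 := by positivity
      linarith
  have hgout : ∀ j, Integrable (fun ζ => ∫ ζ', g j ζ ζ' ∂(sg d r')) (sg d r) :=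
    fun j => (hgint j).integral_prod_left
  have h1 : ‖Ip Ψ r r' v‖ ≤ ∫ ζ, (∑ j ∈ Finset.range J, c j * ∫ ζ', g j ζ ζ' ∂(sg d r'))
      ∂(sg d r) := by
    unfold Ip
    apply norm_integral_le_of_norm_le
    · exact integrable_finsetSum _ fun j _ => (hgout j).const_mul _
    · filter_upwards [K7_ae (d := d) r] with ζ hζ
      have h2 : ∑ j ∈ Finset.range J, c j * ∫ ζ', g j ζ ζ' ∂(sg d r') =
          ∫ ζ', ∑ j ∈ Finset.range J, c j * g j ζ ζ' ∂(sg d r') := by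
        rw [integral_finsetSum _ fun j _ => (hgin j ζ).const_mul _]
        simp_rw [integral_const_mul]
      rw [h2]
      apply norm_integral_le_of_norm_le
      · exact integrable_finsetSum _ fun j _ => (hgin j ζ).const_mul _
      · filter_upwards [K7_ae (d := d) r'] with ζ' hζ'
        exact hpt δ hδ J _ (hv ζ ζ' hζ hζ') (hJ' ζ ζ' hζ hζ')
  refine h1.trans ?_
  rw [integral_finsetSum _ fun j _ => (hgout j).const_mul _]
  have h3 : ∀ j ∈ Finset.range J, ∫ ζ, c j * ∫ ζ', g j ζ ζ' ∂(sg d r') ∂(sg d r) ≤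
      B * X / δ ^ M * (1 / 2) ^ j := by
    intro j _
    rw [integral_const_mul]
    have h4 : ∫ ζ, ∫ ζ', g j ζ ζ' ∂(sg d r') ∂(sg d r) ≤ X * (2 ^ j * δ) ^ (d - 1) :=
      hG _ (by positivity)
    have h5 : ((2 ^ j * δ) ^ (M + d))⁻¹ * (2 ^ j * δ) ^ (d - 1) = ((2 ^ j * δ) ^ (M + 1))⁻¹ := by
      have h6 : M + d = (M + 1) + (d - 1) := by omega
      have h7 : (2 ^ j * δ) ^ (d - 1) ≠ 0 := by positivity
      rw [h6, pow_add, mul_inv, mul_assoc, inv_mul_cancel₀ h7, mul_one]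
    have h8 : ((2 ^ j * δ) ^ (M + 1))⁻¹ ≤ (1 / 2) ^ j / δ ^ M := by
      rw [one_div, inv_pow, ← one_div, ← one_div, div_div]
      apply one_div_le_one_div_of_le (by positivity)
      rw [mul_pow, ← pow_mul]
      have h9 : (2 : ℝ) ^ j ≤ 2 ^ (j * (M + 1)) := by
        apply pow_le_pow_right₀ one_le_two
        nlinarith
      have h10 : δ ^ M ≤ δ ^ (M + 1) := pow_le_pow_right₀ hδ (by omega)
      exact mul_le_mul h9 h10 (by positivity) (by positivity)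
    calc c j * ∫ ζ, ∫ ζ', g j ζ ζ' ∂(sg d r') ∂(sg d r)
        ≤ c j * (X * (2 ^ j * δ) ^ (d - 1)) := mul_le_mul_of_nonneg_left h4 (hc0 j)
      _ = B * X * (((2 ^ j * δ) ^ (M + d))⁻¹ * (2 ^ j * δ) ^ (d - 1)) := by
          rw [hc]; ring
      _ = B * X * ((2 ^ j * δ) ^ (M + 1))⁻¹ := by rw [h5]
      _ ≤ B * X * ((1 / 2) ^ j / δ ^ M) := mul_le_mul_of_nonneg_left h8 (by positivity)
      _ = _ := by ring
  refine (Finset.sum_le_sum h3).trans ?_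
  rw [← Finset.mul_sum]
  have h11 : ∑ j ∈ Finset.range J, (1 / 2 : ℝ) ^ j ≤ 2 := by
    have h12 := Summable.sum_le_tsum (Finset.range J) (fun j _ => by positivity)
      (summable_geometric_two)
    rw [tsum_geometric_two] at h12
    exact h12
  have h13 : 0 ≤ B * X / δ ^ M := by positivity
  calc B * X / δ ^ M * ∑ j ∈ Finset.range J, (1 / 2 : ℝ) ^ j ≤ B * X / δ ^ M * 2 :=
        mul_le_mul_of_nonneg_left h11 h13
    _ = _ := by ring

/-- rapid decay of the double spherical integral when the two spheres are far apart -/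
theorem tail_bound {d : ℕ} (hd : 2 ≤ d) (Ψ : SchwartzMap (E d) ℂ) (M : ℕ) :
    ∃ C : ℝ, 0 < C ∧ ∀ δ r r' : ℝ, 1 ≤ δ → 0 < r → 0 < r' → ∀ v : E d,
      (∀ ζ ζ' : E d, ‖ζ‖ = r → ‖ζ'‖ = r' → δ ≤ ‖v + ζ - ζ'‖) →
      ‖Ip Ψ r r' v‖ ≤ C * (r * r') ^ (nu d) / δ ^ M ∧
      (v ≠ 0 → ‖Ip Ψ r r' v‖ ≤ C * r ^ (d - 1) * (r' / ‖v‖) ^ (nu d) / δ ^ M) := by
  obtain ⟨C1, hC1, hG⟩ := gauss_bound d hd
  obtain ⟨B, hB, hcore⟩ := K7_core hd Ψ M
  refine ⟨B * C1, by positivity, fun δ r r' hδ hr hr' v hv => ⟨?_, fun hv0 => ?_⟩⟩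
  · have h := hcore δ r r' hδ hr hr' v hv (C1 * (r * r') ^ (nu d)) (by positivity)
      (fun t ht => (hG t r r' ht hr hr' v).1)
    rw [← mul_assoc] at h
    exact h
  · have h := hcore δ r r' hδ hr hr' v hv (C1 * r ^ (d - 1) * (r' / ‖v‖) ^ (nu d))
      (by positivity) (fun t ht => (hG t r r' ht hr hr' v).2 hv0)
    have e : B * (C1 * r ^ (d - 1) * (r' / ‖v‖) ^ (nu d)) =
      B * C1 * r ^ (d - 1) * (r' / ‖v‖) ^ (nu d) := by ring
    rw [e] at h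
    exact h

end Pool.LibSR53
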