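import Pool.Agent.LibSR53.K5
import Pool.Agent.LibSR53.K7

/-
PLAN (K8). Let m = max |v| |r-r'|. SAME: nu = nu d = (d-1)/2, (r r')^nu <= (4 R^2)^nu = 2^(d-1) R^(d-1).
Case A: |v| <= 8R. Then m <= 8R and (1+m/R)^(d+2) <= 9^(d+2). If |r-r'| <= 2|v| + 2: 1 + m <= 3(1+|v|), use Ip_bound. Otherwise
|v+zeta-zeta'| >= |r-r'| - |v| >= |r-r'|/2 = m/2 =: delta >= 1, tail_bound (first part) with M >= nu: delta >= (1+m)/4.
Case B: |v| > 8R: m = |v|, |v+zeta-zeta'| >= |v| - 4R >= |v|/2 =: delta >= 1, tail_bound with M = 2d+2 >= nu + d + 2 and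
1+m <= 4 delta, 1+m/R <= 4 delta. CROSS: if ||v|-r'| <= 2r then |v| >= r'/2, Ip_bound gives (r r')^nu (r'/2)^(-nu) = 2^nu r^nu and the denominator
is <= 3^(d+1). Otherwise delta = ||v|-r'|/2 >= r >= 1 and |v+zeta-zeta'| >= ||v|-r'| - r >= delta. If |v| >= r'/2: second part of tail_bound,
M = 2d+2: r^(d-1) 2^nu / delta^M with r <= delta. If |v| < r'/2: delta >= r'/4, first part: (r r')^nu/delta^M <= r^nu 4^nu delta^(nu-M).
In both cases 1 + 2 delta/r <= 3 delta.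
-/

set_option autoImplicit false

noncomputable section

open MeasureTheory Metric Set Filter

namespace Pool.LibSR53

private theorem k8_nu_pos {d : ℕ} (hd : 2 ≤ d) : 0 < nu d := by
  have : (2 : ℝ) ≤ d := by exact_mod_cast hd
  simp only [nu]
  linarith

private theorem k8_nu_le {d : ℕ} (hd : 2 ≤ d) : nu d + ((d : ℝ) + 2) ≤ 2 * d + 2 := by
  have : (2 : ℝ) ≤ d := by exact_mod_cast hd
  simp only [nu]
  linarith

private theorem k8_sq {d : ℕ} (hd : 2 ≤ d) {x : ℝ} (hx : 0 < x) :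
    x ^ nu d * x ^ nu d = x ^ (d - 1) := by
  rw [← Real.rpow_add hx, ← Real.rpow_natCast]
  congr 1
  rw [Nat.cast_sub (by omega)]
  simp only [nu]
  push_cast
  ring

/-- division of a power -/
private theorem k8_split {d : ℕ} (hd : 2 ≤ d) {δ : ℝ} (hδ : 1 ≤ δ) (n : ℕ) (hn : n ≤ d + 2) :
    δ ^ nu d * δ ^ n ≤ δ ^ (2 * d + 2) := by
  have h0 : 0 < δ := by linarith
  rw [← Real.rpow_natCast δ n, ← Real.rpow_add h0, ← Real.rpow_natCast δ (2 * d + 2)]
  refine Real.rpow_le_rpow_of_exponent_le hδ ?_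
  have h1 := k8_nu_le hd
  have h2 : (n : ℝ) ≤ d + 2 := by exact_mod_cast hn
  push_cast
  linarith

/-- Gram matrix at comparable radii -/
theorem kernel_same {d : ℕ} (hd : 2 ≤ d) (Ψ φ : SchwartzMap (E d) ℂ)
    (hφ : ∀ v, Ψ v = ∫ ξ, ex v ξ * φ ξ) (ε : ℝ) (hε : 0 < ε) (hv : ∀ ξ, ‖ξ‖ < ε → φ ξ = 0) :
    ∃ C : ℝ, 0 < C ∧ ∀ R : ℝ, 1 ≤ R → ∀ r r' : ℝ, R ≤ r → r ≤ 2 * R → R ≤ r' → r' ≤ 2 * R →
      ∀ v : E d, ‖Ip Ψ r r' v‖ ≤
        C * R ^ (d - 1) * (1 + max ‖v‖ |r - r'|) ^ (-nu d) /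
          (1 + max ‖v‖ |r - r'| / R) ^ (d + 2) := by
  obtain ⟨Cb, hCb, hb⟩ := Ip_bound hd Ψ φ hφ ε hε hv
  obtain ⟨Ct, hCt, ht⟩ := tail_bound hd Ψ (2 * d + 2)
  have hν := k8_nu_pos hd
  refine ⟨2 ^ (d - 1) * (Cb + Ct) * 4 ^ nu d * 9 ^ (d + 2), by positivity, ?_⟩
  intro R hR r r' h1 h2 h3 h4 v
  have hR0 : 0 < R := by linarith
  have hr0 : 0 < r := by linarith
  have hr0' : 0 < r' := by linarith
  set m := max ‖v‖ |r - r'| with hm
  have hm0 : 0 ≤ m := le_trans (norm_nonneg v) (le_max_left _ _)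
  have hvm : ‖v‖ ≤ m := le_max_left _ _
  have hrm : |r - r'| ≤ m := le_max_right _ _
  have hrr : |r - r'| ≤ R := by
    rw [abs_le]
    constructor <;> linarith
  have hv0 := norm_nonneg v
  have hP : (r * r') ^ nu d ≤ 2 ^ (d - 1) * R ^ (d - 1) := by
    calc (r * r') ^ nu d ≤ ((2 * R) * (2 * R)) ^ nu d := by
          refine Real.rpow_le_rpow (by positivity) ?_ hν.le
          exact mul_le_mul h2 h4 hr0'.le (by positivity)
      _ = (2 * R) ^ nu d * (2 * R) ^ nu d := Real.mul_rpow (by positivity) (by positivity)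
      _ = (2 * R) ^ (d - 1) := k8_sq hd (by positivity)
      _ = 2 ^ (d - 1) * R ^ (d - 1) := mul_pow _ _ _
  have hX : 0 < 1 + m := by linarith
  have hY : 0 < 1 + m / R := by positivity
  -- reduction: it suffices to have a bound
  have key : ∀ b : ℝ, 0 ≤ b → ‖Ip Ψ r r' v‖ ≤ (Cb + Ct) * (r * r') ^ nu d * b →
      b * (1 + m) ^ nu d * (1 + m / R) ^ (d + 2) ≤ 4 ^ nu d * 9 ^ (d + 2) →
      ‖Ip Ψ r r' v‖ ≤ 2 ^ (d - 1) * (Cb + Ct) * 4 ^ nu d * 9 ^ (d + 2) * R ^ (d - 1) *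
        (1 + m) ^ (-nu d) / (1 + m / R) ^ (d + 2) := by
    intro b hb0 hb1 hb2
    have hXp : 0 < (1 + m) ^ nu d := Real.rpow_pos_of_pos hX _
    rw [Real.rpow_neg hX.le, le_div_iff₀ (by positivity), ← div_eq_mul_inv, le_div_iff₀ hXp]
    calc ‖Ip Ψ r r' v‖ * (1 + m / R) ^ (d + 2) * (1 + m) ^ nu d
        ≤ ((Cb + Ct) * (r * r') ^ nu d * b) * (1 + m / R) ^ (d + 2) * (1 + m) ^ nu d := by
          gcongr
      _ = (Cb + Ct) * (r * r') ^ nu d * (b * (1 + m) ^ nu d * (1 + m / R) ^ (d + 2)) := by ring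
      _ ≤ (Cb + Ct) * (2 ^ (d - 1) * R ^ (d - 1)) * (4 ^ nu d * 9 ^ (d + 2)) := by
          gcongr
      _ = 2 ^ (d - 1) * (Cb + Ct) * 4 ^ nu d * 9 ^ (d + 2) * R ^ (d - 1) := by ring
  have hrp : 0 ≤ (r * r') ^ nu d := by positivity
  by_cases hA : ‖v‖ ≤ 8 * R
  · have hm8 : m ≤ 8 * R := max_le hA (by linarith)
    have h9 : (1 + m / R) ^ (d + 2) ≤ 9 ^ (d + 2) := by
      refine pow_le_pow_left₀ hY.le ?_ _
      have : m / R ≤ 8 := by
        rw [div_le_iff₀ hR0]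
        exact hm8
      linarith
    by_cases hA1 : |r - r'| ≤ 2 * ‖v‖ + 2
    · refine key ((1 + ‖v‖) ^ (-nu d)) (by positivity) ?_ ?_
      · refine (hb r r' hr0 hr0' v).trans ?_
        gcongr
        linarith
      · have h5 : 1 + m ≤ 3 * (1 + ‖v‖) := by
          have : m ≤ 2 * ‖v‖ + 2 := max_le (by linarith) hA1
          linarith
        have h6 : (1 + m) ^ nu d ≤ 3 ^ nu d * (1 + ‖v‖) ^ nu d := by
          rw [← Real.mul_rpow (by norm_num) (by positivity)]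
          exact Real.rpow_le_rpow hX.le h5 hν.le
        have h7 : (1 + ‖v‖) ^ (-nu d) * (1 + m) ^ nu d ≤ 4 ^ nu d := by
          rw [Real.rpow_neg (by positivity), inv_mul_le_iff₀ (by positivity), mul_comm]
          refine h6.trans ?_
          gcongr
          norm_num
        exact mul_le_mul h7 h9 (by positivity) (by positivity)
    · push Not at hA1
      have hmr : m = |r - r'| := max_eq_right (by linarith)
      have hδ : 1 ≤ m / 2 := by
        rw [hmr]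
        linarith
      have h5 := (ht (m / 2) r r' hδ hr0 hr0' v (by
        intro ζ ζ' hz hz'
        have e1 : |r - r'| ≤ ‖ζ - ζ'‖ := by
          rw [← hz, ← hz']
          exact abs_norm_sub_norm_le ζ ζ'
        have e2 : ‖ζ - ζ'‖ ≤ ‖v + ζ - ζ'‖ + ‖v‖ := by
          have := norm_sub_le (v + ζ - ζ') v
          rwa [show v + ζ - ζ' - v = ζ - ζ' by abel] at this
        rw [hmr]
        linarith)).1
      refine key (1 / (m / 2) ^ (2 * d + 2)) (by positivity) ?_ ?_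
      · refine h5.trans ?_
        rw [mul_one_div]
        gcongr
        linarith
      · have h6 : (m / 2) ^ nu d * (m / 2) ^ 0 ≤ (m / 2) ^ (2 * d + 2) :=
          k8_split hd hδ 0 (by omega)
        rw [pow_zero, mul_one] at h6
        have h7 : (1 + m) ^ nu d ≤ 4 ^ nu d * (m / 2) ^ nu d := by
          rw [← Real.mul_rpow (by norm_num) (by positivity)]
          refine Real.rpow_le_rpow hX.le ?_ hν.le
          linarith
        have h8 : 1 / (m / 2) ^ (2 * d + 2) * (1 + m) ^ nu d ≤ 4 ^ nu d := by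
          rw [one_div, inv_mul_le_iff₀ (by positivity), mul_comm]
          refine h7.trans ?_
          gcongr
        exact mul_le_mul h8 h9 (by positivity) (by positivity)
  · push Not at hA
    have hmv : m = ‖v‖ := max_eq_left (by linarith)
    have hδ : 1 ≤ m / 2 := by
      rw [hmv]
      linarith
    have h5 := (ht (m / 2) r r' hδ hr0 hr0' v (by
      intro ζ ζ' hz hz'
      have e2 : ‖v‖ ≤ ‖v + ζ - ζ'‖ + (‖ζ‖ + ‖ζ'‖) := by
        have e3 := norm_sub_le (v + ζ - ζ') (ζ - ζ')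
        rw [show v + ζ - ζ' - (ζ - ζ') = v by abel] at e3
        have e4 := norm_sub_le ζ ζ'
        linarith
      rw [hz, hz'] at e2
      rw [hmv]
      linarith)).1
    refine key (1 / (m / 2) ^ (2 * d + 2)) (by positivity) ?_ ?_
    · refine h5.trans ?_
      rw [mul_one_div]
      gcongr
      linarith
    · have h6 : (m / 2) ^ nu d * (m / 2) ^ (d + 2) ≤ (m / 2) ^ (2 * d + 2) :=
        k8_split hd hδ (d + 2) le_rfl
      have h7 : (1 + m) ^ nu d ≤ 4 ^ nu d * (m / 2) ^ nu d := by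
        rw [← Real.mul_rpow (by norm_num) (by positivity)]
        refine Real.rpow_le_rpow hX.le ?_ hν.le
        linarith
      have h8 : (1 + m / R) ^ (d + 2) ≤ 9 ^ (d + 2) * (m / 2) ^ (d + 2) := by
        rw [← mul_pow]
        refine pow_le_pow_left₀ hY.le ?_ _
        have : m / R ≤ m := div_le_self hm0 hR
        linarith
      rw [mul_assoc, one_div, inv_mul_le_iff₀ (by positivity)]
      calc (1 + m) ^ nu d * (1 + m / R) ^ (d + 2)
          ≤ (4 ^ nu d * (m / 2) ^ nu d) * (9 ^ (d + 2) * (m / 2) ^ (d + 2)) := by gcongr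
        _ = ((m / 2) ^ nu d * (m / 2) ^ (d + 2)) * (4 ^ nu d * 9 ^ (d + 2)) := by ring
        _ ≤ (m / 2) ^ (2 * d + 2) * (4 ^ nu d * 9 ^ (d + 2)) := by gcongr

/-- Gram matrix at very different radii -/
theorem kernel_cross {d : ℕ} (hd : 2 ≤ d) (Ψ φ : SchwartzMap (E d) ℂ)
    (hφ : ∀ v, Ψ v = ∫ ξ, ex v ξ * φ ξ) (ε : ℝ) (hε : 0 < ε) (hv : ∀ ξ, ‖ξ‖ < ε → φ ξ = 0) :
    ∃ C : ℝ, 0 < C ∧ ∀ r r' : ℝ, 1 ≤ r → 4 * r ≤ r' → ∀ v : E d,
      ‖Ip Ψ r r' v‖ ≤ C * r ^ (nu d) / (1 + |‖v‖ - r'| / r) ^ (d + 1) := by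
  obtain ⟨Cb, hCb, hb⟩ := Ip_bound hd Ψ φ hφ ε hε hv
  obtain ⟨Ct, hCt, ht⟩ := tail_bound hd Ψ (2 * d + 2)
  have hν := k8_nu_pos hd
  refine ⟨(Cb + Ct) * 4 ^ nu d * 3 ^ (d + 1), by positivity, ?_⟩
  intro r r' hr hrr v
  have hr0 : 0 < r := by linarith
  have hr0' : 0 < r' := by linarith
  have hv0 := norm_nonneg v
  set D := |‖v‖ - r'| with hD
  have hD0 : 0 ≤ D := abs_nonneg _
  have hY : 0 < 1 + D / r := by positivity
  have hrν : 0 < r ^ nu d := Real.rpow_pos_of_pos hr0 _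
  have h24 : (2 : ℝ) ^ nu d ≤ 4 ^ nu d := Real.rpow_le_rpow (by norm_num) (by norm_num) hν.le
  rw [le_div_iff₀ (by positivity)]
  by_cases h1 : D ≤ 2 * r
  · have h2 : r' / 2 ≤ ‖v‖ := by
      have := (abs_le.1 (hD ▸ h1 : |‖v‖ - r'| ≤ 2 * r)).1
      linarith
    have h3 : (1 + D / r) ^ (d + 1) ≤ 3 ^ (d + 1) := by
      refine pow_le_pow_left₀ hY.le ?_ _
      have : D / r ≤ 2 := by
        rw [div_le_iff₀ hr0]
        exact h1
      linarith
    have h4 : (r * r') ^ nu d * (1 + ‖v‖) ^ (-nu d) ≤ 4 ^ nu d * r ^ nu d := by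
      rw [Real.rpow_neg (by positivity), ← div_eq_mul_inv, div_le_iff₀ (by positivity),
        Real.mul_rpow hr0.le hr0'.le]
      have h5 : r' ^ nu d ≤ 2 ^ nu d * (1 + ‖v‖) ^ nu d := by
        rw [← Real.mul_rpow (by norm_num) (by positivity)]
        refine Real.rpow_le_rpow hr0'.le ?_ hν.le
        linarith
      calc r ^ nu d * r' ^ nu d ≤ r ^ nu d * (4 ^ nu d * (1 + ‖v‖) ^ nu d) := by
            gcongr
            refine h5.trans ?_
            gcongr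
        _ = 4 ^ nu d * r ^ nu d * (1 + ‖v‖) ^ nu d := by ring
    calc ‖Ip Ψ r r' v‖ * (1 + D / r) ^ (d + 1)
        ≤ (Cb * (r * r') ^ nu d * (1 + ‖v‖) ^ (-nu d)) * 3 ^ (d + 1) :=
          mul_le_mul (hb r r' hr0 hr0' v) h3 (by positivity) (by positivity)
      _ = Cb * ((r * r') ^ nu d * (1 + ‖v‖) ^ (-nu d)) * 3 ^ (d + 1) := by ring
      _ ≤ (Cb + Ct) * (4 ^ nu d * r ^ nu d) * 3 ^ (d + 1) := by
          gcongr
          linarith
      _ = (Cb + Ct) * 4 ^ nu d * 3 ^ (d + 1) * r ^ nu d := by ring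
  · push Not at h1
    have hδ : 1 ≤ D / 2 := by linarith
    have hrδ : r ≤ D / 2 := by linarith
    have h5 := ht (D / 2) r r' hδ hr0 hr0' v (by
      intro ζ ζ' hz hz'
      have e1 : D ≤ ‖v + ζ - ζ'‖ + r := by
        have e2 : |‖v‖ - ‖ζ'‖| ≤ ‖v - ζ'‖ := abs_norm_sub_norm_le v ζ'
        have e3 := norm_sub_le (v + ζ - ζ') ζ
        rw [show v + ζ - ζ' - ζ = v - ζ' by abel, hz] at e3
        rw [hz'] at e2
        rw [hD]
        linarith
      linarith)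
    have h3 : (1 + D / r) ^ (d + 1) ≤ 3 ^ (d + 1) * (D / 2) ^ (d + 1) := by
      rw [← mul_pow]
      refine pow_le_pow_left₀ hY.le ?_ _
      have : D / r ≤ D := div_le_self hD0 hr
      linarith
    have h6 : (D / 2) ^ nu d * (D / 2) ^ (d + 1) ≤ (D / 2) ^ (2 * d + 2) :=
      k8_split hd hδ (d + 1) (by omega)
    -- both cases give the same bound
    have h7 : ‖Ip Ψ r r' v‖ ≤ Ct * (r ^ nu d * (4 ^ nu d * (D / 2) ^ nu d)) /
        (D / 2) ^ (2 * d + 2) := by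
      by_cases h8 : r' / 2 ≤ ‖v‖
      · have hv1 : 0 < ‖v‖ := by linarith
        refine (h5.2 (norm_pos_iff.1 hv1)).trans ?_
        rw [← k8_sq hd hr0]
        have h9 : (r' / ‖v‖) ^ nu d ≤ 4 ^ nu d := by
          refine (Real.rpow_le_rpow (by positivity) (z := nu d) (y := 2) ?_ hν.le).trans h24
          rw [div_le_iff₀ hv1]
          linarith
        have h10 : r ^ nu d ≤ (D / 2) ^ nu d := Real.rpow_le_rpow hr0.le hrδ hν.le
        have h11 : Ct * (r ^ nu d * r ^ nu d) * (r' / ‖v‖) ^ nu d ≤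
            Ct * (r ^ nu d * (4 ^ nu d * (D / 2) ^ nu d)) := by
          calc Ct * (r ^ nu d * r ^ nu d) * (r' / ‖v‖) ^ nu d
              ≤ Ct * (r ^ nu d * (D / 2) ^ nu d) * 4 ^ nu d := by gcongr
            _ = Ct * (r ^ nu d * (4 ^ nu d * (D / 2) ^ nu d)) := by ring
        gcongr
      · push Not at h8
        refine h5.1.trans ?_
        rw [Real.mul_rpow hr0.le hr0'.le]
        have h9 : r' ^ nu d ≤ 4 ^ nu d * (D / 2) ^ nu d := by
          rw [← Real.mul_rpow (by norm_num) (by positivity)]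
          refine Real.rpow_le_rpow hr0'.le ?_ hν.le
          have : D = r' - ‖v‖ := by
            rw [hD, abs_sub_comm, abs_of_nonneg (by linarith)]
          linarith
        gcongr
    calc ‖Ip Ψ r r' v‖ * (1 + D / r) ^ (d + 1)
        ≤ (Ct * (r ^ nu d * (4 ^ nu d * (D / 2) ^ nu d)) / (D / 2) ^ (2 * d + 2)) *
          (3 ^ (d + 1) * (D / 2) ^ (d + 1)) := by
          refine mul_le_mul h7 h3 (by positivity) (by positivity)
      _ = (Ct * r ^ nu d * 4 ^ nu d * 3 ^ (d + 1)) *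
          (((D / 2) ^ nu d * (D / 2) ^ (d + 1)) / (D / 2) ^ (2 * d + 2)) := by ring
      _ ≤ (Ct * r ^ nu d * 4 ^ nu d * 3 ^ (d + 1)) * 1 := by
          gcongr
          rw [div_le_one (by positivity)]
          exact h6
      _ ≤ (Cb + Ct) * 4 ^ nu d * 3 ^ (d + 1) * r ^ nu d := by
          have : 0 ≤ Cb * 4 ^ nu d * 3 ^ (d + 1) * r ^ nu d := by positivity
          nlinarith [this]

end Pool.LibSR53
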