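import Pool.Agent.LibSR53.Defs

/-
PLAN (S4). On [0,1] J is bounded (continuous on a compact set) and (1+t)^(-nu) is bounded below, fine for every real nu.
For t >= 1: u(t) = t^nu J(t), u'(t) = nu t^(nu-1) J + t^nu J1, and by the ODE u'' = (nu(nu-1)/t^2 - 1) u. Energy
Q = u^2 + u'^2, Q' = 2 u u' + 2 u' u'' = 2 nu (nu-1) t^(-2) u u', |Q'| <= c t^(-2) Q with c = |nu (nu-1)|. So
Q(t) exp(c/t) is antitone on [1,inf) (derivative <= 0), hence Q(t) <= Q(t) e^(c/t) <= Q(1) e^c, and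
|J t| = t^(-nu) |u| <= t^(-nu) sqrt(Q(1) e^c); finally t^(-nu) <= C (1+t)^(-nu) for t >= 1 (t <= 1+t <= 2t).
-/

set_option autoImplicit false

noncomputable section

open MeasureTheory Metric Set Filter

namespace Pool.LibSR53

/-- decay of the solutions of a Bessel equation -/
theorem ode_decay (ν : ℝ) (J J1 J2 : ℝ → ℝ) (h1 : ∀ t, HasDerivAt J (J1 t) t)
    (h2 : ∀ t, HasDerivAt J1 (J2 t) t) (h : ∀ t, t * J2 t + 2 * ν * J1 t + t * J t = 0) :
    ∃ C : ℝ, 0 < C ∧ ∀ t : ℝ, 0 ≤ t → |J t| ≤ C * (1 + t) ^ (-ν) := by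
  have hJc : Continuous J := continuous_iff_continuousAt.2 fun t => (h1 t).continuousAt
  set u : ℝ → ℝ := fun t => t ^ ν * J t with hu
  set u1 : ℝ → ℝ := fun t => ν * t ^ (ν - 1) * J t + t ^ ν * J1 t with hu1
  set c : ℝ := |ν * (ν - 1)| with hc
  have du : ∀ t : ℝ, 0 < t → HasDerivAt u (u1 t) t := by
    intro t ht
    have h3 := (Real.hasDerivAt_rpow_const (x := t) (p := ν) (Or.inl ht.ne')).mul (h1 t)
    exact h3
  have du1 : ∀ t : ℝ, 0 < t → HasDerivAt u1 ((ν * (ν - 1) / t ^ 2 - 1) * u t) t := by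
    intro t ht
    have h3 := ((Real.hasDerivAt_rpow_const (x := t) (p := ν - 1) (Or.inl ht.ne')).const_mul ν).mul
      (h1 t)
    have h4 := (Real.hasDerivAt_rpow_const (x := t) (p := ν) (Or.inl ht.ne')).mul (h2 t)
    have h5 := h3.add h4
    have e1 : t ^ (ν - 1) = t ^ ν / t := Real.rpow_sub_one ht.ne' ν
    have e2 : t ^ (ν - 1 - 1) = t ^ ν / t / t := by
      rw [Real.rpow_sub_one ht.ne', e1]
    have e3 : J2 t = -(2 * ν * J1 t) / t - J t := by
      have := h t
      field_simp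
      linarith
    have e4 : ν * ((ν - 1) * t ^ (ν - 1 - 1)) * J t + ν * t ^ (ν - 1) * J1 t +
        (ν * t ^ (ν - 1) * J1 t + t ^ ν * J2 t) = (ν * (ν - 1) / t ^ 2 - 1) * u t := by
      rw [e2, e1, e3, hu]
      field_simp
      ring
    rw [← e4]
    exact h5
  set W : ℝ → ℝ := fun t => (u t ^ 2 + u1 t ^ 2) * Real.exp (c / t) with hW
  have dW : ∀ t : ℝ, 0 < t → HasDerivAt W
      ((2 * u t * u1 t + 2 * u1 t * ((ν * (ν - 1) / t ^ 2 - 1) * u t)) * Real.exp (c / t) +
        (u t ^ 2 + u1 t ^ 2) * (Real.exp (c / t) * (-c / t ^ 2))) t := by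
    intro t ht
    have h3 := ((du t ht).pow 2).add ((du1 t ht).pow 2)
    have h4 : HasDerivAt (fun t : ℝ => c / t) (-c / t ^ 2) t := by
      have h5 := (hasDerivAt_inv ht.ne').const_mul c
      have e : (fun t : ℝ => c / t) = fun y => c * y⁻¹ := by
        ext y
        rw [div_eq_mul_inv]
      rw [e]
      refine h5.congr_deriv ?_
      rw [mul_neg, neg_div, div_eq_mul_inv]
    have h5 := h3.mul h4.exp
    refine h5.congr_deriv ?_
    simp only [Nat.cast_ofNat, Nat.reduceSub, pow_one, Pi.add_apply, Pi.pow_apply]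
  have hWneg : ∀ t : ℝ, 0 < t →
      (2 * u t * u1 t + 2 * u1 t * ((ν * (ν - 1) / t ^ 2 - 1) * u t)) * Real.exp (c / t) +
        (u t ^ 2 + u1 t ^ 2) * (Real.exp (c / t) * (-c / t ^ 2)) ≤ 0 := by
    intro t ht
    have e : (2 * u t * u1 t + 2 * u1 t * ((ν * (ν - 1) / t ^ 2 - 1) * u t)) * Real.exp (c / t) +
        (u t ^ 2 + u1 t ^ 2) * (Real.exp (c / t) * (-c / t ^ 2)) =
        (2 * (ν * (ν - 1)) * (u t * u1 t) - c * (u t ^ 2 + u1 t ^ 2)) / t ^ 2 *
          Real.exp (c / t) := by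
      field_simp
      ring
    rw [e]
    have h3 : 2 * (ν * (ν - 1)) * (u t * u1 t) ≤ c * (u t ^ 2 + u1 t ^ 2) := by
      have h4 : 2 * (ν * (ν - 1)) * (u t * u1 t) ≤ |2 * (ν * (ν - 1)) * (u t * u1 t)| := le_abs_self _
      have h5 : |2 * (ν * (ν - 1)) * (u t * u1 t)| = c * (2 * |u t * u1 t|) := by
        rw [abs_mul, abs_mul, hc]
        norm_num
        ring
      have h6 : 2 * |u t * u1 t| ≤ u t ^ 2 + u1 t ^ 2 := by
        rw [abs_mul]
        have := two_mul_le_add_sq |u t| |u1 t|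
        rw [sq_abs, sq_abs] at this
        linarith
      have h7 : c * (2 * |u t * u1 t|) ≤ c * (u t ^ 2 + u1 t ^ 2) :=
        mul_le_mul_of_nonneg_left h6 (abs_nonneg _)
      linarith
    have h8 : (2 * (ν * (ν - 1)) * (u t * u1 t) - c * (u t ^ 2 + u1 t ^ 2)) / t ^ 2 ≤ 0 :=
      div_nonpos_of_nonpos_of_nonneg (by linarith) (sq_nonneg t)
    exact mul_nonpos_of_nonpos_of_nonneg h8 (Real.exp_pos _).le
  have hanti : AntitoneOn W (Ici 1) := by
    refine antitoneOn_of_deriv_nonpos (convex_Ici 1) ?_ ?_ ?_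
    · intro t ht
      exact (dW t (lt_of_lt_of_le one_pos ht)).continuousAt.continuousWithinAt
    · intro t ht
      rw [interior_Ici] at ht
      exact (dW t (lt_trans one_pos ht)).differentiableAt.differentiableWithinAt
    · intro t ht
      rw [interior_Ici] at ht
      rw [(dW t (lt_trans one_pos ht)).deriv]
      exact hWneg t (lt_trans one_pos ht)
  -- the bound for `t ≥ 1`
  have hbig : ∀ t : ℝ, 1 ≤ t → |u t| ≤ Real.sqrt (W 1) := by
    intro t ht
    have h3 : W t ≤ W 1 := hanti (mem_Ici.2 le_rfl) (mem_Ici.2 ht) ht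
    have h4 : 1 ≤ Real.exp (c / t) :=
      Real.one_le_exp (div_nonneg (abs_nonneg _) (by linarith))
    have h5 : u t ^ 2 ≤ W t := by
      have h6 : u t ^ 2 + u1 t ^ 2 ≤ (u t ^ 2 + u1 t ^ 2) * Real.exp (c / t) :=
        le_mul_of_one_le_right (by positivity) h4
      have h7 : 0 ≤ u1 t ^ 2 := sq_nonneg _
      have h8 : W t = (u t ^ 2 + u1 t ^ 2) * Real.exp (c / t) := rfl
      linarith
    exact Real.abs_le_sqrt (h5.trans h3)
  -- the bound on `[0, 1]`
  obtain ⟨C1, hC1⟩ := (isCompact_Icc (a := (0 : ℝ)) (b := 1)).exists_bound_of_continuousOn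
    (f := fun t : ℝ => J t * (1 + t) ^ ν) (by
      refine hJc.continuousOn.mul ?_
      intro t ht
      refine ContinuousAt.continuousWithinAt ?_
      refine ContinuousAt.rpow_const (by fun_prop) (Or.inl ?_)
      have := ht.1
      linarith)
  set C : ℝ := max C1 (2 ^ |ν| * Real.sqrt (W 1)) + 1 with hC
  have hCpos : 0 < C := by
    have h3 : 0 ≤ 2 ^ |ν| * Real.sqrt (W 1) := by positivity
    have h4 := le_max_right C1 (2 ^ |ν| * Real.sqrt (W 1))
    linarith
  refine ⟨C, hCpos, fun t ht => ?_⟩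
  have ht1 : 0 < 1 + t := by linarith
  have key : |J t| * (1 + t) ^ ν ≤ C := by
    rcases le_total t 1 with h3 | h3
    · have h4 := hC1 t ⟨ht, h3⟩
      rw [Real.norm_eq_abs, abs_mul, abs_of_pos (Real.rpow_pos_of_pos ht1 ν)] at h4
      have h5 := le_max_left C1 (2 ^ |ν| * Real.sqrt (W 1))
      linarith
    · have ht0 : 0 < t := by linarith
      have h4 := hbig t h3
      have h5 : |J t| * (1 + t) ^ ν = |u t| * ((1 + t) / t) ^ ν := by
        rw [hu, Real.div_rpow ht1.le ht0.le, abs_mul, abs_of_pos (Real.rpow_pos_of_pos ht0 ν)]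
        have := (Real.rpow_pos_of_pos ht0 ν).ne'
        field_simp
      have h6 : ((1 + t) / t) ^ ν ≤ 2 ^ |ν| := by
        have h7 : 1 ≤ (1 + t) / t := by
          rw [le_div_iff₀ ht0]
          linarith
        have h8 : (1 + t) / t ≤ 2 := by
          rw [div_le_iff₀ ht0]
          linarith
        calc ((1 + t) / t) ^ ν ≤ ((1 + t) / t) ^ |ν| :=
              Real.rpow_le_rpow_of_exponent_le h7 (le_abs_self ν)
          _ ≤ 2 ^ |ν| := Real.rpow_le_rpow (by linarith) h8 (abs_nonneg ν)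
      have h9 : |u t| * ((1 + t) / t) ^ ν ≤ Real.sqrt (W 1) * 2 ^ |ν| :=
        mul_le_mul h4 h6 (Real.rpow_nonneg (by positivity) _) (Real.sqrt_nonneg _)
      have h10 := le_max_right C1 (2 ^ |ν| * Real.sqrt (W 1))
      rw [h5]
      linarith
  rw [Real.rpow_neg ht1.le, ← div_eq_mul_inv, le_div_iff₀ (Real.rpow_pos_of_pos ht1 ν)]
  exact key

end Pool.LibSR53
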