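import Pool.Agent.LibSR53.Defs

/-
PLAN (S2). sg_scale: ext s; unfold sg; Measure.hausdorffMeasure_smul0 (mu_H[d](r . s) = |r|^d mu_H[d](s), NNReal power
with REAL exponent (d-1); convert rpow to natural power, (d:R)-1 = ((d-1:N):R) by Nat.cast_sub). The sphere of radius r
is r . sphere 0 1. MeasurableEmbedding of zeta |-> r . zeta (Homeomorph.smulOfNeZero) for map apply on all sets.
sg_map: IsometryEquiv.map_hausdorffMeasure (or U.toIsometryEquiv.hausdorffMeasure_preimage/image), and U maps the
sphere 0 r onto itself (U.norm_map); Measure.restrict_map / MeasurableEquiv.restrict_map.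
-/

set_option autoImplicit false

noncomputable section

open MeasureTheory Metric Set Filter

namespace Pool.LibSR53

open scoped Pointwise

/-- scaling of the surface measure -/
theorem sg_scale (d : ℕ) (hd : 2 ≤ d) (r : ℝ) (hr : 0 < r) :
    sg d r = ENNReal.ofReal (r ^ (d - 1)) • (sg d 1).map (fun ζ : E d => r • ζ) := by
  have hme : Measurable (fun ζ : E d => r • ζ) := measurable_const_smul r
  have hd0 : (0 : ℝ) ≤ (d : ℝ) - 1 := by
    have : (2 : ℝ) ≤ d := by exact_mod_cast hd
    linarith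
  ext s hs
  rw [Measure.smul_apply, Measure.map_apply hme hs, sg, sg, Measure.restrict_apply hs,
    Measure.restrict_apply (hme hs)]
  have e1 : s ∩ sphere (0 : E d) r =
      r • ((fun ζ : E d => r • ζ) ⁻¹' s ∩ sphere (0 : E d) 1) := by
    ext ζ
    rw [Set.mem_smul_set_iff_inv_smul_mem₀ hr.ne']
    simp only [mem_inter_iff, mem_preimage, mem_sphere_zero_iff_norm, norm_smul, norm_inv,
      Real.norm_eq_abs, abs_of_pos hr]
    rw [smul_inv_smul₀ hr.ne']
    constructor
    · rintro ⟨h1, h2⟩
      exact ⟨h1, by rw [h2, inv_mul_cancel₀ hr.ne']⟩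
    · rintro ⟨h1, h2⟩
      refine ⟨h1, ?_⟩
      have h3 := congrArg (fun t => r * t) h2
      simp only [mul_inv_cancel_left₀ hr.ne', mul_one] at h3
      exact h3
  rw [e1, Measure.hausdorffMeasure_smul₀ hd0 hr.ne']
  have e2 : ((‖r‖₊ ^ ((d : ℝ) - 1) : NNReal) : ENNReal) = ENNReal.ofReal (r ^ (d - 1)) := by
    have e3 : ((d : ℝ) - 1) = ((d - 1 : ℕ) : ℝ) := by
      rw [Nat.cast_sub (by omega)]
      norm_num
    rw [e3, NNReal.rpow_natCast, ENNReal.ofReal]
    congr 1
    ext
    rw [NNReal.coe_pow, coe_nnnorm, Real.norm_eq_abs, abs_of_pos hr,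
      Real.coe_toNNReal _ (by positivity)]
  rw [← e2]
  rfl

/-- rotation invariance of the surface measure -/
theorem sg_map (d : ℕ) (r : ℝ) (U : E d ≃ₗᵢ[ℝ] E d) : (sg d r).map U = sg d r := by
  have hme : Measurable U := U.continuous.measurable
  ext s hs
  rw [Measure.map_apply hme hs, sg, Measure.restrict_apply (hme hs), Measure.restrict_apply hs]
  have e1 : U ⁻¹' s ∩ sphere (0 : E d) r = U ⁻¹' (s ∩ sphere (0 : E d) r) := by
    ext ζ
    simp only [mem_inter_iff, mem_preimage, mem_sphere_zero_iff_norm, LinearIsometryEquiv.norm_map]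
  rw [e1]
  exact U.toIsometryEquiv.hausdorffMeasure_preimage _ _

end Pool.LibSR53
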