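import Pool.Agent.LibSR53.S1
import Pool.Agent.LibSR53.S2

/-
PLAN (S5). sg_fin, sg_mass: S1 + S2 (sg_scale; map of a finite measure; total mass r^(d-1) * mass of sg d 1).
sh_scale: sg_scale + integral_smul_measure + integral_map (measurable embedding), inner (r z) xi = inner z (r xi).
sh_exp: exp(i a) = cos a + i sin a; the sine integral vanishes by the symmetry zeta -> -zeta
(sg_map with LinearIsometryEquiv.neg R). sh_neg: cos is even. sh_radial: a linear isometry equivalence U with U xi = xi'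
(reflection in the orthogonal complement of xi - xi', Mathlib reflection_sub or similar) + sg_map.
sh_continuous: continuous_of_dominated with bound 1 on a finite measure (or sh_scale).
-/

set_option autoImplicit false

noncomputable section

open MeasureTheory Metric Set Filter

namespace Pool.LibSR53

theorem sg_fin (d : ℕ) (hd : 2 ≤ d) (r : ℝ) (hr : 0 < r) : IsFiniteMeasure (sg d r) := by
  have : IsFiniteMeasure (sg d 1) := ⟨sg_one_finite d hd⟩
  rw [sg_scale d hd r hr]
  exact Measure.smul_finite _ ENNReal.ofReal_ne_top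

theorem sg_mass (d : ℕ) (hd : 2 ≤ d) : ∃ C : ℝ, 0 < C ∧ ∀ r : ℝ, 0 < r →
    (sg d r).real univ ≤ C * r ^ (d - 1) := by
  have : IsFiniteMeasure (sg d 1) := ⟨sg_one_finite d hd⟩
  refine ⟨(sg d 1).real univ, ?_, fun r hr => ?_⟩
  · rw [measureReal_def]
    exact ENNReal.toReal_pos (sg_one_pos d hd).ne' (sg_one_finite d hd).ne
  · rw [sg_scale d hd r hr, measureReal_def, Measure.smul_apply, smul_eq_mul, ENNReal.toReal_mul,
      Measure.map_apply (by fun_prop) MeasurableSet.univ, preimage_univ,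
      ENNReal.toReal_ofReal (by positivity), measureReal_def, mul_comm]

private lemma s5_int_cos (d : ℕ) (hd : 2 ≤ d) (r : ℝ) (hr : 0 < r) (ξ : E d) :
    Integrable (fun ζ : E d => Real.cos (2 * Real.pi * inner ℝ ζ ξ)) (sg d r) := by
  have := sg_fin d hd r hr
  refine Integrable.of_bound (C := 1) ?_ ?_
  · exact (by fun_prop : Continuous fun ζ : E d =>
      Real.cos (2 * Real.pi * inner ℝ ζ ξ)).aestronglyMeasurable
  · exact Filter.Eventually.of_forall fun ζ => by
      rw [Real.norm_eq_abs]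
      exact Real.abs_cos_le_one _

private lemma s5_int_sin (d : ℕ) (hd : 2 ≤ d) (r : ℝ) (hr : 0 < r) (ξ : E d) :
    Integrable (fun ζ : E d => Real.sin (2 * Real.pi * inner ℝ ζ ξ)) (sg d r) := by
  have := sg_fin d hd r hr
  refine Integrable.of_bound (C := 1) ?_ ?_
  · exact (by fun_prop : Continuous fun ζ : E d =>
      Real.sin (2 * Real.pi * inner ℝ ζ ξ)).aestronglyMeasurable
  · exact Filter.Eventually.of_forall fun ζ => by
      rw [Real.norm_eq_abs]
      exact Real.abs_sin_le_one _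

private lemma s5_map (d : ℕ) (r : ℝ) (U : E d ≃ₗᵢ[ℝ] E d) (f : E d → ℝ) (hf : Continuous f) :
    ∫ ζ, f ζ ∂(sg d r) = ∫ ζ, f (U ζ) ∂(sg d r) := by
  conv_lhs => rw [← sg_map d r U]
  rw [integral_map U.continuous.measurable.aemeasurable hf.aestronglyMeasurable]

theorem sh_exp (d : ℕ) (hd : 2 ≤ d) (r : ℝ) (hr : 0 < r) (ξ : E d) :
    ∫ ζ, ex ζ ξ ∂(sg d r) = (sh d r ξ : ℂ) := by
  have h1 : ∀ ζ : E d, ex ζ ξ = ((Real.cos (2 * Real.pi * inner ℝ ζ ξ) : ℝ) : ℂ) +
      ((Real.sin (2 * Real.pi * inner ℝ ζ ξ) : ℝ) : ℂ) * Complex.I := by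
    intro ζ
    unfold ex
    rw [Complex.ofReal_cos, Complex.ofReal_sin, ← Complex.exp_mul_I]
    congr 1
    push_cast
    ring
  have h2 : ∫ ζ, Real.sin (2 * Real.pi * inner ℝ ζ ξ) ∂(sg d r) = 0 := by
    have h3 := s5_map d r (LinearIsometryEquiv.neg ℝ)
      (fun ζ : E d => Real.sin (2 * Real.pi * inner ℝ ζ ξ)) (by fun_prop)
    have h4 : ∫ ζ : E d, Real.sin (2 * Real.pi * inner ℝ ((LinearIsometryEquiv.neg ℝ) ζ) ξ)
        ∂(sg d r) = -∫ ζ : E d, Real.sin (2 * Real.pi * inner ℝ ζ ξ) ∂(sg d r) := by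
      rw [← integral_neg]
      refine integral_congr_ae (Filter.Eventually.of_forall fun ζ => ?_)
      change Real.sin (2 * Real.pi * inner ℝ (-ζ) ξ) = -Real.sin (2 * Real.pi * inner ℝ ζ ξ)
      rw [inner_neg_left, mul_neg, Real.sin_neg]
    have h5 : ∫ ζ : E d, Real.sin (2 * Real.pi * inner ℝ ζ ξ) ∂(sg d r) =
        -∫ ζ : E d, Real.sin (2 * Real.pi * inner ℝ ζ ξ) ∂(sg d r) := h3.trans h4
    linarith
  simp_rw [h1]
  rw [integral_add ((s5_int_cos d hd r hr ξ).ofReal) (((s5_int_sin d hd r hr ξ).ofReal).mul_const _),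
    integral_mul_const, integral_complex_ofReal, integral_complex_ofReal, h2]
  simp [sh]

theorem sh_neg (d : ℕ) (r : ℝ) (ξ : E d) : sh d r (-ξ) = sh d r ξ := by
  unfold sh
  simp only [inner_neg_right, mul_neg, Real.cos_neg]

theorem sh_radial (d : ℕ) (r : ℝ) (ξ ξ' : E d) (h : ‖ξ‖ = ‖ξ'‖) : sh d r ξ = sh d r ξ' := by
  set U : E d ≃ₗᵢ[ℝ] E d := ((ℝ ∙ (ξ - ξ'))ᗮ).reflection with hU
  have h1 : U ξ = ξ' := Submodule.reflection_sub h
  unfold sh
  rw [s5_map d r U (fun ζ : E d => Real.cos (2 * Real.pi * inner ℝ ζ ξ')) (by fun_prop)]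
  refine integral_congr_ae (Filter.Eventually.of_forall fun ζ => ?_)
  change Real.cos (2 * Real.pi * inner ℝ ζ ξ) = Real.cos (2 * Real.pi * inner ℝ (U ζ) ξ')
  rw [← h1, U.inner_map_map]

theorem sh_continuous (d : ℕ) (hd : 2 ≤ d) (r : ℝ) (hr : 0 < r) : Continuous (sh d r) := by
  have := sg_fin d hd r hr
  unfold sh
  refine continuous_of_dominated (bound := fun _ => (1 : ℝ)) ?_ ?_ (integrable_const _) ?_
  · intro ξ
    exact (by fun_prop : Continuous fun ζ : E d =>
      Real.cos (2 * Real.pi * inner ℝ ζ ξ)).aestronglyMeasurable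
  · intro ξ
    exact Filter.Eventually.of_forall fun ζ => by
      rw [Real.norm_eq_abs]
      exact Real.abs_cos_le_one _
  · exact Filter.Eventually.of_forall fun ζ => by fun_prop

theorem sh_scale (d : ℕ) (hd : 2 ≤ d) (r : ℝ) (hr : 0 < r) (ξ : E d) :
    sh d r ξ = r ^ (d - 1) * sh d 1 (r • ξ) := by
  unfold sh
  rw [sg_scale d hd r hr, integral_smul_measure, ENNReal.toReal_ofReal (by positivity),
    integral_map (by fun_prop) (by
      exact (by fun_prop : Continuous fun ζ : E d =>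
        Real.cos (2 * Real.pi * inner ℝ ζ ξ)).aestronglyMeasurable), smul_eq_mul]
  congr 1
  refine integral_congr_ae (Filter.Eventually.of_forall fun ζ => ?_)
  change Real.cos (2 * Real.pi * inner ℝ (r • ζ) ξ) = Real.cos (2 * Real.pi * inner ℝ ζ (r • ξ))
  rw [real_inner_smul_left, real_inner_smul_right]

end Pool.LibSR53
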