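import Pool.Agent.LibSR53.S3
import Pool.Agent.LibSR53.S4
import Pool.Agent.LibSR53.S5

/-
PLAN (S6). J from S3, decay from S4 with nu = nu d. For xi /= 0: sh d 1 xi = J (2 pi |xi|) (e = xi/|xi|);
sh d r xi = r^(d-1) sh d 1 (r xi) (sh_scale). xi = 0: |sh| <= mass (sg_mass) or J 0. (1 + 2 pi r|xi|)^(-nu) <= (1 + r|xi|)^(-nu) as nu >= 0.
-/

set_option autoImplicit false

noncomputable section

open MeasureTheory Metric Set Filter

namespace Pool.LibSR53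

private theorem s6_unit (d : ℕ) (hd : 2 ≤ d) (η : E d) : ∃ e : E d, ‖e‖ = 1 ∧ η = ‖η‖ • e := by
  by_cases h : η = 0
  · refine ⟨EuclideanSpace.single (⟨0, by omega⟩ : Fin d) (1 : ℝ), by simp, ?_⟩
    rw [h, norm_zero, zero_smul]
  · have h0 : ‖η‖ ≠ 0 := norm_ne_zero_iff.2 h
    refine ⟨‖η‖⁻¹ • η, ?_, ?_⟩
    · rw [norm_smul, norm_inv, norm_norm, inv_mul_cancel₀ h0]
    · rw [smul_smul, mul_inv_cancel₀ h0, one_smul]

/-- decay of the Fourier transform of the surface measure -/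
theorem sh_bound (d : ℕ) (hd : 2 ≤ d) : ∃ C : ℝ, 0 < C ∧ ∀ r : ℝ, 0 < r → ∀ ξ : E d,
    |sh d r ξ| ≤ C * r ^ (d - 1) * (1 + r * ‖ξ‖) ^ (-nu d) := by
  obtain ⟨J, J1, J2, hJ, h1, h2, h3⟩ := exists_J d hd
  obtain ⟨C, hC, hdec⟩ := ode_decay (nu d) J J1 J2 h1 h2 h3
  have hnu : 0 ≤ nu d := by
    have h : (2 : ℝ) ≤ (d : ℝ) := by exact_mod_cast hd
    rw [nu]
    linarith
  refine ⟨C, hC, fun r hr ξ => ?_⟩
  have e1 : sh d 1 (r • ξ) = J (2 * Real.pi * (r * ‖ξ‖)) := by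
    obtain ⟨e, he, heq⟩ := s6_unit d hd (r • ξ)
    have hn : ‖r • ξ‖ = r * ‖ξ‖ := by rw [norm_smul, Real.norm_eq_abs, abs_of_pos hr]
    rw [hJ e he, sh]
    refine integral_congr_ae (Eventually.of_forall (fun ζ => ?_))
    show Real.cos (2 * Real.pi * inner ℝ ζ (r • ξ)) = Real.cos (2 * Real.pi * (r * ‖ξ‖) * inner ℝ ζ e)
    rw [heq, hn, inner_smul_right, mul_assoc (2 * Real.pi)]
  have hx : 0 ≤ r * ‖ξ‖ := mul_nonneg hr.le (norm_nonneg ξ)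
  have hpi : 1 ≤ 2 * Real.pi := by linarith [Real.pi_gt_three]
  have hx2 : r * ‖ξ‖ ≤ 2 * Real.pi * (r * ‖ξ‖) := le_mul_of_one_le_left hx hpi
  have e2 : |J (2 * Real.pi * (r * ‖ξ‖))| ≤ C * (1 + r * ‖ξ‖) ^ (-nu d) := by
    refine (hdec _ (hx.trans hx2)).trans ?_
    refine mul_le_mul_of_nonneg_left ?_ hC.le
    exact Real.rpow_le_rpow_of_nonpos (by linarith) (by linarith) (by linarith)
  rw [sh_scale d hd r hr, e1, abs_mul, abs_of_nonneg (pow_nonneg hr.le _)]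
  calc r ^ (d - 1) * |J (2 * Real.pi * (r * ‖ξ‖))|
      ≤ r ^ (d - 1) * (C * (1 + r * ‖ξ‖) ^ (-nu d)) :=
        mul_le_mul_of_nonneg_left e2 (pow_nonneg hr.le _)
    _ = C * r ^ (d - 1) * (1 + r * ‖ξ‖) ^ (-nu d) := by ring

end Pool.LibSR53
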