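import Pool.Agent.LibSR53.K3
import Pool.Agent.LibSR53.S6

/-
PLAN (P1). By Ip_fourier, the double sum equals int phi(xi) sh_r(xi)^2 |A(xi)|^2 with A(xi) = sum_z gamma_z conj(ex z xi)
(ex (y-z) xi = ex y xi * conj(ex z xi)), phi >= 0. For |xi| >= eps: sh_r^2 <= C^2 r^(2(d-1)) (r|xi|)^(-(d-1)) <= C' r^(d-1), so it is
<= C' r^(d-1) int phi |A|^2 = C' r^(d-1) Re sum_{y,z} conj(gamma_y) gamma_z Psi(y-z) <= C' r^(d-1) sum_{y,z} (|gamma_y|^2+|gamma_z|^2)/2 |Psi(y-z)|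
<= C'' r^(d-1) sum |gamma_y|^2, provided sup_y sum_{z in S} |Psi(y-z)| <= B with B independent of the 1-separated set S (Psi even in absolute value:
Psi(-v) = conj Psi(v) since phi is real; or use both sums). This sup: |Psi w| <= B0 (1+|w|)^(-(d+1)) and the balls B(z,1/2) are disjoint with
(1+|y-z|)^(-(d+1)) <= 2^(d+1) (1+|y-x|)^(-(d+1)) for x in B(z,1/2), so the sum is <= 2^(d+1)/vol(B_{1/2}) int (1+|x|)^(-(d+1)) dx
(integrable_one_add_norm).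
-/

set_option autoImplicit false

noncomputable section

open MeasureTheory Metric Set Filter

namespace Pool.LibSR53

private theorem p1_ex_sub {d : ℕ} (y z ξ : E d) :
    ex (y - z) ξ = ex y ξ * (starRingEnd ℂ) (ex z ξ) := by
  unfold ex
  rw [← Complex.exp_conj, ← Complex.exp_add]
  congr 1
  rw [inner_sub_left]
  simp only [map_mul, Complex.conj_I, Complex.conj_ofReal, map_ofNat]
  push_cast
  ring

private theorem p1_norm_ex {d : ℕ} (v ξ : E d) : ‖ex v ξ‖ = 1 := by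
  unfold ex
  rw [show 2 * (Real.pi : ℂ) * Complex.I * ((inner ℝ v ξ : ℝ) : ℂ) =
    ((2 * Real.pi * inner ℝ v ξ : ℝ) : ℂ) * Complex.I by push_cast; ring]
  exact Complex.norm_exp_ofReal_mul_I _

private theorem p1_ex_cont {d : ℕ} (v : E d) : Continuous (fun ξ : E d => ex v ξ) := by
  unfold ex
  fun_prop

/-- the packing sum -/
private theorem p1_pack (d : ℕ) : ∃ B : ℝ, 0 < B ∧ ∀ (S : Finset (E d)) (y : E d),
    (∀ y ∈ S, ∀ z ∈ S, y ≠ z → 1 ≤ dist y z) →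
    ∑ z ∈ S, ((1 + ‖y - z‖) ^ (d + 1))⁻¹ ≤ B := by
  have hint : Integrable (fun x : E d => ((1 + ‖x‖) ^ (d + 1))⁻¹) := by
    have h := integrable_one_add_norm (E := E d) (μ := volume) (r := (d : ℝ) + 1)
      (by simp)
    refine h.congr (Filter.Eventually.of_forall fun x => ?_)
    have h0 : 0 < 1 + ‖x‖ := by positivity
    show (1 + ‖x‖) ^ (-((d : ℝ) + 1)) = ((1 + ‖x‖) ^ (d + 1))⁻¹
    rw [Real.rpow_neg h0.le]
    congr 1
    exact_mod_cast Real.rpow_natCast (1 + ‖x‖) (d + 1)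
  set c : ℝ := (volume : Measure (E d)).real (ball (0 : E d) (1 / 2)) with hc
  have hcpos : 0 < c := by
    rw [hc, measureReal_def]
    apply ENNReal.toReal_pos
    · exact (measure_ball_pos _ _ (by norm_num)).ne'
    · exact measure_ball_lt_top.ne
  have hcz : ∀ z : E d, (volume : Measure (E d)).real (ball z (1 / 2)) = c := by
    intro z
    rw [hc, measureReal_def, measureReal_def, Measure.addHaar_ball_center]
  set I0 : ℝ := ∫ x : E d, ((1 + ‖x‖) ^ (d + 1))⁻¹ with hI0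
  have hI0' : 0 ≤ I0 := integral_nonneg fun x => by positivity
  refine ⟨2 ^ (d + 1) * I0 / c + 1, by positivity, ?_⟩
  intro S y hS
  have hint2 : Integrable (fun x : E d => ((1 + ‖y - x‖) ^ (d + 1))⁻¹) :=
    hint.comp_sub_left y
  have hpt : ∀ z : E d, c * ((1 + ‖y - z‖) ^ (d + 1))⁻¹ ≤
      2 ^ (d + 1) * ∫ x in ball z (1 / 2), ((1 + ‖y - x‖) ^ (d + 1))⁻¹ := by
    intro z
    have h1 : ∀ x ∈ ball z (1 / 2), ((1 + ‖y - z‖) ^ (d + 1))⁻¹ ≤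
        2 ^ (d + 1) * ((1 + ‖y - x‖) ^ (d + 1))⁻¹ := by
      intro x hx
      have hx' : ‖x - z‖ < 1 / 2 := by rwa [mem_ball, dist_eq_norm] at hx
      have hyx : 1 + ‖y - x‖ ≤ 2 * (1 + ‖y - z‖) := by
        have : ‖y - x‖ ≤ ‖y - z‖ + ‖z - x‖ := by
          have := norm_add_le (y - z) (z - x)
          simpa using this
        rw [norm_sub_rev z x] at this
        have := norm_nonneg (y - z)
        linarith
      have hp : (1 + ‖y - x‖) ^ (d + 1) ≤ 2 ^ (d + 1) * (1 + ‖y - z‖) ^ (d + 1) := by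
        rw [← mul_pow]
        exact pow_le_pow_left₀ (by positivity) hyx _
      rw [← div_eq_mul_inv, le_div_iff₀ (by positivity), inv_mul_le_iff₀ (by positivity)]
      linarith
    calc c * ((1 + ‖y - z‖) ^ (d + 1))⁻¹ =
        ∫ _x in ball z (1 / 2), ((1 + ‖y - z‖) ^ (d + 1))⁻¹ := by
          rw [setIntegral_const, hcz, smul_eq_mul]
      _ ≤ ∫ x in ball z (1 / 2), 2 ^ (d + 1) * ((1 + ‖y - x‖) ^ (d + 1))⁻¹ := by
          apply setIntegral_mono_on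
          · exact integrableOn_const (hs := measure_ball_lt_top.ne)
          · exact (hint2.const_mul _).integrableOn
          · exact measurableSet_ball
          · exact h1
      _ = _ := by rw [integral_const_mul]
  have hdisj : Set.Pairwise (↑S : Set (E d)) (Function.onFun Disjoint fun z => ball z (1 / 2)) := by
    intro a ha b hb hab
    apply ball_disjoint_ball
    have := hS a ha b hb hab
    linarith
  have hsum : ∑ z ∈ S, ∫ x in ball z (1 / 2), ((1 + ‖y - x‖) ^ (d + 1))⁻¹ ≤ I0 := by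
    rw [← integral_biUnion_finset S (fun i _ => measurableSet_ball) hdisj
      (fun i _ => hint2.integrableOn)]
    calc _ ≤ ∫ x : E d, ((1 + ‖y - x‖) ^ (d + 1))⁻¹ :=
          setIntegral_le_integral hint2 (Filter.Eventually.of_forall fun x => by positivity)
      _ = I0 := integral_sub_left_eq_self (fun x : E d => ((1 + ‖x‖) ^ (d + 1))⁻¹) volume y
  have htot : c * ∑ z ∈ S, ((1 + ‖y - z‖) ^ (d + 1))⁻¹ ≤ 2 ^ (d + 1) * I0 := by
    rw [Finset.mul_sum]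
    calc _ ≤ ∑ z ∈ S, 2 ^ (d + 1) * ∫ x in ball z (1 / 2), ((1 + ‖y - x‖) ^ (d + 1))⁻¹ :=
          Finset.sum_le_sum fun z _ => hpt z
      _ = 2 ^ (d + 1) * ∑ z ∈ S, ∫ x in ball z (1 / 2), ((1 + ‖y - x‖) ^ (d + 1))⁻¹ := by
          rw [Finset.mul_sum]
      _ ≤ _ := mul_le_mul_of_nonneg_left hsum (by positivity)
  have : ∑ z ∈ S, ((1 + ‖y - z‖) ^ (d + 1))⁻¹ ≤ 2 ^ (d + 1) * I0 / c := by
    rw [le_div_iff₀ hcpos]
    linarith
  linarith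

private theorem p1_decay {d : ℕ} (Ψ : SchwartzMap (E d) ℂ) : ∃ B : ℝ, 0 < B ∧
    ∀ w, ‖Ψ w‖ ≤ B * ((1 + ‖w‖) ^ (d + 1))⁻¹ := by
  refine ⟨2 ^ (d + 1) * ((Finset.Iic ((d + 1, 0) : ℕ × ℕ)).sup
    (fun m => SchwartzMap.seminorm ℝ m.1 m.2)) Ψ + 1, by positivity, ?_⟩
  intro w
  have h := SchwartzMap.one_add_le_sup_seminorm_apply (𝕜 := ℝ) (m := (d + 1, 0))
    (k := d + 1) (n := 0) le_rfl le_rfl Ψ w
  rw [norm_iteratedFDeriv_zero] at h
  have h0 : 0 < (1 + ‖w‖) ^ (d + 1) := by positivity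
  rw [← div_eq_mul_inv, le_div_iff₀ h0]
  linarith

private theorem p1_schur {d : ℕ} (Ψ : SchwartzMap (E d) ℂ) : ∃ C : ℝ, 0 < C ∧
    ∀ (S : Finset (E d)) (γ : E d → ℂ), (∀ y ∈ S, ∀ z ∈ S, y ≠ z → 1 ≤ dist y z) →
      (∑ y ∈ S, ∑ z ∈ S, (starRingEnd ℂ) (γ y) * γ z * Ψ (y - z)).re ≤
        C * ∑ y ∈ S, ‖γ y‖ ^ 2 := by
  obtain ⟨B, hB, hBS⟩ := p1_pack d
  obtain ⟨B0, hB0, hΨ⟩ := p1_decay Ψ
  refine ⟨B0 * B, by positivity, ?_⟩
  intro S γ hS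
  calc (∑ y ∈ S, ∑ z ∈ S, (starRingEnd ℂ) (γ y) * γ z * Ψ (y - z)).re ≤
      ‖∑ y ∈ S, ∑ z ∈ S, (starRingEnd ℂ) (γ y) * γ z * Ψ (y - z)‖ := Complex.re_le_norm _
    _ ≤ ∑ y ∈ S, ∑ z ∈ S, ‖γ y‖ * ‖γ z‖ * (B0 * ((1 + ‖y - z‖) ^ (d + 1))⁻¹) := by
        refine (norm_sum_le _ _).trans (Finset.sum_le_sum fun y _ => ?_)
        refine (norm_sum_le _ _).trans (Finset.sum_le_sum fun z _ => ?_)
        rw [norm_mul, norm_mul, Complex.norm_conj]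
        exact mul_le_mul_of_nonneg_left (hΨ _) (by positivity)
    _ ≤ ∑ y ∈ S, ∑ z ∈ S, (‖γ y‖ ^ 2 / 2 * (B0 * ((1 + ‖y - z‖) ^ (d + 1))⁻¹) +
          ‖γ z‖ ^ 2 / 2 * (B0 * ((1 + ‖y - z‖) ^ (d + 1))⁻¹)) := by
        refine Finset.sum_le_sum fun y _ => Finset.sum_le_sum fun z _ => ?_
        rw [← add_mul]
        apply mul_le_mul_of_nonneg_right _ (by positivity)
        nlinarith [sq_nonneg (‖γ y‖ - ‖γ z‖)]
    _ = ∑ y ∈ S, ‖γ y‖ ^ 2 / 2 * B0 * ∑ z ∈ S, ((1 + ‖y - z‖) ^ (d + 1))⁻¹ +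
          ∑ z ∈ S, ‖γ z‖ ^ 2 / 2 * B0 * ∑ y ∈ S, ((1 + ‖z - y‖) ^ (d + 1))⁻¹ := by
        simp only [Finset.sum_add_distrib]
        congr 1
        · refine Finset.sum_congr rfl fun y _ => ?_
          rw [Finset.mul_sum]
          exact Finset.sum_congr rfl fun z _ => by ring
        · rw [Finset.sum_comm]
          refine Finset.sum_congr rfl fun y _ => ?_
          rw [Finset.mul_sum]
          exact Finset.sum_congr rfl fun z _ => by rw [norm_sub_rev]; ring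
    _ ≤ ∑ y ∈ S, ‖γ y‖ ^ 2 / 2 * B0 * B + ∑ z ∈ S, ‖γ z‖ ^ 2 / 2 * B0 * B := by
        apply add_le_add
        · exact Finset.sum_le_sum fun y _ =>
            mul_le_mul_of_nonneg_left (hBS S y hS) (by positivity)
        · exact Finset.sum_le_sum fun y _ =>
            mul_le_mul_of_nonneg_left (hBS S y hS) (by positivity)
    _ = B0 * B * ∑ y ∈ S, ‖γ y‖ ^ 2 := by
        rw [← Finset.sum_add_distrib, Finset.mul_sum]
        exact Finset.sum_congr rfl fun y _ => by ring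

/-- double sums as integrals -/
private theorem p1_sum_int {d : ℕ} (φ : SchwartzMap (E d) ℂ) (g : E d → ℝ) (hg : Continuous g)
    (Cg : ℝ) (hgb : ∀ ξ, |g ξ| ≤ Cg) (S : Finset (E d)) (γ : E d → ℂ) :
    Integrable (fun ξ => φ ξ * (g ξ : ℂ) *
      ((‖∑ z ∈ S, γ z * (starRingEnd ℂ) (ex z ξ)‖ ^ 2 : ℝ) : ℂ)) ∧
    ∑ y ∈ S, ∑ z ∈ S, (starRingEnd ℂ) (γ y) * γ z * ∫ ξ, ex (y - z) ξ * φ ξ * (g ξ : ℂ) =
      ∫ ξ, φ ξ * (g ξ : ℂ) *
        ((‖∑ z ∈ S, γ z * (starRingEnd ℂ) (ex z ξ)‖ ^ 2 : ℝ) : ℂ) := by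
  have hbase : Integrable (fun ξ => φ ξ * (g ξ : ℂ)) := by
    have h1 : Integrable (fun ξ => (g ξ : ℂ) * φ ξ) := by
      apply φ.integrable.bdd_mul (c := Cg)
      · exact (Complex.continuous_ofReal.comp hg).aestronglyMeasurable
      · exact Filter.Eventually.of_forall fun ξ => by
          rw [Complex.norm_real, Real.norm_eq_abs]; exact hgb ξ
    exact h1.congr (Filter.Eventually.of_forall fun ξ => mul_comm _ _)
  have hex : ∀ v : E d, Integrable (fun ξ => ex v ξ * φ ξ * (g ξ : ℂ)) := by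
    intro v
    have h1 : Integrable (fun ξ => ex v ξ * (φ ξ * (g ξ : ℂ))) := by
      apply hbase.bdd_mul (c := 1)
      · exact (p1_ex_cont v).aestronglyMeasurable
      · exact Filter.Eventually.of_forall fun ξ => (p1_norm_ex v ξ).le
    exact h1.congr (Filter.Eventually.of_forall fun ξ => by ring)
  have hpt : ∀ ξ, φ ξ * (g ξ : ℂ) *
      ((‖∑ z ∈ S, γ z * (starRingEnd ℂ) (ex z ξ)‖ ^ 2 : ℝ) : ℂ) =
      ∑ y ∈ S, ∑ z ∈ S, (starRingEnd ℂ) (γ y) * γ z * (ex (y - z) ξ * φ ξ * (g ξ : ℂ)) := by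
    intro ξ
    have h1 : ((‖∑ z ∈ S, γ z * (starRingEnd ℂ) (ex z ξ)‖ ^ 2 : ℝ) : ℂ) =
        (starRingEnd ℂ) (∑ z ∈ S, γ z * (starRingEnd ℂ) (ex z ξ)) *
          ∑ z ∈ S, γ z * (starRingEnd ℂ) (ex z ξ) := by
      rw [mul_comm, Complex.mul_conj, Complex.normSq_eq_norm_sq]
    rw [h1, map_sum, Finset.sum_mul_sum, Finset.mul_sum]
    refine Finset.sum_congr rfl fun y _ => ?_
    rw [Finset.mul_sum]
    refine Finset.sum_congr rfl fun z _ => ?_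
    rw [p1_ex_sub, map_mul, Complex.conj_conj]
    ring
  have hint : ∀ y ∈ S, Integrable (fun ξ => ∑ z ∈ S,
      (starRingEnd ℂ) (γ y) * γ z * (ex (y - z) ξ * φ ξ * (g ξ : ℂ))) := fun y _ =>
    integrable_finsetSum _ fun z _ => (hex _).const_mul _
  constructor
  · exact (integrable_finsetSum _ hint).congr (Filter.Eventually.of_forall fun ξ => (hpt ξ).symm)
  · rw [integral_congr_ae (Filter.Eventually.of_forall hpt), integral_finsetSum _ hint]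
    refine Finset.sum_congr rfl fun y _ => ?_
    rw [integral_finsetSum _ fun z _ => (hex _).const_mul _]
    exact Finset.sum_congr rfl fun z _ => by rw [integral_const_mul]

/-- almost orthogonality at a fixed radius -/
theorem fix_bound {d : ℕ} (hd : 2 ≤ d) (Ψ φ : SchwartzMap (E d) ℂ)
    (hφ : ∀ v, Ψ v = ∫ ξ, ex v ξ * φ ξ) (hpos : ∀ ξ, 0 ≤ (φ ξ).re ∧ (φ ξ).im = 0)
    (ε : ℝ) (hε : 0 < ε) (hv : ∀ ξ, ‖ξ‖ < ε → φ ξ = 0) :
    ∃ C : ℝ, 0 < C ∧ ∀ r : ℝ, 1 ≤ r → ∀ (S : Finset (E d)) (γ : E d → ℂ),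
      (∀ y ∈ S, ∀ z ∈ S, y ≠ z → 1 ≤ dist y z) →
      (∑ y ∈ S, ∑ z ∈ S, (starRingEnd ℂ) (γ y) * γ z * Ip Ψ r r (y - z)).re ≤
        C * r ^ (d - 1) * ∑ y ∈ S, ‖γ y‖ ^ 2 := by
  obtain ⟨C1, hC1, hsch⟩ := p1_schur Ψ
  obtain ⟨C2, hC2, hsh⟩ := sh_bound d hd
  refine ⟨C2 ^ 2 * (ε ^ (d - 1))⁻¹ * C1, by positivity, ?_⟩
  intro r hr S γ hS
  have hr0 : 0 < r := by linarith
  have hnu : 0 ≤ nu d := by
    unfold nu
    have : (2 : ℝ) ≤ d := by exact_mod_cast hd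
    linarith
  -- bounds for sh
  have hpow : ∀ x : ℝ, 0 < x → (x ^ (-nu d)) ^ 2 = (x ^ (d - 1))⁻¹ := by
    intro x hx
    rw [← Real.rpow_natCast (x ^ (-nu d)) 2, ← Real.rpow_mul hx.le, ← Real.rpow_natCast x (d - 1),
      ← Real.rpow_neg hx.le]
    congr 1
    unfold nu
    rw [Nat.cast_sub (by omega)]
    push_cast
    ring
  have hsq : ∀ ξ, (sh d r ξ) ^ 2 ≤ C2 ^ 2 * (r ^ (d - 1)) ^ 2 * ((1 + r * ‖ξ‖) ^ (d - 1))⁻¹ := by
    intro ξ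
    have h1 := hsh r hr0 ξ
    have h0 : 0 < 1 + r * ‖ξ‖ := by positivity
    rw [← hpow _ h0, ← sq_abs, ← mul_pow, ← mul_pow]
    exact pow_le_pow_left₀ (abs_nonneg _) h1 2
  have hcont : Continuous (fun ξ : E d => (sh d r ξ) ^ 2) := (sh_continuous d hd r hr0).pow 2
  have hbd : ∀ ξ, |(sh d r ξ) ^ 2| ≤ C2 ^ 2 * (r ^ (d - 1)) ^ 2 := by
    intro ξ
    rw [abs_of_nonneg (sq_nonneg _)]
    refine (hsq ξ).trans ?_
    have : ((1 + r * ‖ξ‖) ^ (d - 1))⁻¹ ≤ 1 := by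
      apply inv_le_one_of_one_le₀
      apply one_le_pow₀
      have : 0 ≤ r * ‖ξ‖ := by positivity
      linarith
    exact mul_le_of_le_one_right (by positivity) this
  have hfar : ∀ ξ : E d, ε ≤ ‖ξ‖ → (sh d r ξ) ^ 2 ≤ C2 ^ 2 * (ε ^ (d - 1))⁻¹ * r ^ (d - 1) := by
    intro ξ hξ
    refine (hsq ξ).trans ?_
    have h1 : ((1 + r * ‖ξ‖) ^ (d - 1))⁻¹ ≤ (r ^ (d - 1) * ε ^ (d - 1))⁻¹ := by
      apply inv_anti₀ (by positivity)
      rw [← mul_pow]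
      apply pow_le_pow_left₀ (by positivity)
      have : r * ε ≤ r * ‖ξ‖ := mul_le_mul_of_nonneg_left hξ hr0.le
      linarith
    calc C2 ^ 2 * (r ^ (d - 1)) ^ 2 * ((1 + r * ‖ξ‖) ^ (d - 1))⁻¹ ≤
        C2 ^ 2 * (r ^ (d - 1)) ^ 2 * (r ^ (d - 1) * ε ^ (d - 1))⁻¹ :=
          mul_le_mul_of_nonneg_left h1 (by positivity)
      _ = _ := by field_simp
  obtain ⟨hI1, hE1⟩ := p1_sum_int φ (fun ξ => (sh d r ξ) ^ 2) hcont _ hbd S γ
  obtain ⟨hI2, hE2⟩ := p1_sum_int φ (fun _ => 1) continuous_const 1 (by simp) S γ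
  have hφre : ∀ ξ, φ ξ = ((φ ξ).re : ℂ) := by
    intro ξ
    apply Complex.ext
    · simp
    · simp [(hpos ξ).2]
  set N : E d → ℝ := fun ξ => ‖∑ z ∈ S, γ z * (starRingEnd ℂ) (ex z ξ)‖ ^ 2 with hN
  have hN0 : ∀ ξ, 0 ≤ N ξ := fun ξ => by positivity
  have e1 : (fun ξ => φ ξ * (((sh d r ξ) ^ 2 : ℝ) : ℂ) * ((N ξ : ℝ) : ℂ)) =
      fun ξ => (((φ ξ).re * (sh d r ξ) ^ 2 * N ξ : ℝ) : ℂ) := by
    funext ξ
    conv_lhs => rw [hφre ξ]
    push_cast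
    ring
  have e2 : (fun ξ => φ ξ * ((1 : ℝ) : ℂ) * ((N ξ : ℝ) : ℂ)) =
      fun ξ => (((φ ξ).re * N ξ : ℝ) : ℂ) := by
    funext ξ
    conv_lhs => rw [hφre ξ]
    push_cast
    ring
  have hI1' : Integrable (fun ξ => (φ ξ).re * (sh d r ξ) ^ 2 * N ξ) := by
    have h := hI1
    rw [e1] at h
    have h2 := h.re
    refine h2.congr (Filter.Eventually.of_forall fun ξ => ?_)
    exact Complex.ofReal_re _
  have hI2' : Integrable (fun ξ => (φ ξ).re * N ξ) := by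
    have h := hI2
    rw [e2] at h
    have h2 := h.re
    refine h2.congr (Filter.Eventually.of_forall fun ξ => ?_)
    exact Complex.ofReal_re _
  have hL : (∑ y ∈ S, ∑ z ∈ S, (starRingEnd ℂ) (γ y) * γ z * Ip Ψ r r (y - z)).re =
      ∫ ξ, (φ ξ).re * (sh d r ξ) ^ 2 * N ξ := by
    have h1 : ∑ y ∈ S, ∑ z ∈ S, (starRingEnd ℂ) (γ y) * γ z * Ip Ψ r r (y - z) =
        ∑ y ∈ S, ∑ z ∈ S, (starRingEnd ℂ) (γ y) * γ z *
          ∫ ξ, ex (y - z) ξ * φ ξ * (((sh d r ξ) ^ 2 : ℝ) : ℂ) := by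
      refine Finset.sum_congr rfl fun y _ => Finset.sum_congr rfl fun z _ => ?_
      rw [Ip_fourier hd φ φ.integrable Ψ hφ r r hr0 hr0]
      congr 1
      refine integral_congr_ae (Filter.Eventually.of_forall fun ξ => ?_)
      show ex (y - z) ξ * φ ξ * (sh d r ξ : ℂ) * (sh d r ξ : ℂ) = _
      push_cast
      ring
    rw [h1, hE1]
    have h2 : ∫ ξ, φ ξ * (((sh d r ξ) ^ 2 : ℝ) : ℂ) * ((N ξ : ℝ) : ℂ) =
        ((∫ ξ, (φ ξ).re * (sh d r ξ) ^ 2 * N ξ : ℝ) : ℂ) := by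
      rw [e1]
      exact integral_ofReal
    rw [h2, Complex.ofReal_re]
  have hR : (∑ y ∈ S, ∑ z ∈ S, (starRingEnd ℂ) (γ y) * γ z * Ψ (y - z)).re =
      ∫ ξ, (φ ξ).re * N ξ := by
    have h1 : ∑ y ∈ S, ∑ z ∈ S, (starRingEnd ℂ) (γ y) * γ z * Ψ (y - z) =
        ∑ y ∈ S, ∑ z ∈ S, (starRingEnd ℂ) (γ y) * γ z *
          ∫ ξ, ex (y - z) ξ * φ ξ * ((1 : ℝ) : ℂ) := by
      refine Finset.sum_congr rfl fun y _ => Finset.sum_congr rfl fun z _ => ?_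
      rw [hφ]
      congr 1
      refine integral_congr_ae (Filter.Eventually.of_forall fun ξ => ?_)
      show ex (y - z) ξ * φ ξ = _
      push_cast
      ring
    rw [h1, hE2]
    have h2 : ∫ ξ, φ ξ * ((1 : ℝ) : ℂ) * ((N ξ : ℝ) : ℂ) =
        ((∫ ξ, (φ ξ).re * N ξ : ℝ) : ℂ) := by
      rw [e2]
      exact integral_ofReal
    rw [h2, Complex.ofReal_re]
  have hmono : ∫ ξ, (φ ξ).re * (sh d r ξ) ^ 2 * N ξ ≤
      ∫ ξ, C2 ^ 2 * (ε ^ (d - 1))⁻¹ * r ^ (d - 1) * ((φ ξ).re * N ξ) := by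
    apply integral_mono hI1' (hI2'.const_mul _)
    intro ξ
    show (φ ξ).re * (sh d r ξ) ^ 2 * N ξ ≤
      C2 ^ 2 * (ε ^ (d - 1))⁻¹ * r ^ (d - 1) * ((φ ξ).re * N ξ)
    by_cases hξ : ‖ξ‖ < ε
    · rw [hv ξ hξ]; simp
    · have h1 := hfar ξ (not_lt.1 hξ)
      have h2 : 0 ≤ (φ ξ).re * N ξ := mul_nonneg (hpos ξ).1 (hN0 ξ)
      calc (φ ξ).re * (sh d r ξ) ^ 2 * N ξ = (sh d r ξ) ^ 2 * ((φ ξ).re * N ξ) := by ring
        _ ≤ _ := mul_le_mul_of_nonneg_right h1 h2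
  rw [hL]
  refine hmono.trans ?_
  rw [integral_const_mul, ← hR]
  calc C2 ^ 2 * (ε ^ (d - 1))⁻¹ * r ^ (d - 1) *
      (∑ y ∈ S, ∑ z ∈ S, (starRingEnd ℂ) (γ y) * γ z * Ψ (y - z)).re ≤
      C2 ^ 2 * (ε ^ (d - 1))⁻¹ * r ^ (d - 1) * (C1 * ∑ y ∈ S, ‖γ y‖ ^ 2) :=
        mul_le_mul_of_nonneg_left (hsch S γ hS) (by positivity)
    _ = _ := by ring

end Pool.LibSR53
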