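import Pool.Agent.LibSR53.K1
import Pool.Agent.LibSR53.K2
import Pool.Agent.LibSR53.K8
import Pool.Agent.LibSR53.P1
import Pool.Agent.LibSR53.V2

/-
PLAN (P2). Psi, phi from exists_Psi. v p := if h : 0 < p.2 then (Fk_memLp_two hd eta p.1 p.2 h).toLp _ else 0. For p.2, q.2 > 0:
inner C (v p) (v q) = int conj(Fk p) Fk q = Ip Psi p.2 q.2 (p.1 - q.1) (MeasureTheory.L2.inner_def, gram_Fk). same/cross: kernel_same,
kernel_cross; dist p q = max (dist p.1 q.1) |p.2 - q.2| (Prod.dist_eq, dist_eq_norm, Real.dist_eq). fix: norm^2 = re of the double sum of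
inner products (fix_bound). C = sum of the three constants (monotone in C).
-/

set_option autoImplicit false

noncomputable section

open MeasureTheory Metric Set Filter

namespace Pool.LibSR53

/-- the functions Fk as vectors of L2, with the bounds for their Gram matrix -/
theorem ker_Fk {d : ℕ} (hd : 2 ≤ d) (η : SchwartzMap (E d) ℂ) (ε : ℝ) (hε : 0 < ε)
    (hη : Van η ε) : ∃ (C : ℝ) (v : P d → Lp ℂ 2 (volume : Measure (E d))),
      Ker d C v ∧ ∀ p : P d, 1 ≤ p.2 → (v p : E d → ℂ) =ᵐ[volume] Fk η p.1 p.2 := by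
  classical
  obtain ⟨Ψ, φ, hΨ, hφ, hpos, hvan⟩ := exists_Psi η ε hη
  obtain ⟨C1, hC1, h1⟩ := kernel_same hd Ψ φ hφ ε hε hvan
  obtain ⟨C2, hC2, h2⟩ := kernel_cross hd Ψ φ hφ ε hε hvan
  obtain ⟨C3, hC3, h3⟩ := fix_bound hd Ψ φ hφ hpos ε hε hvan
  let v : P d → Lp ℂ 2 (volume : Measure (E d)) := fun p =>
    if h : 0 < p.2 then (Fk_memLp_two hd η p.1 p.2 h).toLp _ else 0
  have hv1 : ∀ p : P d, 0 < p.2 → (v p : E d → ℂ) =ᵐ[volume] Fk η p.1 p.2 := by
    intro p hp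
    have e1 : v p = (Fk_memLp_two hd η p.1 p.2 hp).toLp _ := dif_pos hp
    rw [e1]
    exact MemLp.coeFn_toLp _
  have hin : ∀ p q : P d, 0 < p.2 → 0 < q.2 →
      (inner ℂ (v p) (v q) : ℂ) = Ip Ψ p.2 q.2 (p.1 - q.1) := by
    intro p q hp hq
    rw [MeasureTheory.L2.inner_def, ← gram_Fk hd η Ψ hΨ p.2 q.2 hp hq p.1 q.1]
    refine integral_congr_ae ?_
    filter_upwards [hv1 p hp, hv1 q hq] with x hx hy
    rw [hx, hy, RCLike.inner_apply]
    ring
  have hdist : ∀ p q : P d, max ‖p.1 - q.1‖ |p.2 - q.2| = dist p q := by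
    intro p q
    rw [Prod.dist_eq, dist_eq_norm, Real.dist_eq]
  refine ⟨C1 + C2 + C3, v, ⟨by positivity, ?_, ?_, ?_⟩, fun p hp => hv1 p (by linarith)⟩
  · intro R hR p q hp1 hp2 hq1 hq2
    rw [hin p q (by linarith) (by linarith)]
    refine (h1 R hR p.2 q.2 hp1 hp2 hq1 hq2 (p.1 - q.1)).trans ?_
    rw [hdist]
    have hR0 : 0 < R := by linarith
    have hd0 : 0 ≤ dist p q := dist_nonneg
    refine div_le_div_of_nonneg_right ?_ (by positivity)
    refine mul_le_mul_of_nonneg_right ?_ (by positivity)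
    refine mul_le_mul_of_nonneg_right ?_ (by positivity)
    linarith
  · intro p q hp hq
    rw [hin p q (by linarith) (by linarith)]
    refine (h2 p.2 q.2 hp hq (p.1 - q.1)).trans ?_
    have hp0 : 0 < p.2 := by linarith
    refine div_le_div_of_nonneg_right ?_ (by positivity)
    refine mul_le_mul_of_nonneg_right ?_ (by positivity)
    linarith
  · intro r hr S γ hS
    have hr0 : 0 < r := by linarith
    have e1 : ((‖∑ y ∈ S, γ y • v (y, r)‖ ^ 2 : ℝ) : ℂ) =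
        ∑ y ∈ S, ∑ z ∈ S, (starRingEnd ℂ) (γ y) * γ z * Ip Ψ r r (y - z) := by
      rw [Complex.ofReal_pow]
      have e2 := inner_self_eq_norm_sq_to_K (𝕜 := ℂ) (∑ y ∈ S, γ y • v (y, r))
      have e3 : ((‖∑ y ∈ S, γ y • v (y, r)‖ : ℝ) : ℂ) ^ 2 =
          inner ℂ (∑ y ∈ S, γ y • v (y, r)) (∑ y ∈ S, γ y • v (y, r)) := e2.symm
      rw [e3, sum_inner]
      refine Finset.sum_congr rfl (fun y _ => ?_)
      rw [inner_sum]
      refine Finset.sum_congr rfl (fun z _ => ?_)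
      rw [inner_smul_left, inner_smul_right, hin (y, r) (z, r) hr0 hr0, mul_assoc]
    have e4 : ‖∑ y ∈ S, γ y • v (y, r)‖ ^ 2 =
        (∑ y ∈ S, ∑ z ∈ S, (starRingEnd ℂ) (γ y) * γ z * Ip Ψ r r (y - z)).re := by
      rw [← e1, Complex.ofReal_re]
    rw [e4]
    refine (h3 r hr S γ hS).trans ?_
    have e5 : 0 ≤ ∑ y ∈ S, ‖γ y‖ ^ 2 := Finset.sum_nonneg (fun _ _ => by positivity)
    refine mul_le_mul_of_nonneg_right ?_ e5
    refine mul_le_mul_of_nonneg_right ?_ (by positivity)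
    linarith

end Pool.LibSR53
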