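import Pool.Agent.LibSR53.Defs

set_option autoImplicit false

noncomputable section

open MeasureTheory Metric Set Filter

namespace Pool.LibSR53

theorem good_subset {d : ℕ} {K α : ℝ} {S T : Finset (P d)} (h : Good K α S) (hT : T ⊆ S) :
    Good K α T := by
  refine ⟨fun p hp => h.one_le p (hT hp), fun p hp q hq hpq => h.sep p (hT hp) q (hT hq) hpq,
    fun p hp q hq hpq => h.rad_sep p (hT hp) q (hT hq) hpq, fun a D hD ha => ?_⟩
  refine le_trans ?_ (h.rad a D hD ha)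
  have hfin : {r : ℝ | (∃ p ∈ S, p.2 = r) ∧ a ≤ r ∧ r ≤ a + D}.Finite := by
    refine Set.Finite.subset (S.finite_toSet.image Prod.snd) ?_
    rintro r ⟨⟨p, hp, hpr⟩, -⟩
    exact ⟨p, hp, hpr⟩
  have hsub : {r : ℝ | (∃ p ∈ T, p.2 = r) ∧ a ≤ r ∧ r ≤ a + D} ⊆
      {r : ℝ | (∃ p ∈ S, p.2 = r) ∧ a ≤ r ∧ r ≤ a + D} := by
    rintro r ⟨⟨p, hp, hpr⟩, h2⟩
    exact ⟨⟨p, hT hp, hpr⟩, h2⟩
  exact_mod_cast Set.ncard_le_ncard hsub hfin

private theorem d1_mem_sc {d : ℕ} {k : ℕ} {S : Finset (P d)} {p : P d} :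
    p ∈ sc k S ↔ p ∈ S ∧ (2 : ℝ) ^ k ≤ p.2 ∧ p.2 < (2 : ℝ) ^ (k + 1) := by
  unfold sc; rw [Finset.mem_filter]

private theorem d1_mem_nb {d : ℕ} {S : Finset (P d)} {p q : P d} {h : ℝ} :
    q ∈ nb S p h ↔ q ∈ S ∧ dist q p ≤ h := by
  unfold nb; rw [Finset.mem_filter]

private theorem d1_mem_lev {d : ℕ} {S : Finset (P d)} {m : P d → ℕ} {n : ℕ} {q : P d} :
    q ∈ lev S m n ↔ q ∈ S ∧ m q = n := by
  unfold lev; rw [Finset.mem_filter]

private theorem d1_unique {d : ℕ} {k j : ℕ} {S T : Finset (P d)} {p : P d} (h1 : p ∈ sc k S)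
    (h2 : p ∈ sc j T) : k = j := by
  rw [d1_mem_sc] at h1 h2
  have h6 : j < k + 1 :=
    (pow_lt_pow_iff_right₀ (one_lt_two (α := ℝ))).mp (h2.2.1.trans_lt h1.2.2)
  have h7 : k < j + 1 :=
    (pow_lt_pow_iff_right₀ (one_lt_two (α := ℝ))).mp (h1.2.1.trans_lt h2.2.2)
  omega

/-- existence of the level function -/
theorem exists_lev {d : ℕ} (S : Finset (P d)) (h1 : ∀ p ∈ S, 1 ≤ p.2) :
    ∃ m : P d → ℕ, Lev S m := by
  classical
  obtain ⟨Q, hQ⟩ : ∃ Q : P d → ℕ → Prop, ∀ p n, Q p n ↔ ∃ k, p ∈ sc k S ∧ ∃ i, i ≤ k ∧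
      (2 : ℝ) ^ (n + i) ≤ ((nb (sc k S) p ((2 : ℝ) ^ i)).card : ℝ) := ⟨_, fun _ _ => Iff.rfl⟩
  have hb : ∀ p n, Q p n → n ≤ S.card := by
    intro p n h
    obtain ⟨k, -, i, -, h2⟩ := (hQ p n).mp h
    have h3 : (nb (sc k S) p ((2 : ℝ) ^ i)).card ≤ S.card := by
      refine Finset.card_le_card fun q hq => ?_
      exact (d1_mem_sc.mp (d1_mem_nb.mp hq).1).1
    have h4 : (2 : ℝ) ^ n ≤ (S.card : ℝ) := by
      calc (2 : ℝ) ^ n ≤ (2 : ℝ) ^ (n + i) :=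
            pow_le_pow_right₀ one_le_two (Nat.le_add_right _ _)
        _ ≤ _ := h2
        _ ≤ (S.card : ℝ) := by exact_mod_cast h3
    have h5 : 2 ^ n ≤ S.card := by exact_mod_cast h4
    exact (Nat.lt_two_pow_self).le.trans h5
  refine ⟨fun p => Nat.findGreatest (Q p) S.card, ?_, ?_⟩
  · intro n k p hp i hi
    by_contra hcon
    push Not at hcon
    have h2 : p ∈ sc k S := by
      rw [d1_mem_sc] at hp ⊢
      exact ⟨(d1_mem_lev.mp hp.1).1, hp.2⟩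
    have h3 : (nb (sc k (lev S (fun p => Nat.findGreatest (Q p) S.card) n)) p ((2 : ℝ) ^ i)).card ≤
        (nb (sc k S) p ((2 : ℝ) ^ i)).card := by
      refine Finset.card_le_card fun q hq => ?_
      rw [d1_mem_nb, d1_mem_sc] at hq ⊢
      exact ⟨⟨(d1_mem_lev.mp hq.1.1).1, hq.1.2⟩, hq.2⟩
    have h4 : Q p (n + 1) := by
      rw [hQ]
      refine ⟨k, h2, i, hi, ?_⟩
      rw [pow_add]
      refine hcon.le.trans ?_
      exact_mod_cast h3
    have h5 := Nat.le_findGreatest (hb p _ h4) h4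
    have h6 : Nat.findGreatest (Q p) S.card = n := by
      have := (d1_mem_sc.mp hp).1
      exact (d1_mem_lev.mp this).2
    omega
  · intro k p hp
    have h0 : Q p 0 := by
      rw [hQ]
      refine ⟨k, hp, 0, Nat.zero_le _, ?_⟩
      rw [add_zero, pow_zero]
      have : p ∈ nb (sc k S) p 1 := by
        rw [d1_mem_nb]; exact ⟨hp, by rw [dist_self]; exact zero_le_one⟩
      have h2 : 1 ≤ (nb (sc k S) p 1).card := Finset.card_pos.mpr ⟨p, this⟩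
      exact_mod_cast h2
    have h2 : Q p (Nat.findGreatest (Q p) S.card) :=
      Nat.findGreatest_spec (Nat.zero_le _) h0
    obtain ⟨k', hk', i, hi, h3⟩ := (hQ p _).mp h2
    have h4 : k' = k := d1_unique hk' hp
    subst h4
    exact ⟨i, hi, h3⟩

end Pool.LibSR53
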