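import Pool.Agent.LibSR53.Defs

/-
PLAN (K1). Work with Mathlib's Fourier transform on Schwartz space: phi := conj(F eta) * (F eta), Psi := inverse Fourier
transform of phi; Plancherel applied to eta and its translate.
-/

set_option autoImplicit false

noncomputable section

open MeasureTheory Metric Set Filter
open scoped FourierTransform

namespace Pool.LibSR53

/-- the inverse Fourier transform of a Schwartz function in the notation `ex` -/
theorem fourierInv_ex {d : ℕ} (φ : SchwartzMap (E d) ℂ) (v : E d) :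
    (𝓕⁻ φ : SchwartzMap (E d) ℂ) v = ∫ ξ, ex v ξ * φ ξ := by
  rw [SchwartzMap.fourierInv_coe, Real.fourierInv_eq']
  refine integral_congr_ae (Eventually.of_forall fun ξ => ?_)
  simp only [ex, smul_eq_mul]
  rw [real_inner_comm]
  congr 2
  push_cast
  ring

/-- the Fourier transform of a Schwartz function in the notation `ex` -/
theorem fourier_ex {d : ℕ} (f : SchwartzMap (E d) ℂ) (ξ : E d) :
    (𝓕 f : SchwartzMap (E d) ℂ) ξ = ∫ w, ex (-w) ξ * f w := by
  rw [SchwartzMap.fourier_coe, Real.fourier_eq']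
  refine integral_congr_ae (Eventually.of_forall fun w => ?_)
  simp only [ex, smul_eq_mul, inner_neg_left]
  congr 2
  push_cast
  ring

theorem ex_add_left {d : ℕ} (v w ξ : E d) : ex (v + w) ξ = ex v ξ * ex w ξ := by
  unfold ex
  rw [← Complex.exp_add, inner_add_left]
  congr 1
  push_cast
  ring

/-- the Fourier transform of a translate -/
theorem fourier_translate {d : ℕ} (f : SchwartzMap (E d) ℂ) (v ξ : E d) :
    (𝓕 (f.compSubConstCLM ℂ (-v)) : SchwartzMap (E d) ℂ) ξ =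
      ex v ξ * (𝓕 f : SchwartzMap (E d) ℂ) ξ := by
  rw [fourier_ex, fourier_ex, ← integral_const_mul]
  rw [← integral_add_right_eq_self (fun w : E d => ex v ξ * (ex (-w) ξ * f w)) v]
  refine integral_congr_ae (Eventually.of_forall fun w => ?_)
  simp only [SchwartzMap.compSubConstCLM_apply, sub_neg_eq_add]
  rw [← mul_assoc, ← ex_add_left]
  congr 2
  abel

/-- the autocorrelation of eta and its nonnegative Fourier transform -/
theorem exists_Psi {d : ℕ} (η : SchwartzMap (E d) ℂ) (ε : ℝ) (hη : Van η ε) :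
    ∃ Ψ φ : SchwartzMap (E d) ℂ,
      (∀ v, Ψ v = ∫ x, (starRingEnd ℂ) (η x) * η (x + v)) ∧
      (∀ v, Ψ v = ∫ ξ, ex v ξ * φ ξ) ∧
      (∀ ξ, 0 ≤ (φ ξ).re ∧ (φ ξ).im = 0) ∧
      (∀ ξ, ‖ξ‖ < ε → φ ξ = 0) := by
  set h : SchwartzMap (E d) ℂ := 𝓕 η with hh
  set hc : SchwartzMap (E d) ℂ :=
    SchwartzMap.postcompCLM (𝕜 := ℝ) (Complex.conjCLE : ℂ →L[ℝ] ℂ) h with hhc
  set φ : SchwartzMap (E d) ℂ := SchwartzMap.pairing (ContinuousLinearMap.mul ℂ ℂ) hc h with hφ
  have hφa : ∀ ξ, φ ξ = (starRingEnd ℂ) (h ξ) * h ξ := by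
    intro ξ
    rw [hφ, SchwartzMap.pairing_apply_apply, ContinuousLinearMap.mul_apply', hhc,
      SchwartzMap.postcompCLM_apply]
    rfl
  have hφn : ∀ ξ, φ ξ = ((Complex.normSq (h ξ) : ℝ) : ℂ) := by
    intro ξ
    rw [hφa, Complex.normSq_eq_conj_mul_self]
  refine ⟨𝓕⁻ φ, φ, ?_, fun v => fourierInv_ex φ v, ?_, ?_⟩
  · intro v
    rw [fourierInv_ex]
    have hP := SchwartzMap.integral_inner_fourier_fourier η (η.compSubConstCLM ℂ (-v))
    calc ∫ ξ, ex v ξ * φ ξ
        = ∫ ξ, inner ℂ ((𝓕 η : SchwartzMap (E d) ℂ) ξ)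
            ((𝓕 (η.compSubConstCLM ℂ (-v)) : SchwartzMap (E d) ℂ) ξ) := by
          refine integral_congr_ae (Eventually.of_forall fun ξ => ?_)
          simp only
          rw [fourier_translate, hφa, RCLike.inner_apply]
          rw [← hh]
          ring
      _ = ∫ x, inner ℂ (η x) (η.compSubConstCLM ℂ (-v) x) := hP
      _ = ∫ x, (starRingEnd ℂ) (η x) * η (x + v) := by
          refine integral_congr_ae (Eventually.of_forall fun x => ?_)
          simp only [RCLike.inner_apply, SchwartzMap.compSubConstCLM_apply, sub_neg_eq_add]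
          ring
  · intro ξ
    rw [hφn]
    exact ⟨by rw [Complex.ofReal_re]; exact Complex.normSq_nonneg _, Complex.ofReal_im _⟩
  · intro ξ hξ
    have h0 : h ξ = 0 := by
      rw [hh, fourier_ex, ← hη ξ hξ]
      refine integral_congr_ae (Eventually.of_forall fun w => ?_)
      simp only [ex, inner_neg_left]
      congr 2
      push_cast
      ring
    rw [hφa, h0, mul_zero]

/-- every Schwartz function times a power of (1+|xi|^2) is the Fourier transform of a Schwartz
function -/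
theorem exists_Psi1 {d : ℕ} (φ : SchwartzMap (E d) ℂ) (M : ℕ) :
    ∃ Ψ1 : SchwartzMap (E d) ℂ, ∀ ξ,
      (((1 + ‖ξ‖ ^ 2) ^ M : ℝ) : ℂ) * φ ξ = ∫ w, ex (-w) ξ * Ψ1 w := by
  have hg0 : Function.HasTemperateGrowth (fun ξ : E d => (1 + ‖ξ‖ ^ 2 : ℝ)) :=
    (Function.HasTemperateGrowth.const (1 : ℝ)).add (Function.hasTemperateGrowth_norm_sq (E d))
  have hg1 : Function.HasTemperateGrowth (fun ξ : E d => ((1 + ‖ξ‖ ^ 2) ^ M : ℝ)) :=
    hg0.pow M
  have hg : Function.HasTemperateGrowth (fun ξ : E d => (((1 + ‖ξ‖ ^ 2) ^ M : ℝ) : ℂ)) :=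
    Function.HasTemperateGrowth.comp Function.Complex.hasTemperateGrowth_ofReal hg1
  refine ⟨𝓕⁻ (SchwartzMap.smulLeftCLM ℂ (fun ξ : E d => (((1 + ‖ξ‖ ^ 2) ^ M : ℝ) : ℂ)) φ), ?_⟩
  intro ξ
  rw [← fourier_ex, FourierTransform.fourier_fourierInv_eq, SchwartzMap.smulLeftCLM_apply_apply hg,
    smul_eq_mul]

end Pool.LibSR53
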