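import Pool.Agent.LibSR53.S6

/-
PLAN (K4). Let I = int ex v xi phi xi. For every unit vector omega, I = int ex (|v| omega) xi phi xi: there is a linear isometry
equivalence U with U v = |v| omega (reflection), phi radial and volume invariant (LinearIsometryEquiv.measurePreserving,
integral_comp). Integrate over omega w.r.t. sg d 1 (mass m with 0 < m < inf, S1): m I = int phi xi (int_omega ex (|v| omega) xi) =
int phi xi sh d 1 (|v| xi) (Fubini, sh_exp and inner (|v| w) xi = inner w (|v| xi)). Bound with sh_bound at r = 1. C = C_sh / m.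
-/

set_option autoImplicit false

noncomputable section

open MeasureTheory Metric Set Filter

namespace Pool.LibSR53

private theorem k4_norm_ex {d : ℕ} (v ξ : E d) : ‖ex v ξ‖ = 1 := by
  unfold ex
  rw [show 2 * (Real.pi : ℂ) * Complex.I * ((inner ℝ v ξ : ℝ) : ℂ) =
    ((2 * Real.pi * inner ℝ v ξ : ℝ) : ℂ) * Complex.I by push_cast; ring]
  exact Complex.norm_exp_ofReal_mul_I _

private theorem k4_ex_smul {d : ℕ} (t : ℝ) (v ξ : E d) : ex (t • v) ξ = ex v (t • ξ) := by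
  unfold ex
  rw [real_inner_smul_left, real_inner_smul_right]

private theorem k4_swap {d : ℕ} {μ : Measure (E d)} [IsFiniteMeasure μ] (k : E d → E d → ℂ)
    (hk : Continuous fun p : E d × E d => k p.1 p.2) (hb : ∀ z ξ, ‖k z ξ‖ ≤ 1) (g : E d → ℂ)
    (hg : Integrable g) :
    ∫ ζ, ∫ ξ, k ζ ξ * g ξ ∂volume ∂μ = ∫ ξ, (∫ ζ, k ζ ξ ∂μ) * g ξ := by
  have h1 : Integrable (Function.uncurry fun ζ ξ => k ζ ξ * g ξ) (μ.prod volume) :=
    (hg.comp_snd μ).bdd_mul (f := fun p : E d × E d => k p.1 p.2) hk.aestronglyMeasurable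
      (c := 1) (Eventually.of_forall fun p => hb p.1 p.2)
  rw [integral_integral_swap h1]
  refine integral_congr_ae (Eventually.of_forall fun ξ => ?_)
  exact integral_mul_const (g ξ) fun ζ => k ζ ξ

private theorem k4_inv {d : ℕ} (φ : E d → ℂ) (hφ : ∀ ξ ξ', ‖ξ‖ = ‖ξ'‖ → φ ξ = φ ξ')
    (v w : E d) (h : ‖v‖ = ‖w‖) : ∫ ξ, ex v ξ * φ ξ = ∫ ξ, ex w ξ * φ ξ := by
  set U : E d ≃ₗᵢ[ℝ] E d := (ℝ ∙ (v - w))ᗮ.reflection with hU
  have h1 : U v = w := Submodule.reflection_sub h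
  rw [← U.measurePreserving.integral_comp U.toHomeomorph.measurableEmbedding
    (fun ξ => ex w ξ * φ ξ)]
  refine integral_congr_ae (Eventually.of_forall fun ξ => ?_)
  beta_reduce
  have h2 : ex w (U ξ) = ex v ξ := by
    unfold ex
    rw [← h1, U.inner_map_map]
  rw [h2, hφ (U ξ) ξ (U.norm_map ξ)]

/-- oscillatory bound for radial functions -/
theorem radial_avg (d : ℕ) (hd : 2 ≤ d) : ∃ C : ℝ, 0 < C ∧ ∀ φ : E d → ℂ, Integrable φ →
    (∀ ξ ξ', ‖ξ‖ = ‖ξ'‖ → φ ξ = φ ξ') → ∀ v : E d,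
    ‖∫ ξ, ex v ξ * φ ξ‖ ≤ C * ∫ ξ, ‖φ ξ‖ * (1 + ‖v‖ * ‖ξ‖) ^ (-nu d) := by
  obtain ⟨C, hC, hb⟩ := sh_bound d hd
  have ifin := sg_fin d hd 1 one_pos
  have hm : 0 < (sg d 1).real univ :=
    ENNReal.toReal_pos (sg_one_pos d hd).ne' (sg_one_finite d hd).ne
  set m := (sg d 1).real univ with hmdef
  refine ⟨C / m, div_pos hC hm, fun φ hφ hrad v => ?_⟩
  have hnu : 0 ≤ nu d := by
    unfold nu
    have h2 : (2 : ℝ) ≤ d := by exact_mod_cast hd
    linarith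
  have h1 : ∀ᵐ ω ∂(sg d 1), ∫ ξ, ex v ξ * φ ξ = ∫ ξ, ex (‖v‖ • ω) ξ * φ ξ := by
    have h2 : ∀ᵐ ω ∂(sg d 1), ω ∈ sphere (0 : E d) 1 :=
      ae_restrict_mem isClosed_sphere.measurableSet
    filter_upwards [h2] with ω hω
    refine k4_inv φ hrad v _ ?_
    rw [norm_smul, norm_norm, mem_sphere_zero_iff_norm.1 hω, mul_one]
  have h3 : (m : ℂ) * ∫ ξ, ex v ξ * φ ξ = ∫ ξ, (sh d 1 (‖v‖ • ξ) : ℂ) * φ ξ := by
    have h4 : ∫ _ω, (∫ ξ, ex v ξ * φ ξ) ∂(sg d 1) = (m : ℂ) * ∫ ξ, ex v ξ * φ ξ := by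
      rw [integral_const, Complex.real_smul]
    rw [← h4, integral_congr_ae h1]
    rw [k4_swap (fun ω ξ => ex (‖v‖ • ω) ξ) ?_ ?_ φ hφ]
    · refine integral_congr_ae (Eventually.of_forall fun ξ => ?_)
      beta_reduce
      have h5 : ∫ ω, ex (‖v‖ • ω) ξ ∂(sg d 1) = (sh d 1 (‖v‖ • ξ) : ℂ) := by
        rw [← sh_exp d hd 1 one_pos (‖v‖ • ξ)]
        exact integral_congr_ae (Eventually.of_forall fun ω => k4_ex_smul _ _ _)
      rw [h5]
    · unfold ex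
      fun_prop
    · intro z ξ
      rw [k4_norm_ex]
  have hbase : ∀ ξ : E d, 1 ≤ 1 + ‖v‖ * ‖ξ‖ := fun ξ => by
    have := mul_nonneg (norm_nonneg v) (norm_nonneg ξ)
    linarith
  have hint : Integrable fun ξ => ‖φ ξ‖ * (1 + ‖v‖ * ‖ξ‖) ^ (-nu d) := by
    refine hφ.norm.mul_bdd (c := 1) ?_ (Eventually.of_forall fun ξ => ?_)
    · refine Continuous.aestronglyMeasurable ?_
      refine Continuous.rpow_const (by fun_prop) fun ξ => Or.inl ?_
      exact (lt_of_lt_of_le one_pos (hbase ξ)).ne'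
    · rw [Real.norm_of_nonneg (Real.rpow_nonneg (le_trans zero_le_one (hbase ξ)) _)]
      exact Real.rpow_le_one_of_one_le_of_nonpos (hbase ξ) (neg_nonpos.2 hnu)
  have h6 : ‖∫ ξ, (sh d 1 (‖v‖ • ξ) : ℂ) * φ ξ‖ ≤
      C * ∫ ξ, ‖φ ξ‖ * (1 + ‖v‖ * ‖ξ‖) ^ (-nu d) := by
    refine (norm_integral_le_integral_norm _).trans ?_
    rw [← integral_const_mul]
    refine integral_mono_of_nonneg (Eventually.of_forall fun ξ => norm_nonneg _)
      (hint.const_mul C) (Eventually.of_forall fun ξ => ?_)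
    beta_reduce
    rw [norm_mul, Complex.norm_real, Real.norm_eq_abs]
    have h7 := hb 1 one_pos (‖v‖ • ξ)
    rw [one_pow, mul_one, one_mul, norm_smul, norm_norm] at h7
    calc |sh d 1 (‖v‖ • ξ)| * ‖φ ξ‖ ≤ (C * (1 + ‖v‖ * ‖ξ‖) ^ (-nu d)) * ‖φ ξ‖ :=
          mul_le_mul_of_nonneg_right h7 (norm_nonneg _)
      _ = C * (‖φ ξ‖ * (1 + ‖v‖ * ‖ξ‖) ^ (-nu d)) := by ring
  rw [← h3, norm_mul, Complex.norm_real, Real.norm_of_nonneg hm.le] at h6
  rw [div_mul_eq_mul_div, le_div_iff₀ hm, mul_comm]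
  exact h6

end Pool.LibSR53
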