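import Pool.Agent.LibSR53.S5

/-
PLAN (K3). Fubini on (zeta, zeta', xi): Psi(v+zeta-zeta') = int ex(v+zeta-zeta') xi phi xi and
ex(v+zeta-zeta') xi = ex v xi * ex zeta xi * ex (-zeta') xi; integrand bounded by |phi xi| and the sg are finite. Then
int_zeta ex zeta xi = sh d r xi (sh_exp), int_zeta' ex (-zeta') xi = sh d r' (-xi) = sh d r' xi (inner(-z) xi = inner z (-xi), sh_neg).
-/

set_option autoImplicit false

noncomputable section

open MeasureTheory Metric Set Filter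

namespace Pool.LibSR53

private theorem k3_norm_ex {d : ℕ} (v ξ : E d) : ‖ex v ξ‖ = 1 := by
  unfold ex
  rw [show 2 * (Real.pi : ℂ) * Complex.I * ((inner ℝ v ξ : ℝ) : ℂ) =
    ((2 * Real.pi * inner ℝ v ξ : ℝ) : ℂ) * Complex.I by push_cast; ring]
  exact Complex.norm_exp_ofReal_mul_I _

private theorem k3_ex_add {d : ℕ} (v w ξ : E d) : ex (v + w) ξ = ex v ξ * ex w ξ := by
  unfold ex
  rw [← Complex.exp_add, inner_add_left]
  congr 1
  push_cast
  ring

private theorem k3_ex_neg {d : ℕ} (v ξ : E d) : ex (-v) ξ = ex v (-ξ) := by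
  unfold ex
  rw [inner_neg_left, inner_neg_right]

private theorem k3_cont {d : ℕ} : Continuous fun p : E d × E d => ex p.1 p.2 := by
  unfold ex
  fun_prop

private theorem k3_swap {d : ℕ} {μ : Measure (E d)} [IsFiniteMeasure μ] (k : E d → E d → ℂ)
    (hk : Continuous fun p : E d × E d => k p.1 p.2) (hb : ∀ z ξ, ‖k z ξ‖ ≤ 1) (g : E d → ℂ)
    (hg : Integrable g) :
    ∫ ζ, ∫ ξ, k ζ ξ * g ξ ∂volume ∂μ = ∫ ξ, (∫ ζ, k ζ ξ ∂μ) * g ξ := by
  have h1 : Integrable (Function.uncurry fun ζ ξ => k ζ ξ * g ξ) (μ.prod volume) :=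
    (hg.comp_snd μ).bdd_mul (f := fun p : E d × E d => k p.1 p.2) hk.aestronglyMeasurable
      (c := 1) (Eventually.of_forall fun p => hb p.1 p.2)
  rw [integral_integral_swap h1]
  refine integral_congr_ae (Eventually.of_forall fun ξ => ?_)
  exact integral_mul_const (g ξ) fun ζ => k ζ ξ

private theorem k3_int {d : ℕ} (hd : 2 ≤ d) (φ : E d → ℂ) (hφ : Integrable φ) (r : ℝ)
    (hr : 0 < r) : Integrable fun ξ => φ ξ * (sh d r ξ : ℂ) := by
  have := sg_fin d hd r hr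
  refine hφ.mul_bdd (c := (sg d r).real univ)
    ((Complex.continuous_ofReal.comp (sh_continuous d hd r hr)).aestronglyMeasurable)
    (Eventually.of_forall fun ξ => ?_)
  rw [← sh_exp d hd r hr ξ]
  refine (norm_integral_le_of_norm_le_const (C := 1)
    (Eventually.of_forall fun ζ => (k3_norm_ex ζ ξ).le)).trans ?_
  rw [one_mul]

/-- the double spherical integral on the Fourier side -/
theorem Ip_fourier {d : ℕ} (hd : 2 ≤ d) (φ : E d → ℂ) (hφ : Integrable φ) (Ψ : E d → ℂ)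
    (hΨ : ∀ v, Ψ v = ∫ ξ, ex v ξ * φ ξ) (r r' : ℝ) (hr : 0 < r) (hr' : 0 < r') (v : E d) :
    Ip Ψ r r' v = ∫ ξ, ex v ξ * φ ξ * (sh d r ξ : ℂ) * (sh d r' ξ : ℂ) := by
  have i1 := sg_fin d hd r hr
  have i2 := sg_fin d hd r' hr'
  have hin : ∀ ζ, ∫ ζ', Ψ (v + ζ - ζ') ∂(sg d r') =
      ∫ ξ, ex (v + ζ) ξ * (φ ξ * (sh d r' ξ : ℂ)) := by
    intro ζ
    have h1 : ∀ ζ', Ψ (v + ζ - ζ') = ∫ ξ, (ex (v + ζ) ξ * ex ζ' (-ξ)) * φ ξ := by
      intro ζ'
      rw [hΨ]
      refine integral_congr_ae (Eventually.of_forall fun ξ => ?_)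
      beta_reduce
      rw [sub_eq_add_neg, k3_ex_add, k3_ex_neg]
    rw [integral_congr_ae (Eventually.of_forall h1)]
    rw [k3_swap (fun ζ' ξ => ex (v + ζ) ξ * ex ζ' (-ξ)) ?_ ?_ φ hφ]
    · refine integral_congr_ae (Eventually.of_forall fun ξ => ?_)
      beta_reduce
      have h2 : ∫ ζ', ex (v + ζ) ξ * ex ζ' (-ξ) ∂(sg d r') = ex (v + ζ) ξ * (sh d r' ξ : ℂ) := by
        rw [integral_const_mul, sh_exp d hd r' hr', sh_neg]
      rw [h2]
      ring
    · exact (k3_cont.comp (continuous_const.prodMk continuous_snd)).mul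
        (k3_cont.comp (continuous_fst.prodMk continuous_snd.neg))
    · intro z ξ
      rw [norm_mul, k3_norm_ex, k3_norm_ex, one_mul]
  unfold Ip
  rw [integral_congr_ae (Eventually.of_forall hin)]
  rw [k3_swap (fun ζ ξ => ex (v + ζ) ξ) ?_ ?_ _ (k3_int hd φ hφ r' hr')]
  · refine integral_congr_ae (Eventually.of_forall fun ξ => ?_)
    beta_reduce
    have h2 : ∫ ζ, ex (v + ζ) ξ ∂(sg d r) = ex v ξ * (sh d r ξ : ℂ) := by
      rw [← sh_exp d hd r hr ξ, ← integral_const_mul]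
      refine integral_congr_ae (Eventually.of_forall fun ζ => ?_)
      exact k3_ex_add v ζ ξ
    rw [h2]
    ring
  · unfold ex
    fun_prop
  · intro z ξ
    rw [k3_norm_ex]

end Pool.LibSR53
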