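import Pool.Agent.LibSR53.K1
import Pool.Agent.LibSR53.K3
import Pool.Agent.LibSR53.K4

/-
PLAN (K5). Take M with 2M > d + 1 (say M = d + 1). m(xi) = 1_{|xi| >= eps} (1+|xi|^2)^(-M) sh d r xi sh d r' xi: radial, measurable,
integrable. |sh d r xi| <= C r^(d-1) (1+r|xi|)^(-nu) <= C r^nu |xi|^(-nu) for xi /= 0 (r^(d-1) = r^(2 nu)) <= C r^nu eps^(-nu) for |xi| >= eps.
H(v) := int ex v xi m(xi). radial_avg: |H(v)| <= C int |m| (1+|v||xi|)^(-nu) <= C' (r r')^nu (1+|v|)^(-nu) since for |xi| >= eps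
(1+|v||xi|)^(-nu) <= min(1,eps)^(-nu) (1+|v|)^(-nu), and int (1+|xi|^2)^(-M) < inf (integrable_rpow_neg_one_add_norm_sq or
integrable_one_add_norm). With Psi1 from exists_Psi1 phi M: phi = 1_{|xi|>=eps} (1+|xi|^2)^(-M) F(Psi1), so by Ip_fourier and Fubini
Ip Psi r r' v = int_xi ex v xi m(xi) int_w ex (-w) xi Psi1 w = int_w Psi1 w H(v - w). Finally
int |Psi1 w| (1+|v-w|)^(-nu) dw <= (1+|v|)^(-nu) int |Psi1 w| (1+|w|)^nu dw, because 1+|v| <= (1+|v-w|)(1+|w|).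
-/

set_option autoImplicit false

noncomputable section

open MeasureTheory Metric Set Filter

namespace Pool.LibSR53

lemma K5_nu_nonneg {d : ℕ} (hd : 2 ≤ d) : 0 ≤ nu d := by
  unfold nu
  have : (2 : ℝ) ≤ d := by exact_mod_cast hd
  linarith

lemma K5_ex_norm {d : ℕ} (v ξ : E d) : ‖ex v ξ‖ = 1 := by
  unfold ex
  rw [Complex.norm_exp]
  simp

lemma K5_ex_mul {d : ℕ} (v w ξ : E d) : ex v ξ * ex (-w) ξ = ex (v - w) ξ := by
  unfold ex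
  rw [← Complex.exp_add]
  congr 1
  rw [inner_neg_left, inner_sub_left]
  push_cast
  ring

lemma K5_ex_cont {d : ℕ} (v : E d) :
    Continuous (fun p : E d × E d => ex (v - p.2) p.1) := by
  unfold ex
  fun_prop

lemma K5_sh {d : ℕ} (hd : 2 ≤ d) : ∃ C : ℝ, 0 < C ∧ ∀ ε : ℝ, 0 < ε → ∀ r : ℝ, 0 < r →
    ∀ ξ : E d, ε ≤ ‖ξ‖ → |sh d r ξ| ≤ C * ε ^ (-nu d) * r ^ (nu d) := by
  obtain ⟨C, hC, h⟩ := sh_bound d hd
  refine ⟨C, hC, fun ε hε r hr ξ hξ => (h r hr ξ).trans ?_⟩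
  have hn := K5_nu_nonneg hd
  have h1 : (1 + r * ‖ξ‖) ^ (-nu d) ≤ (r * ε) ^ (-nu d) := by
    apply Real.rpow_le_rpow_of_nonpos (by positivity) _ (by linarith)
    nlinarith
  have h2 : r ^ (d - 1) = r ^ (nu d) * r ^ (nu d) := by
    rw [← Real.rpow_add hr, ← Real.rpow_natCast]
    congr 1
    unfold nu
    rw [Nat.cast_sub (by omega)]
    push_cast; ring
  have h3 : (r * ε) ^ (-nu d) = r ^ (-nu d) * ε ^ (-nu d) := Real.mul_rpow hr.le hε.le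
  have h4 : r ^ (nu d) * r ^ (-nu d) = 1 := by
    rw [← Real.rpow_add hr]; simp
  calc C * r ^ (d - 1) * (1 + r * ‖ξ‖) ^ (-nu d)
      ≤ C * r ^ (d - 1) * (r * ε) ^ (-nu d) := by
        apply mul_le_mul_of_nonneg_left h1 (by positivity)
    _ = C * ε ^ (-nu d) * r ^ (nu d) * (r ^ (nu d) * r ^ (-nu d)) := by
        rw [h2, h3]; ring
    _ = C * ε ^ (-nu d) * r ^ (nu d) := by rw [h4, mul_one]

/-- the multiplier -/
def K5_m (d : ℕ) (ε r r' : ℝ) : E d → ℂ :=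
  Set.indicator {ξ : E d | ε ≤ ‖ξ‖}
    (fun ξ => (((((1 + ‖ξ‖ ^ 2) ^ (d + 1))⁻¹ * sh d r ξ * sh d r' ξ : ℝ)) : ℂ))

lemma K5_m_meas {d : ℕ} (hd : 2 ≤ d) (ε r r' : ℝ) (hr : 0 < r) (hr' : 0 < r') :
    Measurable (K5_m d ε r r') := by
  unfold K5_m
  apply Measurable.indicator
  · apply Measurable.comp Complex.measurable_ofReal
    have h1 := (sh_continuous d hd r hr).measurable
    have h2 := (sh_continuous d hd r' hr').measurable
    exact ((by fun_prop : Measurable fun ξ : E d => ((1 + ‖ξ‖ ^ 2) ^ (d + 1))⁻¹).mul h1).mul h2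
  · exact measurableSet_le measurable_const measurable_norm

lemma K5_w_int (d : ℕ) : Integrable (fun ξ : E d => ((1 + ‖ξ‖ ^ 2) ^ (d + 1))⁻¹) := by
  have h := integrable_rpow_neg_one_add_norm_sq (E := E d) (μ := volume) (r := 2 * (d + 1 : ℝ))
    (by simp; linarith [Nat.cast_nonneg (α := ℝ) d])
  refine h.congr (ae_of_all _ fun ξ => ?_)
  have : (0 : ℝ) < 1 + ‖ξ‖ ^ 2 := by positivity
  simp only
  rw [← Real.rpow_natCast (1 + ‖ξ‖ ^ 2) (d + 1), ← Real.rpow_neg this.le]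
  congr 1
  push_cast; ring

/-- the main size bound for the Gram matrix -/
theorem Ip_bound {d : ℕ} (hd : 2 ≤ d) (Ψ φ : SchwartzMap (E d) ℂ)
    (hφ : ∀ v, Ψ v = ∫ ξ, ex v ξ * φ ξ) (ε : ℝ) (hε : 0 < ε) (hv : ∀ ξ, ‖ξ‖ < ε → φ ξ = 0) :
    ∃ C : ℝ, 0 < C ∧ ∀ r r' : ℝ, 0 < r → 0 < r' → ∀ v : E d,
      ‖Ip Ψ r r' v‖ ≤ C * (r * r') ^ (nu d) * (1 + ‖v‖) ^ (-nu d) := by
  classical
  obtain ⟨C1, hC1, hsh⟩ := K5_sh hd
  obtain ⟨C2, hC2, hrad⟩ := radial_avg d hd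
  obtain ⟨Ψ1, hΨ1⟩ := exists_Psi1 φ (d + 1)
  have hn := K5_nu_nonneg hd
  set ν := nu d with hν
  set δ := min 1 ε with hδ
  have hδ0 : 0 < δ := lt_min one_pos hε
  set A := C1 * ε ^ (-ν) with hA
  have hA0 : 0 < A := by positivity
  set W := ∫ ξ : E d, ((1 + ‖ξ‖ ^ 2) ^ (d + 1))⁻¹ with hW
  have hW0 : 0 ≤ W := integral_nonneg fun ξ => by positivity
  -- weight of Psi1
  have hPint : Integrable (fun w : E d => ‖Ψ1 w‖ * (1 + ‖w‖) ^ ν) := by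
    have h0 : Integrable (fun w : E d => (2 : ℝ) ^ d * (‖w‖ ^ 0 * ‖Ψ1 w‖ + ‖w‖ ^ d * ‖Ψ1 w‖)) :=
      ((SchwartzMap.integrable_pow_mul volume Ψ1 0).add
        (SchwartzMap.integrable_pow_mul volume Ψ1 d)).const_mul _
    refine h0.mono' ?_ (ae_of_all _ fun w => ?_)
    · apply Continuous.aestronglyMeasurable
      have h1 : Continuous fun w : E d => (1 + ‖w‖) ^ ν := by
        apply Continuous.rpow_const (by fun_prop)
        intro w; left; positivity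
      exact (Ψ1.continuous.norm).mul h1
    · have h1 : (1 + ‖w‖) ^ ν ≤ (1 + ‖w‖) ^ d := by
        rw [← Real.rpow_natCast]
        apply Real.rpow_le_rpow_of_exponent_le
        · linarith [norm_nonneg w]
        · rw [hν]; unfold nu
          linarith [Nat.cast_nonneg (α := ℝ) d]
      have h2 : (1 + ‖w‖) ^ d ≤ 2 ^ d * (1 + ‖w‖ ^ d) := by
        rcases le_total ‖w‖ 1 with hw | hw
        · calc (1 + ‖w‖) ^ d ≤ 2 ^ d := by
                apply pow_le_pow_left₀ (by positivity); linarith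
            _ ≤ 2 ^ d * (1 + ‖w‖ ^ d) := by
                have : (0 : ℝ) ≤ ‖w‖ ^ d := by positivity
                nlinarith [pow_pos (two_pos : (0 : ℝ) < 2) d]
        · calc (1 + ‖w‖) ^ d ≤ (2 * ‖w‖) ^ d := by
                apply pow_le_pow_left₀ (by positivity); linarith
            _ = 2 ^ d * ‖w‖ ^ d := mul_pow _ _ _
            _ ≤ 2 ^ d * (1 + ‖w‖ ^ d) := by
                have : (0 : ℝ) < 2 ^ d := by positivity
                nlinarith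
      rw [Real.norm_of_nonneg (by positivity)]
      have h3 : 0 ≤ ‖Ψ1 w‖ := norm_nonneg _
      calc ‖Ψ1 w‖ * (1 + ‖w‖) ^ ν ≤ ‖Ψ1 w‖ * (2 ^ d * (1 + ‖w‖ ^ d)) :=
            mul_le_mul_of_nonneg_left (h1.trans h2) h3
        _ = 2 ^ d * (‖w‖ ^ 0 * ‖Ψ1 w‖ + ‖w‖ ^ d * ‖Ψ1 w‖) := by ring
  set Q := ∫ w : E d, ‖Ψ1 w‖ * (1 + ‖w‖) ^ ν with hQ
  have hQ0 : 0 ≤ Q := integral_nonneg fun w => by positivity
  refine ⟨C2 * (A ^ 2 * δ ^ (-ν) * W) * Q + 1, by positivity, fun r r' hr hr' v => ?_⟩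
  set m := K5_m d ε r r' with hm
  have hmm := K5_m_meas hd ε r r' hr hr'
  -- pointwise bound of m
  have hmb : ∀ ξ, ‖m ξ‖ ≤ (A ^ 2 * (r * r') ^ ν) * ((1 + ‖ξ‖ ^ 2) ^ (d + 1))⁻¹ := by
    intro ξ
    rw [hm]
    unfold K5_m
    by_cases h : ε ≤ ‖ξ‖
    · rw [Set.indicator_of_mem (show ξ ∈ {ξ : E d | ε ≤ ‖ξ‖} from h), Complex.norm_real,
        norm_mul, norm_mul, Real.norm_eq_abs, Real.norm_eq_abs, Real.norm_eq_abs,
        abs_of_nonneg (by positivity : (0 : ℝ) ≤ ((1 + ‖ξ‖ ^ 2) ^ (d + 1))⁻¹),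
        Real.mul_rpow hr.le hr'.le]
      have h1 := hsh ε hε r hr ξ h
      have h2 := hsh ε hε r' hr' ξ h
      have h3 : |sh d r ξ| * |sh d r' ξ| ≤ (A * r ^ ν) * (A * r' ^ ν) :=
        mul_le_mul h1 h2 (abs_nonneg _) (by positivity)
      have h4 : (0 : ℝ) ≤ ((1 + ‖ξ‖ ^ 2) ^ (d + 1))⁻¹ := by positivity
      calc ((1 + ‖ξ‖ ^ 2) ^ (d + 1))⁻¹ * |sh d r ξ| * |sh d r' ξ|
          = ((1 + ‖ξ‖ ^ 2) ^ (d + 1))⁻¹ * (|sh d r ξ| * |sh d r' ξ|) := by ring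
        _ ≤ ((1 + ‖ξ‖ ^ 2) ^ (d + 1))⁻¹ * ((A * r ^ ν) * (A * r' ^ ν)) :=
            mul_le_mul_of_nonneg_left h3 h4
        _ = _ := by ring
    · rw [Set.indicator_of_notMem (show ξ ∉ {ξ : E d | ε ≤ ‖ξ‖} from h), norm_zero]
      positivity
  have hmint : Integrable m :=
    ((K5_w_int d).const_mul (A ^ 2 * (r * r') ^ ν)).mono' hmm.aestronglyMeasurable
      (ae_of_all _ hmb)
  have hm0 : ∀ ξ, ‖ξ‖ < ε → m ξ = 0 := by
    intro ξ h
    rw [hm]; unfold K5_m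
    exact Set.indicator_of_notMem (show ξ ∉ {ξ : E d | ε ≤ ‖ξ‖} from not_le.mpr h) _
  -- radial
  have hmr : ∀ ξ ξ' : E d, ‖ξ‖ = ‖ξ'‖ → m ξ = m ξ' := by
    intro ξ ξ' h
    rw [hm]; unfold K5_m
    by_cases h' : ε ≤ ‖ξ‖
    · rw [Set.indicator_of_mem (show ξ ∈ {ξ : E d | ε ≤ ‖ξ‖} from h'),
        Set.indicator_of_mem (show ξ' ∈ {ξ : E d | ε ≤ ‖ξ‖} from h.subst (motive := fun x => ε ≤ x) h'), h,
        sh_radial d r ξ ξ' h, sh_radial d r' ξ ξ' h]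
    · rw [Set.indicator_of_notMem (show ξ ∉ {ξ : E d | ε ≤ ‖ξ‖} from h'),
        Set.indicator_of_notMem (show ξ' ∉ {ξ : E d | ε ≤ ‖ξ‖} from
          h.subst (motive := fun x => ¬ ε ≤ x) h')]
  -- bound of H
  have hH : ∀ u : E d, ‖∫ ξ, ex u ξ * m ξ‖ ≤
      C2 * (A ^ 2 * δ ^ (-ν) * W) * (r * r') ^ ν * (1 + ‖u‖) ^ (-ν) := by
    intro u
    refine (hrad m hmint hmr u).trans ?_
    have h1 : ∫ ξ, ‖m ξ‖ * (1 + ‖u‖ * ‖ξ‖) ^ (-ν) ≤
        ∫ ξ : E d, (A ^ 2 * (r * r') ^ ν) * ((1 + ‖ξ‖ ^ 2) ^ (d + 1))⁻¹ *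
          (δ ^ (-ν) * (1 + ‖u‖) ^ (-ν)) := by
      apply integral_mono_of_nonneg
      · exact ae_of_all _ fun ξ => by positivity
      · exact ((K5_w_int d).const_mul _).mul_const _
      · refine ae_of_all _ fun ξ => ?_
        simp only
        by_cases h : ε ≤ ‖ξ‖
        · apply mul_le_mul (hmb ξ) _ (by positivity) (by positivity)
          rw [← Real.mul_rpow hδ0.le (by positivity)]
          apply Real.rpow_le_rpow_of_nonpos (by positivity) _ (by linarith)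
          have e1 : δ ≤ 1 := min_le_left _ _
          have e2 : δ ≤ ‖ξ‖ := (min_le_right _ _).trans h
          have e3 : 0 ≤ ‖u‖ := norm_nonneg _
          nlinarith
        · rw [hm0 ξ (not_le.mp h), norm_zero, zero_mul]
          positivity
    calc C2 * ∫ ξ, ‖m ξ‖ * (1 + ‖u‖ * ‖ξ‖) ^ (-ν)
        ≤ C2 * ∫ ξ : E d, (A ^ 2 * (r * r') ^ ν) * ((1 + ‖ξ‖ ^ 2) ^ (d + 1))⁻¹ *
          (δ ^ (-ν) * (1 + ‖u‖) ^ (-ν)) := mul_le_mul_of_nonneg_left h1 hC2.le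
      _ = _ := by
          rw [integral_mul_const, integral_const_mul]
          ring
  -- Fubini
  have hkey : Ip Ψ r r' v = ∫ w, Ψ1 w * ∫ ξ, ex (v - w) ξ * m ξ := by
    rw [Ip_fourier hd φ φ.integrable Ψ hφ r r' hr hr' v]
    have h1 : ∀ ξ : E d, ex v ξ * φ ξ * (sh d r ξ : ℂ) * (sh d r' ξ : ℂ) =
        ∫ w, ex (v - w) ξ * m ξ * Ψ1 w := by
      intro ξ
      have h2 : ∫ w, ex (v - w) ξ * m ξ * Ψ1 w = ex v ξ * m ξ * ∫ w, ex (-w) ξ * Ψ1 w := by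
        rw [← integral_const_mul]
        congr 1
        ext w
        rw [← K5_ex_mul v w ξ]; ring
      rw [h2, ← hΨ1 ξ]
      by_cases h : ε ≤ ‖ξ‖
      · have h3 : m ξ = (((((1 + ‖ξ‖ ^ 2) ^ (d + 1))⁻¹ * sh d r ξ * sh d r' ξ : ℝ)) : ℂ) := by
          rw [hm]; unfold K5_m
          exact Set.indicator_of_mem (show ξ ∈ {ξ : E d | ε ≤ ‖ξ‖} from h) _
        rw [h3]
        have h4 : (((1 + ‖ξ‖ ^ 2) ^ (d + 1) : ℝ) : ℂ) ≠ 0 := by
          exact_mod_cast (by positivity : (0 : ℝ) < (1 + ‖ξ‖ ^ 2) ^ (d + 1)).ne'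
        rw [Complex.ofReal_mul, Complex.ofReal_mul, Complex.ofReal_inv]
        field_simp
      · rw [hv ξ (not_le.mp h), hm0 ξ (not_le.mp h)]
        simp
    simp_rw [h1]
    rw [integral_integral_swap]
    · congr 1
      ext w
      rw [← integral_const_mul]
      congr 1
      ext ξ
      ring
    · have h5 : Integrable (fun p : E d × E d => m p.1 * Ψ1 p.2) (volume.prod volume) :=
        hmint.mul_prod Ψ1.integrable
      have h6 := h5.bdd_mul (K5_ex_cont v).aestronglyMeasurable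
        (ae_of_all _ fun p => (K5_ex_norm (v - p.2) p.1).le)
      refine h6.congr (ae_of_all _ fun p => ?_)
      simp only [Function.uncurry]
      ring
  rw [hkey]
  have hfin : ‖∫ w, Ψ1 w * ∫ ξ, ex (v - w) ξ * m ξ‖ ≤
      ∫ w, (C2 * (A ^ 2 * δ ^ (-ν) * W) * (r * r') ^ ν * (1 + ‖v‖) ^ (-ν)) *
        (‖Ψ1 w‖ * (1 + ‖w‖) ^ ν) := by
    apply norm_integral_le_of_norm_le (hPint.const_mul _)
    refine ae_of_all _ fun w => ?_
    rw [norm_mul]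
    have h1 := hH (v - w)
    have h2 : (1 + ‖v - w‖) ^ (-ν) ≤ (1 + ‖v‖) ^ (-ν) * (1 + ‖w‖) ^ ν := by
      have e1 : (1 + ‖v‖) ≤ (1 + ‖v - w‖) * (1 + ‖w‖) := by
        have := norm_add_le (v - w) w
        rw [sub_add_cancel] at this
        nlinarith [norm_nonneg (v - w), norm_nonneg w]
      have e2 : (1 + ‖v - w‖) ^ (-ν) * (1 + ‖w‖) ^ (-ν) ≤ (1 + ‖v‖) ^ (-ν) := by
        rw [← Real.mul_rpow (by positivity) (by positivity)]
        exact Real.rpow_le_rpow_of_nonpos (by positivity) e1 (by linarith)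
      have e3 : (1 + ‖w‖) ^ (-ν) * (1 + ‖w‖) ^ ν = 1 := by
        rw [← Real.rpow_add (by positivity)]; simp
      have e4 : 0 ≤ (1 + ‖w‖) ^ ν := by positivity
      calc (1 + ‖v - w‖) ^ (-ν)
          = ((1 + ‖v - w‖) ^ (-ν) * (1 + ‖w‖) ^ (-ν)) * (1 + ‖w‖) ^ ν := by
            rw [mul_assoc, e3, mul_one]
        _ ≤ (1 + ‖v‖) ^ (-ν) * (1 + ‖w‖) ^ ν := mul_le_mul_of_nonneg_right e2 e4
    have h3 : 0 ≤ C2 * (A ^ 2 * δ ^ (-ν) * W) * (r * r') ^ ν := by positivity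
    calc ‖Ψ1 w‖ * ‖∫ ξ, ex (v - w) ξ * m ξ‖
        ≤ ‖Ψ1 w‖ * (C2 * (A ^ 2 * δ ^ (-ν) * W) * (r * r') ^ ν *
            ((1 + ‖v‖) ^ (-ν) * (1 + ‖w‖) ^ ν)) := by
          apply mul_le_mul_of_nonneg_left _ (norm_nonneg _)
          exact h1.trans (mul_le_mul_of_nonneg_left h2 h3)
      _ = _ := by ring
  refine hfin.trans ?_
  rw [integral_const_mul]
  have h1 : 0 ≤ (r * r') ^ ν * (1 + ‖v‖) ^ (-ν) := by positivity
  calc C2 * (A ^ 2 * δ ^ (-ν) * W) * (r * r') ^ ν * (1 + ‖v‖) ^ (-ν) * Q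
      = C2 * (A ^ 2 * δ ^ (-ν) * W) * Q * ((r * r') ^ ν * (1 + ‖v‖) ^ (-ν)) := by ring
    _ ≤ (C2 * (A ^ 2 * δ ^ (-ν) * W) * Q + 1) * ((r * r') ^ ν * (1 + ‖v‖) ^ (-ν)) := by
        apply mul_le_mul_of_nonneg_right _ h1
        linarith
    _ = _ := by ring

end Pool.LibSR53
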