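import Mathlib

set_option autoImplicit false

noncomputable section

open MeasureTheory Metric Set Filter

namespace Pool.LibSR53

/-- the ambient Euclidean space -/
abbrev E (d : ℕ) := EuclideanSpace ℝ (Fin d)

/-- index points: centre and radius -/
abbrev P (d : ℕ) := E d × ℝ

/-- surface measure on the sphere of radius r about the origin -/
def sg (d : ℕ) (r : ℝ) : Measure (E d) :=
  (Measure.hausdorffMeasure ((d : ℝ) - 1)).restrict (sphere (0 : E d) r)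

/-- the function (eta * sigma_r) translated by y -/
def Fk {d : ℕ} (η : SchwartzMap (E d) ℂ) (y : E d) (r : ℝ) (x : E d) : ℂ :=
  ∫ ζ, η (x - ζ - y) ∂(sg d r)

/-- the (real valued) Fourier transform of the surface measure -/
def sh (d : ℕ) (r : ℝ) (ξ : E d) : ℝ :=
  ∫ ζ, Real.cos (2 * Real.pi * inner ℝ ζ ξ) ∂(sg d r)

/-- the decay exponent (d-1)/2 -/
def nu (d : ℕ) : ℝ := ((d : ℝ) - 1) / 2

/-- the exponential e^(2 pi i <v, xi>) -/
def ex {d : ℕ} (v ξ : E d) : ℂ :=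
  Complex.exp (2 * (Real.pi : ℂ) * Complex.I * ((inner ℝ v ξ : ℝ) : ℂ))

/-- double spherical integral -/
def Ip {d : ℕ} (Ψ : E d → ℂ) (r r' : ℝ) (v : E d) : ℂ :=
  ∫ ζ, ∫ ζ', Ψ (v + ζ - ζ') ∂(sg d r') ∂(sg d r)

/-- the same for the Gaussian of width t -/
def GI (d : ℕ) (t r r' : ℝ) (v : E d) : ℝ :=
  ∫ ζ, ∫ ζ', Real.exp (-(Real.pi * ‖v + ζ - ζ'‖ ^ 2 / t ^ 2)) ∂(sg d r') ∂(sg d r)

/-- the Fourier transform of eta vanishes on the ball of radius eps (the form used in S06259) -/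
def Van {d : ℕ} (η : SchwartzMap (E d) ℂ) (ε : ℝ) : Prop :=
  ∀ ξ : E d, ‖ξ‖ < ε →
    ∫ x : E d, Complex.exp (-(2 * (Real.pi : ℂ) * Complex.I * ((inner ℝ x ξ : ℝ) : ℂ))) * η x = 0

/-- weight of a finite family -/
def wt {d : ℕ} (S : Finset (P d)) : ℝ := ∑ p ∈ S, p.2 ^ (d - 1)

/-- the points whose radius lies in [2^k, 2^(k+1)) -/
def sc {d : ℕ} (k : ℕ) (S : Finset (P d)) : Finset (P d) :=
  open scoped Classical in S.filter (fun p => (2 : ℝ) ^ k ≤ p.2 ∧ p.2 < (2 : ℝ) ^ (k + 1))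

/-- the points of S at distance at most h of p -/
def nb {d : ℕ} (S : Finset (P d)) (p : P d) (h : ℝ) : Finset (P d) :=
  open scoped Classical in S.filter (fun q => dist q p ≤ h)

/-- the points of S at distance at least h of p -/
def far {d : ℕ} (S : Finset (P d)) (p : P d) (h : ℝ) : Finset (P d) :=
  open scoped Classical in S.filter (fun q => h ≤ dist q p)

/-- the points of S whose level is n -/
def lev {d : ℕ} (S : Finset (P d)) (m : P d → ℕ) (n : ℕ) : Finset (P d) :=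
  open scoped Classical in S.filter (fun q => m q = n)

/-- admissible finite families -/
structure Good {d : ℕ} (K α : ℝ) (S : Finset (P d)) : Prop where
  one_le : ∀ p ∈ S, 1 ≤ p.2
  sep : ∀ p ∈ S, ∀ q ∈ S, p ≠ q → 1 ≤ dist p q
  rad_sep : ∀ p ∈ S, ∀ q ∈ S, |p.2 - q.2| < 1 → p.2 = q.2
  rad : ∀ a D : ℝ, 1 ≤ D → D ≤ a →
    (({r : ℝ | (∃ p ∈ S, p.2 = r) ∧ a ≤ r ∧ r ≤ a + D}).ncard : ℝ) ≤ K * D ^ α

/-- density at most u at all scales -/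
def Dens {d : ℕ} (u : ℝ) (S : Finset (P d)) : Prop :=
  ∀ k : ℕ, ∀ p ∈ sc k S, ∀ i : ℕ, i ≤ k →
    ((nb (sc k S) p ((2 : ℝ) ^ i)).card : ℝ) ≤ u * 2 ^ i

/-- size bounds for the Gram matrix of a family of vectors indexed by centre and radius -/
structure Ker {H : Type} [NormedAddCommGroup H] [InnerProductSpace ℂ H]
    (d : ℕ) (C : ℝ) (v : P d → H) : Prop where
  pos : 0 < C
  same : ∀ R : ℝ, 1 ≤ R → ∀ p q : P d, R ≤ p.2 → p.2 ≤ 2 * R → R ≤ q.2 → q.2 ≤ 2 * R →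
    ‖(inner ℂ (v p) (v q) : ℂ)‖ ≤
      C * R ^ (d - 1) * (1 + dist p q) ^ (-nu d) / (1 + dist p q / R) ^ (d + 2)
  cross : ∀ p q : P d, 1 ≤ p.2 → 4 * p.2 ≤ q.2 →
    ‖(inner ℂ (v p) (v q) : ℂ)‖ ≤
      C * p.2 ^ (nu d) / (1 + |‖p.1 - q.1‖ - q.2| / p.2) ^ (d + 1)
  fix : ∀ r : ℝ, 1 ≤ r → ∀ (S : Finset (E d)) (γ : E d → ℂ),
    (∀ y ∈ S, ∀ z ∈ S, y ≠ z → 1 ≤ dist y z) →
    ‖∑ y ∈ S, γ y • v (y, r)‖ ^ 2 ≤ C * r ^ (d - 1) * ∑ y ∈ S, ‖γ y‖ ^ 2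

/-- the level function of a finite family: level n means density about 2^n -/
structure Lev {d : ℕ} (S : Finset (P d)) (m : P d → ℕ) : Prop where
  dens : ∀ n : ℕ, Dens ((2 : ℝ) ^ (n + 1)) (lev S m n)
  big : ∀ k : ℕ, ∀ p ∈ sc k S, ∃ i : ℕ, i ≤ k ∧
    (2 : ℝ) ^ (m p + i) ≤ ((nb (sc k S) p ((2 : ℝ) ^ i)).card : ℝ)

end Pool.LibSR53
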