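import Pool.Agent.LibSR53.P2
import Pool.Agent.LibSR53.L4
import Pool.Agent.LibSR53.Q1
import Pool.Agent.LibSR53.Q2
import Pool.Agent.LibSR53.I1
import Pool.Agent.LibSR53.V2

/-
PLAN (F1, chair). P2 + L4 give hL2 of Q1, V2 gives hT, D1 gives hlev; Q2 for the two exponents s < p and (p-1)s/(s-1), s close to p; I1.
-/

set_option autoImplicit false

noncomputable section

open MeasureTheory Metric Set Filter

namespace Pool.LibSR53

/-- the discrete inequality -/
theorem discrete (d : ℕ) (hd : 4 ≤ d) (η : SchwartzMap (E d) ℂ) (ε : ℝ) (hε : 0 < ε)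
    (hη : Van η ε) (K α : ℝ) (hα0 : 0 ≤ α) (hα1 : α ≤ 1) (p : ℝ) (hp1 : 1 < p)
    (hp2 : p * (1 + α / (nu d - 1 + α)) < 2) :
    ∃ C : ℝ, 0 < C ∧ ∀ S : Finset (P d), Good K α S → ∀ γ : P d → ℂ,
      ∫⁻ x, ‖∑ a ∈ S, γ a * Fk η a.1 a.2 x‖ₑ ^ p ≤
        ENNReal.ofReal (C * ∑ a ∈ S, ‖γ a‖ ^ p * a.2 ^ (d - 1)) := by
  have hd2 : 2 ≤ d := by omega
  have hd' : (4 : ℝ) ≤ d := by exact_mod_cast hd
  have hν : 0 < nu d - 1 := by unfold nu; linarith
  obtain ⟨C0, v, hv, hae⟩ := ker_Fk hd2 η ε hε hη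
  obtain ⟨C2, hC2, htot⟩ := total d hd C0 v hv K α hα0 hα1
  set θ := α / (nu d - 1 + α) with hθdef
  have hθ : 0 ≤ θ := div_nonneg hα0 (by linarith)
  set F : P d → E d → ℂ := fun a => Fk η a.1 a.2 with hFdef
  have hFm : ∀ a : P d, 1 ≤ a.2 → AEStronglyMeasurable (F a) volume := fun a ha =>
    (Fk_continuous hd2 η a.1 a.2 (by linarith)).aestronglyMeasurable
  have hL2 : ∀ (S : Finset (P d)) (u : ℝ), Good K α S → 1 ≤ u → Dens u S →
      ∀ γ : P d → ℂ, (∀ p, ‖γ p‖ ≤ 1) →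
      ∫⁻ x, ‖∑ p ∈ S, γ p * F p x‖ₑ ^ (2 : ℝ) ≤
        ENNReal.ofReal (C2 * (1 + Real.log u) * u ^ θ * wt S) := by
    intro S u hS hu hD γ hγ
    have h1 := htot S u hS hu hD γ hγ
    have h2 : ∫⁻ x, ‖∑ p ∈ S, γ p * F p x‖ₑ ^ (2 : ℝ) =
        ENNReal.ofReal (‖∑ p ∈ S, γ p • v p‖ ^ 2) := by
      have h3 : ((∑ p ∈ S, γ p • v p : Lp ℂ 2 (volume : Measure (E d))) : E d → ℂ) =ᵐ[volume]
          fun x => ∑ p ∈ S, γ p * F p x := by
        have h4 : ∀ T : Finset (P d), (∀ p ∈ T, 1 ≤ p.2) →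
            ((∑ p ∈ T, γ p • v p : Lp ℂ 2 (volume : Measure (E d))) : E d → ℂ) =ᵐ[volume]
            fun x => ∑ p ∈ T, γ p * F p x := by
          classical
          intro T
          induction T using Finset.induction_on with
          | empty =>
            intro _
            simp only [Finset.sum_empty]
            exact Lp.coeFn_zero _ _ _
          | insert a T ha ih =>
            intro hT
            rw [Finset.sum_insert ha]
            have e1 := Lp.coeFn_add (γ a • v a) (∑ p ∈ T, γ p • v p)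
            have e2 := Lp.coeFn_smul (γ a) (v a)
            have e3 := ih (fun p hp => hT p (Finset.mem_insert_of_mem hp))
            have e4 := hae a (hT a (Finset.mem_insert_self _ _))
            filter_upwards [e1, e2, e3, e4] with x x1 x2 x3 x4
            rw [x1, Finset.sum_insert ha, Pi.add_apply, x2, x3, Pi.smul_apply, x4]
            simp [hFdef]
        exact h4 S hS.one_le
      have h8 := lintegral_congr_ae (h3.fun_comp (fun z : ℂ => ‖z‖ₑ ^ (2 : ℝ)))
      simp only [Function.comp_def] at h8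
      rw [← h8]
      set f := ∑ p ∈ S, γ p • v p with hf
      have h5 : ‖f‖ₑ = (∫⁻ x, ‖(f : E d → ℂ) x‖ₑ ^ (2 : ℝ)) ^ (1 / (2 : ℝ)) := by
        rw [Lp.enorm_def, eLpNorm_eq_lintegral_rpow_enorm_toReal (by simp) (by simp)]
        simp
      have h6 : ‖f‖ₑ ^ (2 : ℝ) = ∫⁻ x, ‖(f : E d → ℂ) x‖ₑ ^ (2 : ℝ) := by
        rw [h5, ← ENNReal.rpow_mul]
        norm_num
      rw [← h6, ← ofReal_norm_eq_enorm, ENNReal.ofReal_rpow_of_nonneg (norm_nonneg _) (by norm_num)]
      norm_num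
    rw [h2]
    exact ENNReal.ofReal_le_ofReal h1
  have hT : ∀ M : ℕ, ∃ C : ℝ, 0 < C ∧ ∀ (p : P d) (D : ℝ), 1 ≤ p.2 → 1 ≤ D →
      ∫⁻ x in {x : E d | D < |‖x - p.1‖ - p.2|}, ‖F p x‖ₑ ≤
        ENNReal.ofReal (C * p.2 ^ (d - 1) / D ^ M) := by
    intro M
    obtain ⟨C, hC, h⟩ := Fk_tail hd2 η M
    exact ⟨C, hC, fun p D hp hD => h p.1 p.2 D (by linarith) hD⟩
  have hres : ∀ q : ℝ, 1 < q → q * (1 + θ) < 2 → ∃ C : ℝ, 0 < C ∧ ∀ S : Finset (P d),
      Good K α S → ∀ γ : P d → ℂ, (∀ p, ‖γ p‖ ≤ 1) →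
      ∫⁻ x, ‖∑ p ∈ S, γ p * F p x‖ₑ ^ q ≤ ENNReal.ofReal (C * wt S) := by
    intro q hq1 hq2
    obtain ⟨C, δ, hC, hδ, h⟩ := level d hd2 F K α θ C2 hθ hFm hL2 hT q hq1 hq2
    exact restricted d F K α hFm (fun S hS => exists_lev S hS) q hq1 C δ hC hδ h
  -- choice of s
  have hpθ : p < 2 := by nlinarith
  obtain ⟨s, hs1, hs2, hs3⟩ : ∃ s : ℝ, 1 < s ∧ s < p ∧ (p - 1) * s / (s - 1) * (1 + θ) < 2 := by
    have hcont : ContinuousAt (fun s : ℝ => (p - 1) * s / (s - 1) * (1 + θ)) p := by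
      apply ContinuousAt.mul _ continuousAt_const
      apply ContinuousAt.div
      · exact (continuous_const.mul continuous_id).continuousAt
      · exact (continuous_id.sub continuous_const).continuousAt
      · linarith
    have hval : (p - 1) * p / (p - 1) * (1 + θ) < 2 := by
      rw [mul_div_assoc, mul_div_cancel₀ _ (by linarith : p - 1 ≠ 0)]
      exact hp2
    have hev : ∀ᶠ s in nhds p, (p - 1) * s / (s - 1) * (1 + θ) < 2 :=
      hcont.eventually_lt continuousAt_const hval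
    obtain ⟨r, hr, hball⟩ := Metric.eventually_nhds_iff.mp hev
    refine ⟨max ((1 + p) / 2) (p - r / 2), ?_, ?_, ?_⟩
    · exact lt_of_lt_of_le (by linarith) (le_max_left _ _)
    · exact max_lt (by linarith) (by linarith)
    · apply hball
      rw [Real.dist_eq, abs_lt]
      constructor
      · have := le_max_right ((1 + p) / 2) (p - r / 2)
        linarith
      · have : max ((1 + p) / 2) (p - r / 2) < p := max_lt (by linarith) (by linarith)
        linarith
  have hq2 : 1 < (p - 1) * s / (s - 1) := by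
    rw [lt_div_iff₀ (by linarith)]
    nlinarith
  obtain ⟨Ca, hCa, ha⟩ := hres s hs1 (by nlinarith)
  obtain ⟨Cb, hCb, hb⟩ := hres _ hq2 hs3
  have hwt : ∀ S : Finset (P d), Good K α S → 0 ≤ wt S := by
    intro S hS
    exact Finset.sum_nonneg (fun p hp => pow_nonneg (by linarith [hS.one_le p hp]) _)
  obtain ⟨C, hC, h⟩ := interpolate (volume : Measure (E d)) F (fun a : P d => a.2 ^ (d - 1))
    (Good K α) (fun S T hS hT => good_subset hS hT)
    (fun S hS i hi => pow_nonneg (by linarith [hS.one_le i hi]) _)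
    (fun S hS i hi => hFm i (hS.one_le i hi)) p s (Ca + Cb) hp1 hpθ hs1 hs2
    (fun S hS γ hγ => (ha S hS γ hγ).trans (ENNReal.ofReal_le_ofReal (by
      have := hwt S hS
      have : Ca * wt S ≤ (Ca + Cb) * wt S := by nlinarith
      exact this)))
    (fun S hS γ hγ => (hb S hS γ hγ).trans (ENNReal.ofReal_le_ofReal (by
      have := hwt S hS
      have : Cb * wt S ≤ (Ca + Cb) * wt S := by nlinarith
      exact this)))
  exact ⟨C, hC, h⟩


end Pool.LibSR53
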