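import Pool.Agent.LibSR53.K3
import Pool.Agent.LibSR53.K4

/-
PLAN (K6). Gaussian: exp(-pi |w|^2/t^2) = int ex w xi phi_t(xi) with phi_t(xi) = t^d exp(-pi t^2 |xi|^2) (Mathlib:
fourierIntegral_gaussian_innerProductSpace / GaussianFourier; symmetric so the sign does not matter). Ip_fourier with
Psi = the Gaussian (complex valued) gives GI (as a complex number) = int ex v xi phi_t sh_r sh_r' (move ofReal through the integrals).
First bound: |sh_r| <= C r^(d-1) (r|xi|)^(-nu) = C r^nu |xi|^(-nu), so GI <= C^2 (r r')^nu t^d int exp(-pi t^2|xi|^2) |xi|^(-(d-1)) dxi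
= c (r r')^nu t^(d-1) by scaling xi -> xi/t (Measure.integral_comp_smul) - the integral of |xi|^(-(d-1)) exp(-pi|xi|^2) is finite:
polar coordinates (integrable_fun_norm_addHaar / MeasureTheory.Measure.toSphere; reduces to int_0^inf exp(-pi s^2) ds), or
split at |xi| = 1. nu d = (d-1)/2.
Second bound (v /= 0): phi_t sh_r sh_r' is radial and integrable: radial_avg gives C int phi_t |sh_r| |sh_r'| (|v||xi|)^(-nu) with
|sh_r| <= C r^(d-1) and |sh_r'| <= C r'^nu |xi|^(-nu).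
Suggestion: first prove for all xi /= 0 the two pointwise bounds and one lemma int t^d exp(-pi t^2|xi|^2) |xi|^(-(d-1)) = c t^(d-1).
-/

set_option autoImplicit false

noncomputable section

open MeasureTheory Metric Set Filter

namespace Pool.LibSR53

/-- the Gaussian -/
private def k6phi (d : ℕ) (t : ℝ) (ξ : E d) : ℝ := t ^ d * Real.exp (-(Real.pi * t ^ 2 * ‖ξ‖ ^ 2))

private lemma k6phi_nonneg (d : ℕ) {t : ℝ} (ht : 0 < t) (ξ : E d) : 0 ≤ k6phi d t ξ :=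
  mul_nonneg (pow_nonneg ht.le _) (Real.exp_nonneg _)

private lemma k6_b_re {t : ℝ} (ht : 0 < t) : 0 < ((Real.pi * t ^ 2 : ℝ) : ℂ).re := by
  rw [Complex.ofReal_re]
  exact mul_pos Real.pi_pos (pow_pos ht 2)

private lemma k6phi_integrable (d : ℕ) {t : ℝ} (ht : 0 < t) : Integrable (k6phi d t) := by
  have h := GaussianFourier.integrable_cexp_neg_mul_sq_norm_add (V := E d) (k6_b_re ht) 0 0
  have h2 := (h.re.const_mul (t ^ d))
  refine h2.congr (Eventually.of_forall fun ξ => ?_)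
  show t ^ d * (Complex.exp _).re = _
  rw [k6phi]
  congr 1
  rw [zero_mul, add_zero]
  rw [← Complex.ofReal_re (Real.exp (-(Real.pi * t ^ 2 * ‖ξ‖ ^ 2))), Complex.ofReal_exp]
  push_cast
  ring_nf

private lemma k6_fourier (d : ℕ) {t : ℝ} (ht : 0 < t) (w : E d) :
    ∫ ξ, ex w ξ * (k6phi d t ξ : ℂ) = ((Real.exp (-(Real.pi * ‖w‖ ^ 2 / t ^ 2)) : ℝ) : ℂ) := by
  have h := GaussianFourier.integral_cexp_neg_mul_sq_norm_add (V := E d) (k6_b_re ht)
    (2 * (Real.pi : ℂ) * Complex.I) w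
  have e1 : ∀ ξ : E d, ex w ξ * (k6phi d t ξ : ℂ) = (t : ℂ) ^ d * Complex.exp
      (-((Real.pi * t ^ 2 : ℝ) : ℂ) * (‖ξ‖ : ℂ) ^ 2 + 2 * (Real.pi : ℂ) * Complex.I *
        ((inner ℝ w ξ : ℝ) : ℂ)) := by
    intro ξ
    rw [ex, k6phi, Complex.exp_add]
    push_cast
    rw [neg_mul]
    ring
  rw [integral_congr_ae (Eventually.of_forall e1), integral_const_mul, h]
  have e2 : ((Real.pi : ℂ) / ((Real.pi * t ^ 2 : ℝ) : ℂ)) ^ ((Module.finrank ℝ (E d) : ℂ) / 2) =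
      (((t ^ d)⁻¹ : ℝ) : ℂ) := by
    have h1 : (Real.pi : ℂ) / ((Real.pi * t ^ 2 : ℝ) : ℂ) = (((t ^ 2)⁻¹ : ℝ) : ℂ) := by
      push_cast
      have : (Real.pi : ℂ) ≠ 0 := Complex.ofReal_ne_zero.2 Real.pi_ne_zero
      have : (t : ℂ) ≠ 0 := Complex.ofReal_ne_zero.2 ht.ne'
      field_simp
    have h2 : (Module.finrank ℝ (E d) : ℂ) / 2 = (((d : ℝ) / 2 : ℝ) : ℂ) := by
      rw [finrank_euclideanSpace, Fintype.card_fin]
      push_cast
      ring
    rw [h1, h2, ← Complex.ofReal_cpow (inv_nonneg.2 (sq_nonneg t))]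
    congr 1
    rw [Real.inv_rpow (sq_nonneg t), ← Real.rpow_natCast t 2, ← Real.rpow_mul ht.le]
    congr 1
    rw [← Real.rpow_natCast t d]
    congr 1
    push_cast
    ring
  have e3 : Complex.exp ((2 * (Real.pi : ℂ) * Complex.I) ^ 2 * (‖w‖ : ℂ) ^ 2 /
      (4 * ((Real.pi * t ^ 2 : ℝ) : ℂ))) = ((Real.exp (-(Real.pi * ‖w‖ ^ 2 / t ^ 2)) : ℝ) : ℂ) := by
    rw [Complex.ofReal_exp]
    congr 1
    have h1 : (Real.pi : ℂ) ≠ 0 := Complex.ofReal_ne_zero.2 Real.pi_ne_zero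
    have h2 : (t : ℂ) ≠ 0 := Complex.ofReal_ne_zero.2 ht.ne'
    rw [mul_pow, mul_pow, Complex.I_sq]
    push_cast
    field_simp
    ring
  rw [e2, e3]
  push_cast
  have h2 : (t : ℂ) ≠ 0 := Complex.ofReal_ne_zero.2 ht.ne'
  field_simp

/-- the radial weight -/
private def k6w (d : ℕ) (ξ : E d) : ℝ := Real.exp (-(Real.pi * ‖ξ‖ ^ 2)) * ‖ξ‖ ^ (-((d : ℝ) - 1))

private lemma k6w_integrable {d : ℕ} (hd : 2 ≤ d) : Integrable (k6w d) := by
  haveI : Nontrivial (E d) := by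
    haveI : Nonempty (Fin d) := ⟨⟨0, by omega⟩⟩
    infer_instance
  have h := (integrable_fun_norm_addHaar (E := E d) volume
    (f := fun y : ℝ => Real.exp (-(Real.pi * y ^ 2)) * y ^ (-((d : ℝ) - 1)))).2 ?_
  · exact h
  · have h1 : IntegrableOn (fun y : ℝ => Real.exp (-Real.pi * y ^ 2)) (Ioi 0) :=
      (integrable_exp_neg_mul_sq Real.pi_pos).integrableOn
    refine h1.congr_fun (fun y hy => ?_) measurableSet_Ioi
    have hy0 : (0 : ℝ) < y := hy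
    show Real.exp (-Real.pi * y ^ 2) =
      y ^ (Module.finrank ℝ (E d) - 1) * (Real.exp (-(Real.pi * y ^ 2)) * y ^ (-((d : ℝ) - 1)))
    rw [finrank_euclideanSpace, Fintype.card_fin, Real.rpow_neg hy0.le]
    have h2 : y ^ ((d : ℝ) - 1) = y ^ (d - 1) := by
      rw [← Real.rpow_natCast]
      congr 1
      rw [Nat.cast_sub (by omega)]
      simp
    rw [h2]
    have h3 : y ^ (d - 1) ≠ 0 := pow_ne_zero _ hy0.ne'
    field_simp

/-- the scaled weight -/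
private lemma k6_scale {d : ℕ} (hd : 2 ≤ d) {t : ℝ} (ht : 0 < t) :
    Integrable (fun ξ : E d => k6phi d t ξ * ‖ξ‖ ^ (-((d : ℝ) - 1))) ∧
      ∫ ξ : E d, k6phi d t ξ * ‖ξ‖ ^ (-((d : ℝ) - 1)) = t ^ (d - 1) * ∫ ξ, k6w d ξ := by
  have hpow : t ^ (d : ℝ) * t ^ (-1 : ℝ) = t ^ (d - 1) := by
    rw [← Real.rpow_add ht, ← Real.rpow_natCast]
    congr 1
    rw [Nat.cast_sub (by omega)]
    simp
    ring
  have e : ∀ ξ : E d, k6phi d t ξ * ‖ξ‖ ^ (-((d : ℝ) - 1)) =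
      (t ^ d * t ^ (d - 1)) * k6w d (t • ξ) := by
    intro ξ
    rw [k6phi, k6w, norm_smul, Real.norm_eq_abs, abs_of_pos ht,
      Real.mul_rpow ht.le (norm_nonneg _), mul_pow]
    have h2 : t ^ (-((d : ℝ) - 1)) = (t ^ (d - 1))⁻¹ := by
      rw [Real.rpow_neg ht.le, ← Real.rpow_natCast]
      congr 2
      rw [Nat.cast_sub (by omega)]
      simp
    rw [h2]
    have h3 : t ^ (d - 1) ≠ 0 := pow_ne_zero _ ht.ne'
    field_simp
  constructor
  · have h := ((k6w_integrable hd).comp_smul ht.ne').const_mul (t ^ d * t ^ (d - 1))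
    exact h.congr (Eventually.of_forall fun ξ => (e ξ).symm)
  · rw [integral_congr_ae (Eventually.of_forall e), integral_const_mul,
      Measure.integral_comp_smul_of_nonneg volume (k6w d) t (hR := ht.le), finrank_euclideanSpace, Fintype.card_fin,
      smul_eq_mul]
    have h3 : t ^ d ≠ 0 := pow_ne_zero _ ht.ne'
    field_simp

private lemma k6_bound {d : ℕ} (hd : 2 ≤ d) {C : ℝ} (hC : 0 < C)
    (h : ∀ r : ℝ, 0 < r → ∀ ξ : E d, |sh d r ξ| ≤ C * r ^ (d - 1) * (1 + r * ‖ξ‖) ^ (-nu d))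
    {r : ℝ} (hr : 0 < r) (ξ : E d) :
    |sh d r ξ| ≤ C * r ^ (d - 1) ∧ (ξ ≠ 0 → |sh d r ξ| ≤ C * r ^ (nu d) * ‖ξ‖ ^ (-nu d)) := by
  have hnu : 0 ≤ nu d := by
    have : (2 : ℝ) ≤ d := by exact_mod_cast hd
    rw [nu]
    linarith
  constructor
  · refine (h r hr ξ).trans ?_
    have h1 : (1 + r * ‖ξ‖) ^ (-nu d) ≤ 1 :=
      Real.rpow_le_one_of_one_le_of_nonpos (by
        have := mul_nonneg hr.le (norm_nonneg ξ)
        linarith) (by linarith)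
    calc C * r ^ (d - 1) * (1 + r * ‖ξ‖) ^ (-nu d) ≤ C * r ^ (d - 1) * 1 :=
          mul_le_mul_of_nonneg_left h1 (by positivity)
      _ = C * r ^ (d - 1) := mul_one _
  · intro hξ
    have hξ' : 0 < ‖ξ‖ := norm_pos_iff.2 hξ
    refine (h r hr ξ).trans ?_
    have h1 : (1 + r * ‖ξ‖) ^ (-nu d) ≤ (r * ‖ξ‖) ^ (-nu d) :=
      Real.rpow_le_rpow_of_nonpos (by positivity) (by linarith) (by linarith)
    have h2 : r ^ (d - 1) = r ^ (nu d) * r ^ (nu d) := by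
      rw [← Real.rpow_add hr, ← Real.rpow_natCast]
      congr 1
      rw [Nat.cast_sub (by omega), nu]
      push_cast
      ring
    calc C * r ^ (d - 1) * (1 + r * ‖ξ‖) ^ (-nu d)
        ≤ C * r ^ (d - 1) * (r * ‖ξ‖) ^ (-nu d) :=
          mul_le_mul_of_nonneg_left h1 (by positivity)
      _ = C * r ^ (nu d) * ‖ξ‖ ^ (-nu d) := by
          rw [Real.mul_rpow hr.le hξ'.le, h2, Real.rpow_neg hr.le]
          have : r ^ (nu d) ≠ 0 := (Real.rpow_pos_of_pos hr _).ne'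
          field_simp

private lemma k6_norm_ex {d : ℕ} (v ξ : E d) : ‖ex v ξ‖ = 1 := by
  have : ex v ξ = Complex.exp (((2 * Real.pi * inner ℝ v ξ : ℝ) : ℂ) * Complex.I) := by
    rw [ex]
    congr 1
    push_cast
    ring
  rw [this, Complex.norm_exp_ofReal_mul_I]

private lemma k6_radial {d : ℕ} {t : ℝ} {ξ ξ' : E d} (h : ‖ξ‖ = ‖ξ'‖) :
    k6phi d t ξ = k6phi d t ξ' := by
  rw [k6phi, k6phi, h]

private lemma k6_ne {d : ℕ} (hd : 2 ≤ d) : ∀ᵐ ξ : E d, ξ ≠ 0 := by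
  haveI : Nontrivial (E d) := by
    haveI : Nonempty (Fin d) := ⟨⟨0, by omega⟩⟩
    infer_instance
  exact compl_mem_ae_iff.2 (measure_singleton 0)

private lemma k6_eq {d : ℕ} (hd : 2 ≤ d) {t r r' : ℝ} (ht : 0 < t) (hr : 0 < r) (hr' : 0 < r')
    (v : E d) : ((GI d t r r' v : ℝ) : ℂ) =
      ∫ ξ, ex v ξ * (k6phi d t ξ : ℂ) * (sh d r ξ : ℂ) * (sh d r' ξ : ℂ) := by
  rw [← Ip_fourier hd (fun ξ => (k6phi d t ξ : ℂ)) (k6phi_integrable d ht).ofReal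
    (fun w => ((Real.exp (-(Real.pi * ‖w‖ ^ 2 / t ^ 2)) : ℝ) : ℂ))
    (fun w => (k6_fourier d ht w).symm) r r' hr hr' v]
  rw [GI, Ip]
  refine (integral_ofReal (𝕜 := ℂ)).symm.trans ?_
  refine integral_congr_ae (Eventually.of_forall fun ζ => ?_)
  exact (integral_ofReal (𝕜 := ℂ)).symm

/-- size bounds for the Gaussian double spherical integral -/
theorem gauss_bound (d : ℕ) (hd : 2 ≤ d) : ∃ C : ℝ, 0 < C ∧ ∀ t r r' : ℝ, 0 < t → 0 < r →
    0 < r' → ∀ v : E d,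
      GI d t r r' v ≤ C * (r * r') ^ (nu d) * t ^ (d - 1) ∧
      (v ≠ 0 → GI d t r r' v ≤ C * r ^ (d - 1) * (r' / ‖v‖) ^ (nu d) * t ^ (d - 1)) := by
  obtain ⟨C1, hC1, h1⟩ := sh_bound d hd
  obtain ⟨C2, hC2, h2⟩ := radial_avg d hd
  set I : ℝ := ∫ ξ, k6w d ξ with hI
  have hI0 : 0 ≤ I := integral_nonneg fun ξ =>
    mul_nonneg (Real.exp_nonneg _) (Real.rpow_nonneg (norm_nonneg _) _)
  have hnu : 0 ≤ nu d := by
    have : (2 : ℝ) ≤ d := by exact_mod_cast hd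
    rw [nu]
    linarith
  have h2nu : -nu d + -nu d = -((d : ℝ) - 1) := by
    rw [nu]
    ring
  refine ⟨C1 ^ 2 * I + C2 * C1 ^ 2 * I + 1, by positivity, fun t r r' ht hr hr' v => ?_⟩
  obtain ⟨hint, hval⟩ := k6_scale hd ht
  have hGI : GI d t r r' v ≤ ‖((GI d t r r' v : ℝ) : ℂ)‖ := by
    rw [Complex.norm_real]
    exact le_abs_self _
  have hpw : ∀ ξ : E d, ξ ≠ 0 → ‖ξ‖ ^ (-nu d) * ‖ξ‖ ^ (-nu d) = ‖ξ‖ ^ (-((d : ℝ) - 1)) := by
    intro ξ hξ
    rw [← Real.rpow_add (norm_pos_iff.2 hξ), h2nu]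
  constructor
  · rw [k6_eq hd ht hr hr' v] at hGI
    refine (hGI.trans (norm_integral_le_integral_norm _)).trans ?_
    have hmono : ∫ ξ, ‖ex v ξ * (k6phi d t ξ : ℂ) * (sh d r ξ : ℂ) * (sh d r' ξ : ℂ)‖ ≤
        ∫ ξ : E d, C1 ^ 2 * (r * r') ^ (nu d) * (k6phi d t ξ * ‖ξ‖ ^ (-((d : ℝ) - 1))) := by
      refine integral_mono_of_nonneg (Eventually.of_forall fun ξ => norm_nonneg _)
        (hint.const_mul _) ?_
      filter_upwards [k6_ne hd] with ξ hξ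
      rw [norm_mul, norm_mul, norm_mul, k6_norm_ex, one_mul, Complex.norm_real, Complex.norm_real,
        Complex.norm_real, Real.norm_eq_abs, Real.norm_eq_abs, Real.norm_eq_abs,
        abs_of_nonneg (k6phi_nonneg d ht ξ), ← hpw ξ hξ, Real.mul_rpow hr.le hr'.le]
      have hb := (k6_bound hd hC1 h1 hr ξ).2 hξ
      have hb' := (k6_bound hd hC1 h1 hr' ξ).2 hξ
      calc k6phi d t ξ * |sh d r ξ| * |sh d r' ξ|
          ≤ k6phi d t ξ * (C1 * r ^ (nu d) * ‖ξ‖ ^ (-nu d)) *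
            (C1 * r' ^ (nu d) * ‖ξ‖ ^ (-nu d)) := by
            have := k6phi_nonneg d ht ξ
            gcongr
        _ = _ := by ring
    refine hmono.trans ?_
    rw [integral_const_mul, hval]
    have h3 : 0 ≤ (r * r') ^ (nu d) * t ^ (d - 1) := by positivity
    have h4 : 0 ≤ (C2 * C1 ^ 2 * I + 1) * ((r * r') ^ (nu d) * t ^ (d - 1)) := by positivity
    linarith [h4]
  · intro hv
    have hv' : 0 < ‖v‖ := norm_pos_iff.2 hv
    rw [k6_eq hd ht hr hr' v] at hGI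
    have hmeas : ∀ r : ℝ, 0 < r → AEStronglyMeasurable (fun ξ : E d => (sh d r ξ : ℂ)) volume :=
      fun r hr => (Complex.continuous_ofReal.comp (sh_continuous d hd r hr)).aestronglyMeasurable
    have hbd : ∀ r : ℝ, 0 < r → ∀ ξ : E d, ‖(sh d r ξ : ℂ)‖ ≤ C1 * r ^ (d - 1) := by
      intro r hr ξ
      rw [Complex.norm_real]
      exact (k6_bound hd hC1 h1 hr ξ).1
    have hφ : Integrable (fun ξ : E d => (k6phi d t ξ : ℂ) * (sh d r ξ : ℂ) * (sh d r' ξ : ℂ)) :=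
      (((k6phi_integrable d ht).ofReal.mul_bdd (hmeas r hr)
        (Eventually.of_forall (hbd r hr))).mul_bdd (hmeas r' hr')
        (Eventually.of_forall (hbd r' hr')))
    have h3 := h2 (fun ξ => (k6phi d t ξ : ℂ) * (sh d r ξ : ℂ) * (sh d r' ξ : ℂ)) hφ
      (fun ξ ξ' hξ => by
        show (k6phi d t ξ : ℂ) * (sh d r ξ : ℂ) * (sh d r' ξ : ℂ) =
          (k6phi d t ξ' : ℂ) * (sh d r ξ' : ℂ) * (sh d r' ξ' : ℂ)
        rw [k6_radial hξ, sh_radial d r ξ ξ' hξ, sh_radial d r' ξ ξ' hξ]) v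
    have e : ∀ ξ : E d, ex v ξ * ((k6phi d t ξ : ℂ) * (sh d r ξ : ℂ) * (sh d r' ξ : ℂ)) =
        ex v ξ * (k6phi d t ξ : ℂ) * (sh d r ξ : ℂ) * (sh d r' ξ : ℂ) := fun ξ => by ring
    rw [integral_congr_ae (Eventually.of_forall e)] at h3
    refine (hGI.trans h3).trans ?_
    have hmono : ∫ ξ, ‖(k6phi d t ξ : ℂ) * (sh d r ξ : ℂ) * (sh d r' ξ : ℂ)‖ *
        (1 + ‖v‖ * ‖ξ‖) ^ (-nu d) ≤ ∫ ξ : E d, C1 ^ 2 * r ^ (d - 1) * (r' / ‖v‖) ^ (nu d) *
          (k6phi d t ξ * ‖ξ‖ ^ (-((d : ℝ) - 1))) := by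
      refine integral_mono_of_nonneg (Eventually.of_forall fun ξ =>
        mul_nonneg (norm_nonneg _) (Real.rpow_nonneg (by positivity) _))
        (hint.const_mul _) ?_
      filter_upwards [k6_ne hd] with ξ hξ
      have hξ' : 0 < ‖ξ‖ := norm_pos_iff.2 hξ
      rw [norm_mul, norm_mul, Complex.norm_real, Complex.norm_real,
        Complex.norm_real, Real.norm_eq_abs, Real.norm_eq_abs, Real.norm_eq_abs,
        abs_of_nonneg (k6phi_nonneg d ht ξ), ← hpw ξ hξ, Real.div_rpow hr'.le hv'.le]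
      have hb := (k6_bound hd hC1 h1 hr ξ).1
      have hb' := (k6_bound hd hC1 h1 hr' ξ).2 hξ
      have h4 : (1 + ‖v‖ * ‖ξ‖) ^ (-nu d) ≤ (‖v‖ * ‖ξ‖) ^ (-nu d) :=
        Real.rpow_le_rpow_of_nonpos (by positivity) (by linarith) (by linarith)
      rw [Real.mul_rpow hv'.le hξ'.le, Real.rpow_neg hv'.le] at h4
      calc k6phi d t ξ * |sh d r ξ| * |sh d r' ξ| * (1 + ‖v‖ * ‖ξ‖) ^ (-nu d)
          ≤ k6phi d t ξ * (C1 * r ^ (d - 1)) * (C1 * r' ^ (nu d) * ‖ξ‖ ^ (-nu d)) *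
            ((‖v‖ ^ (nu d))⁻¹ * ‖ξ‖ ^ (-nu d)) := by
            have := k6phi_nonneg d ht ξ
            gcongr
        _ = _ := by
            have : ‖v‖ ^ (nu d) ≠ 0 := (Real.rpow_pos_of_pos hv' _).ne'
            field_simp
    refine (mul_le_mul_of_nonneg_left hmono hC2.le).trans ?_
    rw [integral_const_mul, hval]
    have h4 : 0 ≤ (C1 ^ 2 * I + 1) * (r ^ (d - 1) * (r' / ‖v‖) ^ (nu d) * t ^ (d - 1)) := by
      positivity
    linarith [h4]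

end Pool.LibSR53
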