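import Pool.Agent.LibSR53.L1

/-
PLAN (L2). nu = nu d > 1, theta = alpha/(nu-1+alpha), L = u^(1/(nu-1+alpha)) >= 1. S' = sc k S, radii in [2^k, 2^(k+1)). j(p) = floor((p.2-2^k)/L).
G = G_even + G_odd by the parity of j(p), |G|^2 <= 2|G_even|^2 + 2|G_odd|^2. For one parity: G_par = sum_j G_j;
|G_par|^2 = sum_j |G_j|^2 + sum_{j /= j'} re<G_j,G_j'> and for j /= j' of the same parity all pairs have |p.2-q.2| >= L, hence dist >= L: the off-diagonal part is
<= sum_p sum_{q in far (sc k S) p L} |<v p, v q>| <= #S' * C0 2^(k(d-1)) * C u L^(1-nu) (Ker.same with R = 2^k, far_sum). Diagonal: G_j = sum over the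
radii rho occurring in the interval of G_rho (Finset.image Prod.snd); Cauchy-Schwarz |G_j|^2 <= N sum_rho |G_rho|^2, N = number of radii in an interval of
length L: if L <= 2^k, N <= K L^alpha (Good.rad with a = left end >= 2^k, D = L); if L > 2^k, N <= K (2^k)^alpha <= K L^alpha (D = a = 2^k). Ker.fix:
|G_rho|^2 <= C0 rho^(d-1) #{p : p.2 = rho} (the centres are 1-separated by Good.sep). Total <= C (K L^alpha + u L^(1-nu)) 2^(k(d-1)) #S' and
L^(alpha) = u^theta = u L^(1-nu). K >= 0 from Good.rad at a = D = 1.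
-/

set_option autoImplicit false

noncomputable section

open MeasureTheory Metric Set Filter

namespace Pool.LibSR53

open scoped Classical in
/-- block decomposition in a Hilbert space -/
private theorem l2_block {ι H : Type} [NormedAddCommGroup H] [InnerProductSpace ℂ H]
    (A : Finset ι) (j : ι → ℕ) (w : ι → H) (B D : ℝ)
    (hoff : ∀ p ∈ A, ∑ q ∈ A.filter (fun q => j q ≠ j p), ‖(inner ℂ (w p) (w q) : ℂ)‖ ≤ B)
    (hdiag : ∀ i, ‖∑ p ∈ A.filter (fun p => j p = i), w p‖ ^ 2 ≤
      D * ((A.filter (fun p => j p = i)).card : ℝ)) :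
    ‖∑ p ∈ A, w p‖ ^ 2 ≤ (D + B) * (A.card : ℝ) := by
  have hn : ∀ T : Finset ι, ‖∑ p ∈ T, w p‖ ^ 2 =
      ∑ p ∈ T, ∑ q ∈ T, (inner ℂ (w p) (w q) : ℂ).re := by
    intro T
    rw [← inner_self_eq_norm_sq (𝕜 := ℂ), sum_inner]
    simp only [inner_sum]
    change (∑ p ∈ T, ∑ q ∈ T, (inner ℂ (w p) (w q) : ℂ)).re = _
    rw [Complex.re_sum]
    refine Finset.sum_congr rfl fun p _ => ?_
    rw [Complex.re_sum]
  have h1 : ∑ p ∈ A, ∑ q ∈ A.filter (fun q => j q = j p), (inner ℂ (w p) (w q) : ℂ).re ≤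
      D * (A.card : ℝ) := by
    have h2 : ∀ p ∈ A, j p ∈ A.image j := fun p hp => Finset.mem_image_of_mem j hp
    rw [← Finset.sum_fiberwise_of_maps_to h2, Finset.card_eq_sum_card_image j A]
    push_cast
    rw [Finset.mul_sum]
    refine Finset.sum_le_sum fun i _ => ?_
    refine le_trans (le_of_eq ?_) (hdiag i)
    rw [hn]
    refine Finset.sum_congr rfl fun p hp => ?_
    rw [(Finset.mem_filter.1 hp).2]
  have h2 : ∑ p ∈ A, ∑ q ∈ A.filter (fun q => j q ≠ j p), (inner ℂ (w p) (w q) : ℂ).re ≤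
      B * (A.card : ℝ) := by
    calc ∑ p ∈ A, ∑ q ∈ A.filter (fun q => j q ≠ j p), (inner ℂ (w p) (w q) : ℂ).re
        ≤ ∑ p ∈ A, B := by
          refine Finset.sum_le_sum fun p hp => le_trans ?_ (hoff p hp)
          exact Finset.sum_le_sum fun q _ => Complex.re_le_norm _
      _ = B * (A.card : ℝ) := by
          rw [Finset.sum_const, nsmul_eq_mul, mul_comm]
  rw [hn]
  have h3 : ∀ p ∈ A, ∑ q ∈ A, (inner ℂ (w p) (w q) : ℂ).re =
      ∑ q ∈ A.filter (fun q => j q = j p), (inner ℂ (w p) (w q) : ℂ).re +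
      ∑ q ∈ A.filter (fun q => j q ≠ j p), (inner ℂ (w p) (w q) : ℂ).re := fun p _ =>
    (Finset.sum_filter_add_sum_filter_not A (fun q => j q = j p) _).symm
  rw [Finset.sum_congr rfl h3, Finset.sum_add_distrib]
  linarith

open scoped Classical in
/-- families with few radii -/
private theorem l2_diag {H : Type} [NormedAddCommGroup H] [InnerProductSpace ℂ H] {d : ℕ}
    {C0 : ℝ} {v : P d → H} (hv : Ker d C0 v) (A : Finset (P d))
    (hsep : ∀ p ∈ A, ∀ q ∈ A, p ≠ q → 1 ≤ dist p q) (M : ℝ)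
    (h1 : ∀ p ∈ A, 1 ≤ p.2) (hM : ∀ p ∈ A, p.2 ≤ M) (N : ℝ)
    (hN : ((A.image Prod.snd).card : ℝ) ≤ N) (γ : P d → ℂ) (hγ : ∀ p, ‖γ p‖ ≤ 1) :
    ‖∑ p ∈ A, γ p • v p‖ ^ 2 ≤ N * (C0 * M ^ (d - 1)) * (A.card : ℝ) := by
  have hC0 := hv.pos
  rcases A.eq_empty_or_nonempty with rfl | ⟨p0, hp0⟩
  · simp
  have hM0 : 0 ≤ M := le_trans (le_trans zero_le_one (h1 p0 hp0)) (hM p0 hp0)
  have hN0 : 0 ≤ N := le_trans (Nat.cast_nonneg _) hN
  have hfix : ∀ ρ ∈ A.image Prod.snd, ‖∑ p ∈ A.filter (fun p => p.2 = ρ), γ p • v p‖ ^ 2 ≤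
      C0 * M ^ (d - 1) * ((A.filter (fun p => p.2 = ρ)).card : ℝ) := by
    intro ρ hρ
    obtain ⟨p1, hp1, rfl⟩ := Finset.mem_image.1 hρ
    set T := A.filter (fun p => p.2 = p1.2) with hT
    have hinj : Set.InjOn Prod.fst (T : Set (P d)) := by
      intro a ha b hb hab
      have ha' := (Finset.mem_filter.1 ha).2
      have hb' := (Finset.mem_filter.1 hb).2
      exact Prod.ext hab (ha'.trans hb'.symm)
    have hTs : ∑ p ∈ T, γ p • v p = ∑ y ∈ T.image Prod.fst, γ (y, p1.2) • v (y, p1.2) := by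
      rw [Finset.sum_image hinj]
      refine Finset.sum_congr rfl fun p hp => ?_
      rw [← (Finset.mem_filter.1 hp).2]
    have hcard : (T.image Prod.fst).card = T.card := Finset.card_image_of_injOn hinj
    have h2 := hv.fix p1.2 (h1 p1 hp1) (T.image Prod.fst) (fun y => γ (y, p1.2)) (by
      intro y hy z hz hyz
      obtain ⟨a, ha, rfl⟩ := Finset.mem_image.1 hy
      obtain ⟨b, hb, rfl⟩ := Finset.mem_image.1 hz
      have ha' := (Finset.mem_filter.1 ha)
      have hb' := (Finset.mem_filter.1 hb)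
      have h3 := hsep a ha'.1 b hb'.1 (fun h => hyz (by rw [h]))
      rw [Prod.dist_eq, ha'.2, hb'.2, dist_self, max_eq_left dist_nonneg] at h3
      exact h3)
    rw [hTs]
    refine h2.trans ?_
    have h4 : ∑ y ∈ T.image Prod.fst, ‖γ (y, p1.2)‖ ^ 2 ≤ (T.card : ℝ) := by
      rw [← hcard]
      calc ∑ y ∈ T.image Prod.fst, ‖γ (y, p1.2)‖ ^ 2 ≤ ∑ y ∈ T.image Prod.fst, (1 : ℝ) := by
            refine Finset.sum_le_sum fun y _ => ?_
            exact pow_le_one₀ (norm_nonneg _) (hγ _)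
        _ = ((T.image Prod.fst).card : ℝ) := by simp
    have h5 : p1.2 ^ (d - 1) ≤ M ^ (d - 1) :=
      pow_le_pow_left₀ (le_trans zero_le_one (h1 p1 hp1)) (hM p1 hp1) _
    have h6 : 0 ≤ p1.2 := le_trans zero_le_one (h1 p1 hp1)
    gcongr
  have hsplit : ∑ p ∈ A, γ p • v p =
      ∑ ρ ∈ A.image Prod.snd, ∑ p ∈ A.filter (fun p => p.2 = ρ), γ p • v p :=
    (Finset.sum_fiberwise_of_maps_to (fun p hp => Finset.mem_image_of_mem Prod.snd hp) _).symm
  rw [hsplit]
  calc ‖∑ ρ ∈ A.image Prod.snd, ∑ p ∈ A.filter (fun p => p.2 = ρ), γ p • v p‖ ^ 2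
      ≤ (∑ ρ ∈ A.image Prod.snd, ‖∑ p ∈ A.filter (fun p => p.2 = ρ), γ p • v p‖) ^ 2 := by
        gcongr
        exact norm_sum_le _ _
    _ ≤ ((A.image Prod.snd).card : ℝ) *
        ∑ ρ ∈ A.image Prod.snd, ‖∑ p ∈ A.filter (fun p => p.2 = ρ), γ p • v p‖ ^ 2 :=
        sq_sum_le_card_mul_sum_sq
    _ ≤ N * ∑ ρ ∈ A.image Prod.snd,
        C0 * M ^ (d - 1) * ((A.filter (fun p => p.2 = ρ)).card : ℝ) := by
        refine mul_le_mul hN (Finset.sum_le_sum hfix) (Finset.sum_nonneg fun _ _ => by positivity)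
          hN0
    _ = N * (C0 * M ^ (d - 1)) * (A.card : ℝ) := by
        rw [← Finset.mul_sum, Finset.card_eq_sum_card_image Prod.snd A]
        push_cast
        ring

/-- the square function estimate inside one scale -/
theorem same_scale {H : Type} [NormedAddCommGroup H] [InnerProductSpace ℂ H] (d : ℕ)
    (hd : 4 ≤ d) (C0 : ℝ) (v : P d → H) (hv : Ker d C0 v) (K α : ℝ) (hα0 : 0 ≤ α)
    (hα1 : α ≤ 1) : ∃ C : ℝ, 0 < C ∧ ∀ (S : Finset (P d)) (u : ℝ), Good K α S → 1 ≤ u →
    Dens u S → ∀ (k : ℕ) (γ : P d → ℂ), (∀ p, ‖γ p‖ ≤ 1) →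
    ‖∑ p ∈ sc k S, γ p • v p‖ ^ 2 ≤
      C * u ^ (α / (nu d - 1 + α)) * 2 ^ (k * (d - 1)) * ((sc k S).card : ℝ) := by
  classical
  obtain ⟨Cf, hCf, hfar⟩ := far_sum d hd
  have hC0 := hv.pos
  have hν : 1 < nu d := by
    have : (4 : ℝ) ≤ d := by exact_mod_cast hd
    simp only [nu]
    linarith
  have he : 0 < nu d - 1 + α := by linarith
  refine ⟨2 * (C0 * (|K| * 2 ^ (d - 1) + Cf)), by positivity, ?_⟩
  intro S u hS hu hdens k γ hγ
  have hu0 : 0 < u := by linarith
  set e := nu d - 1 + α with hedef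
  set L : ℝ := u ^ (1 / e) with hL
  have hL1 : 1 ≤ L := Real.one_le_rpow hu (by positivity)
  have hL0 : 0 < L := by linarith
  have hLα : L ^ α = u ^ (α / e) := by
    rw [hL, ← Real.rpow_mul hu0.le]
    congr 1
    ring
  have hLν : u * L ^ (1 - nu d) = u ^ (α / e) := by
    rw [hL, ← Real.rpow_mul hu0.le]
    nth_rewrite 1 [← Real.rpow_one u]
    rw [← Real.rpow_add hu0]
    congr 1
    field_simp
    rw [hedef]
    ring
  have h2k : (1 : ℝ) ≤ 2 ^ k := one_le_pow₀ (by norm_num)
  have hK0 : 0 ≤ K := by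
    have := hS.rad 1 1 le_rfl le_rfl
    rw [Real.one_rpow, mul_one] at this
    exact le_trans (Nat.cast_nonneg _) this
  have hmem : ∀ p ∈ sc k S, p ∈ S ∧ (2 : ℝ) ^ k ≤ p.2 ∧ p.2 < (2 : ℝ) ^ (k + 1) := by
    intro p hp
    simp only [sc, Finset.mem_filter] at hp
    exact hp
  set j : P d → ℕ := fun p => ⌊(p.2 - 2 ^ k) / L⌋₊ with hj
  have hjle : ∀ p ∈ sc k S, (j p : ℝ) * L ≤ p.2 - 2 ^ k := by
    intro p hp
    have := Nat.floor_le (show 0 ≤ (p.2 - 2 ^ k) / L from
      div_nonneg (by linarith [(hmem p hp).2.1]) hL0.le)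
    rwa [le_div_iff₀ hL0] at this
  have hjlt : ∀ p, p.2 - 2 ^ k < ((j p : ℝ) + 1) * L := by
    intro p
    have := Nat.lt_floor_add_one ((p.2 - 2 ^ k) / L)
    rwa [div_lt_iff₀ hL0] at this
  -- the bound for one parity
  have key : ∀ b : ℕ, ‖∑ p ∈ (sc k S).filter (fun p => j p % 2 = b), γ p • v p‖ ^ 2 ≤
      (C0 * (|K| * 2 ^ (d - 1) + Cf)) * u ^ (α / e) * 2 ^ (k * (d - 1)) *
        (((sc k S).filter (fun p => j p % 2 = b)).card : ℝ) := by
    intro b
    set A := (sc k S).filter (fun p => j p % 2 = b) with hA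
    have hAm : ∀ p ∈ A, p ∈ sc k S := fun p hp => (Finset.mem_filter.1 hp).1
    have hAb : ∀ p ∈ A, j p % 2 = b := fun p hp => (Finset.mem_filter.1 hp).2
    have h1 := l2_block A j (fun p => γ p • v p) (C0 * 2 ^ (k * (d - 1)) * (Cf * u * L ^ (1 - nu d)))
      ((K * L ^ α) * (C0 * (2 * 2 ^ k) ^ (d - 1))) ?_ ?_
    · refine h1.trans (le_of_eq ?_)
      rw [mul_assoc Cf, hLν, hLα, abs_of_nonneg hK0, mul_pow, ← pow_mul]
      ring
    · intro p hp
      have hp' := hAm p hp
      calc ∑ q ∈ A.filter (fun q => j q ≠ j p), ‖(inner ℂ (γ p • v p) (γ q • v q) : ℂ)‖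
          ≤ ∑ q ∈ A.filter (fun q => j q ≠ j p), C0 * 2 ^ (k * (d - 1)) *
              ((1 + dist p q) ^ (-nu d) / (1 + dist p q / 2 ^ k) ^ (d + 2)) := by
            refine Finset.sum_le_sum fun q hq => ?_
            have hq' := hAm q (Finset.mem_filter.1 hq).1
            rw [inner_smul_left, inner_smul_right, norm_mul, norm_mul, RCLike.norm_conj]
            have h3 := hv.same (2 ^ k) h2k p q (hmem p hp').2.1
              (by have := (hmem p hp').2.2.le; rw [pow_succ] at this; linarith)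
              (hmem q hq').2.1
              (by have := (hmem q hq').2.2.le; rw [pow_succ] at this; linarith)
            rw [← pow_mul] at h3
            calc ‖γ p‖ * (‖γ q‖ * ‖(inner ℂ (v p) (v q) : ℂ)‖)
                ≤ 1 * (1 * ‖(inner ℂ (v p) (v q) : ℂ)‖) := by
                  gcongr
                  · exact hγ p
                  · exact hγ q
              _ ≤ _ := by
                  rw [one_mul, one_mul]
                  refine h3.trans (le_of_eq ?_)
                  ring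
        _ ≤ ∑ q ∈ far (sc k S) p L, C0 * 2 ^ (k * (d - 1)) *
              ((1 + dist p q) ^ (-nu d) / (1 + dist p q / 2 ^ k) ^ (d + 2)) := by
            refine Finset.sum_le_sum_of_subset_of_nonneg ?_ fun q _ _ => by positivity
            intro q hq
            obtain ⟨hqA, hqj⟩ := Finset.mem_filter.1 hq
            have hq' := hAm q hqA
            simp only [far, Finset.mem_filter]
            refine ⟨hq', ?_⟩
            have h4 : |q.2 - p.2| ≤ dist q p := by
              rw [Prod.dist_eq, ← Real.dist_eq]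
              exact le_max_right _ _
            refine le_trans ?_ h4
            have h5 : j p % 2 = j q % 2 := (hAb p hp).trans (hAb q hqA).symm
            rcases lt_or_gt_of_ne hqj with h6 | h6
            · have h7 : j q + 2 ≤ j p := by omega
              have h8 : ((j q : ℝ) + 2) ≤ j p := by exact_mod_cast h7
              have h9 := hjlt q
              have h10 := hjle p hp'
              have h11 : ((j q : ℝ) + 2) * L ≤ j p * L := mul_le_mul_of_nonneg_right h8 hL0.le
              rw [abs_sub_comm]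
              refine le_trans ?_ (le_abs_self _)
              nlinarith
            · have h7 : j p + 2 ≤ j q := by omega
              have h8 : ((j p : ℝ) + 2) ≤ j q := by exact_mod_cast h7
              have h9 := hjlt p
              have h10 := hjle q hq'
              have h11 : ((j p : ℝ) + 2) * L ≤ j q * L := mul_le_mul_of_nonneg_right h8 hL0.le
              refine le_trans ?_ (le_abs_self _)
              nlinarith
        _ ≤ C0 * 2 ^ (k * (d - 1)) * (Cf * u * L ^ (1 - nu d)) := by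
            rw [← Finset.mul_sum]
            have := hfar k u S hu0.le hdens p hp' L hL1
            gcongr
    · intro i
      set T := A.filter (fun p => j p = i) with hT
      have hTm : ∀ p ∈ T, p ∈ sc k S := fun p hp => hAm p (Finset.mem_filter.1 hp).1
      have hTj : ∀ p ∈ T, j p = i := fun p hp => (Finset.mem_filter.1 hp).2
      refine l2_diag hv T (fun p hp q hq => hS.sep p (hmem p (hTm p hp)).1 q
        (hmem q (hTm q hq)).1) (2 * 2 ^ k) (fun p hp => hS.one_le p (hmem p (hTm p hp)).1)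
        (fun p hp => ?_) (K * L ^ α) ?_ γ hγ
      · have := (hmem p (hTm p hp)).2.2.le
        rw [pow_succ] at this
        linarith
      · -- the number of radii
        have hnc : ∀ a D : ℝ, 1 ≤ D → D ≤ a → (∀ p ∈ T, a ≤ p.2 ∧ p.2 ≤ a + D) →
            ((T.image Prod.snd).card : ℝ) ≤ K * D ^ α := by
          intro a D h1 h2 h3
          refine le_trans ?_ (hS.rad a D h1 h2)
          have hfin : ({r : ℝ | (∃ p ∈ S, p.2 = r) ∧ a ≤ r ∧ r ≤ a + D}).Finite := by
            refine (S.image Prod.snd).finite_toSet.subset ?_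
            rintro r ⟨⟨p, hp, rfl⟩, -⟩
            exact Finset.mem_coe.2 (Finset.mem_image_of_mem _ hp)
          rw [Nat.cast_le, ← Set.ncard_coe_finset]
          refine Set.ncard_le_ncard ?_ hfin
          intro r hr
          obtain ⟨p, hp, rfl⟩ := Finset.mem_image.1 (Finset.mem_coe.1 hr)
          exact ⟨⟨p, (hmem p (hTm p hp)).1, rfl⟩, h3 p hp⟩
        by_cases hLk : L ≤ 2 ^ k
        · refine hnc (2 ^ k + i * L) L hL1 ?_ fun p hp => ⟨?_, ?_⟩
          · have : 0 ≤ (i : ℝ) * L := by positivity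
            linarith
          · have := hjle p (hTm p hp)
            rw [hTj p hp] at this
            linarith
          · have := hjlt p
            rw [hTj p hp] at this
            linarith
        · push Not at hLk
          refine (hnc (2 ^ k) (2 ^ k) h2k le_rfl fun p hp => ⟨(hmem p (hTm p hp)).2.1, ?_⟩).trans ?_
          · have := (hmem p (hTm p hp)).2.2.le
            rw [pow_succ] at this
            linarith
          · gcongr
  -- both parities
  have hpar : ∑ p ∈ sc k S, γ p • v p =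
      ∑ p ∈ (sc k S).filter (fun p => j p % 2 = 0), γ p • v p +
      ∑ p ∈ (sc k S).filter (fun p => j p % 2 = 1), γ p • v p := by
    rw [← Finset.sum_filter_add_sum_filter_not (sc k S) (fun p => j p % 2 = 0)]
    congr 1
    refine Finset.sum_congr ?_ fun _ _ => rfl
    refine Finset.filter_congr fun p _ => ?_
    omega
  have hcard : (((sc k S).filter (fun p => j p % 2 = 0)).card : ℝ) +
      (((sc k S).filter (fun p => j p % 2 = 1)).card : ℝ) = ((sc k S).card : ℝ) := by
    have h1 := Finset.card_filter_add_card_filter_not (s := sc k S) (fun p => j p % 2 = 0)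
    have h2 : (sc k S).filter (fun p => ¬ j p % 2 = 0) =
        (sc k S).filter (fun p => j p % 2 = 1) := by
      refine Finset.filter_congr fun p _ => ?_
      omega
    rw [h2] at h1
    exact_mod_cast h1
  rw [hpar]
  set X := ∑ p ∈ (sc k S).filter (fun p => j p % 2 = 0), γ p • v p
  set Y := ∑ p ∈ (sc k S).filter (fun p => j p % 2 = 1), γ p • v p
  have hXY : ‖X + Y‖ ^ 2 ≤ 2 * ‖X‖ ^ 2 + 2 * ‖Y‖ ^ 2 := by
    have h1 := norm_add_le X Y
    have h2 : ‖X + Y‖ ^ 2 ≤ (‖X‖ + ‖Y‖) ^ 2 := pow_le_pow_left₀ (norm_nonneg _) h1 2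
    nlinarith [sq_nonneg (‖X‖ - ‖Y‖)]
  refine hXY.trans ?_
  rw [← hcard]
  have h1 := key 0
  have h2 := key 1
  nlinarith

end Pool.LibSR53
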