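import Pool.Agent.LibSR53.Defs

/-
PLAN (S1). E d with d >= 2, sg d 1 = (mu_H[d-1]).restrict (sphere 0 1).
Finite: the unit sphere is a subset of the image of the boundary of the cube [-1,1]^d under a Lipschitz map
x |-> x / norm x (Lipschitz on {norm x >= 1}: norm(x/|x| - y/|y|) <= 2 |x-y| / |x|, even constant 2), and the
boundary of the cube is the union of the 2d faces, each the image of the cube of Fin (d-1) -> R under a Lipschitz
map (Fin.insertNth i (+-1), then WithLp.toLp 2; LipschitzWith sqrt d, see EuclideanSpace / PiLp.lipschitzWith..),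
and mu_H[d-1] of [-1,1]^(d-1) is finite by MeasureTheory.hausdorffMeasure_pi_real (= volume on Fin (d-1) -> R).
Tools: LipschitzOnWith.hausdorffMeasure_image_le, measure_biUnion_lt_top / measure_iUnion_le.
Alternative for the covering: every omega in the sphere = x/|x| with x = omega / max|omega_i| on a face.
Positive: the map (drop coordinate 0) E d -> (Fin (d-1) -> R) is 1-Lipschitz, the image of the sphere contains
{z : sum z_i^2 <= 1}, which contains a sup-ball of radius 1/d, of positive volume; use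
LipschitzOnWith.hausdorffMeasure_image_le again (mu_H(image) <= mu_H(sphere)).
Write d = n+1+1 (obtain from hd) so that (d:R)-1 = Fintype.card (Fin (n+1)) as reals; push_cast.
-/

set_option autoImplicit false

noncomputable section

open MeasureTheory Metric Set Filter

namespace Pool.LibSR53

private theorem s1_univ (d : ℕ) :
    sg d 1 univ = Measure.hausdorffMeasure ((d : ℝ) - 1) (sphere (0 : E d) 1) := by
  rw [sg, Measure.restrict_apply MeasurableSet.univ, univ_inter]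

private theorem s1_exp (n : ℕ) :
    (((n + 2 : ℕ) : ℝ) - 1) = ((Fintype.card (Fin (n + 1)) : ℕ) : ℝ) := by
  rw [Fintype.card_fin]
  push_cast
  ring

/-- the face map -/
private def s1_face (n : ℕ) (i : Fin (n + 2)) (ε : ℝ) (z : Fin (n + 1) → ℝ) : E (n + 2) :=
  WithLp.toLp 2 (i.insertNth ε z : Fin (n + 2) → ℝ)

private theorem s1_face_lip (n : ℕ) (i : Fin (n + 2)) (ε : ℝ) :
    ∃ K : NNReal, LipschitzWith K (s1_face n i ε) := by
  have h1 : LipschitzWith 1 (fun z : Fin (n + 1) → ℝ => (i.insertNth ε z : Fin (n + 2) → ℝ)) := by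
    refine LipschitzWith.of_dist_le_mul (fun z z' => ?_)
    rw [NNReal.coe_one, one_mul, dist_pi_le_iff dist_nonneg]
    rw [Fin.forall_iff_succAbove i]
    refine ⟨?_, fun j => ?_⟩
    · rw [Fin.insertNth_apply_same, Fin.insertNth_apply_same, dist_self]
      exact dist_nonneg
    · rw [Fin.insertNth_apply_succAbove, Fin.insertNth_apply_succAbove]
      exact dist_le_pi_dist z z' j
  exact ⟨_, (PiLp.lipschitzWith_toLp 2 (fun _ : Fin (n + 2) => ℝ)).comp h1⟩

private theorem s1_norm_lip (n : ℕ) :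
    LipschitzOnWith 2 (fun x : E n => ‖x‖⁻¹ • x) {x | 1 ≤ ‖x‖} := by
  refine LipschitzOnWith.of_dist_le_mul (fun x hx y hy => ?_)
  have hx1 : 1 ≤ ‖x‖ := hx
  have hy1 : 1 ≤ ‖y‖ := hy
  have hx0 : 0 < ‖x‖ := lt_of_lt_of_le one_pos hx1
  have hy0 : 0 < ‖y‖ := lt_of_lt_of_le one_pos hy1
  have e1 : ‖x‖⁻¹ • x - ‖y‖⁻¹ • y = ‖x‖⁻¹ • (x - y) + (‖x‖⁻¹ - ‖y‖⁻¹) • y := by
    rw [smul_sub, sub_smul]
    abel
  have e2 : |‖x‖⁻¹ - ‖y‖⁻¹| * ‖y‖ ≤ ‖x - y‖ := by
    have e3 : ‖x‖⁻¹ - ‖y‖⁻¹ = (‖y‖ - ‖x‖) / (‖x‖ * ‖y‖) := by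
      field_simp
    rw [e3, abs_div, abs_of_pos (mul_pos hx0 hy0), div_mul_eq_mul_div, div_le_iff₀ (mul_pos hx0 hy0)]
    have e4 : |‖y‖ - ‖x‖| ≤ ‖x - y‖ := by
      rw [abs_sub_comm]
      exact abs_norm_sub_norm_le x y
    nlinarith [mul_le_mul_of_nonneg_right e4 hy0.le, norm_nonneg (x - y),
      mul_nonneg (norm_nonneg (x - y)) hy0.le, mul_nonneg (mul_nonneg (norm_nonneg (x - y)) hy0.le)
        (sub_nonneg.2 hx1)]
  have e5 : ‖x‖⁻¹ * ‖x - y‖ ≤ ‖x - y‖ :=
    mul_le_of_le_one_left (norm_nonneg _) (inv_le_one_of_one_le₀ hx1)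
  rw [dist_eq_norm, dist_eq_norm, e1]
  calc ‖‖x‖⁻¹ • (x - y) + (‖x‖⁻¹ - ‖y‖⁻¹) • y‖
      ≤ ‖‖x‖⁻¹ • (x - y)‖ + ‖(‖x‖⁻¹ - ‖y‖⁻¹) • y‖ := norm_add_le _ _
    _ = ‖x‖⁻¹ * ‖x - y‖ + |‖x‖⁻¹ - ‖y‖⁻¹| * ‖y‖ := by
        rw [norm_smul, norm_smul, Real.norm_eq_abs, Real.norm_eq_abs, abs_of_pos (inv_pos.2 hx0)]
    _ ≤ ((2 : NNReal) : ℝ) * ‖x - y‖ := by
        rw [NNReal.coe_ofNat]
        linarith

private theorem s1_face_norm (n : ℕ) (i : Fin (n + 2)) {ε : ℝ} (hε : |ε| = 1)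
    (z : Fin (n + 1) → ℝ) : 1 ≤ ‖s1_face n i ε z‖ := by
  have h1 := PiLp.norm_apply_le (s1_face n i ε z) i
  have h2 : (s1_face n i ε z) i = ε := by
    simp [s1_face]
  rw [h2, Real.norm_eq_abs, hε] at h1
  exact h1

/-- the unit sphere has finite surface measure -/
theorem sg_one_finite (d : ℕ) (hd : 2 ≤ d) : sg d 1 univ < ⊤ := by
  obtain ⟨n, rfl⟩ : ∃ n, d = n + 2 := ⟨d - 2, by omega⟩
  rw [s1_univ]
  let Q : Set (Fin (n + 1) → ℝ) := Icc (fun _ => -1) (fun _ => 1)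
  let ε : Bool → ℝ := fun b => if b then 1 else -1
  have hε : ∀ b, |ε b| = 1 := by
    intro b
    cases b <;> simp [ε]
  have hQ : volume Q < ⊤ := isCompact_Icc.measure_lt_top
  have hcov : sphere (0 : E (n + 2)) 1 ⊆ ⋃ p : Fin (n + 2) × Bool,
      (fun x : E (n + 2) => ‖x‖⁻¹ • x) '' (s1_face n p.1 (ε p.2) '' Q) := by
    intro ω hω
    have hω1 : ‖ω‖ = 1 := by simpa using hω
    obtain ⟨i, hi⟩ := Finite.exists_max (fun i => |ω i|)
    have hm : 0 < |ω i| := by
      by_contra h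
      have h1 : ω = 0 := by
        ext j
        have h2 := hi j
        have h3 : |ω j| ≤ 0 := le_trans h2 (not_lt.1 h)
        simpa using abs_nonpos_iff.1 h3
      rw [h1, norm_zero] at hω1
      exact zero_ne_one hω1
    set m := |ω i| with hmdef
    let b : Bool := decide (0 ≤ ω i)
    have hb : m⁻¹ * ω i = ε b := by
      by_cases h : 0 ≤ ω i
      · have h1 : m = ω i := abs_of_nonneg h
        have h2 : ε b = 1 := by simp [ε, b, h]
        rw [h2, ← h1]
        exact inv_mul_cancel₀ hm.ne'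
      · have h1 : ω i = -m := by
          rw [hmdef, abs_of_neg (not_le.1 h), neg_neg]
        have h2 : ε b = -1 := by simp [ε, b, h]
        rw [h2, h1, mul_neg, inv_mul_cancel₀ hm.ne']
    refine mem_iUnion.2 ⟨(i, b), ?_⟩
    let z : Fin (n + 1) → ℝ := fun j => m⁻¹ * ω (i.succAbove j)
    have hz : z ∈ Q := by
      have h1 : ∀ j, |z j| ≤ 1 := by
        intro j
        rw [abs_mul, abs_of_pos (inv_pos.2 hm), inv_mul_le_iff₀ hm, mul_one]
        exact hi _
      exact ⟨fun j => (abs_le.1 (h1 j)).1, fun j => (abs_le.1 (h1 j)).2⟩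
    have hf : s1_face n i (ε b) z = m⁻¹ • ω := by
      ext j
      rw [s1_face]
      show (i.insertNth (ε b) z : Fin (n + 2) → ℝ) j = m⁻¹ * ω j
      refine Fin.succAboveCases i ?_ (fun k => ?_) j
      · rw [Fin.insertNth_apply_same, hb]
      · rw [Fin.insertNth_apply_succAbove]
    refine ⟨_, ⟨z, hz, rfl⟩, ?_⟩
    show ‖s1_face n i (ε b) z‖⁻¹ • s1_face n i (ε b) z = ω
    rw [hf, norm_smul, hω1, mul_one, Real.norm_eq_abs, abs_of_pos (inv_pos.2 hm), inv_inv,
      smul_smul, mul_inv_cancel₀ hm.ne', one_smul]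
  refine lt_of_le_of_lt (measure_mono hcov) ?_
  refine lt_of_le_of_lt (measure_iUnion_le _) ?_
  rw [tsum_fintype]
  refine ENNReal.sum_lt_top.2 (fun p _ => ?_)
  obtain ⟨K, hK⟩ := s1_face_lip n p.1 (ε p.2)
  have hnn : 0 ≤ (((n + 2 : ℕ) : ℝ) - 1) := by
    rw [s1_exp]
    exact Nat.cast_nonneg _
  have h1 : LipschitzOnWith 2 (fun x : E (n + 2) => ‖x‖⁻¹ • x) (s1_face n p.1 (ε p.2) '' Q) := by
    refine (s1_norm_lip (n + 2)).mono ?_
    rintro _ ⟨z, -, rfl⟩
    exact s1_face_norm n p.1 (hε p.2) z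
  refine lt_of_le_of_lt (h1.hausdorffMeasure_image_le hnn) ?_
  refine ENNReal.mul_lt_top (ENNReal.rpow_lt_top_of_nonneg hnn ENNReal.coe_ne_top) ?_
  refine lt_of_le_of_lt (hK.hausdorffMeasure_image_le hnn Q) ?_
  refine ENNReal.mul_lt_top (ENNReal.rpow_lt_top_of_nonneg hnn ENNReal.coe_ne_top) ?_
  rw [s1_exp, hausdorffMeasure_pi_real]
  exact hQ

/-- the unit sphere has positive surface measure -/
theorem sg_one_pos (d : ℕ) (hd : 2 ≤ d) : 0 < sg d 1 univ := by
  obtain ⟨n, rfl⟩ : ∃ n, d = n + 2 := ⟨d - 2, by omega⟩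
  rw [s1_univ]
  let π : E (n + 2) → (Fin (n + 1) → ℝ) := fun x j => x j.succ
  have hπ : LipschitzWith 1 π := by
    refine LipschitzWith.of_dist_le_mul (fun x y => ?_)
    rw [NNReal.coe_one, one_mul, dist_pi_le_iff dist_nonneg]
    intro j
    rw [Real.dist_eq, dist_eq_norm]
    exact PiLp.norm_apply_le (x - y) j.succ
  have hnn : 0 ≤ (((n + 2 : ℕ) : ℝ) - 1) := by
    rw [s1_exp]
    exact Nat.cast_nonneg _
  have hn : (0 : ℝ) < (n : ℝ) + 2 := by positivity
  have hsub : ball (0 : Fin (n + 1) → ℝ) (1 / ((n : ℝ) + 2)) ⊆ π '' sphere (0 : E (n + 2)) 1 := by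
    intro z hz
    have hz1 : ∀ j, |z j| ≤ 1 / ((n : ℝ) + 2) := by
      intro j
      have h1 := (dist_le_pi_dist z 0 j).trans (mem_ball.1 hz).le
      rwa [Pi.zero_apply, Real.dist_eq, sub_zero] at h1
    have hsum : ∑ j, z j ^ 2 ≤ 1 := by
      calc ∑ j, z j ^ 2 ≤ ∑ _j : Fin (n + 1), (1 / ((n : ℝ) + 2)) := by
            refine Finset.sum_le_sum (fun j _ => ?_)
            rw [← sq_abs]
            have h1 : 1 / ((n : ℝ) + 2) ≤ 1 := by
              rw [div_le_one hn]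
              linarith [(Nat.cast_nonneg n : (0 : ℝ) ≤ n)]
            nlinarith [hz1 j, abs_nonneg (z j)]
        _ = ((n : ℝ) + 1) * (1 / ((n : ℝ) + 2)) := by
            rw [Finset.sum_const, Finset.card_univ, Fintype.card_fin, nsmul_eq_mul]
            push_cast
            ring
        _ ≤ 1 := by
            rw [mul_one_div, div_le_one hn]
            linarith
    refine ⟨WithLp.toLp 2 (Fin.cons (Real.sqrt (1 - ∑ j, z j ^ 2)) z : Fin (n + 2) → ℝ), ?_, ?_⟩
    · rw [mem_sphere_zero_iff_norm, EuclideanSpace.norm_eq, Real.sqrt_eq_one, Fin.sum_univ_succ]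
      simp only [Fin.cons_zero, Fin.cons_succ, Real.norm_eq_abs, sq_abs]
      rw [Real.sq_sqrt (sub_nonneg.2 hsum)]
      ring
    · funext j
      show (Fin.cons (Real.sqrt (1 - ∑ j, z j ^ 2)) z : Fin (n + 2) → ℝ) j.succ = z j
      rw [Fin.cons_succ]
  have h1 := hπ.hausdorffMeasure_image_le hnn (sphere (0 : E (n + 2)) 1)
  rw [ENNReal.coe_one, ENNReal.one_rpow, one_mul] at h1
  refine lt_of_lt_of_le ?_ h1
  refine lt_of_lt_of_le ?_ (measure_mono hsub)
  rw [s1_exp, hausdorffMeasure_pi_real]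
  exact measure_ball_pos volume _ (by positivity)

end Pool.LibSR53
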