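import Pool.Agent.LibSR53.S1
import Pool.Agent.LibSR53.S2

/-
PLAN (S3). sg d 1 is finite (S1), supported on the unit sphere, invariant under linear isometries (S2: sg_map).
Fix the unit vector e0 = EuclideanSpace.single 0 1 (d >= 2). J t = int cos(t <zeta,e0>), J1 t = - int <zeta,e0> sin(t <zeta,e0>),
J2 t = - int <zeta,e0>^2 cos(t <zeta,e0>) (hasDerivAt_integral_of_dominated_loc_of_deriv_le, integrands bounded by 1 because
|<zeta,e0>| <= 1 a.e.: ae_restrict_mem of the sphere). Independence of e: for unit vectors e, e0 there is a linear isometry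
equivalence U with U e0 = e (for instance a reflection: reflection in the orthogonal complement of e - e0;
Mathlib: reflection_sub / `exists ... LinearIsometryEquiv`), then integral_map.
ODE. Let b = another vector of the standard basis, U_theta = rotation in the plane (e0,b) (define it as a
LinearIsometryEquiv; or only use the function h: the integral of h(U_theta zeta) does not depend on theta). With
h(zeta) = <zeta,b> sin(t <zeta,e0>): d/dtheta at 0 of the integral gives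
   int <zeta,e0> sin(t<zeta,e0>) = t int <zeta,b>^2 cos(t<zeta,e0>)      (*)
Sum (*) over the d-1 basis vectors b /= e0 and use sum_i zeta_i^2 = 1 on the sphere:
   (d-1) int zeta_0 sin(t zeta_0) = t int (1 - zeta_0^2) cos(t zeta_0), that is -(d-1) J1 = t (J + J2). (2 nu = d-1.)
In coordinates: <zeta,e0> = zeta 0, <zeta,b> = zeta i. The rotation: (U zeta) 0 = c zeta_0 + s zeta_i,
(U zeta) i = - s zeta_0 + c zeta_i, other coordinates unchanged.
-/

set_option autoImplicit false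

noncomputable section

open MeasureTheory Metric Set Filter

namespace Pool.LibSR53

private lemma S3_fin (d : ℕ) (hd : 2 ≤ d) : IsFiniteMeasure (sg d 1) := ⟨sg_one_finite d hd⟩

private lemma S3_ae (d : ℕ) : ∀ᵐ ζ ∂(sg d 1), ‖ζ‖ = 1 := by
  unfold sg
  filter_upwards [ae_restrict_mem (isClosed_sphere (x := (0 : E d)) (ε := 1)).measurableSet]
    with ζ hζ
  exact mem_sphere_zero_iff_norm.1 hζ

private lemma S3_int (d : ℕ) (hd : 2 ≤ d) {f : E d → ℝ} (hf : Continuous f) :
    Integrable f (sg d 1) := by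
  have := S3_fin d hd
  obtain ⟨C, hC⟩ := (isCompact_sphere (0 : E d) 1).exists_bound_of_continuousOn hf.continuousOn
  refine Integrable.of_bound hf.aestronglyMeasurable C ?_
  filter_upwards [S3_ae d] with ζ hζ
  exact hC ζ (mem_sphere_zero_iff_norm.2 hζ)

private lemma S3_comp (d : ℕ) (U : E d ≃ₗᵢ[ℝ] E d) (f : E d → ℝ) :
    ∫ ζ, f (U ζ) ∂(sg d 1) = ∫ ζ, f ζ ∂(sg d 1) := by
  have h := U.toHomeomorph.measurableEmbedding.integral_map (μ := sg d 1) f
  have h1 : (sg d 1).map (U.toHomeomorph : E d → E d) = sg d 1 := sg_map d 1 U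
  rw [h1] at h
  exact h.symm

private lemma S3_der (d : ℕ) (hd : 2 ≤ d) {f f' : ℝ → E d → ℝ} (hf : ∀ x, Continuous (f x))
    (hf' : ∀ x, Continuous (f' x)) (C : ℝ) (hC : ∀ x a, ‖a‖ = 1 → |f' x a| ≤ C)
    (hder : ∀ x a, HasDerivAt (fun y => f y a) (f' x a) x) (x₀ : ℝ) :
    HasDerivAt (fun x => ∫ ζ, f x ζ ∂(sg d 1)) (∫ ζ, f' x₀ ζ ∂(sg d 1)) x₀ := by
  have := S3_fin d hd
  refine (hasDerivAt_integral_of_dominated_loc_of_deriv_le (F' := f') (bound := fun _ => C)
    (s := univ) univ_mem ?_ (S3_int d hd (hf x₀)) (hf' x₀).aestronglyMeasurable ?_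
    (integrable_const C) ?_).2
  · exact Eventually.of_forall fun x => (hf x).aestronglyMeasurable
  · filter_upwards [S3_ae d] with ζ hζ x _
    exact hC x ζ hζ
  · exact Eventually.of_forall fun ζ x _ => hder x ζ

private lemma S3_abs {d : ℕ} {a e : E d} (ha : ‖a‖ = 1) (he : ‖e‖ = 1) :
    |(inner ℝ a e : ℝ)| ≤ 1 := by
  have h := abs_real_inner_le_norm a e
  rwa [ha, he, mul_one] at h

/-- an odd integral vanishes -/
private lemma S3_odd (d : ℕ) {e b : E d} (heb : inner ℝ e b = 0)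
    (t : ℝ) : ∫ ζ, inner ℝ ζ b * Real.sin (t * inner ℝ ζ e) ∂(sg d 1) = 0 := by
  let U : E d ≃ₗᵢ[ℝ] E d := Submodule.reflection (Submodule.span ℝ {b})ᗮ
  have hUb : U b = -b := Submodule.reflection_orthogonalComplement_singleton_eq_neg b
  have hUe : U e = e := by
    apply Submodule.reflection_mem_subspace_eq_self
    rw [Submodule.mem_orthogonal_singleton_iff_inner_left]
    exact heb
  have h := S3_comp d U (fun ζ => inner ℝ ζ b * Real.sin (t * inner ℝ ζ e))
  have h1 : ∀ ζ : E d, inner ℝ (U ζ) b = -(inner ℝ ζ b : ℝ) := by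
    intro ζ
    have h2 : b = U (-b) := by rw [map_neg, hUb, neg_neg]
    rw [h2, U.inner_map_map, ← h2, inner_neg_right]
  have h2 : ∀ ζ : E d, inner ℝ (U ζ) e = (inner ℝ ζ e : ℝ) := by
    intro ζ
    conv_lhs => rw [← hUe]
    rw [U.inner_map_map]
  simp only [h1, h2, neg_mul] at h
  rw [integral_neg] at h
  linarith

/-- the rotation identity -/
private lemma S3_key (d : ℕ) (hd : 2 ≤ d) {e b : E d} (he : ‖e‖ = 1) (hb : ‖b‖ = 1)
    (heb : inner ℝ e b = 0) (t : ℝ) :
    ∫ ζ, inner ℝ ζ e * Real.sin (t * inner ℝ ζ e) ∂(sg d 1) =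
      t * ∫ ζ, (inner ℝ ζ b) ^ 2 * Real.cos (t * inner ℝ ζ e) ∂(sg d 1) := by
  have hee : inner ℝ e e = (1 : ℝ) := by rw [real_inner_self_eq_norm_sq, he]; norm_num
  have hbb : inner ℝ b b = (1 : ℝ) := by rw [real_inner_self_eq_norm_sq, hb]; norm_num
  have hbe : inner ℝ b e = (0 : ℝ) := by rw [real_inner_comm]; exact heb
  let eθ : ℝ → E d := fun θ => Real.cos θ • e + Real.sin θ • b
  let bθ : ℝ → E d := fun θ => -Real.sin θ • e + Real.cos θ • b
  have hIe : ∀ θ (ζ : E d), inner ℝ ζ (eθ θ) =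
      Real.cos θ * inner ℝ ζ e + Real.sin θ * inner ℝ ζ b := by
    intro θ ζ
    simp only [eθ, inner_add_right, inner_smul_right]
  have hIb : ∀ θ (ζ : E d), inner ℝ ζ (bθ θ) =
      -Real.sin θ * inner ℝ ζ e + Real.cos θ * inner ℝ ζ b := by
    intro θ ζ
    simp only [bθ, inner_add_right, inner_smul_right]
  have hne : ∀ θ, ‖eθ θ‖ = 1 := by
    intro θ
    have h1 : inner ℝ (eθ θ) (eθ θ) = (1 : ℝ) := by
      rw [hIe θ (eθ θ), real_inner_comm e, real_inner_comm b]
      simp only [eθ, inner_add_right, inner_smul_right, hee, hbb, heb, hbe]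
      have := Real.sin_sq_add_cos_sq θ
      nlinarith
    rw [real_inner_self_eq_norm_sq] at h1
    nlinarith [norm_nonneg (eθ θ)]
  have hnb : ∀ θ, ‖bθ θ‖ = 1 := by
    intro θ
    have h1 : inner ℝ (bθ θ) (bθ θ) = (1 : ℝ) := by
      rw [hIb θ (bθ θ), real_inner_comm e, real_inner_comm b]
      simp only [bθ, inner_add_right, inner_smul_right, hee, hbb, heb, hbe]
      have := Real.sin_sq_add_cos_sq θ
      nlinarith
    rw [real_inner_self_eq_norm_sq] at h1
    nlinarith [norm_nonneg (bθ θ)]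
  have heb' : ∀ θ, inner ℝ (eθ θ) (bθ θ) = (0 : ℝ) := by
    intro θ
    rw [hIb θ (eθ θ), real_inner_comm e, real_inner_comm b]
    simp only [eθ, inner_add_right, inner_smul_right, hee, hbb, heb, hbe]
    ring
  let f : ℝ → E d → ℝ := fun θ ζ => inner ℝ ζ (bθ θ) * Real.sin (t * inner ℝ ζ (eθ θ))
  let f' : ℝ → E d → ℝ := fun θ ζ => -inner ℝ ζ (eθ θ) * Real.sin (t * inner ℝ ζ (eθ θ)) +
    inner ℝ ζ (bθ θ) * (Real.cos (t * inner ℝ ζ (eθ θ)) * (t * inner ℝ ζ (bθ θ)))
  have hder : ∀ θ ζ, HasDerivAt (fun y => f y ζ) (f' θ ζ) θ := by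
    intro θ ζ
    have h1 : HasDerivAt (fun y => inner ℝ ζ (eθ y)) (inner ℝ ζ (bθ θ) : ℝ) θ := by
      simp only [hIe, hIb]
      exact ((Real.hasDerivAt_cos θ).mul_const _).add ((Real.hasDerivAt_sin θ).mul_const _)
    have h2 : HasDerivAt (fun y => inner ℝ ζ (bθ y)) (-inner ℝ ζ (eθ θ) : ℝ) θ := by
      simp only [hIe, hIb]
      have h3 := (((Real.hasDerivAt_sin θ).neg).mul_const (inner ℝ ζ e : ℝ)).add
        ((Real.hasDerivAt_cos θ).mul_const (inner ℝ ζ b : ℝ))
      have h4 : -(Real.cos θ * inner ℝ ζ e + Real.sin θ * inner ℝ ζ b) =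
        -Real.cos θ * inner ℝ ζ e + -Real.sin θ * inner ℝ ζ b := by ring
      rw [h4]
      exact h3
    exact h2.mul ((h1.const_mul t).sin)
  have h0 := S3_der d hd (f := f) (f' := f') (fun x => by fun_prop) (fun x => by fun_prop)
    (1 + |t|) (fun x a ha => by
      have ha1 := S3_abs ha (hne x)
      have ha2 := S3_abs ha (hnb x)
      have hs := Real.abs_sin_le_one (t * inner ℝ a (eθ x))
      have hc := Real.abs_cos_le_one (t * inner ℝ a (eθ x))
      refine (abs_add_le _ _).trans (add_le_add ?_ ?_)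
      · rw [abs_mul, abs_neg]
        exact mul_le_one₀ ha1 (abs_nonneg _) hs
      · rw [abs_mul, abs_mul, abs_mul]
        calc |(inner ℝ a (bθ x) : ℝ)| * (|Real.cos (t * inner ℝ a (eθ x))| *
              (|t| * |(inner ℝ a (bθ x) : ℝ)|)) ≤ 1 * (1 * (|t| * 1)) := by gcongr
          _ = |t| := by ring) hder 0
  have h1 : (fun x => ∫ ζ, f x ζ ∂(sg d 1)) = fun _ => (0 : ℝ) := by
    funext x
    exact S3_odd d (heb' x) t
  rw [h1] at h0
  have h2 := h0.unique (hasDerivAt_const (0 : ℝ) (0 : ℝ))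
  have h3 : ∀ ζ : E d, f' 0 ζ = t * ((inner ℝ ζ b) ^ 2 * Real.cos (t * inner ℝ ζ e)) -
      inner ℝ ζ e * Real.sin (t * inner ℝ ζ e) := by
    intro ζ
    have ha : eθ 0 = e := by simp [eθ]
    have hb' : bθ 0 = b := by simp [bθ]
    show -inner ℝ ζ (eθ 0) * Real.sin (t * inner ℝ ζ (eθ 0)) +
      inner ℝ ζ (bθ 0) * (Real.cos (t * inner ℝ ζ (eθ 0)) * (t * inner ℝ ζ (bθ 0))) = _
    rw [ha, hb']
    ring
  simp only [h3] at h2
  rw [integral_sub, integral_const_mul] at h2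
  · linarith
  · exact S3_int d hd (by fun_prop)
  · exact S3_int d hd (by fun_prop)

/-- the Fourier transform of the unit sphere as a function of one variable, with its Bessel
equation -/
theorem exists_J (d : ℕ) (hd : 2 ≤ d) : ∃ J J1 J2 : ℝ → ℝ,
    (∀ e : E d, ‖e‖ = 1 → ∀ t : ℝ, J t = ∫ ζ, Real.cos (t * inner ℝ ζ e) ∂(sg d 1)) ∧
    (∀ t, HasDerivAt J (J1 t) t) ∧ (∀ t, HasDerivAt J1 (J2 t) t) ∧
    (∀ t, t * J2 t + 2 * nu d * J1 t + t * J t = 0) := by
  let i0 : Fin d := ⟨0, by omega⟩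
  let e0 : E d := EuclideanSpace.single i0 1
  have he0 : ‖e0‖ = 1 := by simp [e0]
  refine ⟨fun t => ∫ ζ, Real.cos (t * inner ℝ ζ e0) ∂(sg d 1),
    fun t => ∫ ζ, -Real.sin (t * inner ℝ ζ e0) * inner ℝ ζ e0 ∂(sg d 1),
    fun t => ∫ ζ, -(Real.cos (t * inner ℝ ζ e0) * inner ℝ ζ e0) * inner ℝ ζ e0 ∂(sg d 1),
    ?_, ?_, ?_, ?_⟩
  · intro e he t
    let U : E d ≃ₗᵢ[ℝ] E d := Submodule.reflection (Submodule.span ℝ {e0 - e})ᗮ
    have hU : U e0 = e := Submodule.reflection_sub (he0.trans he.symm)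
    have h := S3_comp d U (fun ζ => Real.cos (t * inner ℝ ζ e))
    rw [← h]
    refine integral_congr_ae (Eventually.of_forall fun ζ => ?_)
    show Real.cos (t * inner ℝ ζ e0) = Real.cos (t * inner ℝ (U ζ) e)
    rw [← hU, U.inner_map_map]
  · intro t
    refine S3_der d hd (f := fun t ζ => Real.cos (t * inner ℝ ζ e0))
      (f' := fun t ζ => -Real.sin (t * inner ℝ ζ e0) * inner ℝ ζ e0)
      (fun x => by fun_prop) (fun x => by fun_prop) 1 ?_ ?_ t
    · intro x a ha
      rw [abs_mul, abs_neg]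
      exact mul_le_one₀ (Real.abs_sin_le_one _) (abs_nonneg _) (S3_abs ha he0)
    · intro x a
      have h := (hasDerivAt_mul_const (inner ℝ a e0 : ℝ) (x := x)).cos
      exact h
  · intro t
    refine S3_der d hd (f := fun t ζ => -Real.sin (t * inner ℝ ζ e0) * inner ℝ ζ e0)
      (f' := fun t ζ => -(Real.cos (t * inner ℝ ζ e0) * inner ℝ ζ e0) * inner ℝ ζ e0)
      (fun x => by fun_prop) (fun x => by fun_prop) 1 ?_ ?_ t
    · intro x a ha
      rw [abs_mul, abs_neg, abs_mul]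
      exact mul_le_one₀ (mul_le_one₀ (Real.abs_cos_le_one _) (abs_nonneg _) (S3_abs ha he0))
        (abs_nonneg _) (S3_abs ha he0)
    · intro x a
      have h := ((hasDerivAt_mul_const (inner ℝ a e0 : ℝ) (x := x)).sin.neg).mul_const
        (inner ℝ a e0 : ℝ)
      exact h
  · intro t
    have hz : ∀ (i : Fin d) (ζ : E d), inner ℝ ζ (EuclideanSpace.single i (1 : ℝ)) = ζ i := by
      intro i ζ
      rw [EuclideanSpace.inner_single_right]
      simp
    have hk : ∀ i ∈ Finset.univ.erase i0,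
        ∫ ζ, inner ℝ ζ e0 * Real.sin (t * inner ℝ ζ e0) ∂(sg d 1) =
        ∫ ζ, t * ((ζ i) ^ 2 * Real.cos (t * inner ℝ ζ e0)) ∂(sg d 1) := by
      intro i hi
      have hi0 : i ≠ i0 := Finset.ne_of_mem_erase hi
      have h := S3_key d hd (e := e0) (b := EuclideanSpace.single i 1) he0 (by simp) (by
        rw [hz i e0]
        simp [e0, hi0]) t
      rw [h, ← integral_const_mul]
      simp only [hz i]
    have hs := Finset.sum_congr rfl hk
    rw [Finset.sum_const, Finset.card_erase_of_mem (Finset.mem_univ i0), Finset.card_univ,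
      Fintype.card_fin, nsmul_eq_mul, Nat.cast_sub (by omega), Nat.cast_one,
      ← integral_finsetSum _ (fun i _ => S3_int d hd (by fun_prop))] at hs
    have h1 : ∫ ζ, ∑ i ∈ Finset.univ.erase i0, t * ((ζ i) ^ 2 * Real.cos (t * inner ℝ ζ e0))
        ∂(sg d 1) = ∫ ζ, (t * Real.cos (t * inner ℝ ζ e0) -
          t * (Real.cos (t * inner ℝ ζ e0) * inner ℝ ζ e0 * inner ℝ ζ e0)) ∂(sg d 1) := by
      refine integral_congr_ae ?_
      filter_upwards [S3_ae d] with ζ hζ
      have h2 : ∑ i, (ζ i) ^ 2 = 1 := by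
        rw [← EuclideanSpace.real_norm_sq_eq, hζ, one_pow]
      rw [← Finset.sum_erase_add _ _ (Finset.mem_univ i0)] at h2
      rw [← Finset.mul_sum, ← Finset.sum_mul]
      have h3 : ∑ i ∈ Finset.univ.erase i0, (ζ i) ^ 2 = 1 - (ζ i0) ^ 2 := by linarith
      rw [h3]
      have h4 : (inner ℝ ζ e0 : ℝ) = ζ i0 := hz i0 ζ
      rw [h4]
      ring
    rw [h1, integral_sub (S3_int d hd (by fun_prop)) (S3_int d hd (by fun_prop)),
      integral_const_mul, integral_const_mul] at hs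
    have h5 : ∫ ζ, -(Real.cos (t * inner ℝ ζ e0) * inner ℝ ζ e0) * inner ℝ ζ e0 ∂(sg d 1) =
        -∫ ζ, Real.cos (t * inner ℝ ζ e0) * inner ℝ ζ e0 * inner ℝ ζ e0 ∂(sg d 1) := by
      rw [← integral_neg]
      congr 1
      funext ζ
      ring
    have h6 : ∫ ζ, -Real.sin (t * inner ℝ ζ e0) * inner ℝ ζ e0 ∂(sg d 1) =
        -∫ ζ, inner ℝ ζ e0 * Real.sin (t * inner ℝ ζ e0) ∂(sg d 1) := by
      rw [← integral_neg]
      congr 1
      funext ζ
      ring
    show t * (∫ ζ, -(Real.cos (t * inner ℝ ζ e0) * inner ℝ ζ e0) * inner ℝ ζ e0 ∂(sg d 1)) +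
      2 * nu d * (∫ ζ, -Real.sin (t * inner ℝ ζ e0) * inner ℝ ζ e0 ∂(sg d 1)) +
      t * (∫ ζ, Real.cos (t * inner ℝ ζ e0) ∂(sg d 1)) = 0
    rw [h5, h6]
    unfold nu
    linarith

end Pool.LibSR53
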